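import Pool.Agent.SelTwo.Targets

/-!
# Stirling's formula for the complex Gamma function away from the real axis

`p_STIR : T_STIR`. The proof uses Gauss' product `Complex.GammaSeq_tendsto_Gamma` and the
telescoping identity `log z = g (z+1) - g z + dl z`, `g z = (z - 1/2) log z - z`, with
`dl z = O(1/|z|^2)` on `1 ≤ |Im z|`.
-/

set_option autoImplicit false

namespace Pool.Agent.SelTwo

open Complex Filter Topology

noncomputable section

namespace STIR_

/-- main term -/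
def g (z : ℂ) : ℂ := (z - 1 / 2) * log z - z

/-- one step error -/
def dl (z : ℂ) : ℂ := 1 - (z + 1 / 2) * (log (z + 1) - log z)

lemma step (z : ℂ) : log z = g (z + 1) - g z + dl z := by
  unfold g dl; ring

lemma prod_eq (z : ℂ) (hz : ∀ j : ℕ, z + j ≠ 0) (n : ℕ) :
    ∏ j ∈ Finset.range n, (z + j) =
      exp (g (z + n) - g z + ∑ j ∈ Finset.range n, dl (z + j)) := by
  induction n with
  | zero => simp
  | succ n ih =>
    rw [Finset.prod_range_succ, ih, Finset.sum_range_succ]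
    have h := step (z + n)
    have h' : exp (g (z + n + 1) - g (z + n) + dl (z + n)) = z + n := by
      rw [← h, exp_log (hz n)]
    calc exp (g (z + n) - g z + ∑ j ∈ Finset.range n, dl (z + j)) * (z + n)
        = exp (g (z + n) - g z + ∑ j ∈ Finset.range n, dl (z + j)) *
          exp (g (z + n + 1) - g (z + n) + dl (z + n)) := by rw [h']
      _ = _ := by
        rw [← exp_add]
        congr 1
        push_cast
        rw [← add_assoc z (n : ℂ) 1]
        ring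

lemma ne_zero_of_im {w : ℂ} (hw : w.im ≠ 0) : w ≠ 0 := by
  rintro rfl
  exact hw rfl

lemma log_add_one {w : ℂ} (hw : w.im ≠ 0) : log (w + 1) - log w = log (1 + 1 / w) := by
  have hw0 := ne_zero_of_im hw
  have him : (1 + 1 / w : ℂ).im = - w.im / normSq w := by
    simp [one_div, inv_im]
  have hns : 0 < normSq w := normSq_pos.2 hw0
  have hne : (1 + 1 / w : ℂ) ≠ 0 := by
    apply ne_zero_of_im
    rw [him]
    exact div_ne_zero (neg_ne_zero.2 hw) hns.ne'
  have hmul : w + 1 = w * (1 + 1 / w) := by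
    field_simp
  rw [hmul, log_mul hw0 hne]
  · ring
  · rcases lt_or_gt_of_ne hw with h | h
    · have h1 : arg w < 0 := arg_neg_iff.2 h
      have h2 : 0 ≤ arg (1 + 1 / w) := by
        rw [arg_nonneg_iff, him]
        exact div_nonneg (by linarith) hns.le
      have h3 := neg_pi_lt_arg w
      have h4 := arg_le_pi (1 + 1 / w)
      exact ⟨by linarith, by linarith⟩
    · have h1 : 0 ≤ arg w := arg_nonneg_iff.2 h.le
      have h2 : arg (1 + 1 / w) < 0 := by
        rw [arg_neg_iff, him]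
        exact div_neg_of_neg_of_pos (by linarith) hns
      have h3 := neg_pi_lt_arg (1 + 1 / w)
      have h4 := arg_le_pi w
      exact ⟨by linarith, by linarith⟩

/-- the bound for large `z` -/
lemma dl_large {z : ℂ} (hz : z.im ≠ 0) (h2 : 2 ≤ ‖z‖) : ‖dl z‖ ≤ 2 / ‖z‖ ^ 2 := by
  have hz0 := ne_zero_of_im hz
  have hzp : 0 < ‖z‖ := norm_pos_iff.2 hz0
  set w : ℂ := 1 / z with hw
  have hwn : ‖w‖ = 1 / ‖z‖ := by rw [hw, norm_div, norm_one]
  have hw2 : ‖w‖ ≤ 1 / 2 := by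
    rw [hwn]
    exact one_div_le_one_div_of_le (by norm_num) h2
  have hw0 : 0 ≤ ‖w‖ := norm_nonneg _
  have hlog := norm_log_sub_logTaylor_le 2 (z := w) (by linarith)
  set r : ℂ := log (1 + w) - logTaylor (2 + 1) w with hr
  have hT : logTaylor (2 + 1) w = w - w ^ 2 / 2 := by
    simp [logTaylor_succ, logTaylor_zero]
    ring
  have hr3 : ‖r‖ ≤ ‖w‖ ^ 3 := by
    refine hlog.trans ?_
    have h1 : (1 - ‖w‖)⁻¹ ≤ 2 := by
      rw [inv_le_comm₀ (by linarith) (by norm_num)]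
      linarith
    have h3 : 0 ≤ ‖w‖ ^ 3 := by positivity
    calc ‖w‖ ^ (2 + 1) * (1 - ‖w‖)⁻¹ / ((2 : ℕ) + 1 : ℝ)
        ≤ ‖w‖ ^ (2 + 1) * 2 / ((2 : ℕ) + 1 : ℝ) := by gcongr
      _ ≤ ‖w‖ ^ 3 := by
        norm_num
        linarith
  have hlogw : log (1 + w) = w - w ^ 2 / 2 + r := by
    rw [hr, hT]; ring
  have hzw : z * w = 1 := by rw [hw]; field_simp
  have hdl : dl z = w ^ 2 / 4 - (z + 1 / 2) * r := by
    unfold dl
    rw [log_add_one hz, ← hw, hlogw]
    linear_combination (-1 + w / 2) * hzw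
  have hzr : ‖(z + 1 / 2) * r‖ ≤ (‖z‖ + 1 / 2) * ‖w‖ ^ 3 := by
    rw [norm_mul]
    have : ‖z + 1 / 2‖ ≤ ‖z‖ + 1 / 2 := by
      refine (norm_add_le _ _).trans ?_
      norm_num
    gcongr
  have hzw' : ‖z‖ * ‖w‖ = 1 := by rw [← norm_mul, hzw, norm_one]
  calc ‖dl z‖ ≤ ‖w ^ 2 / 4‖ + ‖(z + 1 / 2) * r‖ := by rw [hdl]; exact norm_sub_le _ _
    _ ≤ ‖w‖ ^ 2 / 4 + (‖z‖ + 1 / 2) * ‖w‖ ^ 3 := by
      gcongr
      rw [norm_div, norm_pow]
      norm_num
    _ = ‖w‖ ^ 2 / 4 + (‖z‖ * ‖w‖) * ‖w‖ ^ 2 + ‖w‖ / 2 * ‖w‖ ^ 2 := by ring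
    _ ≤ 2 * ‖w‖ ^ 2 := by
      rw [hzw']
      nlinarith [sq_nonneg ‖w‖]
    _ = 2 / ‖z‖ ^ 2 := by rw [hwn]; field_simp

lemma dl_bound : ∃ C : ℝ, 0 ≤ C ∧ ∀ z : ℂ, 1 ≤ |z.im| → ‖dl z‖ ≤ C / ‖z‖ ^ 2 := by
  have hcomp : IsCompact {z : ℂ | 1 ≤ |z.im| ∧ ‖z‖ ≤ 2} := by
    have h1 : IsCompact (Metric.closedBall (0 : ℂ) 2) := isCompact_closedBall _ _
    refine h1.of_isClosed_subset ?_ ?_
    · exact (isClosed_le continuous_const (continuous_im.abs)).inter
        (isClosed_le continuous_norm continuous_const)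
    · rintro z ⟨_, hz⟩
      simpa using hz
  have hcont : ContinuousOn dl {z : ℂ | 1 ≤ |z.im| ∧ ‖z‖ ≤ 2} := by
    have him : ∀ z : ℂ, 1 ≤ |z.im| → z.im ≠ 0 := by
      intro z hz h
      rw [h, abs_zero] at hz
      linarith
    unfold dl
    refine continuousOn_const.sub ((continuousOn_id.add continuousOn_const).mul ?_)
    refine ContinuousOn.sub ?_ ?_
    · refine (continuousOn_id.add continuousOn_const).clog ?_
      rintro z ⟨hz, _⟩
      right
      simpa using him z hz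
    · refine continuousOn_id.clog ?_
      rintro z ⟨hz, _⟩
      right
      simpa using him z hz
  obtain ⟨C, hC⟩ := hcomp.exists_bound_of_continuousOn hcont
  refine ⟨max 2 (4 * C), le_trans (by norm_num) (le_max_left _ _), fun z hz => ?_⟩
  have hz0 : z.im ≠ 0 := by
    intro h
    rw [h, abs_zero] at hz
    linarith
  have hzp : 0 < ‖z‖ := norm_pos_iff.2 (ne_zero_of_im hz0)
  rcases le_total 2 ‖z‖ with h | h
  · refine (dl_large hz0 h).trans ?_
    gcongr
    exact le_max_left _ _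
  · have h1 := hC z ⟨hz, h⟩
    have hC0 : 0 ≤ C := (norm_nonneg _).trans h1
    rw [le_div_iff₀ (by positivity)]
    calc ‖dl z‖ * ‖z‖ ^ 2 ≤ C * 2 ^ 2 := by gcongr
      _ = 4 * C := by ring
      _ ≤ _ := le_max_right _ _

/-- telescoping bound -/
lemma sum_sq_le {y : ℝ} (hy : 1 ≤ y) (n : ℕ) :
    ∑ k ∈ Finset.range n, 1 / ((k : ℝ) + y) ^ 2 ≤ 2 * (1 / y - 1 / ((n : ℝ) + y)) := by
  induction n with
  | zero => simp
  | succ n ih =>
    rw [Finset.sum_range_succ]
    have hn : (0 : ℝ) ≤ n := Nat.cast_nonneg n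
    have h1 : (0 : ℝ) < n + y := by linarith
    have h2 : 1 / ((n : ℝ) + y) ^ 2 ≤ 2 * (1 / ((n : ℝ) + y) - 1 / (((n + 1 : ℕ) : ℝ) + y)) := by
      push_cast
      have h3 : (0 : ℝ) < n + 1 + y := by linarith
      have h4 : 2 * (1 / ((n : ℝ) + y) - 1 / ((n : ℝ) + 1 + y)) =
          2 / (((n : ℝ) + y) * (n + 1 + y)) := by
        field_simp
        ring
      rw [h4, div_le_div_iff₀ (by positivity) (by positivity)]
      nlinarith
    linarith

lemma norm_shift {A : ℝ} {z : ℂ} (hA : |z.re| ≤ A) (hz : 1 ≤ |z.im|) (k : ℕ) :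
    (k : ℝ) + |z.im| ≤ (A + 2) * ‖z + k‖ := by
  have hA0 : 0 ≤ A := (abs_nonneg _).trans hA
  have h1 : |(z + k).re| ≤ ‖z + k‖ := abs_re_le_norm _
  have h2 : |(z + k).im| ≤ ‖z + k‖ := abs_im_le_norm _
  have h3 : (z + k : ℂ).re = z.re + k := by simp
  have h4 : (z + k : ℂ).im = z.im := by simp
  rw [h3] at h1
  rw [h4] at h2
  have h5 : (k : ℝ) ≤ |z.re + k| + |z.re| := by
    have := abs_sub_abs_le_abs_sub (k : ℝ) (-z.re)
    rw [abs_neg, Nat.abs_cast] at this
    have h6 : (k : ℝ) - -z.re = z.re + k := by ring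
    rw [h6] at this
    linarith
  have h7 : |z.re| ≤ A * |z.im| := hA.trans (by nlinarith)
  nlinarith

lemma sum_bound {A C : ℝ} (hC0 : 0 ≤ C) (hC : ∀ z : ℂ, 1 ≤ |z.im| → ‖dl z‖ ≤ C / ‖z‖ ^ 2)
    {z : ℂ} (hA : |z.re| ≤ A) (hz : 1 ≤ |z.im|) (n : ℕ) :
    ∑ k ∈ Finset.range n, ‖dl (z + k)‖ ≤ 2 * C * (A + 2) ^ 2 / |z.im| := by
  have hA0 : 0 ≤ A := (abs_nonneg _).trans hA
  have hy : 0 < |z.im| := by linarith
  have hterm : ∀ k ∈ Finset.range n, ‖dl (z + k)‖ ≤
      C * (A + 2) ^ 2 * (1 / ((k : ℝ) + |z.im|) ^ 2) := by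
    intro k _
    have h4 : (z + k : ℂ).im = z.im := by simp
    have h1 := hC (z + k) (by rw [h4]; exact hz)
    have h2 := norm_shift hA hz k
    have hk : (0 : ℝ) ≤ k := Nat.cast_nonneg k
    have h3 : 0 < (k : ℝ) + |z.im| := by linarith
    have h5 : 0 < ‖z + k‖ := by
      by_contra h
      have : ‖z + k‖ = 0 := le_antisymm (not_lt.1 h) (norm_nonneg _)
      rw [this, mul_zero] at h2
      linarith
    refine h1.trans ?_
    rw [mul_one_div, div_le_div_iff₀ (by positivity) (by positivity)]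
    calc C * ((k : ℝ) + |z.im|) ^ 2 ≤ C * ((A + 2) * ‖z + k‖) ^ 2 := by gcongr
      _ = C * (A + 2) ^ 2 * ‖z + k‖ ^ 2 := by ring
  refine (Finset.sum_le_sum hterm).trans ?_
  rw [← Finset.mul_sum]
  have h6 := sum_sq_le hz n
  have h7 : 2 * (1 / |z.im| - 1 / ((n : ℝ) + |z.im|)) ≤ 2 * (1 / |z.im|) := by
    have : (0 : ℝ) ≤ 1 / ((n : ℝ) + |z.im|) := by positivity
    linarith
  calc C * (A + 2) ^ 2 * ∑ k ∈ Finset.range n, 1 / ((k : ℝ) + |z.im|) ^ 2
      ≤ C * (A + 2) ^ 2 * (2 * (1 / |z.im|)) := by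
        gcongr
        exact h6.trans h7
    _ = 2 * C * (A + 2) ^ 2 / |z.im| := by ring

/-- the exponent of the Gauss product after extraction of Stirling's formula for `n!` -/
def En (z : ℂ) (n : ℕ) : ℂ := (z + 1) - (z + n + 1 / 2) * log (1 + (z + 1) / n)

lemma En_tendsto (z : ℂ) : Tendsto (En z) atTop (𝓝 0) := by
  have h1 : Tendsto (fun n : ℕ => (n : ℂ) * log (1 + (z + 1) / n)) atTop (𝓝 (z + 1)) := by
    apply tendsto_nat_mul_log_one_add_of_tendsto
    refine tendsto_const_nhds.congr' ?_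
    filter_upwards [eventually_ne_atTop 0] with n hn
    have : (n : ℂ) ≠ 0 := by exact_mod_cast hn
    field_simp
  have h2 : Tendsto (fun n : ℕ => log (1 + (z + 1) / n)) atTop (𝓝 0) := by
    have h3 : Tendsto (fun n : ℕ => (1 : ℂ) + (z + 1) / n) atTop (𝓝 (1 + 0)) := by
      refine tendsto_const_nhds.add ?_
      exact tendsto_const_div_atTop_nhds_zero_nat (z + 1)
    rw [add_zero] at h3
    have h4 : ContinuousAt log (1 : ℂ) := continuousAt_clog (by simp)
    have h5 := h4.tendsto.comp h3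
    rwa [log_one] at h5
  have h3 := (tendsto_const_nhds (x := z + 1)).sub (h1.add (h2.const_mul (z + 1 / 2)))
  have h4 : z + 1 - (z + 1 + (z + 1 / 2) * 0) = 0 := by ring
  rw [h4] at h3
  refine h3.congr fun n => ?_
  unfold En
  ring

lemma fact_eq {n : ℕ} (hn : n ≠ 0) : (n.factorial : ℝ) =
    Stirling.stirlingSeq n * Real.sqrt 2 *
      Real.exp (Real.log n / 2 + n * Real.log n - n) := by
  have hn' : (0 : ℝ) < n := by exact_mod_cast Nat.pos_of_ne_zero hn
  have h1 : Real.exp (Real.log n / 2) = Real.sqrt n := by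
    rw [Real.sqrt_eq_rpow, Real.rpow_def_of_pos hn']
    congr 1
    ring
  have h2 : Real.exp (n * Real.log n - n) = ((n : ℝ) / Real.exp 1) ^ n := by
    rw [Real.exp_sub, Real.exp_nat_mul, Real.exp_log hn', div_pow]
    congr 1
    rw [← Real.exp_nat_mul, mul_one]
  have h3 : Real.exp (Real.log n / 2 + n * Real.log n - n) =
      Real.sqrt n * ((n : ℝ) / Real.exp 1) ^ n := by
    rw [← h1, ← h2, ← Real.exp_add]
    congr 1
    ring
  rw [h3, Stirling.stirlingSeq, Real.sqrt_mul (by norm_num)]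
  have h4 : Real.sqrt (n : ℝ) ≠ 0 := (Real.sqrt_pos.2 hn').ne'
  have h5 : Real.sqrt 2 ≠ 0 := (Real.sqrt_pos.2 (by norm_num)).ne'
  have h6 : ((n : ℝ) / Real.exp 1) ^ n ≠ 0 := by positivity
  field_simp

lemma seq_eq {z : ℂ} (hz : z.im ≠ 0) {n : ℕ} (hn : n ≠ 0) :
    GammaSeq z n = (Stirling.stirlingSeq n : ℂ) * (Real.sqrt 2 : ℂ) * exp (En z n) *
      exp (g z - ∑ j ∈ Finset.range (n + 1), dl (z + j)) := by
  have hn' : (0 : ℝ) < n := by exact_mod_cast Nat.pos_of_ne_zero hn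
  have hnc : (n : ℂ) ≠ 0 := by exact_mod_cast hn
  have hj : ∀ j : ℕ, z + j ≠ 0 := fun j => ne_zero_of_im (by simpa using hz)
  have hlog : log (z + (n + 1 : ℕ)) = Real.log n + log (1 + (z + 1) / n) := by
    have h1 : (z + (n + 1 : ℕ) : ℂ) = ((n : ℝ) : ℂ) * (1 + (z + 1) / n) := by
      push_cast
      field_simp
      ring
    rw [h1, log_ofReal_mul hn']
    intro h
    rw [h, mul_zero] at h1
    exact hj (n + 1) h1
  have hfact : ((n.factorial : ℕ) : ℂ) = (Stirling.stirlingSeq n : ℂ) * (Real.sqrt 2 : ℂ) *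
      exp (Real.log n / 2 + n * Real.log n - n) := by
    have h1 : ((n.factorial : ℕ) : ℂ) = ((n.factorial : ℝ) : ℂ) := by push_cast; rfl
    rw [h1, fact_eq hn]
    push_cast
    rfl
  have hcpow : (n : ℂ) ^ z = exp (Real.log n * z) := by
    rw [cpow_def_of_ne_zero hnc, natCast_log]
  unfold GammaSeq
  rw [prod_eq z hj (n + 1), hfact, hcpow, div_eq_mul_inv, ← exp_neg]
  have hgn : g (z + (n + 1 : ℕ)) = (z + (n + 1 : ℕ) - 1 / 2) *
      (Real.log n + log (1 + (z + 1) / n)) - (z + (n + 1 : ℕ)) := by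
    rw [← hlog]
    rfl
  rw [hgn]
  calc exp (Real.log n * z) * ((Stirling.stirlingSeq n : ℂ) * (Real.sqrt 2 : ℂ) *
      exp (Real.log n / 2 + n * Real.log n - n)) *
      exp (-((z + (n + 1 : ℕ) - 1 / 2) *
      (Real.log n + log (1 + (z + 1) / n)) - (z + (n + 1 : ℕ)) - g z +
        ∑ j ∈ Finset.range (n + 1), dl (z + j)))
      = (Stirling.stirlingSeq n : ℂ) * (Real.sqrt 2 : ℂ) * (exp (Real.log n * z) *
        exp (Real.log n / 2 + n * Real.log n - n) *
      exp (-((z + (n + 1 : ℕ) - 1 / 2) *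
      (Real.log n + log (1 + (z + 1) / n)) - (z + (n + 1 : ℕ)) - g z +
        ∑ j ∈ Finset.range (n + 1), dl (z + j)))) := by ring
    _ = (Stirling.stirlingSeq n : ℂ) * (Real.sqrt 2 : ℂ) * (exp (En z n) *
      exp (g z - ∑ j ∈ Finset.range (n + 1), dl (z + j))) := by
        rw [← exp_add, ← exp_add, ← exp_add]
        congr 2
        unfold En
        push_cast
        ring
    _ = _ := by ring

end STIR_

open STIR_ in
/-- Stirling's formula for the complex Gamma function. -/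
theorem p_STIR : T_STIR := by
  intro A
  obtain ⟨C, hC0, hC⟩ := dl_bound
  refine ⟨2 * C * (A + 2) ^ 2, fun z hA hz => ?_⟩
  have hz0 : z.im ≠ 0 := by
    intro h
    rw [h, abs_zero] at hz
    linarith
  have hsum := sum_bound hC0 hC hA hz
  have hsn : Summable (fun k : ℕ => ‖dl (z + k)‖) :=
    summable_of_sum_range_le (fun _ => norm_nonneg _) hsum
  have hs : Summable (fun k : ℕ => dl (z + k)) := hsn.of_norm
  set D : ℂ := ∑' k : ℕ, dl (z + k) with hD
  have hDn : ‖D‖ ≤ 2 * C * (A + 2) ^ 2 / |z.im| := by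
    refine (norm_tsum_le_tsum_norm hsn).trans ?_
    exact hsn.tsum_le_of_sum_range_le hsum
  refine ⟨-D, by rw [norm_neg]; exact hDn, ?_⟩
  have hDlim : Tendsto (fun n : ℕ => ∑ j ∈ Finset.range (n + 1), dl (z + j)) atTop (𝓝 D) :=
    (hs.hasSum.tendsto_sum_nat).comp (tendsto_add_atTop_nat 1)
  have h1 : Tendsto (fun n : ℕ => (Stirling.stirlingSeq n : ℂ)) atTop
      (𝓝 ((Real.sqrt Real.pi : ℝ) : ℂ)) :=
    (continuous_ofReal.tendsto _).comp Stirling.tendsto_stirlingSeq_sqrt_pi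
  have h2 : Tendsto (fun n : ℕ => (Stirling.stirlingSeq n : ℂ) * (Real.sqrt 2 : ℂ) *
      exp (En z n) * exp (g z - ∑ j ∈ Finset.range (n + 1), dl (z + j))) atTop
      (𝓝 (((Real.sqrt Real.pi : ℝ) : ℂ) * (Real.sqrt 2 : ℂ) * exp 0 * exp (g z - D))) :=
    ((h1.mul_const _).mul ((continuous_exp.tendsto _).comp (En_tendsto z))).mul
      ((continuous_exp.tendsto _).comp (tendsto_const_nhds.sub hDlim))
  have h3 : Tendsto (GammaSeq z) atTop
      (𝓝 (((Real.sqrt Real.pi : ℝ) : ℂ) * (Real.sqrt 2 : ℂ) * exp 0 * exp (g z - D))) := by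
    refine h2.congr' ?_
    filter_upwards [eventually_ne_atTop 0] with n hn
    exact (seq_eq hz0 hn).symm
  have h4 := tendsto_nhds_unique (GammaSeq_tendsto_Gamma z) h3
  rw [h4, exp_zero, mul_one]
  have h5 : ((Real.sqrt Real.pi : ℝ) : ℂ) * (Real.sqrt 2 : ℂ) =
      exp ((Real.log (2 * Real.pi) / 2 : ℝ) : ℂ) := by
    rw [← ofReal_exp, ← ofReal_mul]
    congr 1
    rw [← Real.sqrt_mul Real.pi_pos.le, Real.sqrt_eq_rpow,
      Real.rpow_def_of_pos (by positivity)]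
    congr 1
    rw [mul_comm Real.pi 2]
    ring
  rw [h5, ← exp_add]
  congr 1
  unfold g
  ring

end

end Pool.Agent.SelTwo
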