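import Pool.Agent.SelTwo.MELX

/-!
# GAM: exponential decay of the gamma function on vertical lines
-/

namespace Pool.Agent.SelTwo

open Complex Filter Topology MeasureTheory

theorem p_GAM (hM : T_MELX) : T_GAM := by
  intro σ φ t hσ hφ0 hφ
  have hcos : 0 < Real.cos φ := Real.cos_pos_of_mem_Ioo ⟨by linarith [Real.pi_pos], hφ⟩
  -- the sign of `t`
  obtain ⟨f, hft, hfc, hfl, hfu⟩ : ∃ f : ℝ, f * t = φ * |t| ∧ Real.cos f = Real.cos φ ∧
      -(Real.pi / 2) < f ∧ f < Real.pi / 2 := by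
    rcases le_total 0 t with h | h
    · exact ⟨φ, by rw [abs_of_nonneg h], rfl, by linarith [Real.pi_pos], hφ⟩
    · exact ⟨-φ, by rw [abs_of_nonpos h]; ring, Real.cos_neg φ, by linarith,
        by linarith [Real.pi_pos]⟩
  have hpi := Real.pi_pos
  have hre : (exp (f * I)).re = Real.cos φ := by
    rw [exp_ofReal_mul_I_re, hfc]
  have hX : 0 < (exp (f * I)).re := by rw [hre]; exact hcos
  have hsre : (vl σ t).re = σ := by simp [vl]
  have hs : 0 < (vl σ t).re := by rw [hsre]; exact hσ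
  obtain ⟨-, h2⟩ := hM (vl σ t) (exp (f * I)) hs hX
  have hlog : log (exp (f * I)) = f * I := by
    apply log_exp
    · simp; linarith
    · simp; linarith
  have hpow : ‖(exp (f * I)) ^ (-(vl σ t))‖ = Real.exp (φ * |t|) := by
    rw [cpow_def_of_ne_zero (exp_ne_zero _), hlog, Complex.norm_exp]
    congr 1
    rw [← hft]
    simp [vl]
  have hle : ‖∫ u in Set.Ioi (0 : ℝ), (u : ℂ) ^ (vl σ t - 1) * exp (-(exp (f * I) * u))‖ ≤
      ∫ u in Set.Ioi (0 : ℝ), u ^ (σ - 1) * Real.exp (-(Real.cos φ * u)) := by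
    refine (norm_integral_le_integral_norm _).trans (le_of_eq ?_)
    refine setIntegral_congr_fun measurableSet_Ioi fun u hu => ?_
    rw [melx_norm _ _ hu, hsre, hre]
  rw [Real.integral_rpow_mul_exp_neg_mul_Ioi hσ hcos] at hle
  rw [h2, norm_mul, hpow] at hle
  have he : Real.exp (-φ * |t|) * Real.exp (φ * |t|) = 1 := by
    rw [← Real.exp_add]; simp
  have hc : (1 / Real.cos φ) ^ σ = Real.cos φ ^ (-σ) := by
    rw [one_div, Real.inv_rpow hcos.le, Real.rpow_neg hcos.le]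
  rw [hc] at hle
  calc ‖Gamma (vl σ t)‖ = Real.exp (-φ * |t|) * (Real.exp (φ * |t|) * ‖Gamma (vl σ t)‖) := by
        rw [← mul_assoc, he, one_mul]
    _ ≤ Real.exp (-φ * |t|) * (Real.cos φ ^ (-σ) * Real.Gamma σ) :=
        mul_le_mul_of_nonneg_left hle (Real.exp_pos _).le
    _ = Real.Gamma σ * Real.cos φ ^ (-σ) * Real.exp (-φ * |t|) := by ring

end Pool.Agent.SelTwo
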