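import Pool.Agent.SelTwo.Targets

set_option autoImplicit false

/-! ST-NEAR: moving the base point. -/

namespace Pool.Agent.SelTwo

open Complex Filter Topology MeasureTheory
open Pool.Agent.SelPole

theorem near_exp (β y : ℝ) (n : ℕ) :
    exp (-(((n : ℂ) + 1) * pX β y)) =
      ((Real.exp (-(2 * Real.pi * (n + 1) * y)) : ℝ) : ℂ) *
        exp (I * ((2 * Real.pi * (n + 1) * β : ℝ) : ℂ)) := by
  rw [Complex.ofReal_exp, ← Complex.exp_add]
  congr 1
  unfold pX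
  push_cast
  ring

theorem near_diff (x x' : ℝ) :
    ‖exp (I * (x' : ℂ)) - exp (I * (x : ℂ))‖ ≤ |x' - x| := by
  have h : exp (I * (x' : ℂ)) - exp (I * (x : ℂ)) =
      exp (I * (x : ℂ)) * (exp (I * ((x' - x : ℝ) : ℂ)) - 1) := by
    rw [mul_sub, ← Complex.exp_add]
    congr 1
    · congr 1
      push_cast
      ring
    · ring
  rw [h, norm_mul]
  have h1 : ‖exp (I * (x : ℂ))‖ = 1 := by
    rw [mul_comm]; exact Complex.norm_exp_ofReal_mul_I x
  rw [h1, one_mul]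
  exact Real.norm_exp_I_mul_ofReal_sub_one_le

theorem near_pow {t : ℝ} (ht : 0 ≤ t) : t ^ (3 / 2 : ℝ) ≤ Real.exp (2 * t) := by
  have h1 : t ^ (3 / 2 : ℝ) ≤ (1 + t) ^ (2 : ℝ) := by
    calc t ^ (3 / 2 : ℝ) ≤ (1 + t) ^ (3 / 2 : ℝ) :=
          Real.rpow_le_rpow ht (by linarith) (by norm_num)
      _ ≤ (1 + t) ^ (2 : ℝ) := Real.rpow_le_rpow_of_exponent_le (by linarith) (by norm_num)
  have h2 : (1 + t) ^ (2 : ℝ) ≤ Real.exp (2 * t) := by
    have h3 : 1 + t ≤ Real.exp t := by linarith [Real.add_one_le_exp t]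
    calc (1 + t) ^ (2 : ℝ) ≤ (Real.exp t) ^ (2 : ℝ) :=
          Real.rpow_le_rpow (by linarith) h3 (by norm_num)
      _ = Real.exp (2 * t) := by rw [← Real.exp_mul]; ring_nf
  exact h1.trans h2

theorem near_term {y : ℝ} (hy : 0 < y) (n : ℕ) :
    ((n : ℝ) + 1) ^ (3 / 2 : ℝ) * Real.exp (-(2 * Real.pi * (n + 1) * y)) ≤
      y ^ (-(3 / 2) : ℝ) * Real.exp (-y) ^ (n + 1) := by
  have hn : (0 : ℝ) < (n : ℝ) + 1 := by positivity
  have h1 := near_pow (t := ((n : ℝ) + 1) * y) (by positivity)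
  rw [Real.mul_rpow hn.le hy.le] at h1
  have hy2 : 0 < y ^ (3 / 2 : ℝ) := Real.rpow_pos_of_pos hy _
  have h2 : ((n : ℝ) + 1) ^ (3 / 2 : ℝ) ≤ y ^ (-(3 / 2) : ℝ) * Real.exp (2 * (((n : ℝ) + 1) * y)) := by
    rw [Real.rpow_neg hy.le, inv_mul_eq_div, le_div_iff₀ hy2]
    exact h1
  have h3 : 1 ≤ 2 * Real.pi - 2 := by linarith [Real.pi_gt_three]
  calc ((n : ℝ) + 1) ^ (3 / 2 : ℝ) * Real.exp (-(2 * Real.pi * (n + 1) * y))
      ≤ (y ^ (-(3 / 2) : ℝ) * Real.exp (2 * (((n : ℝ) + 1) * y))) *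
          Real.exp (-(2 * Real.pi * (n + 1) * y)) := by gcongr
    _ = y ^ (-(3 / 2) : ℝ) * Real.exp (-((2 * Real.pi - 2) * (((n : ℝ) + 1) * y))) := by
        rw [mul_assoc, ← Real.exp_add]; ring_nf
    _ ≤ y ^ (-(3 / 2) : ℝ) * Real.exp (-(((n : ℝ) + 1) * y)) := by
        have hyy : 0 < y ^ (-(3 / 2) : ℝ) := Real.rpow_pos_of_pos hy _
        apply mul_le_mul_of_nonneg_left _ hyy.le
        apply Real.exp_le_exp.mpr
        have : 0 < ((n : ℝ) + 1) * y := by positivity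
        nlinarith
    _ = y ^ (-(3 / 2) : ℝ) * Real.exp (-y) ^ (n + 1) := by
        rw [← Real.exp_nat_mul]
        congr 2
        push_cast
        ring

theorem near_geom {y : ℝ} (hy : 0 < y) :
    Summable (fun n : ℕ => Real.exp (-y) ^ (n + 1)) ∧
      ∑' n : ℕ, Real.exp (-y) ^ (n + 1) ≤ 1 / y := by
  have hr0 : 0 ≤ Real.exp (-y) := (Real.exp_pos _).le
  have hr1 : Real.exp (-y) < 1 := by rw [Real.exp_lt_one_iff]; linarith
  have hs : Summable (fun n : ℕ => Real.exp (-y) ^ n) := summable_geometric_of_lt_one hr0 hr1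
  constructor
  · simpa [pow_succ] using hs.mul_right (Real.exp (-y))
  · have h1 : ∑' n : ℕ, Real.exp (-y) ^ (n + 1) = (1 - Real.exp (-y))⁻¹ * Real.exp (-y) := by
      simp only [pow_succ]
      rw [tsum_mul_right, tsum_geometric_of_lt_one hr0 hr1]
    rw [h1, inv_mul_eq_div, div_le_div_iff₀ (by linarith) hy]
    have h2 : 1 + y ≤ Real.exp y := by linarith [Real.add_one_le_exp y]
    have h3 : Real.exp (-y) * Real.exp y = 1 := by rw [← Real.exp_add]; simp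
    nlinarith [Real.exp_pos (-y)]

theorem p_NEAR : T_NEAR := by
  intro a A ha
  refine ⟨2 * Real.pi * A, ?_⟩
  intro α α' y hy _
  have hA : 0 ≤ A := by
    have := ha 1 le_rfl
    simp only [Nat.cast_one, Real.one_rpow, mul_one] at this
    exact (norm_nonneg _).trans this
  have hpi := Real.pi_pos
  obtain ⟨hgs, hgl⟩ := near_geom hy
  have hyy : 0 < y ^ (-(3 / 2) : ℝ) := Real.rpow_pos_of_pos hy _
  have han : ∀ n : ℕ, ‖a (n + 1)‖ ≤ A * ((n : ℝ) + 1) ^ (1 / 2 : ℝ) := by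
    intro n
    have := ha (n + 1) (by omega)
    push_cast at this
    exact this
  have hpp : ∀ n : ℕ, ((n : ℝ) + 1) ^ (1 / 2 : ℝ) * ((n : ℝ) + 1) = ((n : ℝ) + 1) ^ (3 / 2 : ℝ) := by
    intro n
    have hn : (0 : ℝ) < (n : ℝ) + 1 := by positivity
    nth_rewrite 2 [← Real.rpow_one ((n : ℝ) + 1)]
    rw [← Real.rpow_add hn]; norm_num
  -- summability
  have hsum : ∀ β : ℝ, Summable (fun n : ℕ => a (n + 1) * exp (-(((n : ℂ) + 1) * pX β y))) := by
    intro β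
    apply Summable.of_norm_bounded (g := fun n : ℕ => A * y ^ (-(3 / 2) : ℝ) * Real.exp (-y) ^ (n + 1))
      (hgs.mul_left _)
    intro n
    rw [norm_mul, near_exp, norm_mul, Complex.norm_real, Real.norm_of_nonneg (Real.exp_pos _).le]
    have h1 : ‖exp (I * ((2 * Real.pi * (n + 1) * β : ℝ) : ℂ))‖ = 1 := by
      rw [mul_comm]; exact Complex.norm_exp_ofReal_mul_I _
    rw [h1, mul_one]
    have hn1 : (1 : ℝ) ≤ (n : ℝ) + 1 := by linarith [Nat.cast_nonneg (α := ℝ) n]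
    have h2 : ((n : ℝ) + 1) ^ (1 / 2 : ℝ) ≤ ((n : ℝ) + 1) ^ (3 / 2 : ℝ) :=
      Real.rpow_le_rpow_of_exponent_le hn1 (by norm_num)
    calc ‖a (n + 1)‖ * Real.exp (-(2 * Real.pi * (n + 1) * y))
        ≤ (A * ((n : ℝ) + 1) ^ (3 / 2 : ℝ)) * Real.exp (-(2 * Real.pi * (n + 1) * y)) := by
          apply mul_le_mul_of_nonneg_right _ (Real.exp_pos _).le
          exact (han n).trans (mul_le_mul_of_nonneg_left h2 hA)
      _ = A * (((n : ℝ) + 1) ^ (3 / 2 : ℝ) * Real.exp (-(2 * Real.pi * (n + 1) * y))) := by ring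
      _ ≤ A * (y ^ (-(3 / 2) : ℝ) * Real.exp (-y) ^ (n + 1)) :=
          mul_le_mul_of_nonneg_left (near_term hy n) hA
      _ = A * y ^ (-(3 / 2) : ℝ) * Real.exp (-y) ^ (n + 1) := by ring
  have hdiff : ∀ n : ℕ, ‖a (n + 1) * exp (-(((n : ℂ) + 1) * pX α' y)) -
      a (n + 1) * exp (-(((n : ℂ) + 1) * pX α y))‖ ≤
      (2 * Real.pi * A * |α' - α| * y ^ (-(3 / 2) : ℝ)) * Real.exp (-y) ^ (n + 1) := by
    intro n
    rw [← mul_sub, norm_mul, near_exp, near_exp, ← mul_sub, norm_mul, Complex.norm_real,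
      Real.norm_of_nonneg (Real.exp_pos _).le]
    have hd := near_diff (2 * Real.pi * (n + 1) * α) (2 * Real.pi * (n + 1) * α')
    have hd2 : |2 * Real.pi * ((n : ℝ) + 1) * α' - 2 * Real.pi * (n + 1) * α| =
        2 * Real.pi * (n + 1) * |α' - α| := by
      rw [← mul_sub, abs_mul, abs_of_nonneg (by positivity)]
    rw [hd2] at hd
    have hE := (Real.exp_pos (-(2 * Real.pi * ((n : ℝ) + 1) * y))).le
    calc ‖a (n + 1)‖ * (Real.exp (-(2 * Real.pi * (n + 1) * y)) *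
          ‖exp (I * ((2 * Real.pi * (n + 1) * α' : ℝ) : ℂ)) -
            exp (I * ((2 * Real.pi * (n + 1) * α : ℝ) : ℂ))‖)
        ≤ (A * ((n : ℝ) + 1) ^ (1 / 2 : ℝ)) * (Real.exp (-(2 * Real.pi * (n + 1) * y)) *
            (2 * Real.pi * (n + 1) * |α' - α|)) := by
          apply mul_le_mul (han n) (mul_le_mul_of_nonneg_left hd hE) (by positivity) (by positivity)
      _ = (2 * Real.pi * A * |α' - α|) * ((((n : ℝ) + 1) ^ (1 / 2 : ℝ) * ((n : ℝ) + 1)) *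
            Real.exp (-(2 * Real.pi * (n + 1) * y))) := by ring
      _ = (2 * Real.pi * A * |α' - α|) * (((n : ℝ) + 1) ^ (3 / 2 : ℝ) *
            Real.exp (-(2 * Real.pi * (n + 1) * y))) := by rw [hpp]
      _ ≤ (2 * Real.pi * A * |α' - α|) * (y ^ (-(3 / 2) : ℝ) * Real.exp (-y) ^ (n + 1)) :=
          mul_le_mul_of_nonneg_left (near_term hy n) (by positivity)
      _ = _ := by ring
  unfold lam
  rw [← (hsum α').tsum_sub (hsum α)]
  have hbs := hgs.mul_left (2 * Real.pi * A * |α' - α| * y ^ (-(3 / 2) : ℝ))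
  calc ‖∑' n : ℕ, (a (n + 1) * exp (-(((n : ℂ) + 1) * pX α' y)) -
        a (n + 1) * exp (-(((n : ℂ) + 1) * pX α y)))‖
      ≤ ∑' n : ℕ, (2 * Real.pi * A * |α' - α| * y ^ (-(3 / 2) : ℝ)) * Real.exp (-y) ^ (n + 1) :=
        tsum_of_norm_bounded hbs.hasSum hdiff
    _ = (2 * Real.pi * A * |α' - α| * y ^ (-(3 / 2) : ℝ)) * ∑' n : ℕ, Real.exp (-y) ^ (n + 1) :=
        tsum_mul_left
    _ ≤ (2 * Real.pi * A * |α' - α| * y ^ (-(3 / 2) : ℝ)) * (1 / y) :=
        mul_le_mul_of_nonneg_left hgl (by positivity)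
    _ = 2 * Real.pi * A * |α' - α| * y ^ (-(5 / 2) : ℝ) := by
        have : y ^ (-(5 / 2) : ℝ) = y ^ (-(3 / 2) : ℝ) * (1 / y) := by
          rw [one_div, ← Real.rpow_neg_one, ← Real.rpow_add hy]; norm_num
        rw [this]; ring

end Pool.Agent.SelTwo
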