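import Pool.Agent.SelTwo.Targets

/-!
# EXPD: the exponential of an absolutely convergent Dirichlet series
-/

namespace Pool.Agent.SelTwo

open Complex Filter Topology MeasureTheory
open Pool.Agent.SelPole

noncomputable section

namespace EXPD_

/-- the norm of an arithmetic function -/
def nf (f : ArithmeticFunction ℂ) : ArithmeticFunction ℝ := ⟨fun n => ‖f n‖, by simp⟩

theorem nf_apply (f : ArithmeticFunction ℂ) (n : ℕ) : nf f n = ‖f n‖ := rfl

theorem nf_nonneg (f : ArithmeticFunction ℂ) (n : ℕ) : 0 ≤ nf f n := norm_nonneg (f n)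

theorem norm_pow_le (f : ArithmeticFunction ℂ) (j n : ℕ) : ‖(f ^ j) n‖ ≤ (nf f ^ j) n := by
  induction j generalizing n with
  | zero =>
    rw [pow_zero, pow_zero, ArithmeticFunction.one_apply, ArithmeticFunction.one_apply]
    split_ifs <;> simp
  | succ j ih =>
    rw [pow_succ, pow_succ, ArithmeticFunction.mul_apply, ArithmeticFunction.mul_apply]
    refine (norm_sum_le _ _).trans (Finset.sum_le_sum fun p _ => ?_)
    rw [norm_mul]
    exact mul_le_mul (ih _) le_rfl (norm_nonneg _) ((norm_nonneg _).trans (ih _))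

theorem pow_nonneg' (f : ArithmeticFunction ℂ) (j n : ℕ) : 0 ≤ (nf f ^ j) n :=
  (norm_nonneg _).trans (norm_pow_le f j n)

/-- sums over divisors are bounded by products of sums -/
theorem sum_divisors_le (u v : ℕ → ℝ) (hu : ∀ n, 0 ≤ u n) (hv : ∀ n, 0 ≤ v n) (N : ℕ) :
    ∑ n ∈ Finset.range N, ∑ p ∈ n.divisorsAntidiagonal, u p.1 * v p.2 ≤
      (∑ n ∈ Finset.range N, u n) * ∑ n ∈ Finset.range N, v n := by
  classical
  rw [Finset.sum_mul_sum, ← Finset.sum_product']
  rw [← Finset.sum_biUnion]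
  · refine Finset.sum_le_sum_of_subset_of_nonneg ?_ ?_
    · intro p hp
      rw [Finset.mem_biUnion] at hp
      obtain ⟨n, hn, hpn⟩ := hp
      rw [Finset.mem_range] at hn
      rw [Nat.mem_divisorsAntidiagonal] at hpn
      obtain ⟨h1, h2⟩ := hpn
      have h3 : p.1 * p.2 ≠ 0 := by rwa [h1]
      have h4 : p.1 ≠ 0 := left_ne_zero_of_mul h3
      have h5 : p.2 ≠ 0 := right_ne_zero_of_mul h3
      rw [Finset.mem_product, Finset.mem_range, Finset.mem_range]
      constructor
      · refine lt_of_le_of_lt ?_ hn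
        rw [← h1]
        exact Nat.le_mul_of_pos_right _ (Nat.pos_of_ne_zero h5)
      · refine lt_of_le_of_lt ?_ hn
        rw [← h1]
        exact Nat.le_mul_of_pos_left _ (Nat.pos_of_ne_zero h4)
    · intro p _ _
      exact mul_nonneg (hu _) (hv _)
  · intro m _ n _ hmn
    rw [Function.onFun, Finset.disjoint_left]
    intro p hp hp'
    rw [Nat.mem_divisorsAntidiagonal] at hp hp'
    exact hmn (hp.1.symm.trans hp'.1)

/-- the weight -/
def w (σ : ℝ) (n : ℕ) : ℝ := (n : ℝ) ^ (-σ)

theorem w_nonneg (σ : ℝ) (n : ℕ) : 0 ≤ w σ n := Real.rpow_nonneg (Nat.cast_nonneg n) _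

theorem w_mul (σ : ℝ) (m n : ℕ) : w σ (m * n) = w σ m * w σ n := by
  unfold w
  rw [Nat.cast_mul, Real.mul_rpow (Nat.cast_nonneg m) (Nat.cast_nonneg n)]

theorem w_one (σ : ℝ) : w σ 1 = 1 := by
  unfold w
  rw [Nat.cast_one, Real.one_rpow]

theorem sum_pow_le (f : ArithmeticFunction ℂ) (σ : ℝ) (hf : Summable fun n => nf f n * w σ n)
    (j N : ℕ) : ∑ n ∈ Finset.range N, (nf f ^ j) n * w σ n ≤ (∑' n, nf f n * w σ n) ^ j := by
  have hB : 0 ≤ ∑' n, nf f n * w σ n :=
    tsum_nonneg fun n => mul_nonneg (nf_nonneg f n) (w_nonneg σ n)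
  induction j with
  | zero =>
    rw [pow_zero, pow_zero]
    have h1 : ∀ n ∈ Finset.range N, ((1 : ArithmeticFunction ℝ) n) * w σ n =
        if n = 1 then 1 else 0 := by
      intro n _
      rw [ArithmeticFunction.one_apply]
      split_ifs with h
      · rw [h, w_one, one_mul]
      · rw [zero_mul]
    rw [Finset.sum_congr rfl h1, Finset.sum_ite_eq']
    split_ifs <;> norm_num
  | succ j ih =>
    have h1 : ∀ n ∈ Finset.range N, (nf f ^ (j + 1)) n * w σ n =
        ∑ p ∈ n.divisorsAntidiagonal, ((nf f ^ j) p.1 * w σ p.1) * (nf f p.2 * w σ p.2) := by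
      intro n _
      rw [pow_succ, ArithmeticFunction.mul_apply, Finset.sum_mul]
      refine Finset.sum_congr rfl fun p hp => ?_
      rw [Nat.mem_divisorsAntidiagonal] at hp
      rw [← hp.1, w_mul]
      ring
    rw [Finset.sum_congr rfl h1]
    refine (sum_divisors_le (fun n => (nf f ^ j) n * w σ n) (fun n => nf f n * w σ n)
      (fun n => mul_nonneg (pow_nonneg' f j n) (w_nonneg σ n))
      (fun n => mul_nonneg (nf_nonneg f n) (w_nonneg σ n)) N).trans ?_
    rw [pow_succ]
    refine mul_le_mul ih (hf.sum_le_tsum _ fun n _ => mul_nonneg (nf_nonneg f n) (w_nonneg σ n))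
      ?_ (pow_nonneg hB j)
    exact Finset.sum_nonneg fun n _ => mul_nonneg (nf_nonneg f n) (w_nonneg σ n)

/-- the double series -/
theorem summable_prod (f : ArithmeticFunction ℂ) (σ : ℝ)
    (hf : Summable fun n => nf f n * w σ n) :
    Summable (fun p : ℕ × ℕ => (nf f ^ p.1) p.2 * w σ p.2 / (p.1.factorial : ℝ)) := by
  have hnn : ∀ j n : ℕ, 0 ≤ (nf f ^ j) n * w σ n / (j.factorial : ℝ) := fun j n =>
    div_nonneg (mul_nonneg (pow_nonneg' f j n) (w_nonneg σ n)) (Nat.cast_nonneg _)
  have hle : ∀ j N : ℕ, ∑ n ∈ Finset.range N, (nf f ^ j) n * w σ n / (j.factorial : ℝ) ≤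
      (∑' n, nf f n * w σ n) ^ j / (j.factorial : ℝ) := by
    intro j N
    rw [← Finset.sum_div]
    exact div_le_div_of_nonneg_right (sum_pow_le f σ hf j N) (Nat.cast_nonneg _)
  rw [summable_prod_of_nonneg (fun p => hnn p.1 p.2)]
  constructor
  · intro j
    exact summable_of_sum_range_le (hnn j) (hle j)
  · refine Summable.of_nonneg_of_le (fun j => tsum_nonneg (hnn j)) (fun j => ?_)
      (Real.summable_pow_div_factorial (∑' n, nf f n * w σ n))
    exact Real.tsum_le_of_sum_range_le (hnn j) (hle j)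

/-- the exponential -/
def ex (f : ArithmeticFunction ℂ) (n : ℕ) : ℂ := ∑' j : ℕ, (f ^ j) n / (j.factorial : ℂ)

theorem ex_zero (f : ArithmeticFunction ℂ) : ex f 0 = 0 := by
  unfold ex
  simp

theorem pow_at_one (f : ArithmeticFunction ℂ) (hf : f 1 = 0) (j : ℕ) (hj : j ≠ 0) :
    (f ^ j) 1 = 0 := by
  obtain ⟨i, rfl⟩ := Nat.exists_eq_succ_of_ne_zero hj
  rw [pow_succ, ArithmeticFunction.mul_apply]
  simp [hf]

theorem ex_one (f : ArithmeticFunction ℂ) (hf : f 1 = 0) : ex f 1 = 1 := by
  unfold ex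
  rw [tsum_eq_single 0]
  · simp
  · intro j hj
    rw [pow_at_one f hf j hj, zero_div]

theorem ex_prime (f : ArithmeticFunction ℂ) (hf : f 1 = 0) {p : ℕ} (hp : p.Prime) :
    ex f p = f p := by
  unfold ex
  rw [tsum_eq_single 1]
  · simp
  · intro j hj
    rcases Nat.eq_zero_or_pos j with h0 | h0
    · subst h0
      rw [pow_zero, ArithmeticFunction.one_apply_ne hp.ne_one, zero_div]
    · obtain ⟨i, rfl⟩ : ∃ i, j = i + 1 := ⟨j - 1, by omega⟩
      have hi : i ≠ 0 := by omega
      rw [pow_succ, ArithmeticFunction.mul_apply, Finset.sum_eq_zero, zero_div]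
      intro q hq
      rw [Nat.mem_divisorsAntidiagonal] at hq
      rcases (Nat.dvd_prime hp).1 (Dvd.intro _ hq.1) with h1 | h1
      · rw [h1, pow_at_one f hf i hi, zero_mul]
      · have h2 : q.2 = 1 := by
          have h3 := hq.1
          rw [h1] at h3
          exact Nat.eq_of_mul_eq_mul_left hp.pos (by rw [h3, mul_one])
        rw [h2, hf, mul_zero]

theorem pow_support (f : ArithmeticFunction ℂ) (P : ℕ → Prop) (h1 : P 1)
    (hm : ∀ m n, P m → P n → P (m * n)) (hf : ∀ n, f n ≠ 0 → P n) (j n : ℕ)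
    (h : (f ^ j) n ≠ 0) : P n := by
  induction j generalizing n with
  | zero =>
    rw [pow_zero, ArithmeticFunction.one_apply] at h
    by_cases hn : n = 1
    · rw [hn]; exact h1
    · rw [if_neg hn] at h
      exact absurd rfl h
  | succ j ih =>
    rw [pow_succ, ArithmeticFunction.mul_apply] at h
    obtain ⟨p, hp, hp'⟩ := Finset.exists_ne_zero_of_sum_ne_zero h
    rw [Nat.mem_divisorsAntidiagonal] at hp
    rw [← hp.1]
    exact hm _ _ (ih _ (left_ne_zero_of_mul hp')) (hf _ (right_ne_zero_of_mul hp'))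

theorem ex_support (f : ArithmeticFunction ℂ) (P : ℕ → Prop) (h1 : P 1)
    (hm : ∀ m n, P m → P n → P (m * n)) (hf : ∀ n, f n ≠ 0 → P n) (n : ℕ)
    (h : ex f n ≠ 0) : P n := by
  by_contra hP
  apply h
  unfold ex
  have h2 : ∀ j : ℕ, (f ^ j) n / (j.factorial : ℂ) = 0 := by
    intro j
    have h3 : (f ^ j) n = 0 := by
      by_contra h3
      exact hP (pow_support f P h1 hm hf j n h3)
    rw [h3, zero_div]
  simp [h2]

theorem norm_term_le (f : ArithmeticFunction ℂ) (σ : ℝ) (s : ℂ) (hs : σ ≤ s.re) (j n : ℕ) :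
    ‖LSeries.term (fun m => (f ^ j) m) s n / (j.factorial : ℂ)‖ ≤
      (nf f ^ j) n * w σ n / (j.factorial : ℝ) := by
  rw [norm_div, Complex.norm_natCast]
  refine div_le_div_of_nonneg_right ?_ (Nat.cast_nonneg _)
  rw [LSeries.norm_term_eq]
  split_ifs with h
  · exact mul_nonneg (pow_nonneg' f j n) (w_nonneg σ n)
  · rw [div_eq_mul_inv]
    refine mul_le_mul (norm_pow_le f j n) ?_ (inv_nonneg.2 (Real.rpow_nonneg (Nat.cast_nonneg n) _))
      (pow_nonneg' f j n)
    unfold w
    rw [← Real.rpow_neg (Nat.cast_nonneg n)]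
    refine Real.rpow_le_rpow_of_exponent_le ?_ (by linarith)
    exact_mod_cast Nat.one_le_iff_ne_zero.2 h

theorem summable_ex (f : ArithmeticFunction ℂ) (σ : ℝ)
    (hf : Summable fun n => nf f n * w σ n) :
    Summable (fun n : ℕ => ‖ex f n‖ * (n : ℝ) ^ (-σ)) := by
  have H := summable_prod f σ hf
  have H' : Summable (fun p : ℕ × ℕ => (nf f ^ p.2) p.1 * w σ p.1 / (p.2.factorial : ℝ)) :=
    H.prod_symm
  refine Summable.of_nonneg_of_le (fun n => mul_nonneg (norm_nonneg _) (w_nonneg σ n))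
    (fun n => ?_) H'.prod
  have hn : Summable (fun j : ℕ => (nf f ^ j) n * w σ n / (j.factorial : ℝ)) :=
    H'.prod_factor n
  have e : (n : ℝ) ^ (-σ) = w σ n := rfl
  rw [e]
  rcases eq_or_lt_of_le (w_nonneg σ n) with h0 | h0
  · rw [← h0, mul_zero]
    exact tsum_nonneg fun j => div_nonneg (mul_nonneg (pow_nonneg' f j n) (w_nonneg σ n))
      (Nat.cast_nonneg _)
  · have hn2 : Summable (fun j : ℕ => (nf f ^ j) n / (j.factorial : ℝ)) := by
      have := hn.mul_right (w σ n)⁻¹
      refine this.congr fun j => ?_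
      field_simp
    have hn3 : Summable (fun j : ℕ => ‖(f ^ j) n / (j.factorial : ℂ)‖) := by
      refine Summable.of_nonneg_of_le (fun _ => norm_nonneg _) (fun j => ?_) hn2
      rw [norm_div, Complex.norm_natCast]
      exact div_le_div_of_nonneg_right (norm_pow_le f j n) (Nat.cast_nonneg _)
    have h1 : ‖ex f n‖ ≤ ∑' j : ℕ, (nf f ^ j) n / (j.factorial : ℝ) := by
      unfold ex
      refine (norm_tsum_le_tsum_norm hn3).trans ?_
      refine hn3.tsum_le_tsum (fun j => ?_) hn2
      rw [norm_div, Complex.norm_natCast]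
      exact div_le_div_of_nonneg_right (norm_pow_le f j n) (Nat.cast_nonneg _)
    refine (mul_le_mul_of_nonneg_right h1 h0.le).trans (le_of_eq ?_)
    rw [← tsum_mul_right]
    refine tsum_congr fun j => ?_
    ring

theorem pow_LSeries (f : ArithmeticFunction ℂ) (s : ℂ)
    (hf : LSeriesSummable (fun n => f n) s) (j : ℕ) :
    LSeriesSummable (fun n => (f ^ j) n) s ∧
      LSeries (fun n => (f ^ j) n) s = (LSeries (fun n => f n) s) ^ j := by
  induction j with
  | zero =>
    have h1 : (fun n : ℕ => ((f ^ 0 : ArithmeticFunction ℂ)) n) =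
        fun n : ℕ => ((1 : ArithmeticFunction ℂ) n) := by
      funext n
      rw [pow_zero]
    rw [h1, pow_zero]
    constructor
    · have h2 : ∀ n : ℕ, n ∉ ({1} : Finset ℕ) →
          LSeries.term (fun n : ℕ => ((1 : ArithmeticFunction ℂ) n)) s n = 0 := by
        intro n hn
        rw [Finset.mem_singleton] at hn
        rw [LSeries.term_def]
        split_ifs
        · rfl
        · rw [ArithmeticFunction.one_apply_ne hn, zero_div]
      exact summable_of_ne_finset_zero h2
    · unfold LSeries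
      rw [tsum_eq_single 1]
      · rw [LSeries.term_def]
        simp
      · intro n hn
        rw [LSeries.term_def]
        split_ifs
        · rfl
        · rw [ArithmeticFunction.one_apply_ne hn, zero_div]
  | succ j ih =>
    have h1 : (fun n : ℕ => ((f ^ (j + 1) : ArithmeticFunction ℂ)) n) =
        fun n : ℕ => ((f ^ j * f : ArithmeticFunction ℂ) n) := by
      funext n
      rw [pow_succ]
    rw [h1, pow_succ]
    refine ⟨ArithmeticFunction.LSeriesSummable_mul ih.1 hf, ?_⟩
    rw [ArithmeticFunction.LSeries_mul' ih.1 hf, ih.2]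

theorem main (f : ArithmeticFunction ℂ) (σ : ℝ) (hf : Summable fun n => nf f n * w σ n)
    (s : ℂ) (hs : σ ≤ s.re) :
    LSeriesSummable (ex f) s ∧ LSeries (ex f) s = exp (LSeries (fun n => f n) s) := by
  have H := summable_prod f σ hf
  have HT : Summable (fun p : ℕ × ℕ =>
      LSeries.term (fun m => (f ^ p.1) m) s p.2 / (p.1.factorial : ℂ)) :=
    Summable.of_norm_bounded H (fun p => norm_term_le f σ s hs p.1 p.2)
  have HT' : Summable (fun p : ℕ × ℕ =>
      LSeries.term (fun m => (f ^ p.2) m) s p.1 / (p.2.factorial : ℂ)) := HT.prod_symm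
  have e1 : ∀ n : ℕ, ∑' j : ℕ, LSeries.term (fun m => (f ^ j) m) s n / (j.factorial : ℂ) =
      LSeries.term (ex f) s n := by
    intro n
    rw [LSeries.term_def]
    split_ifs with h
    · simp [LSeries.term_def, h]
    · unfold ex
      rw [← tsum_div_const]
      refine tsum_congr fun j => ?_
      rw [LSeries.term_def, if_neg h]
      ring
  have hfs : LSeriesSummable (fun n => f n) s := by
    have h1 := HT.prod_factor 1
    simp only [pow_one, Nat.factorial_one, Nat.cast_one, div_one] at h1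
    exact h1
  constructor
  · have h1 := HT'.prod
    exact h1.congr e1
  · have h1 : LSeries (ex f) s = ∑' n : ℕ, ∑' j : ℕ,
        LSeries.term (fun m => (f ^ j) m) s n / (j.factorial : ℂ) := by
      unfold LSeries
      exact (tsum_congr e1).symm
    rw [h1]
    have h2 : ∑' n : ℕ, ∑' j : ℕ, LSeries.term (fun m => (f ^ j) m) s n / (j.factorial : ℂ) =
        ∑' j : ℕ, ∑' n : ℕ, LSeries.term (fun m => (f ^ j) m) s n / (j.factorial : ℂ) :=
      HT.tsum_comm
    rw [h2, Complex.exp_eq_exp_ℂ, NormedSpace.exp_eq_tsum_div]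
    refine tsum_congr fun j => ?_
    rw [tsum_div_const, ← (pow_LSeries f s hfs j).2]
    rfl

end EXPD_

open EXPD_ in
theorem p_EXPD : T_EXPD := by
  intro β σ hβ1 hβ
  let f : ArithmeticFunction ℂ := ⟨fun n => if n = 0 then 0 else β n, by simp⟩
  have hf0 : ∀ n, f n = if n = 0 then 0 else β n := fun n => rfl
  have hf1 : f 1 = 0 := by
    rw [hf0, if_neg one_ne_zero, hβ1]
  have hfs : Summable fun n => nf f n * w σ n := by
    refine Summable.of_nonneg_of_le (fun n => mul_nonneg (nf_nonneg f n) (w_nonneg σ n))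
      (fun n => ?_) hβ
    refine mul_le_mul_of_nonneg_right ?_ (w_nonneg σ n)
    rw [nf_apply, hf0]
    split_ifs
    · rw [norm_zero]
      exact norm_nonneg _
    · exact le_rfl
  have hcongr : ∀ s : ℂ, LSeries (fun n => f n) s = LSeries β s := by
    intro s
    refine LSeries_congr (fun {n} hn => ?_) s
    rw [hf0, if_neg hn]
  refine ⟨ex f, ex_zero f, ex_one f hf1, summable_ex f σ hfs, ?_, ?_, ?_⟩
  · intro s hs
    obtain ⟨h1, h2⟩ := main f σ hfs s hs
    exact ⟨h1, by rw [h2, hcongr]⟩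
  · intro p hp
    rw [ex_prime f hf1 hp, hf0, if_neg hp.ne_zero]
  · intro P h1 hm hP n hn
    refine ex_support f P h1 hm (fun n hn => ?_) n hn
    rw [hf0] at hn
    by_cases h0 : n = 0
    · rw [if_pos h0] at hn
      exact absurd rfl hn
    · rw [if_neg h0] at hn
      exact hP n (Nat.one_le_iff_ne_zero.2 h0) hn

end

end Pool.Agent.SelTwo
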