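import Pool.Agent.SelTwo.Targets

/-!
# AP: `a(p) = b(p)`
-/

namespace Pool.Agent.SelTwo

open Complex Filter Topology LSeries

theorem p_AP (hE : T_EXPD) : T_AP := by
  intro a b hb ha hbs hab p hp
  have hb1 : b 1 = 0 := hb 1 not_isPrimePow_one
  have h2 : (1 : ℝ) < ((2 : ℂ)).re := by norm_num
  have hs : Summable fun n : ℕ => ‖b n‖ * (n : ℝ) ^ (-(2 : ℝ)) := by
    have h := (hbs 2 h2).norm
    refine h.congr (fun n => ?_)
    rcases Nat.eq_zero_or_pos n with rfl | hn
    · simp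
    · rw [term_of_ne_zero hn.ne', norm_div]
      have h3 : ((2 : ℂ)) = ((2 : ℝ) : ℂ) := by push_cast; rfl
      rw [h3, norm_cpow_real, Complex.norm_natCast, Real.rpow_neg (by positivity), div_eq_mul_inv]
  obtain ⟨g, -, -, -, hgL, hgp, -⟩ := hE b 2 hb1 hs
  have hag : ∀ n : ℕ, n ≠ 0 → a n = g n := by
    intro n hn
    have h4 : LSeriesSummable g 2 := (hgL 2 (by simp)).1
    refine LSeries.eq_of_LSeries_eventually_eq
      ((ha 2 h2).abscissaOfAbsConv_le.trans_lt (EReal.coe_lt_top _))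
      (h4.abscissaOfAbsConv_le.trans_lt (EReal.coe_lt_top _)) ?_ hn
    filter_upwards [eventually_ge_atTop (2 : ℝ)] with x hx
    rw [hab x (by simp; linarith), (hgL x (by simpa using hx)).2]
  rw [hag p hp.ne_zero, hgp p hp]

end Pool.Agent.SelTwo
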