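import Pool.Agent.SelTwo.Targets

/-! LAN: the Landau step. -/

set_option autoImplicit false

namespace Pool.Agent.SelTwo.LAN

open Complex Filter Topology
open Pool.Agent.SelPole Pool.Agent.SelTwo

/-- the higher prime powers are sparse -/
lemma pp_summable {σ : ℝ} (hσ : 1 / 2 < σ) :
    Summable (Set.indicator {n : ℕ | ∃ p k : ℕ, p.Prime ∧ 2 ≤ k ∧ p ^ k = n}
      (fun n : ℕ => (n : ℝ) ^ (-σ))) := by
  classical
  rw [← summable_subtype_iff_indicator]
  have hσ0 : 0 < σ := by linarith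
  have h1 : Summable (fun p : ℕ => (p : ℝ) ^ (-(2 * σ))) :=
    Real.summable_nat_rpow.2 (by linarith)
  have h2 : Summable (fun j : ℕ => ((2 : ℝ) ^ (-σ)) ^ j) := by
    apply summable_geometric_of_lt_one (by positivity)
    exact Real.rpow_lt_one_of_one_lt_of_neg (by norm_num) (by linarith)
  have h3 := h1.mul_of_nonneg h2 (fun p => Real.rpow_nonneg (Nat.cast_nonneg p) _)
    (fun j => by positivity)
  choose! P K hP hK hPK using fun (n : ℕ) (hn : n ∈ {n : ℕ | ∃ p k : ℕ, p.Prime ∧ 2 ≤ k ∧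
    p ^ k = n}) => hn
  have hinj : Function.Injective (fun n : {n : ℕ | ∃ p k : ℕ, p.Prime ∧ 2 ≤ k ∧ p ^ k = n} =>
      (P n, K n - 2)) := by
    intro m n h
    simp only [Prod.mk.injEq] at h
    have e1 := hPK m m.2
    have e2 := hPK n n.2
    have k1 := hK m m.2
    have k2 := hK n n.2
    have : K m = K n := by omega
    apply Subtype.ext
    rw [← e1, ← e2, h.1, this]
  refine Summable.of_nonneg_of_le (fun n => ?_) (fun n => ?_) (h3.comp_injective hinj)
  · exact Real.rpow_nonneg (Nat.cast_nonneg _) _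
  · have e1 := hPK n n.2
    have k1 := hK n n.2
    have hp := hP n n.2
    have hp0 : (0 : ℝ) < P n := by exact_mod_cast hp.pos
    simp only [Function.comp]
    have e2 : ((n : ℕ) : ℝ) = (P n : ℝ) ^ (K n) := by
      have : ((n : ℕ) : ℝ) = ((P n ^ K n : ℕ) : ℝ) := by rw [e1]
      rw [this]
      push_cast
      rfl
    rw [e2]
    have e3 : ((P n : ℝ) ^ (K n)) ^ (-σ) = (P n : ℝ) ^ (-(2 * σ)) * ((P n : ℝ) ^ (-σ)) ^ (K n - 2) := by
      rw [← Real.rpow_natCast, ← Real.rpow_mul hp0.le, ← Real.rpow_natCast, ← Real.rpow_mul hp0.le,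
        ← Real.rpow_add hp0]
      congr 1
      rw [Nat.cast_sub k1]
      push_cast
      ring
    rw [e3]
    apply mul_le_mul_of_nonneg_left _ (Real.rpow_nonneg hp0.le _)
    apply pow_le_pow_left₀ (Real.rpow_nonneg hp0.le _)
    apply Real.rpow_le_rpow_of_nonpos (by norm_num) _ (by linarith)
    exact_mod_cast hp.two_le

/-- the coefficients outside the good primes are summable to the left of `1` -/
lemma bad_summable {b β : ℕ → ℂ} {E : Set ℕ} {η : ℝ} (hη : η < 1)
    (hE : Summable (fun n : ℕ => E.indicator (fun n : ℕ => (n : ℝ) ^ (-η)) n))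
    (hb0 : ∀ n, ¬ IsPrimePow n → b n = 0) (hβ0 : ∀ n, ¬ IsPrimePow n → β n = 0)
    (hβ : ∀ n, ‖β n‖ ≤ 2)
    (hb1 : ∀ ε : ℝ, 0 < ε → ∃ C : ℝ, ∀ p : ℕ, p.Prime → ‖b p‖ ≤ C * (p : ℝ) ^ ε)
    (hb2 : ∃ θ C : ℝ, θ < 1 / 2 ∧ ∀ n : ℕ, 1 ≤ n → ‖b n‖ ≤ C * (n : ℝ) ^ θ) :
    ∃ σ : ℝ, σ < 1 ∧ Summable (fun n : ℕ => {n : ℕ | n.Prime ∧ n ∉ E}ᶜ.indicator
      (fun n => (‖b n‖ + ‖β n‖) * (n : ℝ) ^ (-σ)) n) := by
  classical
  obtain ⟨θ, C, hθ, hC⟩ := hb2
  obtain ⟨C', hC'⟩ := hb1 ((1 - η) / 2) (by linarith)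
  set θ' : ℝ := max θ 0 with hθ'
  have hθ1 : θ' < 1 / 2 := max_lt hθ (by norm_num)
  have hθ0 : 0 ≤ θ' := le_max_right _ _
  set σ : ℝ := max ((1 + η) / 2) (3 / 4 + θ' / 2) with hσ
  have hσ1 : (1 + η) / 2 ≤ σ := le_max_left _ _
  have hσ2 : 3 / 4 + θ' / 2 ≤ σ := le_max_right _ _
  refine ⟨σ, max_lt (by linarith) (by linarith), ?_⟩
  have hpp := pp_summable (σ := 3 / 4 - θ' / 2) (by linarith)
  refine Summable.of_nonneg_of_le (fun n => ?_) (fun n => ?_)
    ((hE.mul_left (|C'| + 2)).add (hpp.mul_left (|C| + 2)))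
  · apply Set.indicator_nonneg
    intro n _
    positivity
  · by_cases hn : n ∈ {n : ℕ | n.Prime ∧ n ∉ E}ᶜ
    swap
    · rw [Set.indicator_of_notMem hn]
      have h1 : 0 ≤ E.indicator (fun n : ℕ => (n : ℝ) ^ (-η)) n := by
        apply Set.indicator_nonneg
        intro n _
        positivity
      have h2 : 0 ≤ Set.indicator {n : ℕ | ∃ p k : ℕ, p.Prime ∧ 2 ≤ k ∧ p ^ k = n}
          (fun n : ℕ => (n : ℝ) ^ (-(3 / 4 - θ' / 2))) n := by
        apply Set.indicator_nonneg
        intro n _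
        positivity
      positivity
    · rw [Set.indicator_of_mem hn]
      by_cases hpow : IsPrimePow n
      swap
      · rw [hb0 n hpow, hβ0 n hpow]
        simp only [norm_zero, add_zero, zero_mul]
        have h1 : 0 ≤ E.indicator (fun n : ℕ => (n : ℝ) ^ (-η)) n := by
          apply Set.indicator_nonneg
          intro n _
          positivity
        have h2 : 0 ≤ Set.indicator {n : ℕ | ∃ p k : ℕ, p.Prime ∧ 2 ≤ k ∧ p ^ k = n}
            (fun n : ℕ => (n : ℝ) ^ (-(3 / 4 - θ' / 2))) n := by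
          apply Set.indicator_nonneg
          intro n _
          positivity
        positivity
      · have hn1 : 1 ≤ n := hpow.pos
        have hn1' : (1 : ℝ) ≤ n := by exact_mod_cast hn1
        have hn0 : (0 : ℝ) < n := by linarith
        by_cases hp : n.Prime
        · have hnE : n ∈ E := by
            by_contra hcon
            exact hn ⟨hp, hcon⟩
          rw [Set.indicator_of_mem hnE]
          have h2 : 0 ≤ Set.indicator {n : ℕ | ∃ p k : ℕ, p.Prime ∧ 2 ≤ k ∧ p ^ k = n}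
              (fun n : ℕ => (n : ℝ) ^ (-(3 / 4 - θ' / 2))) n := by
            apply Set.indicator_nonneg
            intro n _
            positivity
          have h3 : (1 : ℝ) ≤ (n : ℝ) ^ ((1 - η) / 2) :=
            Real.one_le_rpow hn1' (by linarith)
          have h4 : ‖b n‖ + ‖β n‖ ≤ (|C'| + 2) * (n : ℝ) ^ ((1 - η) / 2) := by
            have h5 := hC' n hp
            have h6 : C' * (n : ℝ) ^ ((1 - η) / 2) ≤ |C'| * (n : ℝ) ^ ((1 - η) / 2) :=
              mul_le_mul_of_nonneg_right (le_abs_self _) (by linarith)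
            have h7 := hβ n
            nlinarith
          have h5 : (n : ℝ) ^ (-σ) ≤ (n : ℝ) ^ (-((1 + η) / 2)) :=
            Real.rpow_le_rpow_of_exponent_le hn1' (by linarith)
          have h6 : (‖b n‖ + ‖β n‖) * (n : ℝ) ^ (-σ) ≤ (|C'| + 2) * (n : ℝ) ^ ((1 - η) / 2) *
              (n : ℝ) ^ (-((1 + η) / 2)) :=
            mul_le_mul h4 h5 (by positivity) (by positivity)
          rw [mul_assoc, ← Real.rpow_add hn0,
            show (1 - η) / 2 + -((1 + η) / 2) = -η by ring] at h6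
          have h7 : 0 ≤ (|C| + 2) * Set.indicator {n : ℕ | ∃ p k : ℕ, p.Prime ∧ 2 ≤ k ∧ p ^ k = n}
              (fun n : ℕ => (n : ℝ) ^ (-(3 / 4 - θ' / 2))) n := by positivity
          linarith
        · have hmem : n ∈ {n : ℕ | ∃ p k : ℕ, p.Prime ∧ 2 ≤ k ∧ p ^ k = n} := by
            obtain ⟨p, k, hp1, hk1, hpk⟩ := (isPrimePow_nat_iff n).1 hpow
            refine ⟨p, k, hp1, ?_, hpk⟩
            by_contra hcon
            have : k = 1 := by omega
            rw [this, pow_one] at hpk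
            rw [← hpk] at hp
            exact hp hp1
          rw [Set.indicator_of_mem hmem]
          have h2 : 0 ≤ E.indicator (fun n : ℕ => (n : ℝ) ^ (-η)) n := by
            apply Set.indicator_nonneg
            intro n _
            positivity
          have h3 : (1 : ℝ) ≤ (n : ℝ) ^ θ' := Real.one_le_rpow hn1' hθ0
          have h4 : ‖b n‖ + ‖β n‖ ≤ (|C| + 2) * (n : ℝ) ^ θ' := by
            have h5 := hC n hn1
            have h51 : (n : ℝ) ^ θ ≤ (n : ℝ) ^ θ' :=
              Real.rpow_le_rpow_of_exponent_le hn1' (le_max_left _ _)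
            have h6 : C * (n : ℝ) ^ θ ≤ |C| * (n : ℝ) ^ θ' :=
              mul_le_mul (le_abs_self _) h51 (by positivity) (abs_nonneg _)
            have h7 := hβ n
            nlinarith
          have h5 : (n : ℝ) ^ (-σ) ≤ (n : ℝ) ^ (-(3 / 4 + θ' / 2)) :=
            Real.rpow_le_rpow_of_exponent_le hn1' (by linarith)
          have h6 : (‖b n‖ + ‖β n‖) * (n : ℝ) ^ (-σ) ≤ (|C| + 2) * (n : ℝ) ^ θ' *
              (n : ℝ) ^ (-(3 / 4 + θ' / 2)) :=
            mul_le_mul h4 h5 (by positivity) (by positivity)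
          rw [mul_assoc, ← Real.rpow_add hn0,
            show θ' + -(3 / 4 + θ' / 2) = -(3 / 4 - θ' / 2) by ring] at h6
          have h7 : 0 ≤ (|C'| + 2) * E.indicator (fun n : ℕ => (n : ℝ) ^ (-η)) n := by positivity
          linarith

lemma entire_update {f : ℂ → ℂ} {c : ℂ} (hd : ∀ z : ℂ, z ≠ 1 → DifferentiableAt ℂ f z)
    (hl : Tendsto f (𝓝[≠] 1) (𝓝 c)) : Differentiable ℂ (Function.update f 1 c) := by
  have h0 : ∀ z : ℂ, z ≠ 1 → DifferentiableAt ℂ (Function.update f 1 c) z := by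
    intro z hz
    refine (hd z hz).congr_of_eventuallyEq ?_
    filter_upwards [isOpen_ne.mem_nhds hz] with w hw
    exact Function.update_of_ne hw _ _
  intro z
  by_cases hz : z = 1
  · rw [hz]
    refine (analyticAt_of_differentiable_on_punctured_nhds_of_continuousAt ?_ ?_).differentiableAt
    · filter_upwards [self_mem_nhdsWithin] with w hw
      exact h0 w hw
    · exact continuousAt_update_same.2 hl
  · exact h0 z hz

/-- local logarithm -/
lemma local_log {H : ℂ → ℂ} {f : ℂ → ℂ} (hH : ∀ᶠ s in 𝓝 (1 : ℂ), DifferentiableAt ℂ H s)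
    (hH1 : H 1 ≠ 0) (hf : ∀ s : ℂ, 1 < s.re → DifferentiableAt ℂ f s)
    (hfH : ∀ᶠ s in 𝓝 (1 : ℂ), 1 < s.re → exp (f s) = H s) :
    ∃ (ε : ℝ) (h : ℂ → ℂ), 0 < ε ∧ DifferentiableOn ℂ h (Metric.ball 1 ε) ∧
      ∀ s ∈ Metric.ball (1 : ℂ) ε, 1 < s.re → h s = f s := by
  have hcont : ContinuousAt H 1 := hH.self_of_nhds.continuousAt
  have hsl : ∀ᶠ s in 𝓝 (1 : ℂ), H s / H 1 ∈ slitPlane := by
    have h1 : ContinuousAt (fun s => H s / H 1) 1 := hcont.div_const _
    have h2 : H 1 / H 1 ∈ slitPlane := by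
      rw [div_self hH1]
      exact one_mem_slitPlane
    exact h1.eventually (isOpen_slitPlane.mem_nhds h2)
  obtain ⟨ε, hε, hball⟩ := Metric.eventually_nhds_iff_ball.1 (hH.and (hsl.and hfH))
  have hlog : ∀ s ∈ Metric.ball (1 : ℂ) ε, DifferentiableAt ℂ (fun s => log (H s / H 1)) s := by
    intro s hs
    obtain ⟨h1, h2, -⟩ := hball s hs
    exact (h1.div_const _).clog h2
  set U : Set ℂ := Metric.ball (1 : ℂ) ε ∩ {s | 1 < s.re} with hU
  have hUo : IsOpen U := Metric.isOpen_ball.inter (isOpen_lt continuous_const continuous_re)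
  have hUc : IsPreconnected U :=
    ((convex_ball _ _).inter (convex_halfSpace_re_gt 1)).isPreconnected
  set f₀ : ℂ → ℂ := fun s => f s - log (H s / H 1) with hf₀
  have hd : ∀ s ∈ U, DifferentiableAt ℂ f₀ s := fun s hs =>
    (hf s hs.2).sub (hlog s hs.1)
  have hexp : ∀ s ∈ U, exp (f₀ s) = H 1 := by
    intro s hs
    obtain ⟨h1, h2, h3⟩ := hball s hs.1
    have h4 : H s / H 1 ≠ 0 := slitPlane_ne_zero h2
    have h5 : H s ≠ 0 := fun h => h4 (by rw [h, zero_div])
    rw [hf₀]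
    simp only
    rw [exp_sub, exp_log h4, h3 hs.2]
    field_simp
  have hder : U.EqOn (deriv f₀) 0 := by
    intro s hs
    have h1 : HasDerivAt (fun z => exp (f₀ z)) (exp (f₀ s) * deriv f₀ s) s :=
      (hd s hs).hasDerivAt.cexp
    have h2 : (fun z => exp (f₀ z)) =ᶠ[𝓝 s] fun _ => H 1 := by
      filter_upwards [hUo.mem_nhds hs] with z hz
      exact hexp z hz
    have h3 : HasDerivAt (fun z => exp (f₀ z)) 0 s :=
      (hasDerivAt_const s (H 1)).congr_of_eventuallyEq h2
    have h4 := h1.unique h3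
    rcases mul_eq_zero.1 h4 with h | h
    · exact absurd h (exp_ne_zero _)
    · exact h
  have hs₀ : (1 + ((ε / 2 : ℝ) : ℂ)) ∈ U := by
    refine ⟨?_, ?_⟩
    · rw [Metric.mem_ball, dist_eq, add_sub_cancel_left, norm_real, Real.norm_eq_abs,
        abs_of_pos (by linarith)]
      linarith
    · change 1 < (1 + ((ε / 2 : ℝ) : ℂ)).re
      simp only [add_re, one_re, ofReal_re]
      linarith
  refine ⟨ε, fun s => log (H s / H 1) + f₀ (1 + ((ε / 2 : ℝ) : ℂ)), hε, ?_, ?_⟩
  · intro s hs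
    exact ((hlog s hs).add_const _).differentiableWithinAt
  · intro s hs hs1
    have h1 := hUo.is_const_of_deriv_eq_zero hUc (fun z hz => (hd z hz).differentiableWithinAt)
      hder ⟨hs, hs1⟩ hs₀
    rw [← h1, hf₀]
    ring

lemma conj_LSeries (b : ℕ → ℂ) (s : ℂ) :
    (starRingEnd ℂ) (LSeries b ((starRingEnd ℂ) s)) = LSeries (cj b) s := by
  rw [LSeries, LSeries, Complex.conj_tsum]
  refine tsum_congr (fun n => ?_)
  by_cases hn : n = 0
  · simp [hn]
  · rw [LSeries.term_of_ne_zero hn, LSeries.term_of_ne_zero hn, map_div₀]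
    congr 1
    have h3 : ((n : ℂ)).arg ≠ Real.pi := by
      rw [show ((n : ℂ)) = ((n : ℝ) : ℂ) by simp, Complex.arg_ofReal_of_nonneg (Nat.cast_nonneg n)]
      exact Real.pi_pos.ne
    rw [Complex.cpow_conj _ _ h3]
    simp

lemma conj_summable {b : ℕ → ℂ} {s : ℂ} (h : LSeriesSummable b ((starRingEnd ℂ) s)) :
    LSeriesSummable (cj b) s := by
  have h2 : Summable (fun n => ‖LSeries.term b ((starRingEnd ℂ) s) n‖) := h.norm
  have h3 : Summable (fun n => ‖LSeries.term (cj b) s n‖) := by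
    refine h2.congr (fun n => ?_)
    rw [LSeries.norm_term_eq, LSeries.norm_term_eq]
    by_cases hn : n = 0
    · simp [hn]
    · simp only [hn, if_false, cj, Complex.norm_conj, Complex.conj_re]
  exact h3.of_norm

end Pool.Agent.SelTwo.LAN

namespace Pool.Agent.SelTwo

open Complex Filter Topology LAN
open Pool.Agent.SelPole

/-- LAN -/
theorem p_LAN (h1 : T_ZB) (h2 : T_AP) : T_LAN := by
  classical
  rintro F a b hF ⟨c₀, hc₀, hlim⟩ ⟨E, η, hη, hE, hpE⟩
  obtain ⟨hz0, hz2, hzp, hz⟩ := h1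
  have hap : ∀ p : ℕ, p.Prime → a p = b p := h2 a b hF.b_supp hF.summable hF.log_summable
    (fun s hs => by rw [← hF.eq_series s hs, hF.log_series s hs])
  have hb1 : ∀ ε : ℝ, 0 < ε → ∃ C : ℝ, ∀ p : ℕ, p.Prime → ‖b p‖ ≤ C * (p : ℝ) ^ ε := by
    intro ε hε
    obtain ⟨C, hC⟩ := hF.ramanujan ε hε
    refine ⟨C, fun p hp => ?_⟩
    rw [← hap p hp]
    exact hC p hp.one_lt.le
  obtain ⟨σ, hσ1, hbad⟩ := bad_summable hη hE hF.b_supp hz0 hz2 hb1 hF.b_bound
  obtain ⟨S, hS⟩ : ∃ S : Set ℕ, S = {n : ℕ | n.Prime ∧ n ∉ E} := ⟨_, rfl⟩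
  rw [← hS] at hbad
  have hSm : ∀ n, n ∈ S → n.Prime ∧ n ∉ E := by
    intro n hn
    rw [hS] at hn
    exact hn
  have hb2S : ∀ n ∈ S, ‖b n‖ ≤ 2 := by
    intro n hn
    rw [← hap n (hSm n hn).1]
    exact hpE n (hSm n hn).1 (hSm n hn).2
  have hzS : ∀ n ∈ S, b2 n = 2 := by
    intro n hn
    have := hzp n 1 (hSm n hn).1 le_rfl
    rw [pow_one] at this
    rw [this]
    simp
  obtain ⟨c, hcd⟩ : ∃ c : ℕ → ℝ, c = fun n => if n ∈ S then 2 * (2 - (b n).re) else 0 :=
    ⟨_, rfl⟩
  obtain ⟨r, hrd⟩ : ∃ r : ℕ → ℂ, r = fun n => if n ∈ S then 0 else 2 * b2 n - b n - cj b n :=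
    ⟨_, rfl⟩
  have hc0 : ∀ n, 0 ≤ c n := by
    intro n
    rw [hcd]
    simp only
    split_ifs with h
    · have h3 := (abs_le.1 (abs_re_le_norm (b n))).2
      have h4 := hb2S n h
      linarith
    · exact le_rfl
  have hc8 : ∀ n, c n ≤ 8 := by
    intro n
    rw [hcd]
    simp only
    split_ifs with h
    · have h3 := (abs_le.1 (abs_re_le_norm (b n))).1
      have h4 := hb2S n h
      linarith
    · norm_num
  have hsum : (fun n => (c n : ℂ)) + r = (2 : ℂ) • b2 - b - cj b := by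
    funext n
    simp only [Pi.add_apply, Pi.sub_apply, Pi.smul_apply, smul_eq_mul]
    rw [hcd, hrd]
    simp only
    split_ifs with h
    · rw [hzS n h, add_zero]
      have h3 := Complex.add_conj (b n)
      unfold cj
      have h4 : (starRingEnd ℂ) (b n) = ((2 * (b n).re : ℝ) : ℂ) - b n := by
        rw [← h3]
        ring
      rw [h4]
      push_cast
      ring
    · simp
  have hbad0 : ∀ n, 0 ≤ Sᶜ.indicator (fun n => (‖b n‖ + ‖b2 n‖) * (n : ℝ) ^ (-σ)) n := by
    intro n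
    apply Set.indicator_nonneg
    intro n _
    positivity
  have hr : LSeriesSummable r σ := by
    refine Summable.of_norm_bounded (hbad.mul_left 2) (fun n => ?_)
    rw [LSeries.norm_term_eq]
    by_cases hn : n = 0
    · rw [if_pos hn]
      exact mul_nonneg (by norm_num) (hbad0 n)
    · rw [if_neg hn, ofReal_re]
      by_cases hnS : n ∈ S
      · rw [hrd]
        simp only [hnS, if_true, norm_zero, zero_div]
        exact mul_nonneg (by norm_num) (hbad0 n)
      · rw [Set.indicator_of_mem (Set.mem_compl hnS)]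
        have h3 : ‖r n‖ ≤ 2 * (‖b n‖ + ‖b2 n‖) := by
          rw [hrd]
          simp only [hnS, if_false]
          have h4 := norm_sub_le (2 * b2 n - b n) (cj b n)
          have h5 := norm_sub_le (2 * b2 n) (b n)
          have h6 : ‖cj b n‖ = ‖b n‖ := by
            unfold cj
            exact Complex.norm_conj _
          rw [norm_mul, Complex.norm_ofNat] at h5
          linarith
        rw [Real.rpow_neg (Nat.cast_nonneg n), ← div_eq_mul_inv, ← mul_div_assoc]
        exact div_le_div_of_nonneg_right h3 (Real.rpow_nonneg (Nat.cast_nonneg n) _)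
  have hrabs : LSeries.abscissaOfAbsConv r ≤ (σ : EReal) := by
    have := hr.abscissaOfAbsConv_le
    rwa [ofReal_re] at this
  have hrd' : ∀ s : ℂ, σ < s.re → DifferentiableAt ℂ (LSeries r) s := by
    intro s hs
    exact (LSeries_hasDerivAt (lt_of_le_of_lt hrabs (by exact_mod_cast hs))).differentiableAt
  have hrs : ∀ s : ℂ, 1 < s.re → LSeriesSummable r s := by
    intro s hs
    exact LSeriesSummable_of_abscissaOfAbsConv_lt_re
      (lt_of_le_of_lt hrabs (by exact_mod_cast (hσ1.trans hs)))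
  have hcs : ∀ s : ℂ, 1 < s.re → LSeriesSummable (fun n => (c n : ℂ)) s := by
    intro s hs
    refine LSeriesSummable_of_bounded_of_one_lt_re (m := 8) (fun n _ => ?_) hs
    rw [norm_real, Real.norm_eq_abs, abs_of_nonneg (hc0 n)]
    exact hc8 n
  have hcabs : LSeries.abscissaOfAbsConv (fun n => (c n : ℂ)) ≤ ((1 : ℝ) : EReal) := by
    refine LSeries.abscissaOfAbsConv_le_of_forall_lt_LSeriesSummable (fun y hy => ?_)
    exact hcs y (by simpa using hy)
  -- the functions near `1`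
  have hFd : ∀ z : ℂ, z ≠ 1 → DifferentiableAt ℂ F z := by
    intro z hz1
    obtain ⟨m, g, hg, -, hge⟩ := hF.continuation
    have h3 : DifferentiableAt ℂ (fun s => g s / (s - 1) ^ m) z := by
      refine (hg z).div ?_ (pow_ne_zero _ (sub_ne_zero.2 hz1))
      exact (differentiableAt_id.sub_const 1).pow m
    refine h3.congr_of_eventuallyEq ?_
    filter_upwards [isOpen_ne.mem_nhds hz1] with w hw
    rw [hge w hw, mul_div_cancel_left₀ _ (pow_ne_zero _ (sub_ne_zero.2 hw))]
  obtain ⟨G, hGd⟩ : ∃ G : ℂ → ℂ, G = Function.update (fun s => (s - 1) ^ 2 * F s) 1 c₀ := ⟨_, rfl⟩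
  obtain ⟨Z, hZd⟩ : ∃ Z : ℂ → ℂ, Z = Function.update (fun s => (s - 1) * riemannZeta s) 1 1 :=
    ⟨_, rfl⟩
  have hG : Differentiable ℂ G := by
    rw [hGd]
    refine entire_update (fun z hz1 => ?_) hlim
    exact ((differentiableAt_id.sub_const 1).pow 2).mul (hFd z hz1)
  have hZ : Differentiable ℂ Z := by
    rw [hZd]
    refine entire_update (fun z hz1 => ?_) riemannZeta_residue_one
    exact (differentiableAt_id.sub_const 1).mul (differentiableAt_riemannZeta hz1)
  have hG1 : G 1 = c₀ := by rw [hGd, Function.update_self]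
  have hZ1 : Z 1 = 1 := by rw [hZd, Function.update_self]
  have hGs : ∀ s : ℂ, s ≠ 1 → G s = (s - 1) ^ 2 * F s := by
    intro s hs
    rw [hGd, Function.update_of_ne hs]
  have hZs : ∀ s : ℂ, s ≠ 1 → Z s = (s - 1) * riemannZeta s := by
    intro s hs
    rw [hZd, Function.update_of_ne hs]
  obtain ⟨Gt, hGtd⟩ : ∃ Gt : ℂ → ℂ, Gt = fun s => (starRingEnd ℂ) (G ((starRingEnd ℂ) s)) :=
    ⟨_, rfl⟩
  have hGt : Differentiable ℂ Gt := by
    intro s
    have h3 : DifferentiableAt ℂ ((starRingEnd ℂ) ∘ G ∘ (starRingEnd ℂ))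
        ((starRingEnd ℂ) ((starRingEnd ℂ) s)) := (hG ((starRingEnd ℂ) s)).conj_conj
    rw [Complex.conj_conj] at h3
    rw [hGtd]
    exact h3
  have hGt1 : Gt 1 = (starRingEnd ℂ) c₀ := by
    rw [hGtd]
    simp only [map_one, hG1]
  have hGt1' : Gt 1 ≠ 0 := by
    rw [hGt1]
    simpa using hc₀
  have hG1' : G 1 ≠ 0 := by rwa [hG1]
  have hlocal := local_log (H := fun s => Z s ^ 4 / (G s * Gt s) * exp (-LSeries r s))
    (f := LSeries (fun n => (c n : ℂ))) (by
      have e1 : ∀ᶠ s in 𝓝 (1 : ℂ), G s ≠ 0 := hG.continuous.continuousAt.eventually_ne hG1'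
      have e2 : ∀ᶠ s in 𝓝 (1 : ℂ), Gt s ≠ 0 := hGt.continuous.continuousAt.eventually_ne hGt1'
      have e3 : ∀ᶠ s in 𝓝 (1 : ℂ), σ < s.re :=
        (isOpen_lt continuous_const continuous_re).mem_nhds (by simpa using hσ1)
      filter_upwards [e1, e2, e3] with s s1 s2 s3
      exact (((hZ s).pow 4).div ((hG s).mul (hGt s)) (mul_ne_zero s1 s2)).mul
        (hrd' s s3).neg.cexp)
    (by
      rw [hZ1]
      exact mul_ne_zero (div_ne_zero (by norm_num) (mul_ne_zero hG1' hGt1')) (exp_ne_zero _))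
    (fun s hs => (LSeries_hasDerivAt (lt_of_le_of_lt hcabs
      (by exact_mod_cast hs))).differentiableAt)
    (Eventually.of_forall (fun s hs => by
      have hs1 : s ≠ 1 := by
        intro h
        rw [h] at hs
        simp at hs
      have hs1' : (starRingEnd ℂ) s ≠ 1 := by
        intro h
        apply hs1
        have := congrArg (starRingEnd ℂ) h
        simpa using this
      have hsc : 1 < ((starRingEnd ℂ) s).re := by simpa using hs
      have e0 : s - 1 ≠ 0 := sub_ne_zero.2 hs1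
      have e1 : LSeries (fun n => (c n : ℂ)) s =
          2 * LSeries b2 s - LSeries b s - LSeries (cj b) s - LSeries r s := by
        have h3 := LSeries_add (hcs s hs) (hrs s hs)
        rw [hsum, LSeries_sub (((hz s hs).1.smul 2).sub (hF.log_summable s hs))
          (conj_summable (hF.log_summable _ hsc)),
          LSeries_sub ((hz s hs).1.smul 2) (hF.log_summable s hs), LSeries_smul] at h3
        rw [h3]
        ring
      have e2 : Gt s = (s - 1) ^ 2 * exp (LSeries (cj b) s) := by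
        rw [hGtd]
        simp only
        rw [hGs _ hs1', hF.log_series _ hsc, map_mul, map_pow, map_sub, map_one,
          Complex.conj_conj, ← exp_conj, conj_LSeries]
      have e3 : exp (2 * LSeries b2 s) = riemannZeta s ^ 4 := by
        rw [show 2 * LSeries b2 s = LSeries b2 s + LSeries b2 s by ring, exp_add, (hz s hs).2]
        ring
      rw [e1, e2, hGs s hs1, hZs s hs1, hF.log_series s hs, exp_sub, exp_sub, exp_sub, e3,
        exp_neg]
      have n1 := exp_ne_zero (LSeries b s)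
      have n2 := exp_ne_zero (LSeries (cj b) s)
      have n3 := exp_ne_zero (LSeries r s)
      field_simp))
  obtain ⟨ε, h, hε, hh, heq⟩ := hlocal
  obtain ⟨δ, hδ, hδs⟩ := landau hc0 (x := 1) hε hcabs (h := h) (by simpa using hh)
    (by simpa using heq)
  -- the final estimate
  have hfin1 : Summable (fun n => ‖LSeries.term (fun n => (c n : ℂ)) ((1 - δ : ℝ) : ℂ) n‖) :=
    hδs.norm
  have hfin2 : Summable (fun n : ℕ => (n : ℝ) ^ (-(1 + δ))) :=
    Real.summable_nat_rpow.2 (by linarith)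
  refine Summable.of_nonneg_of_le (fun n => by positivity) (fun n => ?_)
    (hbad.add (hfin1.add hfin2))
  have hb0 := hbad0 n
  have ht0 : 0 ≤ ‖LSeries.term (fun n => (c n : ℂ)) ((1 - δ : ℝ) : ℂ) n‖ := norm_nonneg _
  have hn0 : 0 ≤ (n : ℝ) ^ (-(1 + δ)) := Real.rpow_nonneg (Nat.cast_nonneg n) _
  by_cases hn : n = 0
  · have h3 : ‖b n - b2 n‖ / (n : ℝ) = 0 := by
      rw [hn]
      simp
    rw [h3]
    positivity
  · have hn1 : (1 : ℝ) ≤ n := by exact_mod_cast Nat.one_le_iff_ne_zero.2 hn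
    have hnp : (0 : ℝ) < n := by linarith
    by_cases hnS : n ∈ S
    · rw [LSeries.norm_term_eq, if_neg hn, ofReal_re, norm_real, Real.norm_eq_abs,
        abs_of_nonneg (hc0 n)] at ht0 ⊢
      have h4 : ‖b n - b2 n‖ ^ 2 ≤ 2 * c n := by
        rw [hzS n hnS, hcd]
        simp only [hnS, if_true]
        have h5 := hb2S n hnS
        have h6 : ‖b n - 2‖ ^ 2 = ‖b n‖ ^ 2 - 4 * (b n).re + 4 := by
          rw [← Complex.normSq_eq_norm_sq, ← Complex.normSq_eq_norm_sq, Complex.normSq_apply,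
            Complex.normSq_apply]
          simp only [sub_re, sub_im, Complex.re_ofNat, Complex.im_ofNat]
          ring
        rw [h6]
        have h7 : ‖b n‖ ^ 2 ≤ 4 := by nlinarith [norm_nonneg (b n)]
        linarith
      set t := ‖b n - b2 n‖ with ht
      have h5 : (n : ℝ) ^ (-(1 - δ)) * (n : ℝ) ^ (-(1 + δ)) = (1 / (n : ℝ)) ^ 2 := by
        rw [← Real.rpow_add hnp, show -(1 - δ) + -(1 + δ) = -((2 : ℕ) : ℝ) by push_cast; ring,
          Real.rpow_neg hnp.le, Real.rpow_natCast, one_div, inv_pow]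
      have h6 : c n / (n : ℝ) ^ (1 - δ) = c n * (n : ℝ) ^ (-(1 - δ)) := by
        rw [Real.rpow_neg hnp.le, div_eq_mul_inv]
      rw [h6]
      have h7 : (t / n) ^ 2 ≤ ((t ^ 2 * (n : ℝ) ^ (-(1 - δ)) + (n : ℝ) ^ (-(1 + δ))) / 2) ^ 2 := by
        have h8 : (t / n) ^ 2 = (t ^ 2 * (n : ℝ) ^ (-(1 - δ))) * (n : ℝ) ^ (-(1 + δ)) := by
          rw [mul_assoc, h5]
          ring
        rw [h8]
        nlinarith [sq_nonneg (t ^ 2 * (n : ℝ) ^ (-(1 - δ)) - (n : ℝ) ^ (-(1 + δ)))]
      have h8 := (abs_le_of_sq_le_sq' h7 (by positivity)).2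
      have h9 : t ^ 2 * (n : ℝ) ^ (-(1 - δ)) ≤ 2 * c n * (n : ℝ) ^ (-(1 - δ)) :=
        mul_le_mul_of_nonneg_right h4 (Real.rpow_nonneg hnp.le _)
      linarith
    · rw [Set.indicator_of_mem (Set.mem_compl hnS)] at hb0 ⊢
      have h4 : ‖b n - b2 n‖ / (n : ℝ) ≤ (‖b n‖ + ‖b2 n‖) * (n : ℝ) ^ (-σ) := by
        rw [div_eq_mul_inv]
        apply mul_le_mul (norm_sub_le _ _) _ (by positivity) (by positivity)
        rw [← Real.rpow_neg_one]
        exact Real.rpow_le_rpow_of_exponent_le hn1 (by linarith)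
      linarith

end Pool.Agent.SelTwo
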