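import Pool.Agent.SelPole.Landau
import Pool.Agent.SelPole.Defs

/-!
# Functions of degree 2 in the Selberg class with a double pole

Definitions and exact targets (MP_995735_nt, hand-in T2). The proofs are in `Blueprint.lean.txt`.
-/

namespace Pool.Agent.SelTwo

open Complex Filter Topology MeasureTheory
open Pool.Agent.SelPole

noncomputable section

/-- The functional equation with explicit data, on the strip `0 < Re s < 1`: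
`Φ(s) = w * conj (Φ (1 - conj s))` for `Φ(s) = Q^s ∏ Γ(lam_j s + mu_j) F(s)`. -/
def FEq (F : ℂ → ℂ) (Q : ℝ) (k : ℕ) (lam : Fin k → ℝ) (mu : Fin k → ℂ) (w : ℂ) : Prop :=
  0 < Q ∧ (∀ j, 0 < lam j) ∧ (∀ j, 0 ≤ (mu j).re) ∧ ‖w‖ = 1 ∧
    ∀ s : ℂ, 0 < s.re → s.re < 1 →
      (Q : ℂ) ^ s * (∏ j, Gamma (lam j * s + mu j)) * F s =
        w * (starRingEnd ℂ) ((Q : ℂ) ^ (1 - (starRingEnd ℂ) s) *
          (∏ j, Gamma (lam j * (1 - (starRingEnd ℂ) s) + mu j)) * F (1 - (starRingEnd ℂ) s))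

/-- `F` has a functional equation of degree `2 ∑ lam_j = 2`. -/
def DegreeTwo (F : ℂ → ℂ) : Prop :=
  ∃ (Q : ℝ) (k : ℕ) (lam : Fin k → ℝ) (mu : Fin k → ℂ) (w : ℂ),
    FEq F Q k lam mu w ∧ 2 * ∑ j, lam j = 2

/-- The function `s ↦ (s-1)^2 F(s)` extends to an entire function of finite order. -/
def Cont2 (F : ℂ → ℂ) : Prop :=
  ∃ g : ℂ → ℂ, Differentiable ℂ g ∧ FiniteOrder g ∧ ∀ s : ℂ, s ≠ 1 → g s = (s - 1) ^ 2 * F s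

/-- the conjugate sequence -/
def cj (a : ℕ → ℂ) : ℕ → ℂ := fun n => (starRingEnd ℂ) (a n)

/-- the twisted sequence `a(n) n^(-iθ)` -/
def tw (θ : ℝ) (a : ℕ → ℂ) : ℕ → ℂ := fun n => a n * (n : ℂ) ^ (-((θ : ℂ) * I))

/-- `∑_{n ≥ 1} a(n) exp(-n X)` -/
def lam (a : ℕ → ℂ) (X : ℂ) : ℂ := ∑' n : ℕ, a (n + 1) * exp (-(((n : ℂ) + 1) * X))

/-- the point `X = 2 π (y - i α)`; then `exp (-n X) = e(n α) exp(-2 π n y)` -/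
def pX (α y : ℝ) : ℂ := 2 * Real.pi * ((y : ℂ) - I * α)

/-- the point `σ + i t` -/
def vl (σ t : ℝ) : ℂ := (σ : ℂ) + t * I

/-- number of divisors -/
def dd (n : ℕ) : ℂ := (n.divisors.card : ℂ)

/-- coefficients of `log ζ(s)^2` -/
def b2 (n : ℕ) : ℂ := ((2 * ArithmeticFunction.vonMangoldt n / Real.log n : ℝ) : ℂ)

/-- `S(x) = ∑_{n ≤ x} a(n) e(n α)` -/
def se (a : ℕ → ℂ) (α x : ℝ) : ℂ :=
  ∑ n ∈ Finset.Ioc 0 ⌊x⌋₊, a n * exp (2 * Real.pi * I * ((n : ℂ) * α))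

/-- `P(u) = ∏ Γ(l_j u + conj m_j) / Γ(l_j (1-u) + m_j)` -/
def gP (k : ℕ) (l : Fin k → ℝ) (m : Fin k → ℂ) (u : ℂ) : ℂ :=
  ∏ j, (Gamma ((l j : ℂ) * u + (starRingEnd ℂ) (m j)) * (Gamma ((l j : ℂ) * (1 - u) + m j))⁻¹)

/-- `V(t) = (π Q)^(it) ∏ Γ(l_j s + m_j) Γ(s/2)^(-2)`, `s = 1/2 + it` -/
def gV (Q : ℝ) (k : ℕ) (l : Fin k → ℝ) (m : Fin k → ℂ) (t : ℝ) : ℂ :=
  ((Real.pi * Q : ℝ) : ℂ) ^ ((t : ℂ) * I) * (∏ j, Gamma ((l j : ℂ) * vl (1 / 2) t + m j)) *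
    ((Gamma (vl (1 / 2) t / 2)) ^ 2)⁻¹

/-! ## Part A: the modular relation -/

/-- GAM: exponential decay of the gamma function on vertical lines -/
def T_GAM : Prop := ∀ σ φ t : ℝ, 0 < σ → 0 ≤ φ → φ < Real.pi / 2 →
  ‖Gamma (vl σ t)‖ ≤ Real.Gamma σ * Real.cos φ ^ (-σ) * Real.exp (-φ * |t|)

/-- MELX: the Mellin transform of `exp(-X t)` for complex `X` -/
def T_MELX : Prop := ∀ s X : ℂ, 0 < s.re → 0 < X.re →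
  IntegrableOn (fun t : ℝ => (t : ℂ) ^ (s - 1) * exp (-(X * t))) (Set.Ioi 0) ∧
  ∫ t in Set.Ioi (0 : ℝ), (t : ℂ) ^ (s - 1) * exp (-(X * t)) = X ^ (-s) * Gamma s

/-- INV: Mellin inversion -/
def T_INV : Prop := ∀ (σ : ℝ) (X : ℂ), 0 < σ → 0 < X.re →
  Integrable (fun t : ℝ => Gamma (vl σ t) * X ^ (-vl σ t)) ∧
  ∫ t : ℝ, Gamma (vl σ t) * X ^ (-vl σ t) = 2 * Real.pi * exp (-X)

/-- LAM: the integral representation of `lam` (with a twist) -/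
def T_LAM : Prop := ∀ (a : ℕ → ℂ) (θ : ℝ) (Y : ℂ), LSeriesSummable a (3 / 2) → 0 < Y.re →
  Integrable (fun t : ℝ => Gamma (vl (3 / 2) t - θ * I) * Y ^ (-vl (3 / 2) t) *
    LSeries a (vl (3 / 2) t)) ∧
  ∫ t : ℝ, Gamma (vl (3 / 2) t - θ * I) * Y ^ (-vl (3 / 2) t) * LSeries a (vl (3 / 2) t) =
    2 * Real.pi * Y ^ (-((θ : ℂ) * I)) * lam (tw θ a) Y

/-- STIR: Stirling's formula for the complex gamma function away from the real axis -/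
def T_STIR : Prop := ∀ A : ℝ, ∃ C : ℝ, ∀ z : ℂ, |z.re| ≤ A → 1 ≤ |z.im| →
  ∃ e : ℂ, ‖e‖ ≤ C / |z.im| ∧
    Gamma z = exp ((Real.log (2 * Real.pi) / 2 : ℝ) + (z - 1 / 2) * log z - z + e)

/-- G1: Stirling's formula on a vertical line, with explicit main term -/
def T_G1 : Prop := ∀ (l σ : ℝ) (m : ℂ), 0 < l → ∃ C T₀ : ℝ, 1 ≤ T₀ ∧ ∀ t : ℝ, T₀ ≤ t →
  ∃ e : ℂ, ‖e‖ ≤ C / t ∧
    Gamma ((l : ℂ) * vl σ t + m) =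
      exp ((Real.log (2 * Real.pi) / 2 : ℝ) +
        ((l : ℂ) * vl σ t + m - 1 / 2) *
          ((Real.log t : ℂ) + (Real.log l : ℂ) + (Real.pi / 2 : ℝ) * I) -
        (l * t : ℝ) * I + e)

/-- RAT: polynomial bound for the quotient of gamma factors -/
def T_RAT : Prop := ∀ (k : ℕ) (l : Fin k → ℝ) (m : Fin k → ℂ), (∀ j, 0 < l j) →
  (∀ j, 0 ≤ (m j).re) → ∑ j, l j = 1 →
  Continuous (fun τ : ℝ => gP k l m (vl (3 / 2) τ)) ∧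
  ∃ C : ℝ, ∀ τ : ℝ, ‖gP k l m (vl (3 / 2) τ)‖ ≤ C * (1 + |τ|) ^ 2

/-- KER: asymptotic behaviour of the kernel -/
def T_KER : Prop := ∀ (k : ℕ) (l : Fin k → ℝ) (m : Fin k → ℂ), (∀ j, 0 < l j) →
  (∀ j, 0 ≤ (m j).re) → ∑ j, l j = 1 → ∃ (A : ℂ) (R C : ℝ), A ≠ 0 ∧ 0 < R ∧
    (∀ τ : ℝ, 0 ≤ τ → ‖Gamma (1 - vl (3 / 2) τ) * gP k l m (vl (3 / 2) τ) -
      A * (R : ℂ) ^ (vl (3 / 2) τ) *
        Gamma (vl (3 / 2) τ - (2 * ∑ j, (m j).im : ℝ) * I)‖ ≤ C * Real.exp (-(Real.pi * τ / 2))) ∧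
    (∀ τ : ℝ, τ ≤ 0 → ‖Gamma (1 - vl (3 / 2) τ) * gP k l m (vl (3 / 2) τ) -
      A * (R : ℂ) ^ (vl (3 / 2) τ) *
        Gamma (vl (3 / 2) τ - (2 * ∑ j, (m j).im : ℝ) * I)‖ ≤
        C * (1 + |τ|) * Real.exp (Real.pi * τ / 2))

/-- FE: the functional equation on the line `Re s = -1/2` -/
def T_FE : Prop := ∀ (F : ℂ → ℂ) (Q : ℝ) (k : ℕ) (l : Fin k → ℝ) (m : Fin k → ℂ) (w : ℂ),
  Cont2 F → FEq F Q k l m w → ∀ t : ℝ,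
    F (vl (-1 / 2) t) = w * (Q : ℂ) ^ (1 - 2 * vl (-1 / 2) t) * gP k l m (vl (3 / 2) (-t)) *
      (starRingEnd ℂ) (F (vl (3 / 2) t))

/-- PL: polynomial growth in the strip -/
def T_PL : Prop := ∀ F : ℂ → ℂ, Cont2 F → (∃ B : ℝ, ∀ t : ℝ, ‖F (vl (3 / 2) t)‖ ≤ B) →
  (∃ B : ℝ, ∀ t : ℝ, ‖F (vl (-1 / 2) t)‖ ≤ B * (1 + |t|) ^ 2) →
  ∃ C : ℝ, ∀ s : ℂ, -1 / 2 ≤ s.re → s.re ≤ 3 / 2 → 1 ≤ |s.im| → ‖F s‖ ≤ C * (1 + |s.im|) ^ 4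

/-- SHIFT: shift of the contour; the difference is bounded (no residue has to be computed) -/
def T_SHIFT : Prop := ∀ F : ℂ → ℂ, (∀ s : ℂ, s ≠ 1 → DifferentiableAt ℂ F s) →
  (∃ C : ℝ, ∀ s : ℂ, -1 / 2 ≤ s.re → s.re ≤ 3 / 2 → 1 ≤ |s.im| →
    ‖F s‖ ≤ C * (1 + |s.im|) ^ 4) →
  ∀ K : ℝ, 1 ≤ K → ∃ C : ℝ, ∀ X : ℂ, 0 < X.re → 1 / K ≤ ‖X‖ → ‖X‖ ≤ K →
    Integrable (fun t : ℝ => Gamma (vl (3 / 2) t) * X ^ (-vl (3 / 2) t) * F (vl (3 / 2) t)) ∧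
    Integrable (fun t : ℝ => Gamma (vl (-1 / 2) t) * X ^ (-vl (-1 / 2) t) * F (vl (-1 / 2) t)) ∧
    ‖(∫ t : ℝ, Gamma (vl (3 / 2) t) * X ^ (-vl (3 / 2) t) * F (vl (3 / 2) t)) -
      ∫ t : ℝ, Gamma (vl (-1 / 2) t) * X ^ (-vl (-1 / 2) t) * F (vl (-1 / 2) t)‖ ≤ C

/-- ERR: the error term -/
def T_ERR : Prop := ∀ (K C₁ B : ℝ), 1 ≤ K → 0 ≤ C₁ → 0 ≤ B → ∃ C : ℝ, ∀ X : ℂ,
  0 < X.re → X.im < 0 → 1 / K ≤ ‖X‖ → ‖X‖ ≤ K → ∀ E h : ℝ → ℂ, Continuous E → Continuous h →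
  (∀ τ, 0 ≤ τ → ‖E τ‖ ≤ C₁ * Real.exp (-(Real.pi * τ / 2))) →
  (∀ τ, τ ≤ 0 → ‖E τ‖ ≤ C₁ * (1 + |τ|) * Real.exp (Real.pi * τ / 2)) →
  (∀ τ, ‖h τ‖ ≤ B) →
  Integrable (fun τ : ℝ => E τ * X ^ (vl (3 / 2) τ - 1) * h τ) ∧
  ‖∫ τ : ℝ, E τ * X ^ (vl (3 / 2) τ - 1) * h τ‖ ≤ C / X.re

/-- REL: the modular relation near a positive real point `α`, up to a small error -/
def T_REL : Prop := ∀ (F : ℂ → ℂ) (a : ℕ → ℂ) (Q : ℝ) (k : ℕ) (l : Fin k → ℝ) (m : Fin k → ℂ)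
  (w : ℂ), (∀ s : ℂ, 1 < s.re → LSeriesSummable a s) → (∀ s : ℂ, 1 < s.re → F s = LSeries a s) →
  Cont2 F → FEq F Q k l m w → ∑ j, l j = 1 →
  ∃ (A : ℂ) (q : ℝ), A ≠ 0 ∧ 0 < q ∧ ∀ α : ℝ, 0 < α → ∃ C : ℝ, ∀ y : ℝ, 0 < y → y ≤ 1 →
    ‖lam a (pX α y) - A / pX α y *
      (4 * Real.pi ^ 2 / (q * pX α y)) ^ (-(((2 * ∑ j, (m j).im : ℝ) : ℂ) * I)) *
      lam (tw (2 * ∑ j, (m j).im) (cj a)) (4 * Real.pi ^ 2 / (q * pX α y))‖ ≤ C / y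

/-! ## Part B: exponential sums and radial limits -/

/-- SD1: uniform bound for the divisor function -/
def T_SD1 : Prop := ∃ C : ℝ, ∀ α x : ℝ, 1 ≤ x → ‖se dd α x‖ ≤ C * x * (1 + Real.log x)

/-- SD2: the divisor function at a rational point -/
def T_SD2 : Prop := ∀ r : ℚ,
  Tendsto (fun x : ℝ => se dd (r : ℝ) x / ((x * Real.log x : ℝ) : ℂ)) atTop
    (𝓝 (1 / (r.den : ℂ)))

/-- SD3: the divisor function at an irrational point -/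
def T_SD3 : Prop := ∀ α : ℝ, Irrational α →
  Tendsto (fun x : ℝ => se dd α x / ((x * Real.log x : ℝ) : ℂ)) atTop (𝓝 0)

/-- the limit at a rational point -/
def RQ (g : ℕ → ℂ) (r : ℚ) : ℂ := 1 / (r.den : ℂ) * ∑' m : ℕ, g m * (Nat.gcd m r.den : ℂ) / m

/-- the limit at a real point -/
def RR (g : ℕ → ℂ) (α : ℝ) : ℂ := open Classical in
  if h : ∃ r : ℚ, (r : ℝ) = α then RQ g h.choose else 0

theorem RR_rat (g : ℕ → ℂ) (r : ℚ) : RR g (r : ℝ) = RQ g r := by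
  have h : ∃ r' : ℚ, (r' : ℝ) = (r : ℝ) := ⟨r, rfl⟩
  have h2 : h.choose = r := by exact_mod_cast h.choose_spec
  simp only [RR, dif_pos h, h2]

theorem RR_irr (g : ℕ → ℂ) {α : ℝ} (h : Irrational α) : RR g α = 0 := by
  have h' : ¬ ∃ r : ℚ, (r : ℝ) = α := fun ⟨r, hr⟩ => h ⟨r, hr⟩
  simp only [RR, dif_neg h']

/-- SA: exponential sums of `a = g * d` -/
def T_SA : Prop := ∀ g a : ℕ → ℂ, Summable (fun n : ℕ => ‖g n‖ / n) →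
  (∀ n : ℕ, 1 ≤ n → a n = ∑ p ∈ n.divisorsAntidiagonal, g p.1 * dd p.2) → ∀ α : ℝ,
  Tendsto (fun x : ℝ => se a α x / ((x * Real.log x : ℝ) : ℂ)) atTop (𝓝 (RR g α))

/-- PS: Abel summation, from sums to radial limits -/
def T_PS : Prop := ∀ (c : ℕ → ℂ) (α θ : ℝ) (ρ : ℂ),
  Tendsto (fun x : ℝ => se c α x / ((x * Real.log x : ℝ) : ℂ)) atTop (𝓝 ρ) →
  Tendsto (fun y : ℝ => ((2 * Real.pi * y : ℝ) : ℂ) ^ (1 - (θ : ℂ) * I) /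
    ((Real.log (1 / y) : ℝ) : ℂ) * lam (tw θ c) (pX α y)) (𝓝[>] 0)
    (𝓝 (Gamma (1 - (θ : ℂ) * I) * ρ))

/-- NEAR: moving the base point -/
def T_NEAR : Prop := ∀ (a : ℕ → ℂ) (A : ℝ), (∀ n : ℕ, 1 ≤ n → ‖a n‖ ≤ A * (n : ℝ) ^ (1 / 2 : ℝ)) →
  ∃ C : ℝ, ∀ α α' y : ℝ, 0 < y → y ≤ 1 →
    ‖lam a (pX α' y) - lam a (pX α y)‖ ≤ C * |α' - α| * y ^ (-(5 / 2) : ℝ)

/-- LIM: the relation in the limit -/
def T_LIM : Prop := ∀ (a : ℕ → ℂ) (A₁ : ℝ) (A : ℂ) (q θ α : ℝ) (ρ₁ ρ₂ : ℂ),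
  (∀ n : ℕ, 1 ≤ n → ‖a n‖ ≤ A₁ * (n : ℝ) ^ (1 / 2 : ℝ)) → A ≠ 0 → 0 < q → 0 < α →
  (∃ C : ℝ, ∀ y : ℝ, 0 < y → y ≤ 1 →
    ‖lam a (pX α y) - A / pX α y *
      (4 * Real.pi ^ 2 / (q * pX α y)) ^ (-((θ : ℂ) * I)) *
      lam (tw θ (cj a)) (4 * Real.pi ^ 2 / (q * pX α y))‖ ≤ C / y) →
  Tendsto (fun x : ℝ => se a α x / ((x * Real.log x : ℝ) : ℂ)) atTop (𝓝 ρ₁) →
  Tendsto (fun x : ℝ => se (cj a) (-1 / (q * α)) x / ((x * Real.log x : ℝ) : ℂ)) atTop (𝓝 ρ₂) →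
  (ρ₁ ≠ 0 → θ = 0) ∧ (θ = 0 → ρ₁ = I * q * A / (2 * Real.pi) * α * ρ₂)

/-! ## Part C: exponentials of Dirichlet series, the arithmetic step -/

/-- EXPD: the exponential of an absolutely convergent Dirichlet series -/
def T_EXPD : Prop := ∀ (β : ℕ → ℂ) (σ : ℝ), β 1 = 0 →
  Summable (fun n : ℕ => ‖β n‖ * (n : ℝ) ^ (-σ)) →
  ∃ g : ℕ → ℂ, g 0 = 0 ∧ g 1 = 1 ∧ Summable (fun n : ℕ => ‖g n‖ * (n : ℝ) ^ (-σ)) ∧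
    (∀ s : ℂ, σ ≤ s.re → LSeriesSummable g s ∧ LSeries g s = exp (LSeries β s)) ∧
    (∀ p : ℕ, p.Prime → g p = β p) ∧
    (∀ P : ℕ → Prop, P 1 → (∀ m n, P m → P n → P (m * n)) →
      (∀ n : ℕ, 1 ≤ n → β n ≠ 0 → P n) → ∀ n : ℕ, g n ≠ 0 → P n)

/-- FACT: vanishing of the coefficients at the powers of `p` -/
def T_FACT : Prop := ∀ (β g : ℕ → ℂ) (p : ℕ), p.Prime → (∀ n, ¬ IsPrimePow n → β n = 0) →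
  Summable (fun n : ℕ => ‖β n‖ / n) → Summable (fun n : ℕ => ‖g n‖ / n) →
  (∀ s : ℂ, 1 < s.re → LSeries g s = exp (LSeries β s)) →
  (∑' m : ℕ, g m / m) ≠ 0 →
  (∀ k : ℕ, 1 ≤ k → ∑' m : ℕ, (if p ^ k ∣ m then g m / m else 0) = 0) →
  ∀ k : ℕ, 1 ≤ k → β (p ^ k) = 0

/-- STEP: the arithmetic step -/
def T_STEP : Prop := ∀ (g : ℕ → ℂ) (q : ℝ) (B : ℂ), 0 < q → Summable (fun n : ℕ => ‖g n‖ / n) →
  (∑' m : ℕ, g m / m) ≠ 0 → (∀ α : ℝ, 0 < α → RR g α = B * α * RR (cj g) (-1 / (q * α))) →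
  ∃ q₁ : ℕ, 1 ≤ q₁ ∧ ∀ p : ℕ, p.Prime → ¬ p ∣ q₁ → ∀ k : ℕ, 1 ≤ k →
    ∑' m : ℕ, (if p ^ k ∣ m then g m / m else 0) = 0

/-- AP: `a(p) = b(p)` -/
def T_AP : Prop := ∀ a b : ℕ → ℂ, (∀ n, ¬ IsPrimePow n → b n = 0) →
  (∀ s : ℂ, 1 < s.re → LSeriesSummable a s) → (∀ s : ℂ, 1 < s.re → LSeriesSummable b s) →
  (∀ s : ℂ, 1 < s.re → LSeries a s = exp (LSeries b s)) → ∀ p : ℕ, p.Prime → a p = b p

/-- ZB: `ζ(s)^2 = exp(∑ b2(n) n^(-s))` -/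
def T_ZB : Prop := (∀ n, ¬ IsPrimePow n → b2 n = 0) ∧ (∀ n, ‖b2 n‖ ≤ 2) ∧
  (∀ p k : ℕ, p.Prime → 1 ≤ k → b2 (p ^ k) = 2 / k) ∧
  ∀ s : ℂ, 1 < s.re → LSeriesSummable b2 s ∧ exp (LSeries b2 s) = riemannZeta s ^ 2

/-! ## Part D: the end -/

/-- PHASE: the phase of the quotient of gamma factors on the critical line -/
def T_PHASE : Prop := ∀ (Q : ℝ) (k : ℕ) (l : Fin k → ℝ) (m : Fin k → ℂ), 0 < Q →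
  (∀ j, 0 < l j) → (∀ j, 0 ≤ (m j).re) → ∑ j, l j = 1 → 2 * ∑ j, (m j).im = 0 →
  ∃ (κ : ℝ) (c : ℂ), ‖c‖ = 1 ∧
    Tendsto (fun t : ℝ => gV Q k l m t / (starRingEnd ℂ) (gV Q k l m t) *
      exp (-(κ * t * I))) atTop (𝓝 c)

/-- FIN: an absolutely convergent series with a functional equation of degree zero -/
def T_FIN : Prop := ∀ (β : ℕ → ℂ) (κ : ℝ) (c : ℂ), β 1 = 0 → LSeriesSummable β (1 / 2) →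
  c ≠ 0 → Tendsto (fun t : ℝ => exp (κ * t * I) * (exp (LSeries β (vl (1 / 2) t)) /
    (starRingEnd ℂ) (exp (LSeries β (vl (1 / 2) t))))) atTop (𝓝 c) →
  ∀ n : ℕ, 1 ≤ n → β n = 0

/-- DIV: continuation of `F = ζ^2 exp(∑ β(n) n^(-s))` and division of the functional equations -/
def T_DIV : Prop := ∀ (F : ℂ → ℂ) (β : ℕ → ℂ) (Q : ℝ) (k : ℕ) (l : Fin k → ℝ) (m : Fin k → ℂ)
  (w : ℂ) (σ₀ : ℝ), Cont2 F → FEq F Q k l m w → σ₀ < 1 / 2 →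
  Summable (fun n : ℕ => ‖β n‖ * (n : ℝ) ^ (-σ₀)) →
  (∀ s : ℂ, 1 < s.re → F s = riemannZeta s ^ 2 * exp (LSeries β s)) →
  (∀ s : ℂ, σ₀ < s.re → s ≠ 1 → F s = riemannZeta s ^ 2 * exp (LSeries β s)) ∧
  (∀ t : ℝ, gV Q k l m t * exp (LSeries β (vl (1 / 2) t)) =
    w * (starRingEnd ℂ) (gV Q k l m t * exp (LSeries β (vl (1 / 2) t))))

/-! ## Part E: Landau -/

/-- LAN: the series of `log (F / ζ^2)` converges absolutely at `s = 1` -/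
def T_LAN : Prop := ∀ (F : ℂ → ℂ) (a b : ℕ → ℂ), IsSelberg F a b →
  (∃ c : ℂ, c ≠ 0 ∧ Tendsto (fun s => (s - 1) ^ 2 * F s) (𝓝[≠] 1) (𝓝 c)) →
  (∃ (E : Set ℕ) (η : ℝ), η < 1 ∧
    Summable (fun n : ℕ => E.indicator (fun n : ℕ => (n : ℝ) ^ (-η)) n) ∧
    ∀ p : ℕ, p.Prime → p ∉ E → ‖a p‖ ≤ 2) →
  Summable (fun n : ℕ => ‖b n - b2 n‖ / n)

/-! ## The result -/

/-- MAIN -/
def T_MAIN : Prop := ∀ (F : ℂ → ℂ) (a b : ℕ → ℂ), IsSelberg F a b → DegreeTwo F →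
  (∃ c : ℂ, c ≠ 0 ∧ Tendsto (fun s => (s - 1) ^ 2 * F s) (𝓝[≠] 1) (𝓝 c)) →
  (∃ (E : Set ℕ) (η : ℝ), η < 1 ∧
    Summable (fun n : ℕ => E.indicator (fun n : ℕ => (n : ℝ) ^ (-η)) n) ∧
    ∀ p : ℕ, p.Prime → p ∉ E → ‖a p‖ ≤ 2) →
  ∀ s : ℂ, s ≠ 1 → F s = riemannZeta s ^ 2

end

end Pool.Agent.SelTwo
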