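import Pool.Agent.SelTwo.Targets

/-! G1: Stirling's formula on a vertical line, with explicit main term. -/

namespace Pool.Agent.SelTwo

open Complex Filter Topology MeasureTheory
open Pool.Agent.SelPole

theorem p_G1 (h : T_STIR) : T_G1 := by
  intro l σ m hl
  set c0 : ℂ := (l : ℂ) * σ + m with hc0
  obtain ⟨C₁, hC₁⟩ := h |c0.re|
  refine ⟨(2 * |C₁| + 3 * ‖c0‖ ^ 2 + ‖c0‖ / 2) / l, max 1 ((2 + 2 * ‖c0‖ + 2 * |m.im|) / l),
    le_max_left _ _, ?_⟩
  intro t ht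
  have ht1 : 1 ≤ t := (le_max_left _ _).trans ht
  have ht0 : 0 < t := by linarith
  have hlt : 2 + 2 * ‖c0‖ + 2 * |m.im| ≤ l * t := by
    have := (le_max_right _ _).trans ht
    rw [div_le_iff₀ hl] at this
    linarith
  have hc0n : 0 ≤ ‖c0‖ := norm_nonneg _
  have hmn : 0 ≤ |m.im| := abs_nonneg _
  have hlt0 : 0 < l * t := mul_pos hl ht0
  set x : ℝ := l * t with hx
  -- the point
  have hz : (l : ℂ) * vl σ t + m = (x : ℂ) * I + c0 := by
    simp only [vl, hc0, hx]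
    push_cast
    ring
  have hxne : ((x : ℂ) * I) ≠ 0 :=
    mul_ne_zero (by exact_mod_cast hlt0.ne') I_ne_zero
  set v : ℂ := c0 / ((x : ℂ) * I) with hv
  have hvn : ‖v‖ = ‖c0‖ / x := by
    rw [hv, norm_div, norm_mul, norm_I, mul_one, Complex.norm_real, Real.norm_of_nonneg hlt0.le]
  have hv2 : ‖v‖ ≤ 1 / 2 := by
    rw [hvn, div_le_iff₀ hlt0]
    linarith
  have hvx : v * ((x : ℂ) * I) = c0 := div_mul_cancel₀ c0 hxne
  have hzv : (x : ℂ) * I + c0 = (x : ℂ) * I * (1 + v) := by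
    linear_combination -hvx
  have h1v : (1 + v) ≠ 0 := by
    intro h0
    have : v = -1 := by linear_combination h0
    rw [this, norm_neg, norm_one] at hv2
    linarith
  have hre : 0 < (1 + v).re := by
    have := Complex.abs_re_le_norm v
    rw [abs_le] at this
    rw [Complex.add_re, Complex.one_re]
    linarith
  -- the logarithm
  have hlogx : log ((x : ℂ) * I) = (Real.log t : ℂ) + (Real.log l : ℂ) + (Real.pi / 2 : ℝ) * I := by
    rw [Complex.log_ofReal_mul hlt0 I_ne_zero, Complex.log_I, hx, Real.log_mul hl.ne' ht0.ne']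
    push_cast
    ring
  have hargx : arg ((x : ℂ) * I) = Real.pi / 2 := by
    rw [Complex.arg_real_mul _ hlt0, Complex.arg_I]
  have hargv : |arg (1 + v)| < Real.pi / 2 :=
    Complex.abs_arg_lt_pi_div_two_iff.2 (Or.inl hre)
  rw [abs_lt] at hargv
  have hpi := Real.pi_pos
  have hlog : log ((x : ℂ) * I + c0) =
      (Real.log t : ℂ) + (Real.log l : ℂ) + (Real.pi / 2 : ℝ) * I + log (1 + v) := by
    rw [hzv, (Complex.log_mul_eq_add_log_iff hxne h1v).2, hlogx]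
    rw [hargx]
    constructor <;> linarith
  have hE2 : ‖log (1 + v) - v‖ ≤ ‖v‖ ^ 2 := by
    refine (Complex.norm_log_one_add_sub_self_le (by linarith)).trans ?_
    have h1 : (1 - ‖v‖)⁻¹ / 2 ≤ 1 := by
      have h2 : (1 - ‖v‖)⁻¹ ≤ 2 := by
        rw [inv_le_comm₀ (by linarith) (by norm_num)]
        linarith
      linarith
    calc ‖v‖ ^ 2 * (1 - ‖v‖)⁻¹ / 2 = ‖v‖ ^ 2 * ((1 - ‖v‖)⁻¹ / 2) := by ring
      _ ≤ ‖v‖ ^ 2 * 1 := mul_le_mul_of_nonneg_left h1 (by positivity)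
      _ = ‖v‖ ^ 2 := mul_one _
  -- the imaginary part
  have him : ((x : ℂ) * I + c0).im = x + m.im := by
    simp [hc0]
  have hre2 : ((x : ℂ) * I + c0).re = c0.re := by
    simp
  have him2 : x / 2 ≤ ((x : ℂ) * I + c0).im := by
    rw [him]
    have := neg_abs_le m.im
    linarith
  have himabs : x / 2 ≤ |((x : ℂ) * I + c0).im| := him2.trans (le_abs_self _)
  obtain ⟨e₁, he₁, hG⟩ := hC₁ ((x : ℂ) * I + c0) (by rw [hre2]) (by linarith)
  refine ⟨e₁ + c0 ^ 2 / ((x : ℂ) * I) - v / 2 + ((x : ℂ) * I + c0 - 1 / 2) * (log (1 + v) - v),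
    ?_, ?_⟩
  · have b1 : ‖e₁‖ ≤ 2 * |C₁| / x := by
      refine he₁.trans ?_
      rw [div_le_div_iff₀ (by linarith) hlt0]
      have h3 : C₁ ≤ |C₁| := le_abs_self _
      have h4 : 0 ≤ |C₁| := abs_nonneg _
      nlinarith
    have b2 : ‖c0 ^ 2 / ((x : ℂ) * I)‖ = ‖c0‖ ^ 2 / x := by
      rw [norm_div, norm_mul, norm_I, mul_one, Complex.norm_real, Real.norm_of_nonneg hlt0.le,
        norm_pow]
    have b3 : ‖v / 2‖ = ‖c0‖ / 2 / x := by
      rw [norm_div, hvn]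
      norm_num
      ring
    have b4 : ‖((x : ℂ) * I + c0 - 1 / 2) * (log (1 + v) - v)‖ ≤ 2 * ‖c0‖ ^ 2 / x := by
      rw [norm_mul]
      have h5 : ‖(x : ℂ) * I + c0 - 1 / 2‖ ≤ 2 * x := by
        calc ‖(x : ℂ) * I + c0 - 1 / 2‖ ≤ ‖(x : ℂ) * I + c0‖ + ‖(1 / 2 : ℂ)‖ := norm_sub_le _ _
          _ ≤ ‖(x : ℂ) * I‖ + ‖c0‖ + ‖(1 / 2 : ℂ)‖ := by
            have := norm_add_le ((x : ℂ) * I) c0
            linarith
          _ ≤ 2 * x := by
            rw [norm_mul, norm_I, mul_one, Complex.norm_real, Real.norm_of_nonneg hlt0.le]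
            norm_num
            linarith
      calc ‖(x : ℂ) * I + c0 - 1 / 2‖ * ‖log (1 + v) - v‖ ≤ 2 * x * ‖v‖ ^ 2 :=
            mul_le_mul h5 hE2 (norm_nonneg _) (by positivity)
        _ = 2 * ‖c0‖ ^ 2 / x := by
          rw [hvn]
          field_simp
    have b5 : (2 * |C₁| + 3 * ‖c0‖ ^ 2 + ‖c0‖ / 2) / l / t =
        2 * |C₁| / x + ‖c0‖ ^ 2 / x + ‖c0‖ / 2 / x + 2 * ‖c0‖ ^ 2 / x := by
      rw [hx]
      field_simp
      ring
    rw [b5]
    refine (norm_add_le _ _).trans ?_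
    refine add_le_add ?_ b4
    refine (norm_sub_le _ _).trans ?_
    refine add_le_add ?_ b3.le
    refine (norm_add_le _ _).trans ?_
    exact add_le_add b1 b2.le
  · rw [hz, hG, hlog]
    congr 1
    have h6 : c0 ^ 2 / ((x : ℂ) * I) = c0 * v := by
      rw [hv]
      ring
    rw [h6]
    linear_combination hvx

end Pool.Agent.SelTwo
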