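import Pool.Agent.SelTwo.Targets

/-! The function `G(s) = (s-1)^2 F(s)` is entire of finite order if `F` has a double pole. -/

namespace Pool.Agent.SelTwo

open Complex Filter Topology MeasureTheory
open Pool.Agent.SelPole

noncomputable section

theorem cont2_of {F : ℂ → ℂ}
    (h : ∃ (m : ℕ) (g : ℂ → ℂ), Differentiable ℂ g ∧ FiniteOrder g ∧
      ∀ s : ℂ, s ≠ 1 → g s = (s - 1) ^ m * F s)
    (hc : ∃ c : ℂ, c ≠ 0 ∧ Tendsto (fun s => (s - 1) ^ 2 * F s) (𝓝[≠] 1) (𝓝 c)) : Cont2 F := by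
  obtain ⟨m, g, hg, ⟨A, C, hA⟩, hgF⟩ := h
  obtain ⟨c, -, hc⟩ := hc
  set G : ℂ → ℂ := Function.update (fun s => (s - 1) ^ 2 * F s) 1 c with hG
  have hGne : ∀ s : ℂ, s ≠ 1 → G s = (s - 1) ^ 2 * F s := fun s hs => by
    simp [hG, Function.update_of_ne hs]
  have hG1 : G 1 = c := by simp [hG]
  have hFd : ∀ s : ℂ, s ≠ 1 → DifferentiableAt ℂ F s := by
    intro s hs
    have h1 : DifferentiableAt ℂ (fun z => g z / (z - 1) ^ m) s := by
      refine (hg s).div ?_ (pow_ne_zero m (sub_ne_zero.2 hs))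
      fun_prop
    refine h1.congr_of_eventuallyEq ?_
    filter_upwards [isOpen_ne.mem_nhds hs] with z hz
    rw [hgF z hz, mul_div_cancel_left₀ _ (pow_ne_zero m (sub_ne_zero.2 hz))]
  have hGd : ∀ s : ℂ, s ≠ 1 → DifferentiableAt ℂ G s := by
    intro s hs
    have h1 : DifferentiableAt ℂ (fun z => (z - 1) ^ 2 * F z) s := by
      refine DifferentiableAt.mul ?_ (hFd s hs)
      fun_prop
    refine h1.congr_of_eventuallyEq ?_
    filter_upwards [isOpen_ne.mem_nhds hs] with z hz using hGne z hz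
  have hGc : ContinuousAt G 1 := by
    rw [hG, continuousAt_update_same]
    exact hc
  have hGdiff : Differentiable ℂ G := by
    intro s
    by_cases hs : s = 1
    · subst hs
      refine (analyticAt_of_differentiable_on_punctured_nhds_of_continuousAt ?_ hGc).differentiableAt
      filter_upwards [self_mem_nhdsWithin] with z hz using hGd z hz
    · exact hGd s hs
  refine ⟨G, hGdiff, ?_, hGne⟩
  -- finite order
  obtain ⟨M, hM⟩ := (isCompact_closedBall (1 : ℂ) 1).exists_bound_of_continuousOn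
    hGdiff.continuous.continuousOn
  have hM0 : 0 ≤ M := (norm_nonneg _).trans (hM 1 (by simp))
  set B : ℝ := max A 1 with hB
  have hB1 : 1 ≤ B := le_max_right _ _
  have key : ∀ y : ℝ, 1 ≤ y → y ^ A + 2 * y ≤ y ^ (B + 1) + 3 * (3 : ℝ) ^ B := by
    intro y hy
    have h1 : y ^ A ≤ y ^ B := Real.rpow_le_rpow_of_exponent_le hy (le_max_left _ _)
    have h2 : y ≤ y ^ B := by
      calc y = y ^ (1 : ℝ) := (Real.rpow_one y).symm
        _ ≤ y ^ B := Real.rpow_le_rpow_of_exponent_le hy hB1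
    have h3 : y ^ A + 2 * y ≤ 3 * y ^ B := by linarith
    have hy0 : 0 < y := by linarith
    rcases le_total y 3 with h4 | h4
    · have h5 : y ^ B ≤ (3 : ℝ) ^ B := Real.rpow_le_rpow hy0.le h4 (by linarith)
      have h6 : 0 ≤ y ^ (B + 1) := Real.rpow_nonneg hy0.le _
      linarith
    · have h5 : y ^ (B + 1) = y * y ^ B := by
        rw [Real.rpow_add hy0, Real.rpow_one, mul_comm]
      have h6 : 3 * y ^ B ≤ y * y ^ B := mul_le_mul_of_nonneg_right h4 (Real.rpow_nonneg hy0.le _)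
      have h7 : 0 ≤ 3 * (3 : ℝ) ^ B := by positivity
      rw [h5]; linarith
  refine ⟨B + 1, max M (|C| * Real.exp (3 * (3 : ℝ) ^ B)), fun s => ?_⟩
  have hexp1 : 1 ≤ Real.exp ((1 + ‖s‖) ^ (B + 1)) := Real.one_le_exp (by positivity)
  rcases le_total ‖s - 1‖ 1 with h1 | h1
  · have h2 : ‖G s‖ ≤ M := hM s (by simpa [Complex.dist_eq] using h1)
    calc ‖G s‖ ≤ M := h2
      _ ≤ max M (|C| * Real.exp (3 * (3 : ℝ) ^ B)) * 1 := by rw [mul_one]; exact le_max_left _ _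
      _ ≤ _ := mul_le_mul_of_nonneg_left hexp1 (hM0.trans (le_max_left _ _))
  · have hs1 : s ≠ 1 := by
      rintro rfl; simp at h1; linarith
    have hpos : 0 < ‖s - 1‖ := by linarith
    have hle : ‖s - 1‖ ≤ 1 + ‖s‖ := by
      calc ‖s - 1‖ ≤ ‖s‖ + ‖(1 : ℂ)‖ := norm_sub_le _ _
        _ = 1 + ‖s‖ := by rw [norm_one]; ring
    have hgn : ‖g s‖ = ‖s - 1‖ ^ m * ‖F s‖ := by rw [hgF s hs1, norm_mul, norm_pow]
    have hFle : ‖F s‖ ≤ ‖g s‖ := by
      rw [hgn]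
      exact le_mul_of_one_le_left (norm_nonneg _) (one_le_pow₀ h1)
    have h2 : ‖G s‖ ≤ (1 + ‖s‖) ^ 2 * ‖g s‖ := by
      rw [hGne s hs1, norm_mul, norm_pow]
      gcongr
    have h3 : ‖g s‖ ≤ |C| * Real.exp ((1 + ‖s‖) ^ A) :=
      (hA s).trans (mul_le_mul_of_nonneg_right (le_abs_self _) (Real.exp_pos _).le)
    have h4 : (1 + ‖s‖) ^ 2 ≤ Real.exp (2 * (1 + ‖s‖)) := by
      have h5 : 1 + ‖s‖ ≤ Real.exp (1 + ‖s‖) := by
        have := Real.add_one_le_exp (1 + ‖s‖)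
        linarith
      calc (1 + ‖s‖) ^ 2 ≤ Real.exp (1 + ‖s‖) ^ 2 := by gcongr
        _ = _ := by rw [← Real.exp_nat_mul]; norm_num
    calc ‖G s‖ ≤ (1 + ‖s‖) ^ 2 * ‖g s‖ := h2
      _ ≤ Real.exp (2 * (1 + ‖s‖)) * (|C| * Real.exp ((1 + ‖s‖) ^ A)) := by gcongr
      _ = |C| * Real.exp ((1 + ‖s‖) ^ A + 2 * (1 + ‖s‖)) := by rw [Real.exp_add]; ring
      _ ≤ |C| * Real.exp ((1 + ‖s‖) ^ (B + 1) + 3 * (3 : ℝ) ^ B) := by
          refine mul_le_mul_of_nonneg_left (Real.exp_le_exp.2 ?_) (abs_nonneg _)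
          exact key (1 + ‖s‖) (by have := norm_nonneg s; linarith)
      _ = |C| * Real.exp (3 * (3 : ℝ) ^ B) * Real.exp ((1 + ‖s‖) ^ (B + 1)) := by
          rw [Real.exp_add]; ring
      _ ≤ _ := mul_le_mul_of_nonneg_right (le_max_right _ _) (Real.exp_pos _).le

end

end Pool.Agent.SelTwo
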