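import Pool.Agent.SelTwo.Targets
import Pool.Agent.SelPole.Class

/-! DIV: continuation of `F = ζ^2 exp(∑ β(n) n^(-s))` and division of the functional equations. -/

namespace Pool.Agent.SelTwo

open Complex Filter Topology MeasureTheory
open Pool.Agent.SelPole

theorem div_abscissa {β : ℕ → ℂ} {σ₀ : ℝ} (h : Summable (fun n : ℕ => ‖β n‖ * (n : ℝ) ^ (-σ₀))) :
    LSeries.abscissaOfAbsConv β ≤ (σ₀ : ℝ) := by
  have h1 : LSeriesSummable β (σ₀ : ℂ) := by
    refine Summable.of_norm_bounded h (fun n => ?_)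
    rw [LSeries.norm_term_eq]
    split_ifs with hn
    · positivity
    · rw [Complex.ofReal_re, Real.rpow_neg (Nat.cast_nonneg n), div_eq_mul_inv]
  have h2 := h1.abscissaOfAbsConv_le
  simpa using h2

/-- `Gammaℝ s * ζ s` is real on the critical line. -/
theorem completed_real (t : ℝ) :
    (starRingEnd ℂ) (Gammaℝ (vl (1 / 2) t) * riemannZeta (vl (1 / 2) t)) =
      Gammaℝ (vl (1 / 2) t) * riemannZeta (vl (1 / 2) t) := by
  set s : ℂ := vl (1 / 2) t with hs
  have hsre : s.re = 1 / 2 := by simp [hs, vl]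
  have hs0 : s ≠ 0 := by intro h; rw [h] at hsre; norm_num at hsre
  have key : ∀ z : ℂ, z.re = 1 / 2 → completedRiemannZeta z = Gammaℝ z * riemannZeta z := by
    intro z hz
    have hz0 : z ≠ 0 := by intro h; rw [h] at hz; norm_num at hz
    have hG : Gammaℝ z ≠ 0 := Gammaℝ_ne_zero_of_re_pos (by rw [hz]; norm_num)
    rw [riemannZeta_def_of_ne_zero hz0]; field_simp
  have hc : (starRingEnd ℂ) s = 1 - s := by
    apply Complex.ext
    · simp [hsre]; norm_num
    · simp
  have hcre : ((starRingEnd ℂ) s).re = 1 / 2 := by simp [hsre]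
  have hGc : (starRingEnd ℂ) (Gammaℝ s) = Gammaℝ ((starRingEnd ℂ) s) := by
    rw [Gammaℝ_def, Gammaℝ_def, map_mul, ← Complex.Gamma_conj]
    congr 1
    · have h1 : ((Real.pi : ℂ)).arg ≠ Real.pi := by
        rw [Complex.arg_ofReal_of_nonneg Real.pi_pos.le]; exact Real.pi_pos.ne
      have h2 := Complex.cpow_conj (Real.pi : ℂ) (-s / 2) h1
      rw [Complex.conj_ofReal] at h2
      rw [← h2]
      congr 1
      rw [map_div₀, map_neg, Complex.conj_ofNat]
    · congr 1
      rw [map_div₀, Complex.conj_ofNat]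
  rw [map_mul, ← riemannZeta_conj, hGc, ← key _ hcre, hc, completedRiemannZeta_one_sub, key s hsre]

theorem p_DIV : T_DIV := by
  intro F β Q k l m w σ₀ hF hFE hσ hsum hEq
  have hab := div_abscissa hsum
  set L : ℂ → ℂ := LSeries β with hL
  have hLd : ∀ s : ℂ, σ₀ < s.re → DifferentiableAt ℂ L s := fun s hs =>
    (LSeries_hasDerivAt (lt_of_le_of_lt hab (by exact_mod_cast hs))).differentiableAt
  obtain ⟨g, hg, _, hge⟩ := hF
  obtain ⟨mz, gz, hgz, hgze⟩ := zeta_toEulerFE.cont
  set V : Set ℂ := {s | σ₀ < s.re} with hV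
  have hVo : IsOpen V := isOpen_lt continuous_const continuous_re
  have hVc : IsPreconnected V := (convex_halfSpace_re_gt σ₀).isPreconnected
  have hcont : ∀ s : ℂ, σ₀ < s.re → s ≠ 1 → F s = riemannZeta s ^ 2 * exp (L s) := by
    have hE : Set.EqOn (fun s => g s * (s - 1) ^ (2 * mz))
        (fun s => (s - 1) ^ 2 * gz s ^ 2 * exp (L s)) V := by
      refine AnalyticOnNhd.eqOn_of_preconnected_of_eventuallyEq (𝕜 := ℂ) (z₀ := 2) ?_ ?_ hVc
        (by simp [hV]; linarith) ?_
      · refine DifferentiableOn.analyticOnNhd (fun s hs' => ?_) hVo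
        have h2 := hg s
        exact DifferentiableAt.differentiableWithinAt (by fun_prop)
      · refine DifferentiableOn.analyticOnNhd (fun s hs' => ?_) hVo
        have h1 := hLd s hs'
        have h2 := hgz s
        exact DifferentiableAt.differentiableWithinAt (by fun_prop)
      · have hUo : IsOpen {s : ℂ | 1 < s.re} := isOpen_lt continuous_const continuous_re
        filter_upwards [hUo.mem_nhds (show (2 : ℂ) ∈ {s : ℂ | 1 < s.re} by simp)] with s hs'
        have hs1 : s ≠ 1 := by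
          intro h; rw [h] at hs'; simp at hs'
        rw [hge s hs1, hgze s hs1, hEq s hs']
        ring
    intro s hs hs1
    have h1 := hE hs
    simp only at h1
    rw [hge s hs1, hgze s hs1] at h1
    have h2 : (s - 1) ≠ 0 := sub_ne_zero.mpr hs1
    have h3 : (s - 1) ^ 2 * (s - 1) ^ (2 * mz) ≠ 0 :=
      mul_ne_zero (pow_ne_zero _ h2) (pow_ne_zero _ h2)
    apply mul_left_cancel₀ h3
    linear_combination h1
  refine ⟨hcont, ?_⟩
  obtain ⟨hQ, hl, hm, hw, hfe⟩ := hFE
  have hvre : ∀ t : ℝ, (vl (1 / 2) t).re = 1 / 2 := fun t => by simp [vl]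
  -- the functional equation where zeta does not vanish
  have hmain : ∀ t : ℝ, riemannZeta (vl (1 / 2) t) ≠ 0 →
      gV Q k l m t * exp (L (vl (1 / 2) t)) =
        w * (starRingEnd ℂ) (gV Q k l m t * exp (L (vl (1 / 2) t))) := by
    intro t hz
    set s : ℂ := vl (1 / 2) t with hs
    have hsre : s.re = 1 / 2 := hvre t
    have hs1 : s ≠ 1 := by intro h; rw [h] at hsre; norm_num at hsre
    have hc : 1 - (starRingEnd ℂ) s = s := by
      apply Complex.ext
      · simp [hsre]; norm_num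
      · simp
    have h1 := hfe s (by rw [hsre]; norm_num) (by rw [hsre]; norm_num)
    rw [hc] at h1
    have hG0 : Gamma (s / 2) ≠ 0 := by
      apply Complex.Gamma_ne_zero_of_re_pos
      have : (s / 2).re = s.re / 2 := by simp
      rw [this, hsre]; norm_num
    have hGR0 : Gammaℝ s ≠ 0 := Gammaℝ_ne_zero_of_re_pos (by rw [hsre]; norm_num)
    set Λ : ℂ := Gammaℝ s * riemannZeta s with hΛ
    have hΛ0 : Λ ≠ 0 := mul_ne_zero hGR0 hz
    have hΛr : (starRingEnd ℂ) Λ = Λ := completed_real t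
    -- the real factor
    set r : ℂ := ((Real.sqrt (Real.pi * Q) : ℝ) : ℂ) * Λ ^ 2 with hr
    have hr0 : r ≠ 0 := by
      refine mul_ne_zero ?_ (pow_ne_zero _ hΛ0)
      have : 0 < Real.sqrt (Real.pi * Q) := Real.sqrt_pos.mpr (mul_pos Real.pi_pos hQ)
      exact_mod_cast this.ne'
    have hrr : (starRingEnd ℂ) r = r := by
      rw [hr, map_mul, map_pow, hΛr, Complex.conj_ofReal]
    have hkey : (Q : ℂ) ^ s * (∏ j, Gamma (l j * s + m j)) * F s
        = r * (gV Q k l m t * exp (L s)) := by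
      rw [hcont s (by rw [hsre]; exact hσ) hs1]
      have hpi0 : (Real.pi : ℂ) ≠ 0 := by exact_mod_cast Real.pi_ne_zero
      have hQ0 : (Q : ℂ) ≠ 0 := by exact_mod_cast hQ.ne'
      have hPQ : ((Real.pi * Q : ℝ) : ℂ) ≠ 0 := by exact_mod_cast (mul_pos Real.pi_pos hQ).ne'
      -- powers of `π Q`
      have e1 : ((Real.pi * Q : ℝ) : ℂ) ^ s
          = ((Real.sqrt (Real.pi * Q) : ℝ) : ℂ) * ((Real.pi * Q : ℝ) : ℂ) ^ ((t : ℂ) * I) := by
        rw [hs, vl, Complex.cpow_add _ _ hPQ, ← Complex.ofReal_cpow (mul_pos Real.pi_pos hQ).le,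
          Real.sqrt_eq_rpow]
      have e2 : ((Real.pi * Q : ℝ) : ℂ) ^ s = (Real.pi : ℂ) ^ s * (Q : ℂ) ^ s := by
        rw [Complex.ofReal_mul, Complex.mul_cpow_ofReal_nonneg Real.pi_pos.le hQ.le]
      -- `Gammaℝ(s)^2 π^s = Γ(s/2)^2`
      have e3 : Gammaℝ s ^ 2 * (Real.pi : ℂ) ^ s = Gamma (s / 2) ^ 2 := by
        rw [Gammaℝ_def, mul_pow, ← Complex.cpow_nat_mul]
        have e4 : ((2 : ℕ) : ℂ) * (-s / 2) = -s := by push_cast; ring
        rw [e4, Complex.cpow_neg]
        have e5 : (Real.pi : ℂ) ^ s ≠ 0 := by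
          rw [Ne, Complex.cpow_eq_zero_iff]; exact fun h => hpi0 h.1
        field_simp
      have e6 : (Real.pi : ℂ) ^ s ≠ 0 := by
        rw [Ne, Complex.cpow_eq_zero_iff]; exact fun h => hpi0 h.1
      have e7 : ((Real.sqrt (Real.pi * Q) : ℝ) : ℂ) * ((Real.pi * Q : ℝ) : ℂ) ^ ((t : ℂ) * I)
          = (Real.pi : ℂ) ^ s * (Q : ℂ) ^ s := by rw [← e1, e2]
      rw [hr, hΛ, gV, ← hs]
      have hG2 : Gamma (s / 2) ^ 2 ≠ 0 := pow_ne_zero _ hG0
      have e8 : ((Real.sqrt (Real.pi * Q) : ℝ) : ℂ) * (Gammaℝ s * riemannZeta s) ^ 2 *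
          (((Real.pi * Q : ℝ) : ℂ) ^ ((t : ℂ) * I) * (∏ j, Gamma ((l j : ℂ) * s + m j)) *
            (Gamma (s / 2) ^ 2)⁻¹ * exp (L s))
          = (((Real.sqrt (Real.pi * Q) : ℝ) : ℂ) * ((Real.pi * Q : ℝ) : ℂ) ^ ((t : ℂ) * I)) *
            Gammaℝ s ^ 2 * (Gamma (s / 2) ^ 2)⁻¹ * riemannZeta s ^ 2 *
            (∏ j, Gamma ((l j : ℂ) * s + m j)) * exp (L s) := by ring
      rw [e8, e7]
      have e9 : (Real.pi : ℂ) ^ s * (Q : ℂ) ^ s * Gammaℝ s ^ 2 * (Gamma (s / 2) ^ 2)⁻¹
          = (Q : ℂ) ^ s := by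
        rw [← e3]
        have h9 : Gammaℝ s ^ 2 ≠ 0 := pow_ne_zero _ hGR0
        field_simp
      rw [e9]
      ring
    rw [hkey, map_mul, hrr] at h1
    apply mul_left_cancel₀ hr0
    linear_combination h1
  -- continuity
  have hvc : Continuous (fun t : ℝ => vl (1 / 2) t) := by
    simp only [vl]
    fun_prop
  have hLc : Continuous (fun t : ℝ => L (vl (1 / 2) t)) := by
    rw [continuous_iff_continuousAt]
    intro t
    have h1 : ContinuousAt L (vl (1 / 2) t) := (hLd _ (by rw [hvre]; exact hσ)).continuousAt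
    exact ContinuousAt.comp (f := fun t : ℝ => vl (1 / 2) t) h1 hvc.continuousAt
  have hVcont : Continuous (fun t : ℝ => gV Q k l m t) := by
    simp only [gV]
    have hPQ : ((Real.pi * Q : ℝ) : ℂ) ≠ 0 := by exact_mod_cast (mul_pos Real.pi_pos hQ).ne'
    refine Continuous.mul (Continuous.mul ?_ ?_) ?_
    · exact Continuous.const_cpow (by fun_prop) (Or.inl hPQ)
    · refine continuous_finsetProd _ (fun j _ => ?_)
      rw [continuous_iff_continuousAt]
      intro t
      have hre : 0 < ((l j : ℂ) * vl (1 / 2) t + m j).re := by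
        have h1 : ((l j : ℂ) * vl (1 / 2) t + m j).re = l j * (1 / 2) + (m j).re := by
          simp [vl]
        rw [h1]
        have h2 := hl j
        have h3 := hm j
        linarith
      have h1 : ContinuousAt Gamma ((l j : ℂ) * vl (1 / 2) t + m j) := by
        apply (Complex.differentiableAt_Gamma _ _).continuousAt
        intro n h
        rw [h] at hre
        simp at hre
        have : (0 : ℝ) ≤ n := Nat.cast_nonneg n
        linarith
      exact ContinuousAt.comp (f := fun t : ℝ => (l j : ℂ) * vl (1 / 2) t + m j) h1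
        (by fun_prop)
    · have h1 : Continuous (fun s : ℂ => (Gamma s)⁻¹) :=
        Complex.differentiable_one_div_Gamma.continuous
      have h2 : Continuous (fun t : ℝ => ((Gamma (vl (1 / 2) t / 2))⁻¹) ^ 2) :=
        (h1.comp (hvc.div_const 2)).pow 2
      simpa only [inv_pow] using h2
  have hlc : Continuous (fun t : ℝ => gV Q k l m t * exp (L (vl (1 / 2) t))) :=
    hVcont.mul (Complex.continuous_exp.comp hLc)
  have hrc : Continuous (fun t : ℝ => w * (starRingEnd ℂ) (gV Q k l m t * exp (L (vl (1 / 2) t)))) :=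
    continuous_const.mul (Complex.continuous_conj.comp hlc)
  have hdense : Dense {t : ℝ | riemannZeta (((1 / 2 : ℝ) : ℂ) + t * I) ≠ 0} :=
    dense_nonzero zeta_toEulerFE (by norm_num)
  have hfin := Continuous.ext_on hdense hlc hrc (fun t ht => hmain t ht)
  exact fun t => congrFun hfin t

end Pool.Agent.SelTwo
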