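import Pool.Agent.SelTwo.Targets

/-!
# ERR: the error term
-/

namespace Pool.Agent.SelTwo

open Complex Filter Topology MeasureTheory Set

theorem ERR_abs {f : ℝ → ℝ} (hf : IntegrableOn f (Ioi 0)) : Integrable (fun x => f |x|) := by
  have hf' : IntegrableOn (fun x => f |x|) (Ioi 0) := by
    refine hf.congr_fun (fun x hx => ?_) measurableSet_Ioi
    rw [abs_of_pos hx]
  have int_Iic : IntegrableOn (fun x ↦ f |x|) (Iic 0) := by
    rw [← Measure.map_neg_eq_self (volume : Measure ℝ)]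
    let m : MeasurableEmbedding fun x : ℝ => -x := (Homeomorph.neg ℝ).measurableEmbedding
    rw [m.integrableOn_map_iff]
    simp_rw [Function.comp_def, abs_neg, neg_preimage, neg_Iic, neg_zero]
    exact Iff.mpr integrableOn_Ici_iff_integrableOn_Ioi hf'
  rw [← integrableOn_univ, ← Iic_union_Ioi (a := (0 : ℝ))]
  exact int_Iic.union hf'

theorem ERR_exp {δ : ℝ} (hδ : 0 < δ) : Integrable (fun x : ℝ => Real.exp (-δ * |x|)) ∧
    ∫ x : ℝ, Real.exp (-δ * |x|) = 2 / δ := by
  constructor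
  · exact ERR_abs (f := fun x => Real.exp (-δ * x)) (integrableOn_exp_mul_Ioi (by linarith) 0)
  · rw [integral_comp_abs (f := fun x => Real.exp (-δ * x)), integral_exp_mul_Ioi (by linarith) 0]
    have := hδ.ne'
    simp
    field_simp

theorem p_ERR : T_ERR := by
  intro K C₁ B hK hC₁ hB
  refine ⟨6 * K * (C₁ * K ^ (1 / 2 : ℝ) * B), ?_⟩
  intro X hre him _ hXK E h hE hh hE1 hE2 hB'
  set D : ℝ := C₁ * K ^ (1 / 2 : ℝ) * B with hD
  have hD0 : 0 ≤ D := by positivity
  have hX0 : X ≠ 0 := by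
    intro h0
    rw [h0] at hre
    simp at hre
  have hnX : 0 < ‖X‖ := norm_pos_iff.2 hX0
  have harg0 : arg X < 0 := arg_neg_iff.2 him
  have harg1 : -(Real.pi / 2) < arg X := by
    have := (abs_arg_lt_pi_div_two_iff.2 (Or.inl hre))
    exact (abs_lt.1 this).1
  set δ : ℝ := Real.pi / 2 + arg X with hδ
  have hδ0 : 0 < δ := by linarith
  -- lower bound for `δ`
  have hδK : X.re / K ≤ δ := by
    have h1 : Real.sin δ = X.re / ‖X‖ := by
      rw [hδ, add_comm, Real.sin_add_pi_div_two, Complex.cos_arg hX0]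
    have h2 : Real.sin δ ≤ δ := Real.sin_le hδ0.le
    have h3 : X.re / K ≤ X.re / ‖X‖ := by gcongr
    linarith
  have hreK : X.re ≤ K := (re_le_norm X).trans hXK
  -- pointwise bound
  have hbound : ∀ τ : ℝ, ‖E τ * X ^ (vl (3 / 2) τ - 1) * h τ‖ ≤
      D * (Real.exp (-(1 / 2) * |τ|) + Real.exp (-δ * |τ|)) := by
    intro τ
    have hw : ‖X ^ (vl (3 / 2) τ - 1)‖ = ‖X‖ ^ (1 / 2 : ℝ) * Real.exp (-(arg X * τ)) := by
      rw [norm_cpow_of_ne_zero hX0, Real.exp_neg]
      have h1 : (vl (3 / 2) τ - 1).re = 1 / 2 := by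
        simp [vl]; norm_num
      have h2 : (vl (3 / 2) τ - 1).im = τ := by
        simp [vl]
      rw [h1, h2]
      rfl
    have hpow : ‖X‖ ^ (1 / 2 : ℝ) ≤ K ^ (1 / 2 : ℝ) :=
      Real.rpow_le_rpow hnX.le hXK (by norm_num)
    have hEX : ‖E τ‖ * Real.exp (-(arg X * τ)) ≤
        C₁ * (Real.exp (-(1 / 2) * |τ|) + Real.exp (-δ * |τ|)) := by
      rcases le_total 0 τ with hτ | hτ
      · have h1 := hE1 τ hτ
        rw [abs_of_nonneg hτ]
        calc ‖E τ‖ * Real.exp (-(arg X * τ))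
            ≤ C₁ * Real.exp (-(Real.pi * τ / 2)) * Real.exp (-(arg X * τ)) := by gcongr
          _ = C₁ * Real.exp (-δ * τ) := by
              rw [mul_assoc, ← Real.exp_add, hδ]; ring_nf
          _ ≤ C₁ * (Real.exp (-(1 / 2) * τ) + Real.exp (-δ * τ)) := by
              gcongr
              linarith [Real.exp_pos (-(1 / 2) * τ)]
      · have h1 := hE2 τ hτ
        have h2 : 1 + |τ| ≤ Real.exp |τ| := by linarith [Real.add_one_le_exp |τ|]
        have h3 : Real.exp (-(arg X * τ)) ≤ 1 := by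
          rw [Real.exp_le_one_iff]
          nlinarith
        calc ‖E τ‖ * Real.exp (-(arg X * τ))
            ≤ (C₁ * (1 + |τ|) * Real.exp (Real.pi * τ / 2)) * 1 := by gcongr
          _ ≤ C₁ * Real.exp |τ| * Real.exp (Real.pi * τ / 2) := by
              rw [mul_one]; gcongr
          _ = C₁ * Real.exp (|τ| + Real.pi * τ / 2) := by
              rw [mul_assoc, ← Real.exp_add]
          _ ≤ C₁ * Real.exp (-(1 / 2) * |τ|) := by
              gcongr
              rw [abs_of_nonpos hτ]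
              nlinarith [Real.pi_gt_three]
          _ ≤ C₁ * (Real.exp (-(1 / 2) * |τ|) + Real.exp (-δ * |τ|)) := by
              gcongr
              linarith [Real.exp_pos (-δ * |τ|)]
    calc ‖E τ * X ^ (vl (3 / 2) τ - 1) * h τ‖
        = (‖E τ‖ * Real.exp (-(arg X * τ))) * ‖X‖ ^ (1 / 2 : ℝ) * ‖h τ‖ := by
          rw [norm_mul, norm_mul, hw]; ring
      _ ≤ (C₁ * (Real.exp (-(1 / 2) * |τ|) + Real.exp (-δ * |τ|))) * K ^ (1 / 2 : ℝ) * B := by
          have := hB' τ
          gcongr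
      _ = D * (Real.exp (-(1 / 2) * |τ|) + Real.exp (-δ * |τ|)) := by rw [hD]; ring
  have hI1 := ERR_exp (δ := 1 / 2) (by norm_num)
  have hI2 := ERR_exp hδ0
  have hG : Integrable (fun τ : ℝ => D * (Real.exp (-(1 / 2) * |τ|) + Real.exp (-δ * |τ|))) :=
    (hI1.1.add hI2.1).const_mul D
  have hcont : Continuous (fun τ : ℝ => E τ * X ^ (vl (3 / 2) τ - 1) * h τ) := by
    have h1 : Continuous (fun τ : ℝ => vl (3 / 2) τ - 1) := by
      unfold vl
      fun_prop
    exact (hE.mul (h1.const_cpow (Or.inl hX0))).mul hh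
  refine ⟨hG.mono' hcont.aestronglyMeasurable (Eventually.of_forall hbound), ?_⟩
  calc ‖∫ τ : ℝ, E τ * X ^ (vl (3 / 2) τ - 1) * h τ‖
      ≤ ∫ τ : ℝ, D * (Real.exp (-(1 / 2) * |τ|) + Real.exp (-δ * |τ|)) :=
        norm_integral_le_of_norm_le hG (Eventually.of_forall hbound)
    _ = D * (4 + 2 / δ) := by
        rw [integral_const_mul, integral_add hI1.1 hI2.1, hI1.2, hI2.2]
        norm_num
    _ ≤ 6 * K * D / X.re := by
        have h1 : 1 ≤ K / X.re := (one_le_div hre).2 hreK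
        have h2 : 1 / δ ≤ K / X.re := by
          rw [div_le_div_iff₀ hδ0 hre]
          have := (div_le_iff₀ (by linarith : 0 < K)).1 hδK
          linarith
        have h3 : 6 * K * D / X.re = D * (6 * (K / X.re)) := by ring
        rw [h3]
        gcongr
        have h4 : 2 / δ = 2 * (1 / δ) := by ring
        rw [h4]
        linarith

end Pool.Agent.SelTwo
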