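import Pool.Agent.SelTwo.Targets

/-!
# FACT: vanishing of the coefficients at the powers of `p`
-/

namespace Pool.Agent.SelTwo

open Complex Filter Topology LSeries

noncomputable section

/-- `LSeriesSummable f 1` from summability of `‖f n‖ / n` -/
theorem FACT_summ {f : ℕ → ℂ} (h : Summable fun n : ℕ => ‖f n‖ / n) : LSeriesSummable f 1 := by
  have h1 : Summable (fun n : ℕ => ‖term f 1 n‖) := by
    refine h.congr (fun n => ?_)
    rcases Nat.eq_zero_or_pos n with rfl | hn
    · simp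
    · rw [term_of_ne_zero hn.ne', cpow_one, norm_div, Complex.norm_natCast]
  exact h1.of_norm

theorem FACT_LS (f : ℕ → ℂ) : LSeries f 1 = ∑' n : ℕ, f n / n := by
  unfold LSeries
  refine tsum_congr (fun n => ?_)
  rcases Nat.eq_zero_or_pos n with rfl | hn
  · simp
  · rw [term_of_ne_zero hn.ne', cpow_one]

theorem FACT_abs {f : ℕ → ℂ} {s : ℂ} (h : LSeriesSummable f s) : abscissaOfAbsConv f < ⊤ :=
  h.abscissaOfAbsConv_le.trans_lt (EReal.coe_lt_top _)

theorem p_FACT (hE : T_EXPD) : T_FACT := by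
  intro β g p hp hβ hβs hgs hexp hne hz k hk
  classical
  -- the two parts of `β`
  set β₁ : ℕ → ℂ := fun n => if ∃ j, n = p ^ j then β n else 0 with hβ₁
  set β₂ : ℕ → ℂ := fun n => if ∃ j, n = p ^ j then 0 else β n with hβ₂
  have hadd : β = β₁ + β₂ := by
    funext n
    simp only [hβ₁, hβ₂, Pi.add_apply]
    split_ifs <;> simp
  have hβ1 : β 1 = 0 := hβ 1 not_isPrimePow_one
  have hβs' : Summable fun n : ℕ => ‖β n‖ * (n : ℝ) ^ (-(1 : ℝ)) := by
    refine hβs.congr (fun n => ?_)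
    rw [Real.rpow_neg_one, div_eq_mul_inv]
  have hs₁ : Summable fun n : ℕ => ‖β₁ n‖ * (n : ℝ) ^ (-(1 : ℝ)) := by
    refine Summable.of_nonneg_of_le (fun n => by positivity) (fun n => ?_) hβs'
    simp only [hβ₁]
    split_ifs
    · exact le_rfl
    · rw [norm_zero, zero_mul]; positivity
  have hs₂ : Summable fun n : ℕ => ‖β₂ n‖ * (n : ℝ) ^ (-(1 : ℝ)) := by
    refine Summable.of_nonneg_of_le (fun n => by positivity) (fun n => ?_) hβs'
    simp only [hβ₂]
    split_ifs
    · rw [norm_zero, zero_mul]; positivity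
    · exact le_rfl
  obtain ⟨g₁, g₁0, g₁1, g₁s, g₁L, -, g₁P⟩ := hE β₁ 1 (by simp only [hβ₁]; split_ifs <;> simp [hβ1]) hs₁
  obtain ⟨g₂, g₂0, g₂1, g₂s, g₂L, -, g₂P⟩ := hE β₂ 1 (by simp only [hβ₂]; split_ifs <;> simp [hβ1]) hs₂
  -- supports
  have hsupp₁ : ∀ n, g₁ n ≠ 0 → ∃ j, n = p ^ j := by
    refine g₁P (fun n => ∃ j, n = p ^ j) ⟨0, by simp⟩ ?_ ?_
    · rintro m n ⟨i, rfl⟩ ⟨j, rfl⟩
      exact ⟨i + j, by rw [pow_add]⟩
    · intro n _ h
      by_contra hcon
      exact h (by simp only [hβ₁, if_neg hcon])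
  have hsupp₂ : ∀ n, g₂ n ≠ 0 → ¬ p ∣ n := by
    refine g₂P (fun n => ¬ p ∣ n) (by rw [Nat.dvd_one]; exact hp.one_lt.ne') ?_ ?_
    · intro m n hm hn h
      rcases hp.dvd_mul.1 h with h | h
      · exact hm h
      · exact hn h
    · intro n _ h hpn
      have hcon : ¬ ∃ j, n = p ^ j := by
        intro hcon
        exact h (by simp only [hβ₂, if_pos hcon])
      have hb : β n ≠ 0 := by
        intro hb
        exact h (by simp only [hβ₂, hb, ite_self])
      have hpp : IsPrimePow n := by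
        by_contra hc
        exact hb (hβ n hc)
      obtain ⟨q, j, hq, hj, hqn⟩ := (isPrimePow_nat_iff n).1 hpp
      have hpq : p ∣ q ^ j := by rw [hqn]; exact hpn
      have : p = q := (Nat.prime_dvd_prime_iff_eq hp hq).1 (hp.dvd_of_dvd_pow hpq)
      exact hcon ⟨j, by rw [this, hqn]⟩
  -- summability at 1
  have hS₁ : LSeriesSummable g₁ 1 := (g₁L 1 (by simp)).1
  have hS₂ : LSeriesSummable g₂ 1 := (g₂L 1 (by simp)).1
  have hSg : LSeriesSummable g 1 := FACT_summ hgs
  have hSβ₁ : ∀ s : ℂ, 1 < s.re → LSeriesSummable β₁ s := by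
    intro s hs
    have h1 : LSeriesSummable β₁ 1 := by
      apply FACT_summ
      refine hs₁.congr (fun n => ?_)
      rw [Real.rpow_neg_one, div_eq_mul_inv]
    exact h1.of_re_le_re (by simpa using hs.le)
  have hSβ₂ : ∀ s : ℂ, 1 < s.re → LSeriesSummable β₂ s := by
    intro s hs
    have h1 : LSeriesSummable β₂ 1 := by
      apply FACT_summ
      refine hs₂.congr (fun n => ?_)
      rw [Real.rpow_neg_one, div_eq_mul_inv]
    exact h1.of_re_le_re (by simpa using hs.le)
  -- `g` is the convolution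
  have hconv : ∀ n : ℕ, n ≠ 0 → g n = LSeries.convolution g₁ g₂ n := by
    intro n hn
    refine LSeries.eq_of_LSeries_eventually_eq (FACT_abs hSg) (FACT_abs (hS₁.convolution hS₂)) ?_ hn
    filter_upwards [eventually_gt_atTop (1 : ℝ)] with x hx
    have hx' : 1 < ((x : ℂ)).re := by simpa using hx
    rw [hexp x hx', LSeries_convolution' (g₁L x hx'.le).1 (g₂L x hx'.le).1, (g₁L x hx'.le).2,
      (g₂L x hx'.le).2, ← Complex.exp_add, ← LSeries_add (hSβ₁ x hx') (hSβ₂ x hx'), ← hadd]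
  -- truncated parts
  set G : ℕ → ℕ → ℂ := fun j n => if p ^ j ∣ n then g₁ n else 0 with hG
  have hGS : ∀ j, LSeriesSummable (G j) 1 := by
    intro j
    apply FACT_summ
    have h0 : Summable fun n : ℕ => ‖g₁ n‖ / n := by
      refine g₁s.congr (fun n => ?_)
      rw [Real.rpow_neg_one, div_eq_mul_inv]
    refine Summable.of_nonneg_of_le (fun n => by positivity) (fun n => ?_) h0
    simp only [hG]
    split_ifs
    · exact le_rfl
    · rw [norm_zero, zero_div]; positivity
  have hconvG : ∀ j : ℕ, ∀ n : ℕ, n ≠ 0 → LSeries.convolution (G j) g₂ n = if p ^ j ∣ n then g n else 0 := by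
    intro j n hn
    rw [convolution_def]
    have h1 : ∀ x ∈ n.divisorsAntidiagonal, G j x.1 * g₂ x.2 =
        if p ^ j ∣ n then g₁ x.1 * g₂ x.2 else 0 := by
      intro x hx
      obtain ⟨hx1, -⟩ := Nat.mem_divisorsAntidiagonal.1 hx
      by_cases h2 : g₂ x.2 = 0
      · simp [h2]
      · have hcop : Nat.Coprime (p ^ j) x.2 :=
          Nat.Coprime.pow_left _ ((Nat.Prime.coprime_iff_not_dvd hp).2 (hsupp₂ _ h2))
        have h3 : p ^ j ∣ n ↔ p ^ j ∣ x.1 := by
          rw [← hx1]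
          exact ⟨fun h => hcop.dvd_of_dvd_mul_right h, fun h => h.mul_right _⟩
        simp only [hG, h3]
        split_ifs <;> simp
    change ∑ x ∈ n.divisorsAntidiagonal, G j x.1 * g₂ x.2 = _
    rw [Finset.sum_congr rfl h1]
    split_ifs with h2
    · rw [hconv n hn, convolution_def]
    · simp
  have hmul : ∀ j : ℕ, LSeries (G j) 1 * LSeries g₂ 1 =
      ∑' m : ℕ, (if p ^ j ∣ m then g m / m else 0) := by
    intro j
    rw [← LSeries_convolution' (hGS j) hS₂, LSeries_congr (g := fun n => if p ^ j ∣ n then g n else 0)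
      (fun {n} hn => hconvG j n hn), FACT_LS]
    refine tsum_congr (fun n => ?_)
    split_ifs <;> simp
  have h0 : LSeries (G 0) 1 * LSeries g₂ 1 ≠ 0 := by
    rw [hmul 0]
    simpa using hne
  have hM : LSeries g₂ 1 ≠ 0 := right_ne_zero_of_mul h0
  have hA : ∀ j, 1 ≤ j → LSeries (G j) 1 = 0 := by
    intro j hj
    have h1 := hmul j
    rw [hz j hj] at h1
    exact (mul_eq_zero.1 h1).resolve_right hM
  -- `g₁` vanishes at the powers of `p`
  have hg₁ : ∀ j, 1 ≤ j → g₁ (p ^ j) = 0 := by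
    intro j hj
    have h1 : LSeries (G j - G (j + 1)) 1 = 0 := by
      rw [LSeries_sub (hGS j) (hGS (j + 1)), hA j hj, hA (j + 1) (by omega), sub_zero]
    have h2 : LSeries (G j - G (j + 1)) 1 = g₁ (p ^ j) / ((p ^ j : ℕ) : ℂ) := by
      rw [FACT_LS, tsum_eq_single (p ^ j)]
      · have h3 : ¬ p ^ (j + 1) ∣ p ^ j := by
          intro h
          have := (Nat.pow_dvd_pow_iff_le_right hp.one_lt).1 h
          omega
        simp only [hG, Pi.sub_apply, dvd_refl, if_true, if_neg h3, sub_zero]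
      · intro n hn
        by_cases h4 : g₁ n = 0
        · simp [hG, h4]
        · obtain ⟨i, rfl⟩ := hsupp₁ n h4
          have hij : i ≠ j := fun h => hn (by rw [h])
          have h5 : p ^ j ∣ p ^ i ↔ p ^ (j + 1) ∣ p ^ i := by
            rw [Nat.pow_dvd_pow_iff_le_right hp.one_lt, Nat.pow_dvd_pow_iff_le_right hp.one_lt]
            omega
          simp only [hG, Pi.sub_apply, h5, sub_self, zero_div]
    rw [h1] at h2
    have h6 : ((p ^ j : ℕ) : ℂ) ≠ 0 := by
      exact_mod_cast (pow_pos hp.pos j).ne'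
    exact ((div_eq_zero_iff.1 h2.symm).resolve_right h6)
  have hg₁' : ∀ n, n ≠ 1 → g₁ n = 0 := by
    intro n hn
    by_contra h
    obtain ⟨j, rfl⟩ := hsupp₁ n h
    rcases Nat.eq_zero_or_pos j with rfl | hj
    · exact hn (by simp)
    · exact h (hg₁ j hj)
  have hL1 : ∀ s : ℂ, LSeries g₁ s = 1 := by
    intro s
    unfold LSeries
    rw [tsum_eq_single 1]
    · rw [term_of_ne_zero one_ne_zero, g₁1]; simp
    · intro n hn
      rcases Nat.eq_zero_or_pos n with rfl | hn0
      · simp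
      · rw [term_of_ne_zero hn0.ne', hg₁' n hn, zero_div]
  -- `LSeries β₁` is zero for large real arguments
  have habs : abscissaOfAbsConv β₁ < ⊤ := FACT_abs (hSβ₁ 2 (by norm_num))
  have hβ₁1 : β₁ 1 = 0 := by simp only [hβ₁]; split_ifs <;> simp [hβ1]
  have hev : (fun x : ℝ => LSeries β₁ x) =ᶠ[atTop] 0 := by
    have ht := LSeries.tendsto_atTop habs
    rw [hβ₁1] at ht
    have ht2 : ∀ᶠ x : ℝ in atTop, ‖LSeries β₁ x‖ < 2 * Real.pi := by
      have := (tendsto_zero_iff_norm_tendsto_zero.1 ht)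
      exact this.eventually_lt_const (by positivity)
    filter_upwards [ht2, eventually_gt_atTop (1 : ℝ)] with x hx hx1
    have hx' : 1 < ((x : ℂ)).re := by simpa using hx1
    have h1 : exp (LSeries β₁ x) = 1 := by
      rw [← (g₁L x hx'.le).2, hL1]
    obtain ⟨n, hn⟩ := Complex.exp_eq_one_iff.1 h1
    have hn0 : n = 0 := by
      by_contra hn0
      rw [hn, norm_mul, norm_mul, norm_mul, Complex.norm_I, mul_one, Complex.norm_real,
        Real.norm_of_nonneg Real.pi_pos.le] at hx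
      have h2 : (1 : ℝ) ≤ ‖(n : ℂ)‖ := by
        rw [Complex.norm_intCast]
        exact_mod_cast Int.one_le_abs hn0
      have h3 : ‖(2 : ℂ)‖ = 2 := by simp
      rw [h3] at hx
      nlinarith [Real.pi_pos]
    rw [hn, hn0]
    simp
  have hzero := (LSeries_eventually_eq_zero_iff'.1 hev).resolve_right habs.ne
  have hfin := hzero (p ^ k) (pow_pos hp.pos k).ne'
  simp only [hβ₁] at hfin
  rwa [if_pos ⟨k, rfl⟩] at hfin

end

end Pool.Agent.SelTwo
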