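import Pool.Agent.SelTwo.Targets

namespace Pool.Agent.SelTwo

open Complex Filter Topology MeasureTheory
open Pool.Agent.SelPole

/-- the reflected function is entire -/
theorem fe_differentiable_conj {g : ℂ → ℂ} (hg : Differentiable ℂ g) :
    Differentiable ℂ (fun s : ℂ => (starRingEnd ℂ) (g ((starRingEnd ℂ) s))) := by
  intro s
  have := (hg ((starRingEnd ℂ) s)).conj_conj
  simpa [Function.comp_def] using this

theorem p_FE : T_FE := by
  intro F Q k l m w hc hF t
  obtain ⟨g, hg, -, hgF⟩ := hc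
  obtain ⟨hQ, hl, hm, hw, hfe⟩ := hF
  have hQ0 : (Q : ℂ) ≠ 0 := by exact_mod_cast hQ.ne'
  set iG : ℂ → ℂ := fun s => (Gamma s)⁻¹ with hiG
  have hiGd : Differentiable ℂ iG := differentiable_one_div_Gamma
  have hgs := fe_differentiable_conj hg
  set gs : ℂ → ℂ := fun s : ℂ => (starRingEnd ℂ) (g ((starRingEnd ℂ) s)) with hgsdef
  set A : ℂ → ℂ := fun s => (Q : ℂ) ^ s * s ^ 2 * g s *
    ∏ j, iG ((l j : ℂ) * (1 - s) + (starRingEnd ℂ) (m j)) with hA
  set B : ℂ → ℂ := fun s => w * (Q : ℂ) ^ (1 - s) * (s - 1) ^ 2 * gs (1 - s) *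
    ∏ j, iG ((l j : ℂ) * s + m j) with hB
  have hAd : Differentiable ℂ A := by
    intro s
    refine ((DifferentiableAt.mul ?_ ?_).mul (hg s)).mul ?_
    · exact DifferentiableAt.const_cpow differentiableAt_id (Or.inl hQ0)
    · exact differentiableAt_id.pow 2
    · refine DifferentiableAt.fun_finsetProd fun j _ => ?_
      refine (hiGd _).comp s ?_
      exact ((differentiableAt_const _).mul ((differentiableAt_const _).sub differentiableAt_id)).add
        (differentiableAt_const _)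
  have hBd : Differentiable ℂ B := by
    intro s
    have h1s : DifferentiableAt ℂ (fun s : ℂ => 1 - s) s :=
      (differentiableAt_const _).sub differentiableAt_id
    refine ((((differentiableAt_const _).mul ?_).mul ?_).mul ?_).mul ?_
    · exact DifferentiableAt.const_cpow h1s (Or.inl hQ0)
    · exact (differentiableAt_id.sub (differentiableAt_const _)).pow 2
    · exact (hgs _).comp s h1s
    · refine DifferentiableAt.fun_finsetProd fun j _ => ?_
      refine (hiGd _).comp s ?_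
      exact ((differentiableAt_const _).mul differentiableAt_id).add (differentiableAt_const _)
  have hstrip : ∀ s : ℂ, 0 < s.re → s.re < 1 → A s = B s := by
    intro s hs0 hs1
    have hne1 : s ≠ 1 := by rintro rfl; simp at hs1
    have h1c : (1 - (starRingEnd ℂ) s) ≠ 1 := by
      intro h
      have h0 : (starRingEnd ℂ) s = 0 := by linear_combination -h
      have : s.re = 0 := by
        have := congrArg Complex.re h0
        simpa using this
      linarith
    have e1 : g s = (s - 1) ^ 2 * F s := hgF s hne1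
    have e2 : gs (1 - s) = s ^ 2 * (starRingEnd ℂ) (F (1 - (starRingEnd ℂ) s)) := by
      simp only [hgsdef, map_sub, map_one]
      rw [hgF _ h1c]
      simp only [map_mul, map_pow, map_sub, map_one, Complex.conj_conj]
      ring
    have hfes := hfe s hs0 hs1
    have e3 : (starRingEnd ℂ) ((Q : ℂ) ^ (1 - (starRingEnd ℂ) s) *
          (∏ j, Gamma ((l j : ℂ) * (1 - (starRingEnd ℂ) s) + m j)) *
            F (1 - (starRingEnd ℂ) s)) =
        (Q : ℂ) ^ (1 - s) * (∏ j, Gamma ((l j : ℂ) * (1 - s) + (starRingEnd ℂ) (m j))) *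
          (starRingEnd ℂ) (F (1 - (starRingEnd ℂ) s)) := by
      rw [map_mul, map_mul, map_prod]
      congr 1
      congr 1
      · have h := Complex.conj_cpow (Q : ℂ) (1 - s)
          (by rw [Complex.arg_ofReal_of_nonneg hQ.le]; exact Real.pi_pos.ne)
        rw [Complex.conj_ofReal] at h
        rw [h]; simp
      · refine Finset.prod_congr rfl fun j _ => ?_
        rw [← Complex.Gamma_conj]
        simp
    rw [e3] at hfes
    have hG1 : ∀ j, Gamma ((l j : ℂ) * s + m j) ≠ 0 := fun j => by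
      apply Complex.Gamma_ne_zero_of_re_pos
      have := mul_pos (hl j) hs0
      simp; linarith [hm j]
    have hG2 : ∀ j, Gamma ((l j : ℂ) * (1 - s) + (starRingEnd ℂ) (m j)) ≠ 0 := fun j => by
      apply Complex.Gamma_ne_zero_of_re_pos
      have := mul_pos (hl j) (show 0 < 1 - s.re by linarith)
      simp; linarith [hm j]
    have p1 : (∏ j, Gamma ((l j : ℂ) * s + m j)) * ∏ j, iG ((l j : ℂ) * s + m j) = 1 := by
      rw [← Finset.prod_mul_distrib]
      exact Finset.prod_eq_one fun j _ => mul_inv_cancel₀ (hG1 j)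
    have p2 : (∏ j, Gamma ((l j : ℂ) * (1 - s) + (starRingEnd ℂ) (m j))) *
        ∏ j, iG ((l j : ℂ) * (1 - s) + (starRingEnd ℂ) (m j)) = 1 := by
      rw [← Finset.prod_mul_distrib]
      exact Finset.prod_eq_one fun j _ => mul_inv_cancel₀ (hG2 j)
    simp only [hA, hB]
    rw [e1, e2]
    set P1 := ∏ j, Gamma ((l j : ℂ) * s + m j)
    set P2 := ∏ j, Gamma ((l j : ℂ) * (1 - s) + (starRingEnd ℂ) (m j))
    set I1 := ∏ j, iG ((l j : ℂ) * s + m j)
    set I2 := ∏ j, iG ((l j : ℂ) * (1 - s) + (starRingEnd ℂ) (m j))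
    set cF := (starRingEnd ℂ) (F (1 - (starRingEnd ℂ) s))
    linear_combination (s ^ 2 * (s - 1) ^ 2 * I1 * I2) * hfes -
      ((Q : ℂ) ^ s * s ^ 2 * (s - 1) ^ 2 * F s * I2) * p1 +
      (w * (Q : ℂ) ^ (1 - s) * (s - 1) ^ 2 * s ^ 2 * cF * I1) * p2
  have hAB : A = B := by
    have hA' : AnalyticOnNhd ℂ A Set.univ := hAd.differentiableOn.analyticOnNhd isOpen_univ
    have hB' : AnalyticOnNhd ℂ B Set.univ := hBd.differentiableOn.analyticOnNhd isOpen_univ
    refine hA'.eq_of_eventuallyEq hB' (z₀ := (1 / 2 : ℂ)) ?_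
    have o1 : IsOpen {s : ℂ | 0 < s.re} := isOpen_lt continuous_const continuous_re
    have o2 : IsOpen {s : ℂ | s.re < 1} := isOpen_lt continuous_re continuous_const
    have : ({s : ℂ | 0 < s.re} ∩ {s : ℂ | s.re < 1}) ∈ 𝓝 (1 / 2 : ℂ) := by
      refine (o1.inter o2).mem_nhds ⟨?_, ?_⟩ <;> norm_num
    filter_upwards [this] with s hs
    exact hstrip s hs.1 hs.2
  -- evaluation on the line
  set s : ℂ := vl (-1 / 2) t with hs
  have hsre : s.re = -1 / 2 := by simp [hs, vl]
  have h1s : 1 - s = vl (3 / 2) (-t) := by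
    simp only [hs, vl]; push_cast; ring
  have hcs : (starRingEnd ℂ) (1 - s) = vl (3 / 2) t := by
    rw [h1s]
    simp only [vl, map_add, map_mul, Complex.conj_ofReal, Complex.conj_I]
    push_cast; ring
  have hs0 : s ≠ 0 := by intro h; rw [h] at hsre; norm_num at hsre
  have hs1 : s ≠ 1 := by intro h; rw [h] at hsre; norm_num at hsre
  have hv1 : vl (3 / 2) t ≠ 1 := by
    intro h
    have := congrArg Complex.re h
    simp [vl] at this
    norm_num at this
  have e := congrFun hAB s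
  simp only [hA, hB, hgsdef] at e
  rw [hgF s hs1, hcs, hgF _ hv1] at e
  simp only [map_mul, map_pow, map_sub, map_one] at e
  have hcv : (starRingEnd ℂ) (vl (3 / 2) t) - 1 = -s := by
    rw [← hcs, Complex.conj_conj]; ring
  rw [hcv] at e
  have hG2 : ∀ j, Gamma ((l j : ℂ) * (1 - s) + (starRingEnd ℂ) (m j)) ≠ 0 := fun j => by
    apply Complex.Gamma_ne_zero_of_re_pos
    have := mul_pos (hl j) (show 0 < 1 - s.re by linarith)
    simp; linarith [hm j]
  have p2 : (∏ j, Gamma ((l j : ℂ) * (1 - s) + (starRingEnd ℂ) (m j))) *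
      ∏ j, iG ((l j : ℂ) * (1 - s) + (starRingEnd ℂ) (m j)) = 1 := by
    rw [← Finset.prod_mul_distrib]
    exact Finset.prod_eq_one fun j _ => mul_inv_cancel₀ (hG2 j)
  have hgP : gP k l m (vl (3 / 2) (-t)) =
      (∏ j, Gamma ((l j : ℂ) * (1 - s) + (starRingEnd ℂ) (m j))) *
        ∏ j, iG ((l j : ℂ) * s + m j) := by
    rw [← h1s, ← Finset.prod_mul_distrib]
    unfold gP
    refine Finset.prod_congr rfl fun j _ => ?_
    simp only [hiG]
    rw [sub_sub_cancel]
  have hQs : (Q : ℂ) ^ (1 - 2 * s) * (Q : ℂ) ^ s = (Q : ℂ) ^ (1 - s) := by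
    rw [← Complex.cpow_add _ _ hQ0]; congr 1; ring
  have hQsne : (Q : ℂ) ^ s ≠ 0 := by
    rw [Complex.cpow_def_of_ne_zero hQ0]; exact exp_ne_zero _
  rw [hgP]
  set P2 := ∏ j, Gamma ((l j : ℂ) * (1 - s) + (starRingEnd ℂ) (m j))
  set I1 := ∏ j, iG ((l j : ℂ) * s + m j)
  set I2 := ∏ j, iG ((l j : ℂ) * (1 - s) + (starRingEnd ℂ) (m j))
  set cF := (starRingEnd ℂ) (F (vl (3 / 2) t))
  have hne : (Q : ℂ) ^ s * s ^ 2 * (s - 1) ^ 2 ≠ 0 :=
    mul_ne_zero (mul_ne_zero hQsne (pow_ne_zero _ hs0)) (pow_ne_zero _ (sub_ne_zero.2 hs1))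
  apply mul_left_cancel₀ hne
  linear_combination P2 * e - ((Q : ℂ) ^ s * s ^ 2 * (s - 1) ^ 2 * F s) * p2 -
    (s ^ 2 * (s - 1) ^ 2 * w * P2 * I1 * cF) * hQs

end Pool.Agent.SelTwo
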