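import Pool.Agent.SelTwo.Targets
import Pool.Agent.SelPole.AlmostPer

/-! FIN: an absolutely convergent Dirichlet series with a functional equation of degree zero. -/

namespace Pool.Agent.SelTwo

open Complex Filter Topology MeasureTheory
open Pool.Agent.SelPole

/-- A continuous real function whose exponential on the circle converges is convergent. -/
theorem lift_conv {ψ : ℝ → ℝ} (hψ : Continuous ψ) {c : ℂ} (hc : c ≠ 0)
    (h : Tendsto (fun t : ℝ => exp (ψ t * I)) atTop (𝓝 c)) : ∃ L : ℝ, Tendsto ψ atTop (𝓝 L) := by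
  -- divide by `c`
  have hnorm : ‖c‖ = 1 := by
    have h1 := h.norm
    simp only [Complex.norm_exp_ofReal_mul_I] at h1
    exact (tendsto_nhds_unique h1 tendsto_const_nhds)
  have h2 : Tendsto (fun t : ℝ => exp (ψ t * I) / c) atTop (𝓝 1) := by
    have := h.div_const c
    rwa [div_self hc] at this
  have hslit : ∀ᶠ t : ℝ in atTop, exp (ψ t * I) / c ∈ Complex.slitPlane := by
    apply h2.eventually_mem
    exact Complex.isOpen_slitPlane.mem_nhds (by simp [Complex.slitPlane])
  obtain ⟨T, hT⟩ := eventually_atTop.mp hslit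
  have harg : Tendsto (fun t : ℝ => (exp (ψ t * I) / c).arg) atTop (𝓝 0) := by
    have h3 : ContinuousAt Complex.arg 1 := Complex.continuousAt_arg (by simp [Complex.slitPlane])
    have h4 := h3.tendsto.comp h2
    rw [Complex.arg_one] at h4
    exact h4
  have hint : ∀ t : ℝ, ∃ n : ℤ, ψ t - c.arg - (exp (ψ t * I) / c).arg = 2 * Real.pi * n := by
    intro t
    have h5 : exp (((exp (ψ t * I) / c).arg : ℂ) * I) = exp (ψ t * I) / c := by
      have h6 := Complex.norm_mul_exp_arg_mul_I (exp (ψ t * I) / c)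
      rw [norm_div, Complex.norm_exp_ofReal_mul_I, hnorm, div_one, Complex.ofReal_one, one_mul] at h6
      exact h6
    have h7 : exp ((c.arg : ℂ) * I) = c := by
      have h8 := Complex.norm_mul_exp_arg_mul_I c
      rw [hnorm, Complex.ofReal_one, one_mul] at h8
      exact h8
    have h9 : exp (((ψ t - c.arg - (exp (ψ t * I) / c).arg : ℝ) : ℂ) * I) = 1 := by
      push_cast
      rw [sub_mul, sub_mul, Complex.exp_sub, Complex.exp_sub, h5, h7]
      rw [div_self]
      exact div_ne_zero (Complex.exp_ne_zero _) hc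
    rw [Complex.exp_eq_one_iff] at h9
    obtain ⟨n, hn⟩ := h9
    refine ⟨n, ?_⟩
    have h10 := congrArg Complex.im hn
    simp only [Complex.mul_im, Complex.ofReal_re, Complex.I_im, mul_one, Complex.ofReal_im,
      Complex.I_re, mul_zero, add_zero, Complex.intCast_re, Complex.intCast_im, Complex.mul_re] at h10
    rw [h10]
    simp
    ring
  choose n hn using hint
  have hcont : ContinuousOn (fun t : ℝ => ((n t : ℤ) : ℝ)) (Set.Ici T) := by
    have h11 : ∀ t, ((n t : ℤ) : ℝ) = (ψ t - c.arg - (exp (ψ t * I) / c).arg) / (2 * Real.pi) := by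
      intro t
      rw [hn t]
      field_simp
    simp only [h11]
    apply ContinuousOn.div_const
    apply ContinuousOn.sub
    · exact (hψ.sub continuous_const).continuousOn
    · intro t ht
      have h12 : ContinuousAt (fun t : ℝ => exp (ψ t * I) / c) t := by
        apply Continuous.continuousAt
        fun_prop
      exact (ContinuousAt.comp (f := fun t : ℝ => exp (ψ t * I) / c) (g := Complex.arg)
        (Complex.continuousAt_arg (hT t ht)) h12).continuousWithinAt
  have hcont2 : ContinuousOn n (Set.Ici T) :=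
    (Int.isClosedEmbedding_coe_real.isInducing.continuousOn_iff).mpr hcont
  have hconst : ∀ t ∈ Set.Ici T, n t = n T := fun t ht =>
    isPreconnected_Ici.constant hcont2 ht (Set.mem_Ici.mpr le_rfl)
  refine ⟨c.arg + 0 + 2 * Real.pi * n T, ?_⟩
  refine ((tendsto_const_nhds.add harg).add_const (2 * Real.pi * n T)).congr' ?_
  filter_upwards [eventually_ge_atTop T] with t ht
  rw [← hconst t ht, ← hn t]
  ring

theorem p_FIN : T_FIN := by
  intro β κ c hβ1 hs hc hlim n hn
  have hN : Summable (fun n => ‖LSeries.term β (1 / 2) n‖) := hs.norm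
  set d0 : ℕ → ℂ := fun n => if n = 0 then 0 else β n * (((n : ℝ) ^ (-(1 / 2) : ℝ) : ℝ) : ℂ) with hd0
  have hterm : ∀ (t : ℝ) (n : ℕ), LSeries.term β (vl (1 / 2) t) n = d0 n * osc n t := by
    intro t n
    by_cases hn : n = 0
    · simp [hn, hd0]
    · rw [LSeries.term_of_ne_zero hn]
      simp only [hd0, if_neg hn]
      have hn0 : (n : ℂ) ≠ 0 := by exact_mod_cast hn
      have hn1 : (0 : ℝ) < n := by exact_mod_cast Nat.pos_of_ne_zero hn
      rw [vl, Complex.cpow_add _ _ hn0, osc, div_eq_mul_inv, mul_inv, mul_assoc]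
      have h1 : ((n : ℂ) ^ (((1 / 2 : ℝ)) : ℂ))⁻¹ = (((n : ℝ) ^ (-(1 / 2) : ℝ) : ℝ) : ℂ) := by
        rw [Real.rpow_neg hn1.le, Complex.ofReal_inv, Complex.ofReal_cpow hn1.le,
          Complex.ofReal_natCast]
      have h2 : ((n : ℂ) ^ ((t : ℂ) * I))⁻¹ = exp (-(Real.log n : ℂ) * t * I) := by
        rw [Complex.cpow_def_of_ne_zero hn0, ← Complex.exp_neg, ← Complex.natCast_log]
        congr 1
        ring
      rw [h1, h2]
  have hdN : Summable (fun n => ‖d0 n‖) := by
    refine hN.congr (fun n => ?_)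
    have h1 := hterm 0 n
    have h2 : vl (1 / 2) 0 = 1 / 2 := by simp [vl]
    rw [h2] at h1
    rw [h1, norm_mul, norm_osc, mul_one]
  set B : ℝ := ∑' n, ‖d0 n‖ with hB
  set l : ℝ → ℂ := fun t => ∑' n, d0 n * osc n t with hl
  have hL : ∀ t : ℝ, LSeries β (vl (1 / 2) t) = l t := by
    intro t
    simp only [hl, LSeries]
    exact tsum_congr (fun n => hterm t n)
  have hnormeq : ∀ t n, ‖d0 n * osc n t‖ = ‖d0 n‖ := by
    intro t n; rw [norm_mul, norm_osc, mul_one]
  have hlB : ∀ t, ‖l t‖ ≤ B := by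
    intro t
    simp only [hl, hB]
    have h1 : Summable (fun n => ‖d0 n * osc n t‖) := hdN.congr (fun n => (hnormeq t n).symm)
    refine (norm_tsum_le_tsum_norm h1).trans (le_of_eq ?_)
    exact tsum_congr (fun n => hnormeq t n)
  have hlc : Continuous l := by
    simp only [hl]
    apply continuous_tsum (u := fun n => ‖d0 n‖)
    · intro n
      simp only [osc]
      fun_prop
    · exact hdN
    · intro n t; exact (hnormeq t n).le
  have himc : Continuous (fun t => (l t).im) := Complex.continuous_im.comp hlc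
  -- the phase
  have hphase : ∀ t : ℝ, exp (κ * t * I) * (exp (LSeries β (vl (1 / 2) t)) /
      (starRingEnd ℂ) (exp (LSeries β (vl (1 / 2) t)))) = exp (((κ * t + 2 * (l t).im : ℝ) : ℂ) * I) := by
    intro t
    rw [hL t, ← Complex.exp_conj, ← Complex.exp_sub, ← Complex.exp_add]
    congr 1
    rw [Complex.sub_conj]
    push_cast
    ring
  simp only [hphase] at hlim
  obtain ⟨L, hLim⟩ := lift_conv (ψ := fun t => κ * t + 2 * (l t).im) (by fun_prop) hc hlim
  -- `κ = 0`
  have hκ : κ = 0 := by
    have h1 : Tendsto (fun t : ℝ => (κ * t + 2 * (l t).im) * t⁻¹) atTop (𝓝 (L * 0)) :=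
      hLim.mul tendsto_inv_atTop_zero
    rw [mul_zero] at h1
    have h2 : Tendsto (fun t : ℝ => 2 * (l t).im * t⁻¹) atTop (𝓝 0) := by
      have h3 : Tendsto (fun t : ℝ => 2 * B * t⁻¹) atTop (𝓝 (2 * B * 0)) :=
        tendsto_inv_atTop_zero.const_mul _
      rw [mul_zero] at h3
      refine squeeze_zero_norm' ?_ h3
      filter_upwards [eventually_gt_atTop 0] with t ht
      rw [norm_mul, norm_mul, Real.norm_of_nonneg (by norm_num : (0 : ℝ) ≤ 2),
        Real.norm_of_nonneg (inv_nonneg.mpr ht.le)]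
      have h4 : ‖(l t).im‖ ≤ B := by
        rw [Real.norm_eq_abs]
        exact (Complex.abs_im_le_norm _).trans (hlB t)
      have h5 : 0 ≤ t⁻¹ := inv_nonneg.mpr ht.le
      gcongr
    have h6 := h1.sub h2
    rw [sub_zero] at h6
    have h7 : Tendsto (fun _ : ℝ => κ) atTop (𝓝 0) := by
      refine h6.congr' ?_
      filter_upwards [eventually_gt_atTop 0] with t ht
      field_simp
      ring
    exact tendsto_nhds_unique tendsto_const_nhds h7
  have hIm : Tendsto (fun t : ℝ => (∑' n, (-I * d0 n) * osc n t).re) atTop (𝓝 (L / 2)) := by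
    have h1 := hLim.div_const 2
    refine h1.congr (fun t => ?_)
    have h2 : (∑' n, (-I * d0 n) * osc n t) = -I * l t := by
      simp only [hl]
      rw [← tsum_mul_left]
      exact tsum_congr (fun n => by ring)
    rw [h2, hκ]
    simp
  have h0 := ap_unique (d := fun n => -I * d0 n)
    (by
      refine hdN.congr (fun n => ?_)
      rw [norm_mul, norm_neg, Complex.norm_I, one_mul])
    (by simp [hd0]) hIm
  by_cases hn1 : n = 1
  · rw [hn1]; exact hβ1
  · have hn2 : 2 ≤ n := by omega
    have h3 := h0 n hn2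
    simp only [hd0, if_neg (show n ≠ 0 by omega)] at h3
    have hn1' : (0 : ℝ) < n := by exact_mod_cast (show 0 < n by omega)
    have h4 : (((n : ℝ) ^ (-(1 / 2) : ℝ) : ℝ) : ℂ) ≠ 0 := by
      exact_mod_cast (Real.rpow_pos_of_pos hn1' _).ne'
    rcases mul_eq_zero.mp h3 with h5 | h5
    · exact absurd h5 (neg_ne_zero.mpr I_ne_zero)
    · rcases mul_eq_zero.mp h5 with h6 | h6
      · exact h6
      · exact absurd h6 h4

end Pool.Agent.SelTwo
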