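import Pool.Agent.SelTwo.Targets

/-!
# INV: Mellin inversion for `exp (-X t)`
-/

set_option autoImplicit false

namespace Pool.Agent.SelTwo

open Complex Filter Topology MeasureTheory

noncomputable section

namespace INV_

theorem int_exp_abs {c : ℝ} (hc : 0 < c) : Integrable (fun t : ℝ => Real.exp (-c * |t|)) := by
  rw [← integrableOn_univ, ← Set.Iic_union_Ioi (a := (0 : ℝ)), integrableOn_union]
  constructor
  · refine (integrableOn_exp_mul_Iic hc 0).congr_fun (fun t ht => ?_) measurableSet_Iic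
    simp only [Set.mem_Iic] at ht
    simp only [abs_of_nonpos ht]
    ring_nf
  · refine (integrableOn_exp_mul_Ioi (neg_lt_zero.2 hc) 0).congr_fun (fun t ht => ?_)
      measurableSet_Ioi
    simp only [Set.mem_Ioi] at ht
    simp only [abs_of_pos ht]

theorem norm_cpow_le {X : ℂ} (hX : X ≠ 0) (σ t : ℝ) :
    ‖X ^ (-vl σ t)‖ ≤ ‖X‖ ^ (-σ) * Real.exp (|arg X| * |t|) := by
  rw [norm_cpow_of_ne_zero hX]
  have h1 : (-vl σ t).re = -σ := by simp [vl]
  have h2 : (-vl σ t).im = -t := by simp [vl]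
  rw [h1, h2, div_eq_mul_inv, ← Real.exp_neg]
  refine mul_le_mul_of_nonneg_left (Real.exp_le_exp.2 ?_) (Real.rpow_nonneg (norm_nonneg _) _)
  rw [mul_neg, neg_neg, ← abs_mul]
  exact le_abs_self _

theorem continuous_vl (σ : ℝ) : Continuous (fun t : ℝ => vl σ t) := by
  unfold vl
  fun_prop

theorem cont_gamma {σ : ℝ} (hσ : 0 < σ) : Continuous (fun t : ℝ => Gamma (vl σ t)) := by
  rw [continuous_iff_continuousAt]
  intro t
  have h : DifferentiableAt ℂ Gamma (vl σ t) := by
    refine differentiableAt_Gamma _ fun m hm => ?_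
    have := congrArg Complex.re hm
    simp [vl] at this
    have hm0 : (0 : ℝ) ≤ m := Nat.cast_nonneg m
    linarith
  exact ContinuousAt.comp (f := fun t : ℝ => vl σ t) h.continuousAt
    (continuous_vl σ).continuousAt

theorem cont_cpow {X : ℂ} (hX : X ≠ 0) (σ : ℝ) : Continuous (fun t : ℝ => X ^ (-vl σ t)) :=
  (continuous_vl σ).neg.const_cpow (Or.inl hX)

end INV_

open INV_

theorem p_INV (h1 : T_MELX) (h2 : T_GAM) : T_INV := by
  intro σ X hσ hX
  have hX0 : X ≠ 0 := by
    rintro rfl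
    simp at hX
  have harg : |arg X| < Real.pi / 2 := abs_arg_lt_pi_div_two_iff.2 (Or.inl hX)
  set φ : ℝ := (|arg X| + Real.pi / 2) / 2 with hφ
  have hφ0 : 0 ≤ φ := by have := abs_nonneg (arg X); have := Real.pi_pos; rw [hφ]; positivity
  have hφ1 : φ < Real.pi / 2 := by rw [hφ]; linarith
  have hφ2 : 0 < φ - |arg X| := by rw [hφ]; linarith
  have hint : Integrable (fun t : ℝ => Gamma (vl σ t) * X ^ (-vl σ t)) := by
    have hmaj : Integrable (fun t : ℝ => (Real.Gamma σ * Real.cos φ ^ (-σ) * ‖X‖ ^ (-σ)) *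
        Real.exp (-(φ - |arg X|) * |t|)) := (int_exp_abs hφ2).const_mul _
    refine hmaj.mono' ((cont_gamma hσ).mul (cont_cpow hX0 σ)).aestronglyMeasurable
      (Eventually.of_forall fun t => ?_)
    rw [norm_mul]
    have ha := h2 σ φ t hσ hφ0 hφ1
    have hb := norm_cpow_le hX0 σ t
    calc ‖Gamma (vl σ t)‖ * ‖X ^ (-vl σ t)‖
        ≤ (Real.Gamma σ * Real.cos φ ^ (-σ) * Real.exp (-φ * |t|)) *
          (‖X‖ ^ (-σ) * Real.exp (|arg X| * |t|)) :=
          mul_le_mul ha hb (norm_nonneg _) ((norm_nonneg _).trans ha)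
      _ = (Real.Gamma σ * Real.cos φ ^ (-σ) * ‖X‖ ^ (-σ)) *
          (Real.exp (-φ * |t|) * Real.exp (|arg X| * |t|)) := by ring
      _ = _ := by
          rw [← Real.exp_add]
          congr 2
          ring
  refine ⟨hint, ?_⟩
  set f : ℝ → ℂ := fun t => exp (-(X * t)) with hf
  have hmel : ∀ s : ℂ, 0 < s.re → mellin f s = X ^ (-s) * Gamma s := by
    intro s hs
    rw [← (h1 s X hs hX).2]
    rfl
  have hconv : MellinConvergent f σ := by
    have := (h1 (σ : ℂ) X (by simpa using hσ) hX).1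
    exact this
  have hline : ∀ t : ℝ, mellin f ((σ : ℂ) + t * I) = Gamma (vl σ t) * X ^ (-vl σ t) := by
    intro t
    rw [hmel _ (by simpa using hσ), mul_comm]
    rfl
  have hvert : VerticalIntegrable (mellin f) σ := by
    unfold VerticalIntegrable
    simp_rw [hline]
    exact hint
  have hcont : ContinuousAt f 1 := by
    rw [hf]
    fun_prop
  have key := mellinInv_mellin_eq σ f one_pos hconv hvert hcont
  unfold mellinInv at key
  simp_rw [hline] at key
  simp only [ofReal_one, one_cpow, one_smul, hf, mul_one] at key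
  have hpi : (2 * Real.pi : ℝ) ≠ 0 := by positivity
  rw [← key]
  rw [Complex.real_smul]
  push_cast
  have hpi' : (Real.pi : ℂ) ≠ 0 := by exact_mod_cast Real.pi_ne_zero
  field_simp

end

end Pool.Agent.SelTwo
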