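import Pool.Agent.SelTwo.Targets

/-! Integral representation of `∑ a(n) exp(-n Y)` (job ST-LAM). -/

set_option autoImplicit false

namespace Pool.Agent.SelTwo.LAM_

open Complex Filter Topology MeasureTheory

theorem vl_shift (t θ : ℝ) : vl (3 / 2) t = vl (3 / 2) (t - θ) + θ * I := by
  unfold vl; push_cast; ring

theorem vl_re (σ t : ℝ) : (vl σ t).re = σ := by simp [vl]

theorem cont_vl (σ : ℝ) : Continuous (vl σ) := by unfold vl; fun_prop

theorem ne_zero_of_re {Y : ℂ} (hY : 0 < Y.re) : Y ≠ 0 := by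
  rintro rfl; simp at hY

/-- powers of a product `n Y` -/
theorem mul_cpow' {n : ℕ} (hn : n ≠ 0) {Y : ℂ} (hY : Y ≠ 0) (s : ℂ) :
    ((n : ℂ) * Y) ^ s = (n : ℂ) ^ s * Y ^ s := by
  have hn' : (n : ℂ) ≠ 0 := by exact_mod_cast hn
  have hr : (0 : ℝ) < n := by exact_mod_cast Nat.pos_of_ne_zero hn
  rw [cpow_def_of_ne_zero (mul_ne_zero hn' hY), cpow_def_of_ne_zero hn', cpow_def_of_ne_zero hY,
    ← Complex.exp_add]
  congr 1
  have := log_ofReal_mul hr hY
  rw [Complex.ofReal_natCast] at this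
  rw [this, Complex.ofReal_log hr.le, Complex.ofReal_natCast]
  ring

/-- one term -/
theorem single (h : T_INV) (θ : ℝ) {Z : ℂ} (hZ : 0 < Z.re) :
    Integrable (fun t : ℝ => Gamma (vl (3 / 2) t - θ * I) * Z ^ (-vl (3 / 2) t)) ∧
    ∫ t : ℝ, Gamma (vl (3 / 2) t - θ * I) * Z ^ (-vl (3 / 2) t) =
      2 * Real.pi * Z ^ (-((θ : ℂ) * I)) * exp (-Z) := by
  obtain ⟨h1, h2⟩ := h (3 / 2) Z (by norm_num) hZ
  have hZ0 := ne_zero_of_re hZ
  have e : (fun t : ℝ => Gamma (vl (3 / 2) t - θ * I) * Z ^ (-vl (3 / 2) t)) =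
      fun t : ℝ => Z ^ (-((θ : ℂ) * I)) *
        (fun t' : ℝ => Gamma (vl (3 / 2) t') * Z ^ (-vl (3 / 2) t')) (t - θ) := by
    funext t
    simp only
    rw [vl_shift t θ, add_sub_cancel_right, neg_add, cpow_add _ _ hZ0]
    ring
  rw [e]
  refine ⟨(h1.comp_sub_right θ).const_mul _, ?_⟩
  rw [integral_const_mul, integral_sub_right_eq_self
    (fun t' : ℝ => Gamma (vl (3 / 2) t') * Z ^ (-vl (3 / 2) t')) θ, h2]
  ring

end Pool.Agent.SelTwo.LAM_

namespace Pool.Agent.SelTwo

open Complex Filter Topology MeasureTheory LAM_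

theorem p_LAM (h : T_INV) : T_LAM := by
  intro a θ Y ha hY
  have hY0 := ne_zero_of_re hY
  obtain ⟨hI, -⟩ := single h θ hY
  -- the bound for the terms
  set u : ℕ → ℝ := fun n => ‖LSeries.term a (3 / 2) n‖ with hu
  have hus : Summable u := ha.norm
  have hterm : ∀ (n : ℕ) (t : ℝ), ‖LSeries.term a (vl (3 / 2) t) n‖ = u n := by
    intro n t
    rw [hu]
    simp only
    rw [LSeries.norm_term_eq, LSeries.norm_term_eq, vl_re]
    norm_num
  have hcont : ∀ n : ℕ, Continuous fun t : ℝ => LSeries.term a (vl (3 / 2) t) n := by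
    intro n
    rcases eq_or_ne n 0 with rfl | hn
    · simp only [LSeries.term_zero]; exact continuous_const
    · simp only [LSeries.term_of_ne_zero hn]
      have hn' : (n : ℂ) ≠ 0 := by exact_mod_cast hn
      refine continuous_const.div ?_ fun t => ?_
      · exact (cont_vl _).const_cpow (Or.inl hn')
      · exact (cpow_ne_zero_iff_of_exponent_ne_zero (by
          intro h0
          have := vl_re (3 / 2) t
          rw [h0] at this
          norm_num at this)).2 hn'
  have hLc : Continuous fun t : ℝ => LSeries a (vl (3 / 2) t) :=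
    continuous_tsum hcont hus fun n t => (hterm n t).le
  have hLb : ∀ t : ℝ, ‖LSeries a (vl (3 / 2) t)‖ ≤ ∑' n, u n := fun t => by
    refine tsum_of_norm_bounded hus.hasSum fun n => (hterm n t).le
  have hInt : Integrable (fun t : ℝ => Gamma (vl (3 / 2) t - θ * I) * Y ^ (-vl (3 / 2) t) *
      LSeries a (vl (3 / 2) t)) :=
    hI.mul_bdd hLc.aestronglyMeasurable (Eventually.of_forall hLb)
  refine ⟨hInt, ?_⟩
  -- the terms
  set f : ℕ → ℝ → ℂ := fun n t => Gamma (vl (3 / 2) t - θ * I) * Y ^ (-vl (3 / 2) t) *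
    LSeries.term a (vl (3 / 2) t) n with hf
  have hfi : ∀ n, Integrable (f n) := fun n =>
    hI.mul_bdd (hcont n).aestronglyMeasurable (Eventually.of_forall fun t => (hterm n t).le)
  have hfn : ∀ n, ∫ t, ‖f n t‖ =
      u n * ∫ t : ℝ, ‖Gamma (vl (3 / 2) t - θ * I) * Y ^ (-vl (3 / 2) t)‖ := by
    intro n
    rw [← integral_const_mul]
    congr 1
    funext t
    rw [hf]
    simp only
    rw [norm_mul, hterm, mul_comm]
  have hs : Summable fun n => ∫ t, ‖f n t‖ := by
    simp_rw [hfn]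
    exact hus.mul_right _
  have hsum := hasSum_integral_of_summable_integral_norm hfi hs
  have hfsum : (fun t : ℝ => ∑' n, f n t) = fun t : ℝ =>
      Gamma (vl (3 / 2) t - θ * I) * Y ^ (-vl (3 / 2) t) * LSeries a (vl (3 / 2) t) := by
    funext t
    rw [hf]
    simp only
    rw [tsum_mul_left]
    rfl
  rw [hfsum] at hsum
  have hval : ∀ n : ℕ, ∫ t, f (n + 1) t = (2 * Real.pi * Y ^ (-((θ : ℂ) * I))) *
      (tw θ a (n + 1) * exp (-(((n : ℂ) + 1) * Y))) := by
    intro n
    have hn : n + 1 ≠ 0 := Nat.succ_ne_zero n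
    have hZ : 0 < (((n + 1 : ℕ) : ℂ) * Y).re := by
      rw [← Complex.ofReal_natCast, Complex.re_ofReal_mul]
      positivity
    obtain ⟨-, h2⟩ := single h θ hZ
    have e : ∀ t : ℝ, f (n + 1) t = a (n + 1) *
        (Gamma (vl (3 / 2) t - θ * I) * (((n + 1 : ℕ) : ℂ) * Y) ^ (-vl (3 / 2) t)) := by
      intro t
      rw [hf]
      simp only
      rw [LSeries.term_of_ne_zero hn, mul_cpow' hn hY0, cpow_neg ((n + 1 : ℕ) : ℂ)]
      ring
    simp_rw [e]
    rw [integral_const_mul, h2, mul_cpow' hn hY0]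
    unfold tw
    push_cast
    ring
  have h0 : ∫ t, f 0 t = 0 := by
    rw [hf]
    simp [LSeries.term_zero]
  have h1 := (hasSum_nat_add_iff' 1).2 hsum
  simp only [Finset.range_one, Finset.sum_singleton, h0, sub_zero] at h1
  simp_rw [hval] at h1
  rw [← h1.tsum_eq, tsum_mul_left]
  rfl

end Pool.Agent.SelTwo
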