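import Pool.Agent.SelTwo.Targets

set_option autoImplicit false

/-! LIM: the modular relation in the limit. -/

namespace Pool.Agent.SelTwo

open Complex Filter Topology MeasureTheory

namespace LIM_

/-- the imaginary part of the image point -/
noncomputable def al (q α y : ℝ) : ℝ := -α / (q * (y ^ 2 + α ^ 2))

/-- the real part of the image point -/
noncomputable def yp (q α y : ℝ) : ℝ := y / (q * (y ^ 2 + α ^ 2))

theorem pX_ne {α y : ℝ} (hy : 0 < y) : pX α y ≠ 0 := by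
  intro h
  have := congrArg Complex.re h
  simp [pX] at this
  exact hy.ne' this

theorem image_eq {q α y : ℝ} (hq : 0 < q) (hy : 0 < y) :
    4 * (Real.pi : ℂ) ^ 2 / (q * pX α y) = pX (al q α y) (yp q α y) := by
  have hpi : (Real.pi : ℂ) ≠ 0 := by exact_mod_cast Real.pi_ne_zero
  have hq' : (q : ℂ) ≠ 0 := by exact_mod_cast hq.ne'
  have hs : ((y : ℂ) ^ 2 + (α : ℂ) ^ 2) ≠ 0 := by
    have : y ^ 2 + α ^ 2 ≠ 0 := by positivity
    exact_mod_cast this
  rw [div_eq_iff (mul_ne_zero hq' (pX_ne hy))]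
  unfold pX al yp
  push_cast
  field_simp
  ring_nf
  rw [Complex.I_sq]
  ring

theorem norm_tw {a : ℕ → ℂ} (θ : ℝ) {n : ℕ} (hn : 1 ≤ n) : ‖tw θ (cj a) n‖ = ‖a n‖ := by
  unfold tw cj
  rw [norm_mul, Complex.norm_conj]
  have h0 : 0 < (n : ℝ) := by exact_mod_cast hn
  have : ‖(n : ℂ) ^ (-((θ : ℂ) * I))‖ = 1 := by
    rw [← Complex.ofReal_natCast, Complex.norm_cpow_eq_rpow_re_of_pos h0]
    simp
  rw [this, mul_one]

theorem tw_zero (a : ℕ → ℂ) : tw 0 a = a := by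
  funext n
  simp [tw]

theorem norm_cpow_I (x θ : ℝ) (hx : 0 < x) : ‖(x : ℂ) ^ ((θ : ℂ) * I)‖ = 1 := by
  rw [Complex.norm_cpow_eq_rpow_re_of_pos hx]
  simp

theorem tendsto_log_inv : Tendsto (fun y : ℝ => Real.log (1 / y)) (𝓝[>] 0) atTop := by
  have h1 : Tendsto (fun y : ℝ => 1 / y) (𝓝[>] 0) atTop := by
    simpa using tendsto_inv_nhdsGT_zero (𝕜 := ℝ)
  exact Real.tendsto_log_atTop.comp h1

theorem tendsto_sq {q α : ℝ} :
    Tendsto (fun y : ℝ => q * (y ^ 2 + α ^ 2)) (𝓝[>] 0) (𝓝 (q * α ^ 2)) := by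
  have h : Continuous (fun y : ℝ => q * (y ^ 2 + α ^ 2)) := by fun_prop
  have h2 := (h.tendsto 0).mono_left (nhdsWithin_le_nhds (s := Set.Ioi (0 : ℝ)))
  simpa using h2

theorem tendsto_yp {q α : ℝ} (hq : 0 < q) (hα : 0 < α) :
    Tendsto (yp q α) (𝓝[>] 0) (𝓝[>] 0) := by
  rw [tendsto_nhdsWithin_iff]
  constructor
  · have h1 : Tendsto (fun y : ℝ => y) (𝓝[>] 0) (𝓝 0) := nhdsWithin_le_nhds
    have h2 := h1.div (tendsto_sq (q := q) (α := α)) (by positivity)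
    rw [zero_div] at h2
    exact h2
  · filter_upwards [self_mem_nhdsWithin] with y hy
    have hy' : 0 < y := hy
    unfold yp
    rw [Set.mem_Ioi]
    positivity

theorem tendsto_ratio {q α : ℝ} (hq : 0 < q) (hα : 0 < α) :
    Tendsto (fun y : ℝ => Real.log (1 / yp q α y) / Real.log (1 / y)) (𝓝[>] 0) (𝓝 1) := by
  have h1 : Tendsto (fun y : ℝ => Real.log (q * (y ^ 2 + α ^ 2))) (𝓝[>] 0)
      (𝓝 (Real.log (q * α ^ 2))) :=
    (Real.continuousAt_log (by positivity)).tendsto.comp tendsto_sq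
  have h2 : Tendsto (fun y : ℝ => 1 + Real.log (q * (y ^ 2 + α ^ 2)) / Real.log (1 / y))
      (𝓝[>] 0) (𝓝 (1 + 0)) :=
    tendsto_const_nhds.add (h1.div_atTop tendsto_log_inv)
  rw [add_zero] at h2
  refine h2.congr' ?_
  have h3 := tendsto_log_inv.eventually_gt_atTop 0
  filter_upwards [self_mem_nhdsWithin, h3] with y hy hy2
  have hy' : 0 < y := hy
  have h4 : 1 / yp q α y = (1 / y) * (q * (y ^ 2 + α ^ 2)) := by
    unfold yp
    field_simp
  have hs : 0 < q * (y ^ 2 + α ^ 2) := by positivity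
  rw [h4]
  generalize q * (y ^ 2 + α ^ 2) = s at hs
  have hy0 : (1 / y : ℝ) ≠ 0 := by positivity
  rw [Real.log_mul hy0 hs.ne', add_div, div_self hy2.ne']

/-- the slowly varying factor -/
noncomputable def cc (A : ℂ) (q θ α y : ℝ) : ℂ :=
  A / pX α y * (4 * Real.pi ^ 2 / (q * pX α y)) ^ (-((θ : ℂ) * I)) *
    ((q * (y ^ 2 + α ^ 2) : ℝ) : ℂ) *
    ((Real.log (1 / yp q α y) / Real.log (1 / y) : ℝ) : ℂ) *
    ((1 / (q * (y ^ 2 + α ^ 2)) : ℝ) : ℂ) ^ ((θ : ℂ) * I)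

/-- its limit -/
noncomputable def c0 (A : ℂ) (q θ α : ℝ) : ℂ :=
  A / pX α 0 * (4 * Real.pi ^ 2 / (q * pX α 0)) ^ (-((θ : ℂ) * I)) *
    ((q * α ^ 2 : ℝ) : ℂ) * ((1 : ℝ) : ℂ) * ((1 / (q * α ^ 2) : ℝ) : ℂ) ^ ((θ : ℂ) * I)

theorem pX_zero (α : ℝ) : pX α 0 = -(2 * Real.pi * α) * I := by
  unfold pX
  push_cast
  ring

theorem tendsto_cc (A : ℂ) {q α : ℝ} (θ : ℝ) (hq : 0 < q) (hα : 0 < α) :
    Tendsto (cc A q θ α) (𝓝[>] 0) (𝓝 (c0 A q θ α)) := by
  have hpi : (Real.pi : ℂ) ≠ 0 := by exact_mod_cast Real.pi_ne_zero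
  have hq' : (q : ℂ) ≠ 0 := by exact_mod_cast hq.ne'
  have hα' : (α : ℂ) ≠ 0 := by exact_mod_cast hα.ne'
  have hX : Tendsto (fun y : ℝ => pX α y) (𝓝[>] 0) (𝓝 (pX α 0)) := by
    have h : Continuous (fun y : ℝ => pX α y) := by
      unfold pX
      fun_prop
    exact (h.tendsto 0).mono_left nhdsWithin_le_nhds
  have hX0 : pX α 0 ≠ 0 := by
    rw [pX_zero]
    simp [hpi, hα']
  have h1 : Tendsto (fun y : ℝ => A / pX α y) (𝓝[>] 0) (𝓝 (A / pX α 0)) :=
    tendsto_const_nhds.div hX hX0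
  have h2 : Tendsto (fun y : ℝ => 4 * (Real.pi : ℂ) ^ 2 / (q * pX α y)) (𝓝[>] 0)
      (𝓝 (4 * (Real.pi : ℂ) ^ 2 / (q * pX α 0))) :=
    tendsto_const_nhds.div (tendsto_const_nhds.mul hX) (mul_ne_zero hq' hX0)
  have h3 : (4 * (Real.pi : ℂ) ^ 2 / (q * pX α 0)) ∈ slitPlane := by
    have : 4 * (Real.pi : ℂ) ^ 2 / (q * pX α 0) = ((2 * Real.pi / (q * α) : ℝ) : ℂ) * I := by
      rw [div_eq_iff (mul_ne_zero hq' hX0), pX_zero]
      push_cast
      field_simp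
      ring_nf
      rw [Complex.I_sq]
      ring
    rw [this, Complex.mem_slitPlane_iff]
    right
    have h0 : 0 < 2 * Real.pi / (q * α) := by positivity
    rw [Complex.mul_I_im, Complex.ofReal_re]
    exact h0.ne'
  have h4 : Tendsto (fun y : ℝ => (4 * (Real.pi : ℂ) ^ 2 / (q * pX α y)) ^ (-((θ : ℂ) * I)))
      (𝓝[>] 0) (𝓝 ((4 * (Real.pi : ℂ) ^ 2 / (q * pX α 0)) ^ (-((θ : ℂ) * I)))) :=
    ((continuousAt_id.cpow continuousAt_const h3).tendsto).comp h2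
  have h5 : Tendsto (fun y : ℝ => ((q * (y ^ 2 + α ^ 2) : ℝ) : ℂ)) (𝓝[>] 0)
      (𝓝 ((q * α ^ 2 : ℝ) : ℂ)) :=
    (Complex.continuous_ofReal.tendsto _).comp tendsto_sq
  have h6 : Tendsto (fun y : ℝ => ((Real.log (1 / yp q α y) / Real.log (1 / y) : ℝ) : ℂ))
      (𝓝[>] 0) (𝓝 ((1 : ℝ) : ℂ)) :=
    (Complex.continuous_ofReal.tendsto _).comp (tendsto_ratio hq hα)
  have h7 : Tendsto (fun y : ℝ => ((1 / (q * (y ^ 2 + α ^ 2)) : ℝ) : ℂ) ^ ((θ : ℂ) * I))
      (𝓝[>] 0) (𝓝 (((1 / (q * α ^ 2) : ℝ) : ℂ) ^ ((θ : ℂ) * I))) := by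
    have h8 : Tendsto (fun y : ℝ => ((1 / (q * (y ^ 2 + α ^ 2)) : ℝ) : ℂ)) (𝓝[>] 0)
        (𝓝 ((1 / (q * α ^ 2) : ℝ) : ℂ)) :=
      (Complex.continuous_ofReal.tendsto _).comp
        (tendsto_const_nhds.div tendsto_sq (by positivity))
    have h9 : (((1 / (q * α ^ 2) : ℝ) : ℂ)) ∈ slitPlane := by
      rw [Complex.mem_slitPlane_iff]
      left
      rw [Complex.ofReal_re]
      positivity
    exact ((continuousAt_id.cpow continuousAt_const h9).tendsto).comp h8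
  exact (((h1.mul h4).mul h5).mul h6).mul h7

/-- from oscillation to the conclusion -/
theorem concl {K ρ : ℂ} {θ : ℝ}
    (h : Tendsto (fun y : ℝ => ((2 * Real.pi * y : ℝ) : ℂ) ^ ((θ : ℂ) * I) * K) (𝓝[>] 0) (𝓝 ρ)) :
    (ρ ≠ 0 → θ = 0) ∧ (θ = 0 → ρ = K) := by
  constructor
  · intro hρ
    by_contra hθ
    apply hρ
    -- compare `y` and `y * exp (π / θ)`
    have hpos : 0 < Real.exp (Real.pi / θ) := Real.exp_pos _
    have h1 : Tendsto (fun y : ℝ => y * Real.exp (Real.pi / θ)) (𝓝[>] 0) (𝓝[>] 0) := by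
      rw [tendsto_nhdsWithin_iff]
      constructor
      · have h2 : Continuous (fun y : ℝ => y * Real.exp (Real.pi / θ)) := by fun_prop
        have h3 := (h2.tendsto 0).mono_left (nhdsWithin_le_nhds (s := Set.Ioi (0 : ℝ)))
        simpa using h3
      · filter_upwards [self_mem_nhdsWithin] with y hy
        have hy' : 0 < y := hy
        rw [Set.mem_Ioi]
        positivity
    have h2 := h.comp h1
    have h3 : Tendsto (fun y : ℝ => -(((2 * Real.pi * y : ℝ) : ℂ) ^ ((θ : ℂ) * I) * K)) (𝓝[>] 0)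
        (𝓝 ρ) := by
      refine h2.congr' ?_
      filter_upwards [self_mem_nhdsWithin] with y hy
      have hy' : 0 < y := hy
      have h4 : ((2 * Real.pi * (y * Real.exp (Real.pi / θ)) : ℝ) : ℂ) =
          ((2 * Real.pi * y : ℝ) : ℂ) * ((Real.exp (Real.pi / θ) : ℝ) : ℂ) := by
        push_cast
        ring
      have h5 : ((Real.exp (Real.pi / θ) : ℝ) : ℂ) ^ ((θ : ℂ) * I) = -1 := by
        have hθ' : (θ : ℂ) ≠ 0 := by exact_mod_cast hθ
        rw [Complex.cpow_def_of_ne_zero (by exact_mod_cast hpos.ne'), ← Complex.ofReal_log hpos.le,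
          Real.log_exp, ← Complex.exp_pi_mul_I]
        congr 1
        push_cast
        field_simp
      simp only [Function.comp_apply]
      rw [h4, Complex.mul_cpow_ofReal_nonneg (by positivity) hpos.le, h5]
      ring
    have h4 := tendsto_nhds_unique h3 h.neg
    have h5 : ρ + ρ = 0 := by
      nth_rewrite 1 [h4]
      ring
    have h6 : (2 : ℂ) * ρ = 0 := by rw [two_mul]; exact h5
    exact (mul_eq_zero.1 h6).resolve_left two_ne_zero
  · rintro rfl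
    have h1 : Tendsto (fun _ : ℝ => K) (𝓝[>] (0 : ℝ)) (𝓝 ρ) := by
      simpa using h
    exact (tendsto_nhds_unique h1 tendsto_const_nhds)

end LIM_

open LIM_ in
theorem p_LIM (h1 : T_PS) (h2 : T_NEAR) : T_LIM := by
  intro a A₁ A q θ α ρ₁ ρ₂ ha hA hq hα hrel hs1 hs2
  obtain ⟨C, hC⟩ := hrel
  have hpi : (Real.pi : ℂ) ≠ 0 := by exact_mod_cast Real.pi_ne_zero
  set b := tw θ (cj a) with hb
  set α₀ : ℝ := -1 / (q * α) with hα₀
  have hlog := tendsto_log_inv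
  have hL : ∀ᶠ y : ℝ in 𝓝[>] 0, 0 < Real.log (1 / y) := hlog.eventually_gt_atTop 0
  have hlt1 : ∀ᶠ y : ℝ in 𝓝[>] 0, y < 1 :=
    (nhdsWithin_le_nhds (s := Set.Ioi (0 : ℝ))) (Iio_mem_nhds (by norm_num))
  -- the left side
  have f1 : Tendsto (fun y : ℝ => ((2 * Real.pi * y : ℝ) : ℂ) / ((Real.log (1 / y) : ℝ) : ℂ) *
      lam a (pX α y)) (𝓝[>] 0) (𝓝 ρ₁) := by
    have h := h1 a α 0 ρ₁ hs1
    rw [tw_zero] at h
    simpa using h
  -- the right side at the base point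
  have hW : Tendsto (fun y : ℝ => ((2 * Real.pi * yp q α y : ℝ) : ℂ) ^ (1 - (θ : ℂ) * I) /
      ((Real.log (1 / yp q α y) : ℝ) : ℂ) * lam b (pX α₀ (yp q α y))) (𝓝[>] 0)
      (𝓝 (Gamma (1 - (θ : ℂ) * I) * ρ₂)) :=
    (h1 (cj a) α₀ θ ρ₂ hs2).comp (tendsto_yp hq hα)
  have hcW := (tendsto_cc A θ hq hα).mul hW
  -- the error of the relation
  have e1 : Tendsto (fun y : ℝ => ((2 * Real.pi * y : ℝ) : ℂ) / ((Real.log (1 / y) : ℝ) : ℂ) *
      (lam a (pX α y) - A / pX α y * (4 * Real.pi ^ 2 / (q * pX α y)) ^ (-((θ : ℂ) * I)) *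
        lam b (4 * Real.pi ^ 2 / (q * pX α y)))) (𝓝[>] 0) (𝓝 0) := by
    have hb1 : Tendsto (fun y : ℝ => 2 * Real.pi * C / Real.log (1 / y)) (𝓝[>] 0) (𝓝 0) :=
      hlog.const_div_atTop _
    refine squeeze_zero_norm' ?_ hb1
    filter_upwards [self_mem_nhdsWithin, hL, hlt1] with y hy hy2 hy3
    have hy' : 0 < y := hy
    have h3 := hC y hy' hy3.le
    rw [norm_mul, norm_div, Complex.norm_real, Complex.norm_real, Real.norm_eq_abs,
      Real.norm_eq_abs, abs_of_pos hy2, abs_of_pos (by positivity)]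
    calc _ ≤ 2 * Real.pi * y / Real.log (1 / y) * (C / y) :=
          mul_le_mul_of_nonneg_left h3 (by positivity)
      _ = _ := by field_simp
  -- moving the base point
  obtain ⟨C', hC'⟩ := h2 b A₁ (fun n hn => by rw [hb, norm_tw θ hn]; exact ha n hn)
  have hC'0 : 0 ≤ C' := by
    have h3 := hC' 0 1 1 one_pos le_rfl
    have h4 : 0 ≤ C' * |(1 : ℝ) - 0| * (1 : ℝ) ^ (-(5 / 2) : ℝ) := (norm_nonneg _).trans h3
    simpa using h4
  have e2 : Tendsto (fun y : ℝ => ((2 * Real.pi * y : ℝ) : ℂ) / ((Real.log (1 / y) : ℝ) : ℂ) *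
      (A / pX α y * (4 * Real.pi ^ 2 / (q * pX α y)) ^ (-((θ : ℂ) * I)) *
        (lam b (4 * Real.pi ^ 2 / (q * pX α y)) - lam b (pX α₀ (yp q α y))))) (𝓝[>] 0)
      (𝓝 0) := by
    set D : ℝ := ‖A‖ / α * Real.exp (Real.pi * |θ|) * (C' * (1 / (q * α ^ 3)) *
      (q * (1 + α ^ 2)) ^ (5 / 2 : ℝ)) with hD
    have hb1 : Tendsto (fun y : ℝ => D / Real.log (1 / y)) (𝓝[>] 0) (𝓝 0) :=
      hlog.const_div_atTop _
    refine squeeze_zero_norm' ?_ hb1
    have hyp1 : ∀ᶠ y : ℝ in 𝓝[>] 0, yp q α y ≤ 1 := by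
      have h3 : Tendsto (yp q α) (𝓝[>] 0) (𝓝 0) :=
        (tendsto_yp hq hα).mono_right nhdsWithin_le_nhds
      exact (h3.eventually (Iio_mem_nhds (by norm_num : (0 : ℝ) < 1))).mono fun y hy => le_of_lt hy
    filter_upwards [self_mem_nhdsWithin, hL, hlt1, hyp1] with y hy hy2 hy3 hy4
    have hy' : 0 < y := hy
    have hyp0 : 0 < yp q α y := by unfold yp; positivity
    have h3 := hC' α₀ (al q α y) (yp q α y) hyp0 hy4
    rw [image_eq hq hy']
    rw [norm_mul, norm_mul, norm_mul, norm_div, norm_div, Complex.norm_real, Complex.norm_real,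
      Real.norm_eq_abs, Real.norm_eq_abs, abs_of_pos hy2, abs_of_pos (by positivity)]
    have h4 : 2 * Real.pi * α ≤ ‖pX α y‖ := by
      have h5 := Complex.abs_im_le_norm (pX α y)
      have h6 : (pX α y).im = -(2 * Real.pi * α) := by
        simp [pX]
      rw [h6, abs_neg, abs_of_pos (by positivity)] at h5
      exact h5
    have h5 : ‖A‖ / ‖pX α y‖ ≤ ‖A‖ / (2 * Real.pi * α) :=
      div_le_div_of_nonneg_left (norm_nonneg _) (by positivity) h4
    have h6 : ‖pX (al q α y) (yp q α y) ^ (-((θ : ℂ) * I))‖ ≤ Real.exp (Real.pi * |θ|) := by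
      rw [Complex.norm_cpow_of_ne_zero (pX_ne hyp0)]
      have e3 : (-((θ : ℂ) * I)).re = 0 := by simp
      have e4 : (-((θ : ℂ) * I)).im = -θ := by simp
      rw [e3, e4, Real.rpow_zero, one_div, ← Real.exp_neg]
      apply Real.exp_le_exp.2
      have h7 := Complex.abs_arg_le_pi (pX (al q α y) (yp q α y))
      have h8 : -((pX (al q α y) (yp q α y)).arg * -θ) ≤
          |(pX (al q α y) (yp q α y)).arg| * |θ| := by
        rw [← abs_mul]
        calc _ = (pX (al q α y) (yp q α y)).arg * θ := by ring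
          _ ≤ _ := le_abs_self _
      exact h8.trans (mul_le_mul_of_nonneg_right h7 (abs_nonneg _))
    have h7 : |al q α y - α₀| ≤ y ^ 2 * (1 / (q * α ^ 3)) := by
      have e5 : al q α y - α₀ = y ^ 2 / (q * α * (y ^ 2 + α ^ 2)) := by
        rw [hα₀]
        unfold al
        field_simp
        ring
      rw [e5, abs_of_pos (by positivity), div_eq_mul_one_div]
      apply mul_le_mul_of_nonneg_left _ (by positivity)
      apply one_div_le_one_div_of_le (by positivity)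
      nlinarith [mul_pos (mul_pos hq hα) (pow_pos hy' 2)]
    have h8 : (yp q α y) ^ (-(5 / 2) : ℝ) ≤ (q * (1 + α ^ 2)) ^ (5 / 2 : ℝ) * y ^ (-(5 / 2) : ℝ) := by
      have e6 : (yp q α y) ^ (-(5 / 2) : ℝ) = (q * (y ^ 2 + α ^ 2)) ^ (5 / 2 : ℝ) *
          y ^ (-(5 / 2) : ℝ) := by
        unfold yp
        rw [Real.div_rpow hy'.le (by positivity), Real.rpow_neg (by positivity)
          (5 / 2 : ℝ), Real.rpow_neg (x := q * (y ^ 2 + α ^ 2)) (by positivity), div_inv_eq_mul,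
          mul_comm]
      rw [e6]
      apply mul_le_mul_of_nonneg_right _ (by positivity)
      apply Real.rpow_le_rpow (by positivity) _ (by norm_num)
      apply mul_le_mul_of_nonneg_left _ hq.le
      nlinarith
    have h9 : ‖lam b (pX (al q α y) (yp q α y)) - lam b (pX α₀ (yp q α y))‖ ≤
        C' * (y ^ 2 * (1 / (q * α ^ 3))) *
          ((q * (1 + α ^ 2)) ^ (5 / 2 : ℝ) * y ^ (-(5 / 2) : ℝ)) := by
      refine h3.trans ?_
      apply mul_le_mul (mul_le_mul_of_nonneg_left h7 hC'0) h8 (by positivity) (by positivity)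
    have h10 : y * (y ^ 2 * y ^ (-(5 / 2) : ℝ)) ≤ 1 := by
      have e7 : y * (y ^ 2 * y ^ (-(5 / 2) : ℝ)) = y ^ (1 / 2 : ℝ) := by
        have e8 : y ^ 2 = y ^ (2 : ℝ) := by norm_cast
        have e9 : y = y ^ (1 : ℝ) := by simp
        rw [e8]
        nth_rewrite 1 [e9]
        rw [← Real.rpow_add hy', ← Real.rpow_add hy']
        norm_num
      rw [e7]
      exact Real.rpow_le_one hy'.le hy3.le (by norm_num)
    calc _ ≤ 2 * Real.pi * y / Real.log (1 / y) * (‖A‖ / (2 * Real.pi * α) *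
          Real.exp (Real.pi * |θ|) * (C' * (y ^ 2 * (1 / (q * α ^ 3))) *
          ((q * (1 + α ^ 2)) ^ (5 / 2 : ℝ) * y ^ (-(5 / 2) : ℝ)))) := by
          apply mul_le_mul_of_nonneg_left _ (by positivity)
          apply mul_le_mul _ h9 (norm_nonneg _) (by positivity)
          apply mul_le_mul h5 h6 (norm_nonneg _) (by positivity)
      _ = D / Real.log (1 / y) * (y * (y ^ 2 * y ^ (-(5 / 2) : ℝ))) := by
          rw [hD]
          field_simp
      _ ≤ D / Real.log (1 / y) * 1 := mul_le_mul_of_nonneg_left h10 (by positivity)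
      _ = _ := mul_one _
  -- the main term
  have e3 : Tendsto (fun y : ℝ => ((2 * Real.pi * y : ℝ) : ℂ) ^ ((θ : ℂ) * I) *
      (cc A q θ α y * (((2 * Real.pi * yp q α y : ℝ) : ℂ) ^ (1 - (θ : ℂ) * I) /
      ((Real.log (1 / yp q α y) : ℝ) : ℂ) * lam b (pX α₀ (yp q α y))))) (𝓝[>] 0) (𝓝 ρ₁) := by
    have h3 := (f1.sub e1).sub e2
    rw [sub_zero, sub_zero] at h3
    refine h3.congr' ?_
    have hL2 : ∀ᶠ y : ℝ in 𝓝[>] 0, 0 < Real.log (1 / yp q α y) :=
      (hlog.comp (tendsto_yp hq hα)).eventually_gt_atTop 0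
    filter_upwards [self_mem_nhdsWithin, hL, hL2] with y hy hy2 hy3
    have hy' : 0 < y := hy
    have hyp0 : 0 < yp q α y := by unfold yp; positivity
    have hs0 : 0 < q * (y ^ 2 + α ^ 2) := by positivity
    have e4 : ((2 * Real.pi * yp q α y : ℝ) : ℂ) ^ (1 - (θ : ℂ) * I) =
        ((2 * Real.pi * yp q α y : ℝ) : ℂ) /
          (((2 * Real.pi * y : ℝ) : ℂ) ^ ((θ : ℂ) * I) *
            ((1 / (q * (y ^ 2 + α ^ 2)) : ℝ) : ℂ) ^ ((θ : ℂ) * I)) := by
      have e5 : ((2 * Real.pi * yp q α y : ℝ) : ℂ) =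
          ((2 * Real.pi * y : ℝ) : ℂ) * ((1 / (q * (y ^ 2 + α ^ 2)) : ℝ) : ℂ) := by
        unfold yp
        push_cast
        ring
      rw [Complex.cpow_sub _ _ (by
        have : 2 * Real.pi * yp q α y ≠ 0 := by positivity
        exact_mod_cast this), Complex.cpow_one]
      congr 1
      rw [e5, Complex.mul_cpow_ofReal_nonneg (by positivity) (by positivity)]
    rw [e4]
    unfold cc
    have n1 : ((2 * Real.pi * y : ℝ) : ℂ) ^ ((θ : ℂ) * I) ≠ 0 := by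
      rw [← norm_ne_zero_iff, norm_cpow_I _ _ (by positivity)]
      norm_num
    have n2 : ((1 / (q * (y ^ 2 + α ^ 2)) : ℝ) : ℂ) ^ ((θ : ℂ) * I) ≠ 0 := by
      rw [← norm_ne_zero_iff, norm_cpow_I _ _ (by positivity)]
      norm_num
    have n3 : ((Real.log (1 / y) : ℝ) : ℂ) ≠ 0 := by exact_mod_cast hy2.ne'
    have n4 : ((Real.log (1 / yp q α y) : ℝ) : ℂ) ≠ 0 := by exact_mod_cast hy3.ne'
    have n5 : ((2 * Real.pi * yp q α y : ℝ) : ℂ) * ((q * (y ^ 2 + α ^ 2) : ℝ) : ℂ) =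
        ((2 * Real.pi * y : ℝ) : ℂ) := by
      have : 2 * Real.pi * yp q α y * (q * (y ^ 2 + α ^ 2)) = 2 * Real.pi * y := by
        unfold yp
        field_simp
      exact_mod_cast this
    rw [Complex.ofReal_div (Real.log (1 / yp q α y)) (Real.log (1 / y))]
    generalize ((2 * Real.pi * y : ℝ) : ℂ) ^ ((θ : ℂ) * I) = u1 at n1 ⊢
    rw [← n5]
    generalize ((1 / (q * (y ^ 2 + α ^ 2)) : ℝ) : ℂ) ^ ((θ : ℂ) * I) = u2 at n2 ⊢
    generalize (4 * (Real.pi : ℂ) ^ 2 / (q * pX α y)) ^ (-((θ : ℂ) * I)) = u3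
    generalize ((Real.log (1 / yp q α y) : ℝ) : ℂ) = u4 at n4 ⊢
    generalize ((Real.log (1 / y) : ℝ) : ℂ) = u5 at n3 ⊢
    generalize ((2 * Real.pi * yp q α y : ℝ) : ℂ) = u6
    generalize ((q * (y ^ 2 + α ^ 2) : ℝ) : ℂ) = u7
    generalize A / pX α y = u8
    field_simp
    ring
  -- replace the convergent factor by its limit
  have e4 : Tendsto (fun y : ℝ => ((2 * Real.pi * y : ℝ) : ℂ) ^ ((θ : ℂ) * I) *
      (c0 A q θ α * (Gamma (1 - (θ : ℂ) * I) * ρ₂))) (𝓝[>] 0) (𝓝 ρ₁) := by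
    have h3 : Tendsto (fun y : ℝ => ((2 * Real.pi * y : ℝ) : ℂ) ^ ((θ : ℂ) * I) *
        (cc A q θ α y * (((2 * Real.pi * yp q α y : ℝ) : ℂ) ^ (1 - (θ : ℂ) * I) /
        ((Real.log (1 / yp q α y) : ℝ) : ℂ) * lam b (pX α₀ (yp q α y))) -
        c0 A q θ α * (Gamma (1 - (θ : ℂ) * I) * ρ₂))) (𝓝[>] 0) (𝓝 0) := by
      have h4 := hcW.sub_const (c0 A q θ α * (Gamma (1 - (θ : ℂ) * I) * ρ₂))
      rw [sub_self] at h4
      refine squeeze_zero_norm' ?_ (tendsto_zero_iff_norm_tendsto_zero.1 h4)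
      filter_upwards [self_mem_nhdsWithin] with y hy
      have hy' : 0 < y := hy
      rw [norm_mul, norm_cpow_I _ _ (by positivity), one_mul]
    have h4 := e3.sub h3
    rw [sub_zero] at h4
    refine h4.congr fun y => ?_
    ring
  obtain ⟨r1, r2⟩ := concl e4
  refine ⟨r1, fun hθ => ?_⟩
  rw [r2 hθ]
  subst hθ
  unfold c0
  rw [pX_zero]
  have hα' : (α : ℂ) ≠ 0 := by exact_mod_cast hα.ne'
  simp only [Complex.ofReal_zero, zero_mul, neg_zero, Complex.cpow_zero, mul_one, sub_zero,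
    Complex.Gamma_one, Complex.ofReal_one, one_mul]
  push_cast
  field_simp
  ring_nf
  rw [Complex.I_sq]
  ring

end Pool.Agent.SelTwo
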