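import Pool.Agent.SelTwo.Targets

/-! Assembly of the modular relation (REL). -/

namespace Pool.Agent.SelTwo

open Complex Filter Topology MeasureTheory
open Pool.Agent.SelPole

noncomputable section

theorem vl_re (σ t : ℝ) : (vl σ t).re = σ := by simp [vl]

theorem vl_im (σ t : ℝ) : (vl σ t).im = t := by simp [vl]

theorem conj_vl (σ t : ℝ) : (starRingEnd ℂ) (vl σ t) = vl σ (-t) := by
  apply Complex.ext <;> simp [vl]

theorem one_sub_vl (t : ℝ) : 1 - vl (3 / 2) t = vl (-1 / 2) (-t) := by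
  apply Complex.ext <;> simp [vl]; norm_num

theorem continuous_vl (σ : ℝ) : Continuous (vl σ) := by
  unfold vl; fun_prop

theorem LSeries_cj (a : ℕ → ℂ) (s : ℂ) :
    LSeries (cj a) s = (starRingEnd ℂ) (LSeries a ((starRingEnd ℂ) s)) := by
  unfold LSeries
  rw [Complex.conj_tsum]
  refine tsum_congr fun n => ?_
  rcases Nat.eq_zero_or_pos n with rfl | hn
  · simp
  · rw [LSeries.term_of_ne_zero hn.ne', LSeries.term_of_ne_zero hn.ne', map_div₀]
    congr 1
    have hpi : arg (n : ℂ) ≠ Real.pi := by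
      rw [Complex.natCast_arg]
      exact Real.pi_pos.ne
    rw [← Complex.conj_cpow _ _ hpi, Complex.conj_natCast]

theorem LSeriesSummable_cj {a : ℕ → ℂ} {s : ℂ} (h : LSeriesSummable a s) :
    LSeriesSummable (cj a) s := by
  rw [LSeriesSummable, ← summable_norm_iff] at h ⊢
  refine h.congr fun n => ?_
  rw [LSeries.norm_term_eq, LSeries.norm_term_eq]
  simp [cj]

theorem norm_LSeries_vl_le {a : ℕ → ℂ} {σ : ℝ} (h : LSeriesSummable a σ) (t : ℝ) :
    ‖LSeries a (vl σ t)‖ ≤ ∑' n, ‖LSeries.term a σ n‖ := by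
  have h1 : ∀ n, ‖LSeries.term a (vl σ t) n‖ = ‖LSeries.term a σ n‖ := by
    intro n
    rw [LSeries.norm_term_eq, LSeries.norm_term_eq, vl_re, ofReal_re]
  have h2 : Summable fun n => ‖LSeries.term a (vl σ t) n‖ := by
    simp only [h1]; exact h.norm
  refine (norm_tsum_le_tsum_norm h2).trans ?_
  simp only [h1]
  exact le_rfl

/-- powers of `Y = (r X)^(-1)` -/
theorem cpow_inv_mul {r : ℝ} (hr : 0 < r) {X : ℂ} (hX : 0 < X.re) (u : ℂ) :
    (((r : ℂ) * X)⁻¹) ^ (-u) = (r : ℂ) ^ u * X ^ u := by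
  have hX0 : X ≠ 0 := by rintro rfl; simp at hX
  have hr0 : (r : ℂ) ≠ 0 := by exact_mod_cast hr.ne'
  have hrX : (r : ℂ) * X ≠ 0 := mul_ne_zero hr0 hX0
  have hre : 0 < ((r : ℂ) * X).re := by simpa using mul_pos hr hX
  have harg : ((r : ℂ) * X).arg ≠ Real.pi := by
    intro h
    rw [Complex.arg_eq_pi_iff] at h
    linarith [h.1]
  rw [Complex.inv_cpow _ _ harg, Complex.cpow_neg, inv_inv, Complex.cpow_def_of_ne_zero hrX,
    Complex.cpow_def_of_ne_zero hr0, Complex.cpow_def_of_ne_zero hX0, Complex.log_ofReal_mul hr hX0,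
    ← Complex.exp_add, Complex.ofReal_log hr.le]
  congr 1; ring

theorem F_diff {F : ℂ → ℂ} (h : Cont2 F) : ∀ s : ℂ, s ≠ 1 → DifferentiableAt ℂ F s := by
  obtain ⟨g, hg, -, hgF⟩ := h
  intro s hs
  have h1 : DifferentiableAt ℂ (fun z => g z / (z - 1) ^ 2) s := by
    refine (hg s).div ?_ (pow_ne_zero 2 (sub_ne_zero.2 hs))
    fun_prop
  refine h1.congr_of_eventuallyEq ?_
  filter_upwards [isOpen_ne.mem_nhds hs] with z hz
  rw [hgF z hz, mul_div_cancel_left₀ _ (pow_ne_zero 2 (sub_ne_zero.2 hz))]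

theorem lam_tw_zero (a : ℕ → ℂ) (X : ℂ) : lam (tw 0 a) X = lam a X := by
  unfold lam tw
  refine tsum_congr fun n => ?_
  simp

/-- the kernel error -/
def kE (k : ℕ) (l : Fin k → ℝ) (m : Fin k → ℂ) (A : ℂ) (R : ℝ) (τ : ℝ) : ℂ :=
  Gamma (1 - vl (3 / 2) τ) * gP k l m (vl (3 / 2) τ) -
      A * (R : ℂ) ^ (vl (3 / 2) τ) *
        Gamma (vl (3 / 2) τ - (2 * ∑ j, (m j).im : ℝ) * I)

theorem p_REL (hLAM : T_LAM) (hRAT : T_RAT) (hKER : T_KER) (hFE : T_FE) (hPL : T_PL)
    (hSH : T_SHIFT) (hERR : T_ERR) : T_REL := by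
  intro F a Q k l m w ha hFa hC hE hl
  have hQ : 0 < Q := hE.1
  have hlpos := hE.2.1
  have hmre := hE.2.2.1
  have hw : ‖w‖ = 1 := hE.2.2.2.1
  have hQ0 : (Q : ℂ) ≠ 0 := by exact_mod_cast hQ.ne'
  have hw0 : w ≠ 0 := by rw [← norm_pos_iff, hw]; exact one_pos
  obtain ⟨A, R, C₁', hA, hR, hK1, hK2⟩ := hKER k l m hlpos hmre hl
  obtain ⟨hPc, CP, hP⟩ := hRAT k l m hlpos hmre hl
  set θ : ℝ := 2 * ∑ j, (m j).im with hθ
  have hsum : LSeriesSummable a ((3 / 2 : ℝ) : ℂ) := ha _ (by simp; norm_num)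
  have hsum' : LSeriesSummable a (3 / 2) := ha _ (by norm_num)
  set B : ℝ := ∑' n, ‖LSeries.term a ((3 / 2 : ℝ) : ℂ) n‖ with hB
  have hB0 : 0 ≤ B := tsum_nonneg fun _ => norm_nonneg _
  have hFB : ∀ t : ℝ, ‖F (vl (3 / 2) t)‖ ≤ B := by
    intro t
    rw [hFa _ (by rw [vl_re]; norm_num)]
    exact norm_LSeries_vl_le hsum t
  have hFdiff := F_diff hC
  have hFE' := hFE F Q k l m w hC hE
  have hFM : ∃ B : ℝ, ∀ t : ℝ, ‖F (vl (-1 / 2) t)‖ ≤ B * (1 + |t|) ^ 2 := by
    refine ⟨Q ^ (2 : ℝ) * |CP| * B, fun t => ?_⟩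
    rw [hFE' t]
    rw [norm_mul, norm_mul, norm_mul, hw, one_mul, RCLike.norm_conj,
      Complex.norm_cpow_eq_rpow_re_of_pos hQ]
    have e1 : (1 - 2 * vl (-1 / 2) t).re = 2 := by simp [vl]; norm_num
    rw [e1]
    have h1 := hP (-t)
    rw [abs_neg] at h1
    have h2 : ‖gP k l m (vl (3 / 2) (-t))‖ ≤ |CP| * (1 + |t|) ^ 2 :=
      h1.trans (mul_le_mul_of_nonneg_right (le_abs_self _) (by positivity))
    calc Q ^ (2 : ℝ) * ‖gP k l m (vl (3 / 2) (-t))‖ * ‖F (vl (3 / 2) t)‖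
        ≤ Q ^ (2 : ℝ) * (|CP| * (1 + |t|) ^ 2) * B := by
          gcongr
          exact hFB t
      _ = _ := by ring
  have hgrow := hPL F hC ⟨B, hFB⟩ hFM
  have hSH' := hSH F hFdiff hgrow
  -- the constants
  set q : ℝ := 4 * Real.pi ^ 2 * Q ^ 2 * R with hq
  have hq0 : 0 < q := by positivity
  refine ⟨w * A / Q, q, div_ne_zero (mul_ne_zero hw0 hA) hQ0, hq0, ?_⟩
  intro α hα
  set K : ℝ := max 1 (max (1 / (2 * Real.pi * α)) (2 * Real.pi * (1 + α))) with hK
  have hK1' : 1 ≤ K := le_max_left _ _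
  obtain ⟨C₂, hC₂⟩ := hSH' K hK1'
  obtain ⟨C₃, hC₃⟩ := hERR K |C₁'| (Q ^ (2 : ℝ) * B) hK1' (abs_nonneg _) (by positivity)
  refine ⟨(|C₂| + |C₃| / (2 * Real.pi)) / (2 * Real.pi), ?_⟩
  intro y hy hy1
  set X : ℂ := pX α y with hX
  have hXre : X.re = 2 * Real.pi * y := by simp [hX, pX]
  have hXim : X.im = -(2 * Real.pi * α) := by simp [hX, pX]
  have hXre0 : 0 < X.re := by rw [hXre]; positivity
  have hXim0 : X.im < 0 := by rw [hXim]; have := mul_pos Real.two_pi_pos hα; linarith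
  have hX0 : X ≠ 0 := by intro h; rw [h] at hXre0; simp at hXre0
  have hXlow : 1 / K ≤ ‖X‖ := by
    have h1 : 2 * Real.pi * α ≤ ‖X‖ := by
      have := Complex.abs_im_le_norm X
      rw [hXim, abs_neg, abs_of_pos (by positivity)] at this
      exact this
    have h2 : 1 / (2 * Real.pi * α) ≤ K := (le_max_left _ _).trans (le_max_right _ _)
    have h3 : 1 / K ≤ 2 * Real.pi * α := by
      rw [div_le_iff₀ (by linarith)]
      rw [div_le_iff₀ (by positivity)] at h2
      linarith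
    exact h3.trans h1
  have hXup : ‖X‖ ≤ K := by
    have h1 : ‖X‖ ≤ |X.re| + |X.im| := Complex.norm_le_abs_re_add_abs_im X
    rw [hXre, hXim, abs_neg, abs_of_pos (by positivity), abs_of_pos (by positivity)] at h1
    have h2 : 2 * Real.pi * (1 + α) ≤ K := (le_max_right _ _).trans (le_max_right _ _)
    have h3 : 2 * Real.pi * y ≤ 2 * Real.pi := by nlinarith [Real.pi_pos]
    linarith
  obtain ⟨hI1, hI2, hI3⟩ := hC₂ X hXre0 hXlow hXup
  -- left side
  have hleft : ∫ t : ℝ, Gamma (vl (3 / 2) t) * X ^ (-vl (3 / 2) t) * F (vl (3 / 2) t) =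
      2 * Real.pi * lam a X := by
    have h := (hLAM a 0 X hsum' hXre0).2
    rw [lam_tw_zero] at h
    simp only [ofReal_zero, zero_mul, sub_zero, neg_zero, cpow_zero, mul_one] at h
    rw [← h]
    refine integral_congr_ae (Filter.Eventually.of_forall fun t => ?_)
    simp only
    rw [hFa _ (by rw [vl_re]; norm_num)]
  -- the other line
  set Y : ℂ := 4 * Real.pi ^ 2 / (q * X) with hY
  have hr0 : 0 < Q ^ 2 * R := by positivity
  have hYeq : Y = (((Q ^ 2 * R : ℝ) : ℂ) * X)⁻¹ := by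
    rw [hY, hq]
    have hpi : (Real.pi : ℂ) ≠ 0 := by exact_mod_cast Real.pi_ne_zero
    have hR0 : (R : ℂ) ≠ 0 := by exact_mod_cast hR.ne'
    push_cast
    field_simp
  have hYre : 0 < Y.re := by
    rw [hYeq, Complex.inv_re]
    refine div_pos ?_ ?_
    · rw [Complex.re_ofReal_mul]; exact mul_pos hr0 hXre0
    · rw [Complex.normSq_pos]
      exact mul_ne_zero (by exact_mod_cast hr0.ne') hX0
  set h : ℝ → ℂ := fun τ => w * (Q : ℂ) ^ (2 * vl (3 / 2) τ - 1) *
    (starRingEnd ℂ) (F (vl (3 / 2) (-τ))) with hh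
  have hhF : ∀ τ, (starRingEnd ℂ) (F (vl (3 / 2) (-τ))) = LSeries (cj a) (vl (3 / 2) τ) := by
    intro τ
    rw [LSeries_cj, conj_vl, hFa _ (by rw [vl_re]; norm_num)]
  have hhB : ∀ τ, ‖h τ‖ ≤ Q ^ (2 : ℝ) * B := by
    intro τ
    simp only [hh]
    rw [norm_mul, norm_mul, hw, one_mul, RCLike.norm_conj, Complex.norm_cpow_eq_rpow_re_of_pos hQ]
    have e1 : (2 * vl (3 / 2) τ - 1).re = 2 := by simp [vl]; norm_num
    rw [e1]
    gcongr
    exact hFB _
  have hvne : ∀ τ : ℝ, vl (3 / 2) τ ≠ 1 := by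
    intro τ h1
    have := congrArg Complex.re h1
    rw [vl_re] at this; norm_num at this
  have hFc : Continuous (fun τ : ℝ => F (vl (3 / 2) τ)) := by
    rw [continuous_iff_continuousAt]
    intro τ
    exact (hFdiff _ (hvne τ)).continuousAt.comp (continuous_vl _).continuousAt
  have hcont_h : Continuous h := by
    have h1 : Continuous (fun τ : ℝ => (Q : ℂ) ^ (2 * vl (3 / 2) τ - 1)) := by
      refine Continuous.const_cpow ?_ (Or.inl hQ0)
      exact (continuous_const.mul (continuous_vl _)).sub continuous_const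
    have h2 : Continuous (fun τ : ℝ => (starRingEnd ℂ) (F (vl (3 / 2) (-τ)))) :=
      Complex.continuous_conj.comp (hFc.comp continuous_neg)
    exact (continuous_const.mul h1).mul h2
  have hcont_E : Continuous (kE k l m A R) := by
    unfold kE
    refine Continuous.sub (Continuous.mul ?_ hPc) (Continuous.mul (Continuous.mul continuous_const ?_) ?_)
    · rw [continuous_iff_continuousAt]
      intro τ
      have : ContinuousAt Gamma (1 - vl (3 / 2) τ) := by
        refine (differentiableAt_Gamma _ ?_).continuousAt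
        intro n hn
        have := congrArg Complex.re hn
        simp [vl] at this
        have h3 : (n : ℝ) = 1 / 2 := by linarith
        have h4 : ((2 * n : ℕ) : ℝ) = ((1 : ℕ) : ℝ) := by push_cast; linarith
        have h5 : 2 * n = 1 := by exact_mod_cast h4
        omega
      exact ContinuousAt.comp (f := fun τ : ℝ => 1 - vl (3 / 2) τ) this
        (continuous_const.sub (continuous_vl _)).continuousAt
    · exact Continuous.const_cpow (continuous_vl _) (Or.inl (by exact_mod_cast hR.ne'))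
    · rw [continuous_iff_continuousAt]
      intro τ
      have : ContinuousAt Gamma (vl (3 / 2) τ - (2 * ∑ j, (m j).im : ℝ) * I) := by
        refine (differentiableAt_Gamma _ ?_).continuousAt
        intro n hn
        have := congrArg Complex.re hn
        simp [vl] at this
        have h3 : (0 : ℝ) ≤ n := Nat.cast_nonneg n
        linarith
      exact ContinuousAt.comp (f := fun τ : ℝ => vl (3 / 2) τ - (2 * ∑ j, (m j).im : ℝ) * I) this
        ((continuous_vl _).sub continuous_const).continuousAt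
  obtain ⟨hJ1, hJ2⟩ := hC₃ X hXre0 hXim0 hXlow hXup (kE k l m A R) h hcont_E hcont_h
    (fun τ hτ => (hK1 τ hτ).trans (mul_le_mul_of_nonneg_right (le_abs_self _) (by positivity)))
    (fun τ hτ => by
      refine (hK2 τ hτ).trans ?_
      have : C₁' * (1 + |τ|) ≤ |C₁'| * (1 + |τ|) :=
        mul_le_mul_of_nonneg_right (le_abs_self _) (by positivity)
      exact mul_le_mul_of_nonneg_right this (by positivity)) hhB
  obtain ⟨hL1, hL2⟩ := hLAM (cj a) θ Y (LSeriesSummable_cj hsum') hYre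
  -- pointwise identity
  have hpt : ∀ τ : ℝ, Gamma (vl (-1 / 2) (-τ)) * X ^ (-vl (-1 / 2) (-τ)) * F (vl (-1 / 2) (-τ)) =
      kE k l m A R τ * X ^ (vl (3 / 2) τ - 1) * h τ +
      w * A / Q / X * (Gamma (vl (3 / 2) τ - θ * I) * Y ^ (-vl (3 / 2) τ) *
        LSeries (cj a) (vl (3 / 2) τ)) := by
    intro τ
    have hu : vl (-1 / 2) (-τ) = 1 - vl (3 / 2) τ := (one_sub_vl τ).symm
    rw [hFE' (-τ), neg_neg, hu, hYeq, cpow_inv_mul hr0 hXre0, ← hhF τ]
    set u := vl (3 / 2) τ with hudef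
    have e1 : -(1 - u) = u - 1 := by ring
    have e2 : 1 - 2 * (1 - u) = 2 * u - 1 := by ring
    rw [e1, e2]
    simp only [hh, kE]
    rw [← hudef, ← hθ]
    have e3 : X ^ u = X * X ^ (u - 1) := by
      rw [Complex.cpow_sub _ _ hX0, Complex.cpow_one]; field_simp
    have e4 : ((Q ^ 2 * R : ℝ) : ℂ) ^ u = (Q : ℂ) * (Q : ℂ) ^ (2 * u - 1) * (R : ℂ) ^ u := by
      rw [Complex.cpow_sub _ _ hQ0, Complex.cpow_one, ofReal_mul,
        Complex.mul_cpow_ofReal_nonneg (by positivity) hR.le, ofReal_pow]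
      have : ((Q : ℂ) ^ 2) ^ u = (Q : ℂ) ^ (2 * u) := by
        rw [Complex.cpow_def_of_ne_zero (pow_ne_zero 2 hQ0), Complex.cpow_def_of_ne_zero hQ0]
        congr 1
        have : Complex.log ((Q : ℂ) ^ 2) = 2 * Complex.log Q := by
          rw [← ofReal_pow, ← Complex.ofReal_log (by positivity), ← Complex.ofReal_log hQ.le,
            Real.log_pow]
          push_cast; ring
        rw [this]; ring
      rw [this]; field_simp
    rw [e3, e4]
    field_simp
    ring
  have hright : ∫ t : ℝ, Gamma (vl (-1 / 2) t) * X ^ (-vl (-1 / 2) t) * F (vl (-1 / 2) t) =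
      (∫ τ : ℝ, kE k l m A R τ * X ^ (vl (3 / 2) τ - 1) * h τ) +
      w * A / Q / X * (2 * Real.pi * Y ^ (-((θ : ℂ) * I)) * lam (tw θ (cj a)) Y) := by
    rw [← hL2, ← integral_const_mul, ← integral_add hJ1 (hL1.const_mul _), ← integral_neg_eq_self]
    exact integral_congr_ae (Filter.Eventually.of_forall hpt)
  rw [hleft, hright] at hI3
  set J : ℂ := ∫ τ : ℝ, kE k l m A R τ * X ^ (vl (3 / 2) τ - 1) * h τ with hJ
  set D : ℂ := lam a X - w * A / Q / X * Y ^ (-((θ : ℂ) * I)) * lam (tw θ (cj a)) Y with hD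
  have hfin : 2 * Real.pi * D = (2 * Real.pi * lam a X - (J + w * A / Q / X *
      (2 * Real.pi * Y ^ (-((θ : ℂ) * I)) * lam (tw θ (cj a)) Y))) + J := by
    rw [hD]; ring
  have hnorm : 2 * Real.pi * ‖D‖ ≤ |C₂| + |C₃| / (2 * Real.pi * y) := by
    have h1 : ‖(2 * Real.pi * D : ℂ)‖ = 2 * Real.pi * ‖D‖ := by
      rw [norm_mul, norm_mul, Complex.norm_real, Real.norm_of_nonneg Real.pi_pos.le]; norm_num
    rw [← h1, hfin]
    refine (norm_add_le _ _).trans (add_le_add (hI3.trans (le_abs_self _)) ?_)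
    rw [← hXre]
    exact hJ2.trans (by gcongr; exact le_abs_self _)
  have hpi := Real.pi_pos
  rw [le_div_iff₀ hy]
  rw [le_div_iff₀ (by positivity)]
  have h2 : |C₂| * y ≤ |C₂| := mul_le_of_le_one_right (abs_nonneg _) hy1
  calc ‖D‖ * y * (2 * Real.pi) = (2 * Real.pi * ‖D‖) * y := by ring
    _ ≤ (|C₂| + |C₃| / (2 * Real.pi * y)) * y := by gcongr
    _ = |C₂| * y + |C₃| / (2 * Real.pi) := by field_simp
    _ ≤ _ := by linarith

end

end Pool.Agent.SelTwo
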