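import Pool.Agent.SelTwo.CONT
import Pool.Agent.SelTwo.REL

/-! Assembly of the main theorem. -/

namespace Pool.Agent.SelTwo

open Complex Filter Topology MeasureTheory
open Pool.Agent.SelPole

noncomputable section

open LSeries in
theorem summable_norm_iff_aux {f : ℕ → ℂ} {σ : ℝ} (hσ : σ ≠ 0) {s : ℂ} (hs : s.re = σ) :
    LSeriesSummable f s ↔ Summable fun n : ℕ => ‖f n‖ * (n : ℝ) ^ (-σ) := by
  rw [LSeriesSummable, ← summable_norm_iff]
  refine summable_congr fun n => ?_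
  rw [LSeries.norm_term_eq, hs]
  rcases Nat.eq_zero_or_pos n with rfl | hn
  · simp [Real.zero_rpow (neg_ne_zero.2 hσ)]
  · rw [if_neg hn.ne', Real.rpow_neg (Nat.cast_nonneg n), div_eq_mul_inv]

theorem dd_eq (n : ℕ) : dd n = ∑ _p ∈ n.divisorsAntidiagonal, (1 : ℂ) := by
  rw [Finset.sum_const, dd, nsmul_eq_mul, mul_one]
  congr 1
  rw [← Nat.map_div_right_divisors, Finset.card_map]

theorem dd_conv : dd = LSeries.convolution (1 : ℕ → ℂ) (1 : ℕ → ℂ) := by
  rw [LSeries.convolution_def]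
  ext n
  rw [dd_eq]
  simp

theorem LSeriesSummable_dd {s : ℂ} (hs : 1 < s.re) : LSeriesSummable dd s := by
  rw [dd_conv]
  exact (LSeriesSummable_one_iff.2 hs).convolution (LSeriesSummable_one_iff.2 hs)

theorem LSeries_dd {s : ℂ} (hs : 1 < s.re) : LSeries dd s = riemannZeta s ^ 2 := by
  rw [dd_conv, LSeries_convolution' (LSeriesSummable_one_iff.2 hs) (LSeriesSummable_one_iff.2 hs),
    LSeries_one_eq_riemannZeta hs, sq]

open LSeries in
theorem abs_lt_top {f : ℕ → ℂ} {s : ℂ} (h : LSeriesSummable f s) : abscissaOfAbsConv f < ⊤ :=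
  lt_of_le_of_lt h.abscissaOfAbsConv_le (EReal.coe_lt_top _)

/-- `a = g * d` -/
theorem a_eq {a g : ℕ → ℂ} (ha : ∀ s : ℂ, 1 < s.re → LSeriesSummable a s)
    (hg : ∀ s : ℂ, 1 < s.re → LSeriesSummable g s)
    (h : ∀ s : ℂ, 1 < s.re → LSeries a s = riemannZeta s ^ 2 * LSeries g s) :
    ∀ n : ℕ, 1 ≤ n → a n = ∑ p ∈ n.divisorsAntidiagonal, g p.1 * dd p.2 := by
  intro n hn
  have h2 : (1 : ℝ) < (2 : ℂ).re := by norm_num
  have e : a n = LSeries.convolution g dd n := by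
    refine LSeries.eq_of_LSeries_eventually_eq (abs_lt_top (ha 2 h2))
      (abs_lt_top ((hg 2 h2).convolution (LSeriesSummable_dd h2))) ?_ (by omega)
    filter_upwards [eventually_gt_atTop 1] with x hx
    have hx' : 1 < (x : ℂ).re := by simpa using hx
    rw [h _ hx', LSeries_convolution' (hg _ hx') (LSeriesSummable_dd hx'), LSeries_dd hx', mul_comm]
  rw [e, LSeries.convolution_def]

/-- prime power sums -/
theorem summable_supp {f : ℕ → ℝ} {q₁ : ℕ} (hq : 1 ≤ q₁) {C δ : ℝ} (hδ : 0 < δ)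
    (h0 : ∀ n, 0 ≤ f n) (hf : ∀ n, f n ≤ C * (n : ℝ) ^ (-δ))
    (hs : ∀ n, f n ≠ 0 → ∃ p k : ℕ, p.Prime ∧ p ∣ q₁ ∧ n = p ^ k) : Summable f := by
  classical
  set h : ℕ → ℕ → ℝ := fun p => (Set.range fun k : ℕ => p ^ k).indicator fun n => (n : ℝ) ^ (-δ)
    with hh
  have hsum : ∀ p ∈ q₁.primeFactors, Summable (h p) := by
    intro p hp
    have hpp : p.Prime := Nat.prime_of_mem_primeFactors hp
    have hinj : Function.Injective fun k : ℕ => p ^ k := Nat.pow_right_injective hpp.two_le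
    rw [hh]
    rw [← summable_subtype_iff_indicator, ← (Equiv.ofInjective _ hinj).summable_iff]
    have e : (((fun n : ℕ => (n : ℝ) ^ (-δ)) ∘ Subtype.val) ∘ (Equiv.ofInjective _ hinj) :
        ℕ → ℝ) = fun k => ((p : ℝ) ^ (-δ)) ^ k := by
      ext k
      simp only [Function.comp_apply, Equiv.ofInjective_apply, Nat.cast_pow]
      rw [← Real.rpow_natCast, ← Real.rpow_natCast, ← Real.rpow_mul (Nat.cast_nonneg p),
        ← Real.rpow_mul (Nat.cast_nonneg p), mul_comm]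
    rw [e]
    refine summable_geometric_of_lt_one (by positivity) ?_
    exact Real.rpow_lt_one_of_one_lt_of_neg (by exact_mod_cast hpp.one_lt) (by linarith)
  have hsum2 : Summable fun n => |C| * ∑ p ∈ q₁.primeFactors, h p n :=
    (summable_sum hsum).mul_left _
  refine Summable.of_nonneg_of_le h0 (fun n => ?_) hsum2
  have hpos : ∀ p n, 0 ≤ h p n := fun p n =>
    Set.indicator_nonneg (fun _ _ => by positivity) _
  by_cases hn : f n = 0
  · rw [hn]
    exact mul_nonneg (abs_nonneg _) (Finset.sum_nonneg fun p _ => hpos p n)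
  · obtain ⟨p, k, hp, hpq, hnk⟩ := hs n hn
    have h1 : (n : ℝ) ^ (-δ) ≤ ∑ p ∈ q₁.primeFactors, h p n := by
      have h2 : h p n = (n : ℝ) ^ (-δ) := by
        have hmem : n ∈ Set.range fun k : ℕ => p ^ k := ⟨k, hnk.symm⟩
        simp only [hh]
        rw [Set.indicator_of_mem hmem]
      rw [← h2]
      exact Finset.single_le_sum (fun i _ => hpos i n) (Nat.mem_primeFactors.2 ⟨hp, hpq, by omega⟩)
    calc f n ≤ C * (n : ℝ) ^ (-δ) := hf n
      _ ≤ |C| * (n : ℝ) ^ (-δ) := mul_le_mul_of_nonneg_right (le_abs_self _) (by positivity)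
      _ ≤ _ := mul_le_mul_of_nonneg_left h1 (abs_nonneg _)

theorem cj_conv {g a : ℕ → ℂ}
    (h : ∀ n : ℕ, 1 ≤ n → a n = ∑ p ∈ n.divisorsAntidiagonal, g p.1 * dd p.2) :
    ∀ n : ℕ, 1 ≤ n → cj a n = ∑ p ∈ n.divisorsAntidiagonal, cj g p.1 * dd p.2 := by
  intro n hn
  simp only [cj, h n hn, map_sum, map_mul]
  refine Finset.sum_congr rfl fun p _ => ?_
  simp [dd]

theorem RR_one (g : ℕ → ℂ) : RR g 1 = ∑' m : ℕ, g m / m := by
  have h : (1 : ℝ) = ((1 : ℚ) : ℝ) := by norm_num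
  rw [h, RR_rat, RQ]
  simp

/-- CORE: a function of degree 2 with a double pole such that the series of `log (F / ζ^2)`
converges absolutely at `s = 1` -/
def T_CORE : Prop := ∀ (F : ℂ → ℂ) (a b : ℕ → ℂ), IsSelberg F a b → DegreeTwo F →
  (∃ c : ℂ, c ≠ 0 ∧ Tendsto (fun s => (s - 1) ^ 2 * F s) (𝓝[≠] 1) (𝓝 c)) →
  Summable (fun n : ℕ => ‖b n - b2 n‖ / n) → ∀ s : ℂ, s ≠ 1 → F s = riemannZeta s ^ 2

theorem p_CORE (hREL : T_REL) (hSA : T_SA) (hLIM : T_LIM) (hEXPD : T_EXPD) (hFACT : T_FACT)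
    (hSTEP : T_STEP) (hZB : T_ZB) (hPHASE : T_PHASE) (hFIN : T_FIN) (hDIV : T_DIV) :
    T_CORE := by
  intro F a b hS hdeg hpole hLan
  obtain ⟨Q, k, l, m, w, hFE, hl2⟩ := hdeg
  have hl : ∑ j, l j = 1 := by linarith
  have hQ : 0 < Q := hFE.1
  have hlpos := hFE.2.1
  have hmre := hFE.2.2.1
  have hw : ‖w‖ = 1 := hFE.2.2.2.1
  have hw0 : w ≠ 0 := by rw [← norm_pos_iff, hw]; exact one_pos
  have hC : Cont2 F := cont2_of hS.continuation hpole
  obtain ⟨hZ1, hZ2, hZ3, hZ4⟩ := hZB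
  set β : ℕ → ℂ := fun n => b n - b2 n with hβ
  have hβsupp : ∀ n, ¬ IsPrimePow n → β n = 0 := fun n hn => by
    simp [hβ, hS.b_supp n hn, hZ1 n hn]
  have hβ1 : β 1 = 0 := hβsupp 1 not_isPrimePow_one
  replace hLan : Summable fun n : ℕ => ‖β n‖ / n := hLan
  have hLan' : Summable fun n : ℕ => ‖β n‖ * (n : ℝ) ^ (-(1 : ℝ)) := by
    refine hLan.congr fun n => ?_
    rw [Real.rpow_neg (Nat.cast_nonneg n), Real.rpow_one, div_eq_mul_inv]
  obtain ⟨g, g0, g1, gsum, gL, gp, gsupp⟩ := hEXPD β 1 hβ1 hLan'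
  have gsum' : Summable fun n : ℕ => ‖g n‖ / n := by
    refine gsum.congr fun n => ?_
    rw [Real.rpow_neg (Nat.cast_nonneg n), Real.rpow_one, div_eq_mul_inv]
  have hβL : ∀ s : ℂ, 1 < s.re → LSeriesSummable β s := by
    intro s hs
    exact (hS.log_summable s hs).sub (hZ4 s hs).1
  have hFβ : ∀ s : ℂ, 1 < s.re → F s = riemannZeta s ^ 2 * exp (LSeries β s) := by
    intro s hs
    rw [hS.log_series s hs, ← (hZ4 s hs).2, ← Complex.exp_add]
    congr 1
    have : LSeries β s = LSeries b s - LSeries b2 s :=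
      LSeries_sub (hS.log_summable s hs) (hZ4 s hs).1
    rw [this]; ring
  have hagd : ∀ n : ℕ, 1 ≤ n → a n = ∑ p ∈ n.divisorsAntidiagonal, g p.1 * dd p.2 := by
    refine a_eq hS.summable (fun s hs => (gL s hs.le).1) fun s hs => ?_
    rw [← hS.eq_series s hs, hFβ s hs, (gL s hs.le).2]
  -- the value of the series at 1
  have hG1 : (∑' m : ℕ, g m / m) ≠ 0 := by
    have h1 := (gL 1 (by simp)).2
    have h2 : LSeries g 1 = ∑' m : ℕ, g m / m := by
      unfold LSeries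
      refine tsum_congr fun n => ?_
      rcases Nat.eq_zero_or_pos n with rfl | hn
      · simp
      · rw [LSeries.term_of_ne_zero hn.ne', Complex.cpow_one]
    rw [← h2, h1]
    exact Complex.exp_ne_zero _
  -- the relation
  obtain ⟨A, q, hA, hq, hrel⟩ := hREL F a Q k l m w hS.summable hS.eq_series hC hFE hl
  obtain ⟨A₁, hA₁⟩ := hS.ramanujan (1 / 2) (by norm_num)
  have hSAa := hSA g a gsum' hagd
  have hcjs : Summable fun n : ℕ => ‖cj g n‖ / n := by
    refine gsum'.congr fun n => ?_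
    simp [cj]
  have hSAc := hSA (cj g) (cj a) hcjs (cj_conv hagd)
  have hlim := fun (α : ℝ) (hα : 0 < α) =>
    hLIM a A₁ A q (2 * ∑ j, (m j).im) α (RR g α) (RR (cj g) (-1 / (q * α))) hA₁ hA hq hα
      (hrel α hα) (hSAa α) (hSAc _)
  have hθ : 2 * ∑ j, (m j).im = 0 := by
    refine (hlim 1 one_pos).1 ?_
    rw [RR_one]; exact hG1
  obtain ⟨q₁, hq₁, hstep⟩ := hSTEP g q (I * q * A / (2 * Real.pi)) hq gsum' hG1
    (fun α hα => (hlim α hα).2 hθ)
  have hβp : ∀ p : ℕ, p.Prime → ¬ p ∣ q₁ → ∀ k : ℕ, 1 ≤ k → β (p ^ k) = 0 := by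
    intro p hp hpq
    exact hFACT β g p hp hβsupp hLan gsum' (fun s hs => (gL s hs.le).2) hG1 (hstep p hp hpq)
  -- absolute convergence to the left of 1/2
  obtain ⟨θ', C, hθ', hC'⟩ := hS.b_bound
  set θ₁ : ℝ := max θ' 0 with hθ₁
  have hθ₁0 : 0 ≤ θ₁ := le_max_right _ _
  have hθ₁1 : θ₁ < 1 / 2 := max_lt hθ' (by norm_num)
  set σ₀ : ℝ := (θ₁ + 1 / 2) / 2 with hσ₀
  have hσ₀1 : σ₀ < 1 / 2 := by rw [hσ₀]; linarith
  have hσ₀0 : 0 < σ₀ := by rw [hσ₀]; linarith
  have hsum0 : Summable fun n : ℕ => ‖β n‖ * (n : ℝ) ^ (-σ₀) := by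
    refine summable_supp hq₁ (C := |C| + 2) (δ := σ₀ - θ₁) (by rw [hσ₀]; linarith)
      (fun n => by positivity) (fun n => ?_) (fun n hn => ?_)
    · rcases Nat.eq_zero_or_pos n with rfl | hn
      · rw [hβsupp 0 not_isPrimePow_zero]
        simp only [norm_zero, zero_mul]
        positivity
      · have hn1 : (1 : ℝ) ≤ n := by exact_mod_cast hn
        have hn0 : (0 : ℝ) < n := by linarith
        have h1 : ‖β n‖ ≤ (|C| + 2) * (n : ℝ) ^ θ₁ := by
          have h2 : ‖β n‖ ≤ ‖b n‖ + ‖b2 n‖ := norm_sub_le _ _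
          have h3 : (n : ℝ) ^ θ' ≤ (n : ℝ) ^ θ₁ :=
            Real.rpow_le_rpow_of_exponent_le hn1 (le_max_left _ _)
          have h4 : ‖b n‖ ≤ |C| * (n : ℝ) ^ θ₁ :=
            (hC' n hn).trans ((mul_le_mul_of_nonneg_right (le_abs_self _) (by positivity)).trans
              (mul_le_mul_of_nonneg_left h3 (abs_nonneg _)))
          have h5 : (1 : ℝ) ≤ (n : ℝ) ^ θ₁ := Real.one_le_rpow hn1 hθ₁0
          have h6 := hZ2 n
          nlinarith
        calc ‖β n‖ * (n : ℝ) ^ (-σ₀) ≤ (|C| + 2) * (n : ℝ) ^ θ₁ * (n : ℝ) ^ (-σ₀) := by gcongr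
          _ = (|C| + 2) * (n : ℝ) ^ (-(σ₀ - θ₁)) := by
            rw [mul_assoc, ← Real.rpow_add hn0]; congr 2; ring
    · have hn' : β n ≠ 0 := by
        intro h; rw [h] at hn; simp at hn
      have hpp : IsPrimePow n := by
        by_contra h; exact hn' (hβsupp n h)
      obtain ⟨p, j, hp, hj, hpj⟩ := hpp
      have hp' : p.Prime := hp.nat_prime
      refine ⟨p, j, hp', ?_, hpj.symm⟩
      by_contra hpq
      exact hn' (by rw [← hpj]; exact hβp p hp' hpq j hj)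
  obtain ⟨hD1, hD2⟩ := hDIV F β Q k l m w σ₀ hC hFE hσ₀1 hsum0 hFβ
  obtain ⟨κ, c, hc, hphase⟩ := hPHASE Q k l m hQ hlpos hmre hl hθ
  have hc0 : c ≠ 0 := by rw [← norm_pos_iff, hc]; exact one_pos
  have hhalf : LSeriesSummable β (1 / 2) := by
    have h1 : LSeriesSummable β (σ₀ : ℂ) := (summable_norm_iff_aux hσ₀0.ne' (by simp)).2 hsum0
    exact h1.of_re_le_re (by simp; linarith)
  have hVne : ∀ t : ℝ, gV Q k l m t ≠ 0 := by
    intro t
    unfold gV
    have hpos : 0 < Real.pi * Q := by positivity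
    refine mul_ne_zero (mul_ne_zero ?_ ?_) (inv_ne_zero (pow_ne_zero 2 ?_))
    · rw [Complex.cpow_def_of_ne_zero (by exact_mod_cast hpos.ne')]
      exact Complex.exp_ne_zero _
    · refine Finset.prod_ne_zero_iff.2 fun j _ => Gamma_ne_zero_of_re_pos ?_
      simp [vl]
      have := hlpos j; have := hmre j; positivity
    · refine Gamma_ne_zero_of_re_pos ?_
      simp [vl]
  have hfin : ∀ n : ℕ, 1 ≤ n → β n = 0 := by
    refine hFIN β κ (w / c) hβ1 hhalf (div_ne_zero hw0 hc0) ?_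
    have h1 : Tendsto (fun t : ℝ => w / (gV Q k l m t / (starRingEnd ℂ) (gV Q k l m t) *
      exp (-(κ * t * I)))) atTop (𝓝 (w / c)) := tendsto_const_nhds.div hphase hc0
    refine h1.congr fun t => ?_
    have h2 := hD2 t
    have hV := hVne t
    have hVc : (starRingEnd ℂ) (gV Q k l m t) ≠ 0 := by simpa using hV
    have hL : exp (LSeries β (vl (1 / 2) t)) ≠ 0 := Complex.exp_ne_zero _
    have hLc : (starRingEnd ℂ) (exp (LSeries β (vl (1 / 2) t))) ≠ 0 := by
      rw [Ne, map_eq_zero]; exact hL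
    rw [map_mul] at h2
    have hek : exp (-(κ * t * I)) ≠ 0 := Complex.exp_ne_zero _
    have hek2 : exp (κ * t * I) * exp (-(κ * t * I)) = 1 := by
      rw [← Complex.exp_add]; simp
    rw [div_eq_iff (by positivity)]
    field_simp
    linear_combination (-(gV Q k l m t * exp (LSeries β (vl (1 / 2) t)))) * hek2 - h2
  -- conclusion
  have hzero : ∀ s : ℂ, LSeries β s = 0 := by
    intro s
    have : LSeries β s = LSeries 0 s := LSeries_congr (fun {n} hn => hfin n (by omega)) s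
    rw [this]; simp
  have hF1 : ∀ s : ℂ, 1 < s.re → F s = riemannZeta s ^ 2 := by
    intro s hs; rw [hFβ s hs, hzero]; simp
  have hFd := F_diff hC
  have hpre : IsPreconnected ({1}ᶜ : Set ℂ) :=
    (isConnected_compl_singleton_of_one_lt_rank (by simp) 1).isPreconnected
  have hAF : AnalyticOnNhd ℂ F ({1}ᶜ : Set ℂ) := by
    refine DifferentiableOn.analyticOnNhd (fun s hs => (hFd s hs).differentiableWithinAt) ?_
    exact isOpen_compl_singleton
  have hAZ : AnalyticOnNhd ℂ (fun s => riemannZeta s ^ 2) ({1}ᶜ : Set ℂ) := by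
    refine DifferentiableOn.analyticOnNhd
      (fun s hs => ((differentiableAt_riemannZeta hs).pow 2).differentiableWithinAt) ?_
    exact isOpen_compl_singleton
  have h2ne : (2 : ℂ) ∈ ({1}ᶜ : Set ℂ) := by simp
  have hev : F =ᶠ[𝓝 (2 : ℂ)] fun s => riemannZeta s ^ 2 := by
    have ho : IsOpen {s : ℂ | 1 < s.re} := isOpen_lt continuous_const continuous_re
    filter_upwards [ho.mem_nhds (show (1 : ℝ) < (2 : ℂ).re by norm_num)] with s hs using hF1 s hs
  intro s hs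
  exact hAF.eqOn_of_preconnected_of_eventuallyEq hAZ hpre h2ne hev hs

theorem p_MAIN (hCORE : T_CORE) (hLAN : T_LAN) : T_MAIN :=
  fun F a b hS hdeg hpole hE => hCORE F a b hS hdeg hpole (hLAN F a b hS hpole hE)

end

end Pool.Agent.SelTwo
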