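import Pool.Agent.SelTwo.Targets

/-! # The phase of the quotient of gamma factors on the critical line -/

namespace Pool.Agent.SelTwo

open Complex Filter Topology

noncomputable section

/-- main term of the logarithm -/
def phW (l σ : ℝ) (m : ℂ) (t : ℝ) : ℂ :=
  (Real.log (2 * Real.pi) / 2 : ℝ) +
    ((l : ℂ) * vl σ t + m - 1 / 2) *
      ((Real.log t : ℂ) + (Real.log l : ℂ) + (Real.pi / 2 : ℝ) * I) -
    (l * t : ℝ) * I

theorem phW_im (l σ : ℝ) (m : ℂ) (t : ℝ) :
    (phW l σ m t).im = (l * t + m.im) * (Real.log t + Real.log l) +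
      (l * σ + m.re - 1 / 2) * (Real.pi / 2) - l * t := by
  simp only [phW, vl]
  simp [Complex.add_im, Complex.mul_im, Complex.sub_im]
  ring

theorem ph_exists (h : T_G1) (l σ : ℝ) (m : ℂ) (hl : 0 < l) :
    ∃ e : ℝ → ℂ, Tendsto e atTop (𝓝 0) ∧
      ∀ᶠ t in atTop, Gamma ((l : ℂ) * vl σ t + m) = exp (phW l σ m t + e t) := by
  obtain ⟨C, T₀, hT, hG⟩ := h l σ m hl
  choose! e he1 he2 using hG
  refine ⟨e, ?_, ?_⟩
  · apply squeeze_zero_norm' (a := fun t : ℝ => C / t)
    · filter_upwards [eventually_ge_atTop T₀] with t ht using he1 t ht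
    · exact tendsto_const_nhds.div_atTop tendsto_id
  · filter_upwards [eventually_ge_atTop T₀] with t ht
    rw [he2 t ht, phW]

theorem p_PHASE (h : T_G1) : T_PHASE := by
  intro Q k l m hQ hl hm hsum him
  choose e he1 he2 using fun j => ph_exists h (l j) (1 / 2) (m j) (hl j)
  obtain ⟨e0, h01, h02⟩ := ph_exists h (1 / 2) (1 / 2) 0 (by norm_num)
  have him' : ∑ j, (m j).im = 0 := by linarith
  have hpQ : 0 < Real.pi * Q := mul_pos Real.pi_pos hQ
  set κ : ℝ := 2 * (Real.log (Real.pi * Q) + ∑ j, l j * Real.log (l j) + Real.log 2) with hκ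
  set c0 : ℝ := ∑ j, (m j).im * Real.log (l j) +
    ∑ j, (l j * (1 / 2) + (m j).re - 1 / 2) * (Real.pi / 2) + Real.pi / 4 with hc0
  refine ⟨κ, exp ((2 * c0 : ℝ) * I), Complex.norm_exp_ofReal_mul_I _, ?_⟩
  -- eventually `gV` is an exponential
  have hgV : ∀ᶠ t in atTop, gV Q k l m t =
      exp (((t : ℂ) * I) * Real.log (Real.pi * Q) +
        (∑ j, phW (l j) (1 / 2) (m j) t - 2 * phW (1 / 2) (1 / 2) 0 t) +
        (∑ j, e j t - 2 * e0 t)) := by
    filter_upwards [eventually_all.2 he2, h02] with t ht ht0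
    have h1 : Gamma (vl (1 / 2) t / 2) = exp (phW (1 / 2) (1 / 2) 0 t + e0 t) := by
      rw [← ht0]
      push_cast
      ring_nf
    have h2 : (∏ j, Gamma ((l j : ℂ) * vl (1 / 2) t + m j)) =
        exp (∑ j, (phW (l j) (1 / 2) (m j) t + e j t)) := by
      rw [Complex.exp_sum]
      exact Finset.prod_congr rfl fun j _ => ht j
    have h3 : ((Real.pi * Q : ℝ) : ℂ) ^ ((t : ℂ) * I) =
        exp (((t : ℂ) * I) * Real.log (Real.pi * Q)) := by
      rw [Complex.cpow_def_of_ne_zero (by exact_mod_cast hpQ.ne'), ← Complex.ofReal_log hpQ.le,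
        mul_comm]
    rw [gV, h1, h2, h3, ← Complex.exp_nat_mul, ← Complex.exp_neg, ← Complex.exp_add,
      ← Complex.exp_add, Finset.sum_add_distrib]
    push_cast
    ring_nf
  have hE : Tendsto (fun t : ℝ => ∑ j, e j t - 2 * e0 t) atTop (𝓝 0) := by
    have h1 : Tendsto (fun t : ℝ => ∑ j, e j t) atTop (𝓝 (∑ j : Fin k, 0)) :=
      tendsto_finsetSum _ fun j _ => he1 j
    have h2 := h1.sub (h01.const_mul 2)
    simpa using h2
  -- the imaginary part of the main term
  have hIm : ∀ t : ℝ, (((t : ℂ) * I) * Real.log (Real.pi * Q) +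
        (∑ j, phW (l j) (1 / 2) (m j) t - 2 * phW (1 / 2) (1 / 2) 0 t)).im = κ / 2 * t + c0 := by
    intro t
    have h1 : (((t : ℂ) * I) * Real.log (Real.pi * Q)).im = t * Real.log (Real.pi * Q) := by
      simp
    have h2 : (2 * phW (1 / 2) (1 / 2) 0 t).im =
        t * (Real.log t - Real.log 2) - Real.pi / 4 - t := by
      have h3 : (2 * phW (1 / 2) (1 / 2) 0 t).im = 2 * (phW (1 / 2) (1 / 2) 0 t).im := by
        simp [Complex.mul_im]
      rw [h3, phW_im, one_div, Real.log_inv]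
      simp only [Complex.zero_im, Complex.zero_re]
      ring
    have h4 : (∑ j, phW (l j) (1 / 2) (m j) t).im = t * Real.log t +
        t * ∑ j, l j * Real.log (l j) + ∑ j, (m j).im * Real.log (l j) +
        ∑ j, (l j * (1 / 2) + (m j).re - 1 / 2) * (Real.pi / 2) - t := by
      rw [Complex.im_sum]
      have h5 : ∀ j, (phW (l j) (1 / 2) (m j) t).im = l j * (t * Real.log t) +
          (m j).im * Real.log t + t * (l j * Real.log (l j)) + (m j).im * Real.log (l j) +
          (l j * (1 / 2) + (m j).re - 1 / 2) * (Real.pi / 2) - l j * t := by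
        intro j
        rw [phW_im]
        ring
      simp only [h5]
      have h6 : ∑ j, l j * (t * Real.log t) = t * Real.log t := by
        rw [← Finset.sum_mul, hsum, one_mul]
      have h7 : ∑ j, (m j).im * Real.log t = 0 := by
        rw [← Finset.sum_mul, him', zero_mul]
      have h8 : ∑ j, l j * t = t := by
        rw [← Finset.sum_mul, hsum, one_mul]
      have h9 : ∑ j, t * (l j * Real.log (l j)) = t * ∑ j, l j * Real.log (l j) := by
        rw [← Finset.mul_sum]
      rw [Finset.sum_sub_distrib, Finset.sum_add_distrib, Finset.sum_add_distrib,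
        Finset.sum_add_distrib, Finset.sum_add_distrib, h6, h7, h8, h9]
      ring
    rw [Complex.add_im, Complex.sub_im, h1, h2, h4, hκ, hc0]
    ring
  have hlim : Tendsto (fun t : ℝ => exp ((2 * c0 : ℝ) * I) *
      exp (2 * ((((∑ j, e j t - 2 * e0 t).im : ℝ)) : ℂ) * I)) atTop
      (𝓝 (exp ((2 * c0 : ℝ) * I))) := by
    have h1 : Tendsto (fun t : ℝ => (∑ j, e j t - 2 * e0 t).im) atTop (𝓝 (0 : ℂ).im) :=
      (Complex.continuous_im.tendsto 0).comp hE
    have h2 : Tendsto (fun t : ℝ => exp (2 * ((((∑ j, e j t - 2 * e0 t).im : ℝ)) : ℂ) * I)) atTop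
        (𝓝 (exp (2 * (((0 : ℂ).im : ℝ) : ℂ) * I))) := by
      have hc : Continuous (fun x : ℝ => exp (2 * (x : ℂ) * I)) := by fun_prop
      exact (hc.tendsto _).comp h1
    have h3 := h2.const_mul (exp ((2 * c0 : ℝ) * I))
    simpa using h3
  refine hlim.congr' ?_
  filter_upwards [hgV] with t ht
  rw [ht, ← Complex.exp_conj, ← Complex.exp_sub, ← Complex.exp_add, ← Complex.exp_add]
  congr 1
  set A := ((t : ℂ) * I) * Real.log (Real.pi * Q) +
        (∑ j, phW (l j) (1 / 2) (m j) t - 2 * phW (1 / 2) (1 / 2) 0 t) with hA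
  set E := ∑ j, e j t - 2 * e0 t with hE'
  have h1 : A + E - (starRingEnd ℂ) (A + E) = 2 * (((A.im + E.im : ℝ)) : ℂ) * I := by
    rw [Complex.sub_conj, Complex.add_im]
    push_cast
    ring
  rw [h1, hIm t]
  push_cast
  ring

end

end Pool.Agent.SelTwo
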