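import Pool.Agent.SelTwo.Targets

/-! Polynomial growth in the strip (job ST-PL). -/

set_option autoImplicit false

namespace Pool.Agent.SelTwo.PL_

open Complex Filter Topology Asymptotics Set
open Pool.Agent.SelPole

theorem vl_re (σ t : ℝ) : (vl σ t).re = σ := by simp [vl]

theorem vl_im (σ t : ℝ) : (vl σ t).im = t := by simp [vl]

theorem eq_vl (s : ℂ) : s = vl s.re s.im := by
  unfold vl; exact (re_add_im s).symm

theorem ev_exp (A : ℝ) : ∀ᶠ y : ℝ in atTop, (3 + y) ^ A ≤ Real.exp y := by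
  have h1 : (fun x : ℝ => x ^ A) =o[atTop] fun x => Real.exp (1 * x) :=
    isLittleO_rpow_exp_pos_mul_atTop A one_pos
  have h2 := h1.bound (c := Real.exp (-3)) (Real.exp_pos _)
  have h3 : Tendsto (fun y : ℝ => 3 + y) atTop atTop := tendsto_atTop_add_const_left _ _ tendsto_id
  filter_upwards [h3.eventually h2, eventually_ge_atTop 0] with y hy h0
  rw [Real.norm_eq_abs, Real.norm_eq_abs, abs_of_nonneg (by positivity),
    abs_of_pos (Real.exp_pos _), ← Real.exp_add] at hy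
  refine hy.trans (le_of_eq ?_)
  congr 1
  ring

theorem norm_le (s : ℂ) (h1 : -1 / 2 ≤ s.re) (h2 : s.re ≤ 3 / 2) : ‖s‖ ≤ 2 + |s.im| := by
  refine (Complex.norm_le_abs_re_add_abs_im s).trans ?_
  have : |s.re| ≤ 2 := by rw [abs_le]; constructor <;> linarith
  linarith

theorem low (s : ℂ) (h1 : -1 / 2 ≤ s.re) : 5 / 2 ≤ ‖s + 3‖ := by
  have := Complex.re_le_norm (s + 3)
  simp at this
  linarith

theorem cmp (s : ℂ) (h1 : -1 / 2 ≤ s.re) : ‖s - 1‖ ≤ ‖s + 3‖ := by
  rw [← sq_le_sq₀ (norm_nonneg _) (norm_nonneg _), Complex.sq_norm, Complex.sq_norm,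
    Complex.normSq_apply, Complex.normSq_apply]
  simp
  nlinarith

theorem sqle (s : ℂ) (h1 : -1 / 2 ≤ s.re) : (1 + |s.im|) ^ 2 ≤ 2 * ‖s + 3‖ ^ 2 := by
  rw [Complex.sq_norm, Complex.normSq_apply]
  simp
  have : s.im * s.im = |s.im| * |s.im| := (abs_mul_abs_self _).symm
  rw [this]
  nlinarith [sq_nonneg (|s.im| - 1)]

end Pool.Agent.SelTwo.PL_

namespace Pool.Agent.SelTwo

open Complex Filter Topology Asymptotics Set PL_
open Pool.Agent.SelPole

theorem p_PL : T_PL := by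
  rintro F ⟨g, hg, ⟨A, C, hAC⟩, hgF⟩ ⟨B₁, hB₁⟩ ⟨B₂, hB₂⟩
  set C₀ : ℝ := |B₁| + 2 * |B₂| with hC₀
  have hC₀n : 0 ≤ C₀ := by positivity
  set h : ℂ → ℂ := fun s => g s / (s + 3) ^ 4 with hh
  have hne : ∀ s : ℂ, -1 / 2 ≤ s.re → s + 3 ≠ 0 := by
    intro s hs h0
    have := low s hs
    rw [h0, norm_zero] at this
    linarith
  have hdiff : ∀ s : ℂ, -1 / 2 ≤ s.re → DifferentiableAt ℂ h s := by
    intro s hs
    exact (hg s).div ((differentiableAt_id.add_const _).pow 4) (pow_ne_zero _ (hne s hs))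
  have hcl : DiffContOnCl ℂ h (re ⁻¹' Ioo (-1 / 2) (3 / 2)) := by
    refine ⟨fun s hs => (hdiff s hs.1.le).differentiableWithinAt, fun s hs => ?_⟩
    have : s ∈ re ⁻¹' Icc (-1 / 2) (3 / 2) :=
      closure_minimal (preimage_mono Ioo_subset_Icc_self)
        (isClosed_Icc.preimage Complex.continuous_re) hs
    exact (hdiff s this.1).continuousAt.continuousWithinAt
  have hbd : ∀ s : ℂ, -1 / 2 ≤ s.re → s.re ≤ 3 / 2 → ‖h s‖ ≤ C₀ := by
    intro s hs1 hs2
    refine PhragmenLindelof.vertical_strip hcl ⟨1, ?_, 1, ?_⟩ ?_ ?_ hs1 hs2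
    · have := Real.pi_gt_three
      rw [show (3 / 2 - -1 / 2 : ℝ) = 2 by norm_num]
      linarith
    · refine IsBigO.of_bound (|C|) ?_
      have hev : ∀ᶠ z : ℂ in comap (_root_.abs ∘ im) atTop, (3 + |z.im|) ^ (max A 0) ≤
          Real.exp |z.im| := (tendsto_comap (f := _root_.abs ∘ im)).eventually (ev_exp (max A 0))
      rw [eventually_inf_principal]
      filter_upwards [hev] with z hz hzs
      have h1 := hAC z
      have h2 : ‖h z‖ ≤ ‖g z‖ := by
        rw [hh]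
        simp only
        rw [norm_div, norm_pow]
        apply div_le_self (norm_nonneg _)
        have := low z hzs.1.le
        exact one_le_pow₀ (by linarith)
      have h3 : (1 + ‖z‖) ^ A ≤ Real.exp |z.im| := by
        have hn := norm_nonneg z
        calc (1 + ‖z‖) ^ A ≤ (1 + ‖z‖) ^ (max A 0) :=
              Real.rpow_le_rpow_of_exponent_le (by linarith) (le_max_left _ _)
          _ ≤ (3 + |z.im|) ^ (max A 0) :=
              Real.rpow_le_rpow (by linarith)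
                (by have := norm_le z hzs.1.le hzs.2.le; linarith) (le_max_right _ _)
          _ ≤ _ := hz
      rw [Real.norm_eq_abs, abs_of_pos (Real.exp_pos _), one_mul, one_mul]
      calc ‖h z‖ ≤ C * Real.exp ((1 + ‖z‖) ^ A) := h2.trans h1
        _ ≤ |C| * Real.exp ((1 + ‖z‖) ^ A) :=
            mul_le_mul_of_nonneg_right (le_abs_self _) (Real.exp_pos _).le
        _ ≤ |C| * Real.exp (Real.exp |z.im|) :=
            mul_le_mul_of_nonneg_left (Real.exp_le_exp.2 h3) (abs_nonneg _)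
    · intro z hz
      have hz1 : -1 / 2 ≤ z.re := hz.ge
      have hne1 : z ≠ 1 := by
        rintro rfl; norm_num at hz
      have hF : ‖F z‖ ≤ B₂ * (1 + |z.im|) ^ 2 := by
        have := hB₂ z.im
        rwa [← hz, ← eq_vl] at this
      have hpos : 0 < ‖z + 3‖ := by have := low z hz1; linarith
      rw [hh]
      simp only
      rw [hgF z hne1, norm_div, norm_mul, norm_pow, norm_pow, div_le_iff₀ (by positivity)]
      have hB : ‖F z‖ ≤ |B₂| * (2 * ‖z + 3‖ ^ 2) := by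
        refine hF.trans ?_
        calc B₂ * (1 + |z.im|) ^ 2 ≤ |B₂| * (1 + |z.im|) ^ 2 :=
              mul_le_mul_of_nonneg_right (le_abs_self _) (by positivity)
          _ ≤ _ := mul_le_mul_of_nonneg_left (sqle z hz1) (abs_nonneg _)
      have h4 : ‖z - 1‖ ^ 2 ≤ ‖z + 3‖ ^ 2 := pow_le_pow_left₀ (norm_nonneg _) (cmp z hz1) 2
      calc ‖z - 1‖ ^ 2 * ‖F z‖ ≤ ‖z + 3‖ ^ 2 * (|B₂| * (2 * ‖z + 3‖ ^ 2)) :=
            mul_le_mul h4 hB (norm_nonneg _) (by positivity)
        _ = (2 * |B₂|) * ‖z + 3‖ ^ 4 := by ring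
        _ ≤ C₀ * ‖z + 3‖ ^ 4 :=
            mul_le_mul_of_nonneg_right (by rw [hC₀]; linarith [abs_nonneg B₁]) (by positivity)
    · intro z hz
      have hz1 : -1 / 2 ≤ z.re := by rw [hz]; norm_num
      have hne1 : z ≠ 1 := by
        rintro rfl; norm_num at hz
      have hF : ‖F z‖ ≤ B₁ := by
        have := hB₁ z.im
        rwa [← hz, ← eq_vl] at this
      have hl := low z hz1
      rw [hh]
      simp only
      rw [hgF z hne1, norm_div, norm_mul, norm_pow, norm_pow, div_le_iff₀ (by positivity)]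
      have h4 : ‖z - 1‖ ^ 2 ≤ ‖z + 3‖ ^ 2 := pow_le_pow_left₀ (norm_nonneg _) (cmp z hz1) 2
      have h5 : ‖z + 3‖ ^ 2 ≤ ‖z + 3‖ ^ 4 := pow_le_pow_right₀ (by linarith) (by norm_num)
      calc ‖z - 1‖ ^ 2 * ‖F z‖ ≤ ‖z + 3‖ ^ 4 * |B₁| :=
            mul_le_mul (h4.trans h5) (hF.trans (le_abs_self _)) (norm_nonneg _) (by positivity)
        _ = |B₁| * ‖z + 3‖ ^ 4 := by ring
        _ ≤ C₀ * ‖z + 3‖ ^ 4 :=
            mul_le_mul_of_nonneg_right (by rw [hC₀]; linarith [abs_nonneg B₂]) (by positivity)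
  refine ⟨C₀ * 5 ^ 4, fun s hs1 hs2 hs3 => ?_⟩
  have him : 0 < |s.im| := by linarith
  have hne1 : s ≠ 1 := by
    rintro rfl; simp at him
  have hs1' : 1 ≤ ‖s - 1‖ := by
    have := Complex.abs_im_le_norm (s - 1)
    simp at this
    linarith
  have hb := hbd s hs1 hs2
  have hl := low s hs1
  rw [hh] at hb
  simp only at hb
  rw [hgF s hne1, norm_div, norm_mul, norm_pow, norm_pow, div_le_iff₀ (by positivity)] at hb
  have hu : ‖s + 3‖ ≤ 5 * (1 + |s.im|) := by
    calc ‖s + 3‖ ≤ ‖s‖ + ‖(3 : ℂ)‖ := norm_add_le _ _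
      _ ≤ (2 + |s.im|) + 3 := by
          have := norm_le s hs1 hs2
          have h3 : ‖(3 : ℂ)‖ = 3 := by simp
          linarith
      _ ≤ _ := by linarith
  calc ‖F s‖ ≤ ‖s - 1‖ ^ 2 * ‖F s‖ :=
        le_mul_of_one_le_left (norm_nonneg _) (one_le_pow₀ hs1')
    _ ≤ C₀ * ‖s + 3‖ ^ 4 := hb
    _ ≤ C₀ * (5 * (1 + |s.im|)) ^ 4 :=
        mul_le_mul_of_nonneg_left (pow_le_pow_left₀ (norm_nonneg _) hu 4) hC₀n
    _ = _ := by ring

end Pool.Agent.SelTwo
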