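import Pool.Agent.SelTwo.Targets

set_option autoImplicit false

/-! Job PS of MP_995735_nt: Abel summation, from sums to radial limits. -/

namespace Pool.Agent.SelTwo

open Complex Filter Topology MeasureTheory

namespace PSAux

/-- minus the derivative of `v ↦ v^(-iθ) exp (-v)` -/
noncomputable def w (θ v : ℝ) : ℂ :=
  ((θ : ℂ) * I * (v : ℂ) ^ (-((θ : ℂ) * I) - 1) + (v : ℂ) ^ (-((θ : ℂ) * I))) * exp (-(v : ℂ))

/-- the antiderivative -/
noncomputable def W (θ v : ℝ) : ℂ := (v : ℂ) ^ (-((θ : ℂ) * I)) * exp (-(v : ℂ))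

theorem hasDerivAt_W (θ : ℝ) {v : ℝ} (hv : 0 < v) : HasDerivAt (W θ) (-w θ v) v := by
  have h1 : HasDerivAt (fun z : ℂ => z ^ (-((θ : ℂ) * I)) * exp (-z))
      ((-((θ : ℂ) * I)) * (v : ℂ) ^ (-((θ : ℂ) * I) - 1) * 1 * exp (-(v : ℂ)) +
        (v : ℂ) ^ (-((θ : ℂ) * I)) * (exp (-(v : ℂ)) * -1)) (v : ℂ) := by
    refine HasDerivAt.mul ?_ ?_
    · exact (hasDerivAt_id (v : ℂ)).cpow_const (Complex.ofReal_mem_slitPlane.2 hv)
    · exact (hasDerivAt_id (v : ℂ)).neg.cexp
  have h2 := h1.comp_ofReal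
  refine h2.congr_deriv ?_
  unfold w
  ring

theorem norm_W (θ : ℝ) {v : ℝ} (hv : 0 < v) : ‖W θ v‖ = Real.exp (-v) := by
  unfold W
  rw [norm_mul, Complex.norm_cpow_eq_rpow_re_of_pos hv, Complex.norm_exp]
  simp

theorem norm_w (θ : ℝ) {v : ℝ} (hv : 0 < v) : ‖w θ v‖ ≤ (|θ| / v + 1) * Real.exp (-v) := by
  unfold w
  rw [norm_mul, Complex.norm_exp]
  simp only [neg_re, ofReal_re]
  refine mul_le_mul_of_nonneg_right ?_ (Real.exp_pos _).le
  refine (norm_add_le _ _).trans ?_
  rw [norm_mul, Complex.norm_cpow_eq_rpow_re_of_pos hv, Complex.norm_cpow_eq_rpow_re_of_pos hv]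
  simp only [norm_mul, Complex.norm_real, norm_I, mul_one, Real.norm_eq_abs, sub_re, neg_re,
    mul_re, ofReal_re, I_re, mul_zero, ofReal_im, I_im, sub_self, neg_zero, one_re, zero_sub,
    Real.rpow_zero, Real.rpow_neg_one]
  rw [div_eq_mul_inv]

theorem continuousOn_w (θ : ℝ) : ContinuousOn (w θ) (Set.Ioi 0) := by
  intro v hv
  have hv' : (v : ℂ) ∈ slitPlane := Complex.ofReal_mem_slitPlane.2 hv
  unfold w
  refine ContinuousAt.continuousWithinAt ?_
  refine ContinuousAt.mul (ContinuousAt.add ?_ ?_) ?_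
  · refine continuousAt_const.mul ?_
    exact (Complex.continuous_ofReal.continuousAt).cpow continuousAt_const hv'
  · exact (Complex.continuous_ofReal.continuousAt).cpow continuousAt_const hv'
  · exact (Complex.continuous_ofReal.neg.cexp).continuousAt

theorem integrable_exp_Ioi (a : ℝ) : IntegrableOn (fun v : ℝ => Real.exp (-v)) (Set.Ioi a) := by
  simpa using integrableOn_exp_mul_Ioi (a := -1) (by norm_num) a

theorem integrable_w (θ : ℝ) {a : ℝ} (ha : 0 < a) : IntegrableOn (w θ) (Set.Ioi a) := by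
  refine Integrable.mono' (g := fun v => (|θ| / a + 1) * Real.exp (-v))
    ((integrable_exp_Ioi a).const_mul _) ?_ ?_
  · exact ((continuousOn_w θ).mono (Set.Ioi_subset_Ioi ha.le)).aestronglyMeasurable
      measurableSet_Ioi
  · refine (ae_restrict_mem measurableSet_Ioi).mono fun v hv => ?_
    have hv' : a < v := hv
    refine (norm_w θ (ha.trans hv')).trans ?_
    refine mul_le_mul_of_nonneg_right ?_ (Real.exp_pos _).le
    gcongr

theorem integral_w (θ : ℝ) {a : ℝ} (ha : 0 < a) : ∫ v in Set.Ioi a, w θ v = W θ a := by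
  have h1 : Tendsto (W θ) atTop (𝓝 0) := by
    rw [tendsto_zero_iff_norm_tendsto_zero]
    have h2 : Tendsto (fun v : ℝ => Real.exp (-v)) atTop (𝓝 0) :=
      Real.tendsto_exp_neg_atTop_nhds_zero
    refine h2.congr' ?_
    filter_upwards [eventually_gt_atTop 0] with v hv
    exact (norm_W θ hv).symm
  have h3 := integral_Ioi_of_hasDerivAt_of_tendsto (f := W θ) (f' := fun v => -w θ v) (a := a)
    (m := 0) (hasDerivAt_W θ ha).continuousAt.continuousWithinAt
    (fun v hv => hasDerivAt_W θ (ha.trans hv)) (integrable_w θ ha).neg h1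
  rw [integral_neg] at h3
  have h4 := congrArg (fun z => -z) h3
  simpa using h4

theorem integral_norm_w (θ : ℝ) {a : ℝ} (ha : 0 < a) :
    ∫ v in Set.Ioi a, ‖w θ v‖ ≤ (|θ| / a + 1) * Real.exp (-a) := by
  calc ∫ v in Set.Ioi a, ‖w θ v‖ ≤ ∫ v in Set.Ioi a, (|θ| / a + 1) * Real.exp (-v) := by
        refine setIntegral_mono_on (integrable_w θ ha).norm ((integrable_exp_Ioi a).const_mul _)
          measurableSet_Ioi ?_
        intro v hv
        have hv' : a < v := hv
        refine (norm_w θ (ha.trans hv')).trans ?_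
        refine mul_le_mul_of_nonneg_right ?_ (Real.exp_pos _).le
        gcongr
    _ = _ := by
        rw [integral_const_mul, integral_exp_neg_Ioi]

/-- the limit integral -/
theorem integral_limit (θ : ℝ) :
    IntegrableOn (fun v : ℝ => (v : ℂ) * w θ v) (Set.Ioi 0) ∧
    ∫ v in Set.Ioi (0 : ℝ), (v : ℂ) * w θ v = Gamma (1 - (θ : ℂ) * I) := by
  have hs1 : 0 < (1 - (θ : ℂ) * I).re := by simp
  have hs2 : 0 < (2 - (θ : ℂ) * I).re := by simp
  have e1 := Complex.Gamma_eq_integral hs1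
  have e2 := Complex.Gamma_eq_integral hs2
  have i1 := Complex.GammaIntegral_convergent hs1
  have i2 := Complex.GammaIntegral_convergent hs2
  have hcongr : Set.EqOn (fun v : ℝ => (v : ℂ) * w θ v)
      (fun v : ℝ => (θ : ℂ) * I * ((Real.exp (-v) : ℂ) * (v : ℂ) ^ (1 - (θ : ℂ) * I - 1)) +
        (Real.exp (-v) : ℂ) * (v : ℂ) ^ (2 - (θ : ℂ) * I - 1)) (Set.Ioi 0) := by
    intro v hv
    have hv' : (v : ℂ) ≠ 0 := by
      have : (0 : ℝ) < v := hv
      exact_mod_cast this.ne'
    simp only [w]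
    have h1 : (v : ℂ) ^ (1 - (θ : ℂ) * I - 1) = (v : ℂ) * (v : ℂ) ^ (-((θ : ℂ) * I) - 1) := by
      rw [show (1 - (θ : ℂ) * I - 1) = 1 + (-((θ : ℂ) * I) - 1) by ring, cpow_add _ _ hv',
        cpow_one]
    have h2 : (v : ℂ) ^ (2 - (θ : ℂ) * I - 1) = (v : ℂ) * (v : ℂ) ^ (-((θ : ℂ) * I)) := by
      rw [show (2 - (θ : ℂ) * I - 1) = 1 + (-((θ : ℂ) * I)) by ring, cpow_add _ _ hv',
        cpow_one]
    rw [h1, h2]
    push_cast
    ring
  constructor
  · refine IntegrableOn.congr_fun ?_ hcongr.symm measurableSet_Ioi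
    exact (i1.const_mul _).add i2
  · rw [setIntegral_congr_fun measurableSet_Ioi hcongr, integral_add (i1.const_mul _) i2,
      integral_const_mul]
    have e1' : ∫ v in Set.Ioi (0 : ℝ), (Real.exp (-v) : ℂ) * (v : ℂ) ^ (1 - (θ : ℂ) * I - 1) =
        Gamma (1 - (θ : ℂ) * I) := by
      rw [e1]; rfl
    have e2' : ∫ v in Set.Ioi (0 : ℝ), (Real.exp (-v) : ℂ) * (v : ℂ) ^ (2 - (θ : ℂ) * I - 1) =
        Gamma (2 - (θ : ℂ) * I) := by
      rw [e2]; rfl
    rw [e1', e2']
    have h3 : Gamma (2 - (θ : ℂ) * I) = (1 - (θ : ℂ) * I) * Gamma (1 - (θ : ℂ) * I) := by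
      rw [← Complex.Gamma_add_one]
      · congr 1; ring
      · intro h
        have := congrArg Complex.re h
        simp at this
    rw [h3]
    ring

/-- the coefficients -/
noncomputable def cc (c : ℕ → ℂ) (α : ℝ) (n : ℕ) : ℂ := c n * exp (2 * Real.pi * I * ((n : ℂ) * α))

theorem se_eq (c : ℕ → ℂ) (α x : ℝ) : se c α x = ∑ n ∈ Finset.Ioc 0 ⌊x⌋₊, cc c α n := rfl

theorem se_zero (c : ℕ → ℂ) (α : ℝ) {x : ℝ} (hx : x < 1) : se c α x = 0 := by
  rw [se_eq, Nat.floor_eq_zero.2 hx]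
  simp

theorem se_bound (c : ℕ → ℂ) (α : ℝ) (ρ : ℂ)
    (h : Tendsto (fun x : ℝ => se c α x / ((x * Real.log x : ℝ) : ℂ)) atTop (𝓝 ρ)) :
    ∃ C : ℝ, 0 ≤ C ∧ ∀ x : ℝ, 1 ≤ x → ‖se c α x‖ ≤ C * x * (1 + Real.log x) := by
  have h1 := (h.norm.eventually (gt_mem_nhds (lt_add_one ‖ρ‖))).and (eventually_ge_atTop 2)
  obtain ⟨X0, hX0⟩ := eventually_atTop.1 h1
  set X := max X0 2 with hX
  refine ⟨(‖ρ‖ + 1) + ∑ n ∈ Finset.Ioc 0 ⌊X⌋₊, ‖cc c α n‖, by positivity, ?_⟩
  intro x hx
  have hlog : 0 ≤ Real.log x := Real.log_nonneg hx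
  have hK : 0 ≤ ∑ n ∈ Finset.Ioc 0 ⌊X⌋₊, ‖cc c α n‖ := by positivity
  rcases le_total X x with hXx | hXx
  · have h2 := (hX0 x ((le_max_left _ _).trans hXx)).1
    have hx2 : 2 ≤ x := (le_max_right _ _).trans hXx
    have hl : 0 < Real.log x := Real.log_pos (by linarith)
    have hpos : 0 < x * Real.log x := by positivity
    rw [norm_div, Complex.norm_real, Real.norm_of_nonneg hpos.le, div_lt_iff₀ hpos] at h2
    refine h2.le.trans ?_
    have e1 : (‖ρ‖ + 1) * (x * Real.log x) ≤ (‖ρ‖ + 1) * x * (1 + Real.log x) := by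
      have : 0 ≤ (‖ρ‖ + 1) * x := by positivity
      nlinarith
    refine e1.trans ?_
    have : 0 ≤ x * (1 + Real.log x) := by positivity
    nlinarith [mul_nonneg hK this]
  · have h2 : ‖se c α x‖ ≤ ∑ n ∈ Finset.Ioc 0 ⌊X⌋₊, ‖cc c α n‖ := by
      rw [se_eq]
      refine (norm_sum_le _ _).trans ?_
      refine Finset.sum_le_sum_of_subset_of_nonneg ?_ (fun _ _ _ => norm_nonneg _)
      exact Finset.Ioc_subset_Ioc_right (Nat.floor_le_floor hXx)
    refine h2.trans ?_
    have h3 : 1 ≤ x * (1 + Real.log x) := by nlinarith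
    have h4 : 0 ≤ (‖ρ‖ + 1) * (x * (1 + Real.log x)) := by positivity
    nlinarith [mul_le_mul_of_nonneg_left h3 hK]

theorem cc_bound (c : ℕ → ℂ) (α C : ℝ) (hC : 0 ≤ C)
    (h : ∀ x : ℝ, 1 ≤ x → ‖se c α x‖ ≤ C * x * (1 + Real.log x)) (n : ℕ) :
    ‖cc c α (n + 1)‖ ≤ 2 * C * ((n : ℝ) + 1) ^ 2 := by
  have h1 : cc c α (n + 1) = se c α ((n + 1 : ℕ) : ℝ) - se c α (n : ℝ) := by
    rw [se_eq, se_eq, Nat.floor_natCast, Nat.floor_natCast, Finset.sum_Ioc_succ_top (by omega)]
    ring
  have hlog : ∀ m : ℕ, 1 ≤ m → C * (m : ℝ) * (1 + Real.log m) ≤ C * (m : ℝ) ^ 2 := by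
    intro m hm
    have hm' : (1 : ℝ) ≤ m := by exact_mod_cast hm
    have := Real.log_le_sub_one_of_pos (show (0 : ℝ) < m by linarith)
    have h2 : 0 ≤ C * (m : ℝ) := by positivity
    nlinarith
  have h2 : ‖se c α ((n + 1 : ℕ) : ℝ)‖ ≤ C * ((n : ℝ) + 1) ^ 2 := by
    have := (h ((n + 1 : ℕ) : ℝ) (by push_cast; linarith [Nat.cast_nonneg (α := ℝ) n])).trans
      (hlog (n + 1) (by omega))
    push_cast at this
    exact_mod_cast this
  have h3 : ‖se c α (n : ℝ)‖ ≤ C * ((n : ℝ) + 1) ^ 2 := by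
    rcases Nat.eq_zero_or_pos n with hn | hn
    · subst hn
      rw [se_zero c α (by simp)]
      simpa using hC
    · have := (h (n : ℝ) (by exact_mod_cast hn)).trans (hlog n hn)
      refine this.trans ?_
      have hn0 : (0 : ℝ) ≤ n := Nat.cast_nonneg n
      gcongr
      linarith
  rw [h1]
  refine (norm_sub_le _ _).trans ?_
  linarith

theorem se_measurable (c : ℕ → ℂ) (α b : ℝ) : Measurable (fun v : ℝ => se c α (v / b)) := by
  have h1 : Measurable (fun m : ℕ => ∑ n ∈ Finset.Ioc 0 m, cc c α n) := measurable_from_nat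
  exact h1.comp (Nat.measurable_floor.comp (measurable_id.div_const b))

/-- the main identity -/
theorem lam_eq (c : ℕ → ℂ) (α θ C : ℝ) (hC : 0 ≤ C)
    (h : ∀ x : ℝ, 1 ≤ x → ‖se c α x‖ ≤ C * x * (1 + Real.log x)) {y : ℝ} (hy : 0 < y) :
    lam (tw θ c) (pX α y) = ((2 * Real.pi * y : ℝ) : ℂ) ^ ((θ : ℂ) * I) *
      ∫ v in Set.Ioi (0 : ℝ), se c α (v / (2 * Real.pi * y)) * w θ v := by
  set b : ℝ := 2 * Real.pi * y with hb
  have hb0 : 0 < b := by positivity
  have hbn : ∀ n : ℕ, 0 < b * ((n : ℝ) + 1) := fun n => by positivity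
  let F : ℕ → ℝ → ℂ := fun n => (Set.Ici (b * ((n : ℝ) + 1))).indicator
    (fun v => cc c α (n + 1) * w θ v)
  have hsub : ∀ n : ℕ, Set.Ici (b * ((n : ℝ) + 1)) ⊆ Set.Ioi (0 : ℝ) := fun n v hv =>
    (hbn n).trans_le hv
  have hwint : ∀ n : ℕ, IntegrableOn (w θ) (Set.Ici (b * ((n : ℝ) + 1))) := fun n =>
    (integrableOn_Ici_iff_integrableOn_Ioi (by finiteness)).2 (integrable_w θ (hbn n))
  have hFint : ∀ n, Integrable (F n) (volume.restrict (Set.Ioi (0 : ℝ))) := by
    intro n
    rw [integrable_indicator_iff measurableSet_Ici]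
    rw [IntegrableOn, Measure.restrict_restrict measurableSet_Ici,
      Set.inter_eq_left.2 (hsub n)]
    exact (hwint n).const_mul _
  have hFval : ∀ n, ∫ v in Set.Ioi (0 : ℝ), F n v = cc c α (n + 1) * W θ (b * ((n : ℝ) + 1)) := by
    intro n
    rw [integral_indicator measurableSet_Ici, Measure.restrict_restrict measurableSet_Ici,
      Set.inter_eq_left.2 (hsub n), integral_const_mul, integral_Ici_eq_integral_Ioi,
      integral_w θ (hbn n)]
  have hFnorm : ∀ n, ∫ v in Set.Ioi (0 : ℝ), ‖F n v‖ ≤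
      2 * C * (|θ| / b + 1) * (((n : ℝ) + 1) ^ 2 * Real.exp (-b * ((n : ℝ) + 1))) := by
    intro n
    have e1 : ∀ v, ‖F n v‖ = (Set.Ici (b * ((n : ℝ) + 1))).indicator
        (fun v => ‖cc c α (n + 1)‖ * ‖w θ v‖) v := by
      intro v
      simp only [F]
      rw [norm_indicator_eq_indicator_norm]
      simp only [norm_mul]
    simp only [e1]
    rw [integral_indicator measurableSet_Ici, Measure.restrict_restrict measurableSet_Ici,
      Set.inter_eq_left.2 (hsub n), integral_const_mul, integral_Ici_eq_integral_Ioi]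
    have e2 := integral_norm_w θ (hbn n)
    have e3 := cc_bound c α C hC h n
    have e4 : |θ| / (b * ((n : ℝ) + 1)) ≤ |θ| / b := by
      have hn0 : (0 : ℝ) ≤ n := Nat.cast_nonneg n
      gcongr
      nlinarith
    calc ‖cc c α (n + 1)‖ * ∫ v in Set.Ioi (b * ((n : ℝ) + 1)), ‖w θ v‖
        ≤ (2 * C * ((n : ℝ) + 1) ^ 2) * ((|θ| / b + 1) * Real.exp (-(b * ((n : ℝ) + 1)))) := by
          refine mul_le_mul e3 (e2.trans ?_) (by positivity) (by positivity)
          gcongr
      _ = _ := by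
          rw [neg_mul]; ring
  have hsum : Summable fun n => ∫ v in Set.Ioi (0 : ℝ), ‖F n v‖ := by
    refine Summable.of_nonneg_of_le (fun n => by positivity) hFnorm ?_
    refine Summable.mul_left _ ?_
    have h1 := Real.summable_pow_mul_exp_neg_nat_mul 2 hb0
    have h2 := (summable_nat_add_iff 1).2 h1
    refine h2.congr fun n => ?_
    push_cast
    rfl
  have htsum := integral_tsum_of_summable_integral_norm hFint hsum
  have hpt : ∀ v ∈ Set.Ioi (0 : ℝ), ∑' n, F n v = se c α (v / b) * w θ v := by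
    intro v hv
    have hv0 : (0 : ℝ) < v := hv
    have hmem : ∀ n : ℕ, v ∈ Set.Ici (b * ((n : ℝ) + 1)) ↔ n + 1 ≤ ⌊v / b⌋₊ := by
      intro n
      rw [Set.mem_Ici, Nat.le_floor_iff (by positivity), le_div_iff₀ hb0]
      push_cast
      rw [mul_comm]
    rw [tsum_eq_sum (s := Finset.range ⌊v / b⌋₊)]
    · rw [se_eq, Finset.sum_mul, Finset.range_eq_Ico]
      have e1 : Finset.Ioc 0 ⌊v / b⌋₊ = (Finset.Ico 0 ⌊v / b⌋₊).map (addRightEmbedding 1) := by
        rw [Finset.map_add_right_Ico]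
        rfl
      rw [e1, Finset.sum_map]
      refine Finset.sum_congr rfl fun n hn => ?_
      simp only [F]
      rw [Set.indicator_of_mem ((hmem n).2 (by
        have := (Finset.mem_Ico.1 hn).2
        omega))]
      rfl
    · intro n hn
      simp only [F]
      rw [Set.indicator_of_notMem]
      rw [hmem]
      intro h'
      exact hn (Finset.mem_range.2 (by omega))
  rw [← setIntegral_congr_fun measurableSet_Ioi hpt, ← htsum]
  unfold lam
  rw [← tsum_mul_left]
  refine tsum_congr fun n => ?_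
  rw [hFval]
  unfold tw cc W pX
  have hb' : (b : ℂ) ≠ 0 := by exact_mod_cast hb0.ne'
  have e1 : ((b * ((n : ℝ) + 1) : ℝ) : ℂ) ^ (-((θ : ℂ) * I)) =
      (b : ℂ) ^ (-((θ : ℂ) * I)) * ((n + 1 : ℕ) : ℂ) ^ (-((θ : ℂ) * I)) := by
    rw [Complex.ofReal_mul, Complex.mul_cpow_ofReal_nonneg hb0.le (by positivity)]
    push_cast
    rfl
  have e2 : (b : ℂ) ^ ((θ : ℂ) * I) * (b : ℂ) ^ (-((θ : ℂ) * I)) = 1 := by
    rw [← cpow_add _ _ hb', add_neg_cancel, cpow_zero]
  rw [e1]
  have e3 : exp (-(((n : ℂ) + 1) * (2 * Real.pi * ((y : ℂ) - I * α)))) =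
      exp (2 * Real.pi * I * (((n + 1 : ℕ) : ℂ) * α)) * exp (-((b * ((n : ℝ) + 1) : ℝ) : ℂ)) := by
    rw [← Complex.exp_add]
    congr 1
    rw [hb]
    push_cast
    ring
  rw [e3]
  linear_combination (-(c (n + 1) * ((n + 1 : ℕ) : ℂ) ^ (-((θ : ℂ) * I)) *
    (exp (2 * Real.pi * I * (((n + 1 : ℕ) : ℂ) * α)) *
      exp (-((b * ((n : ℝ) + 1) : ℝ) : ℂ))))) * e2

end PSAux

open PSAux in
theorem p_PS : T_PS := by
  intro c α θ ρ h
  obtain ⟨C, hC, hb⟩ := se_bound c α ρ h
  have hlim := integral_limit θ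
  have hgoal : Tendsto (fun y : ℝ => ∫ v in Set.Ioi (0 : ℝ),
      ((2 * Real.pi * y : ℝ) : ℂ) / ((Real.log (1 / y) : ℝ) : ℂ) *
        (se c α (v / (2 * Real.pi * y)) * w θ v)) (𝓝[>] 0)
      (𝓝 (∫ v in Set.Ioi (0 : ℝ), ρ * ((v : ℂ) * w θ v))) := by
    refine tendsto_integral_filter_of_dominated_convergence
      (fun v => C * ((2 + v) * (|θ| + v) * Real.exp (-v))) ?_ ?_ ?_ ?_
    · refine Eventually.of_forall fun y => ?_
      refine AEStronglyMeasurable.const_mul ?_ _
      exact (se_measurable c α _).aestronglyMeasurable.mul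
        ((continuousOn_w θ).aestronglyMeasurable measurableSet_Ioi)
    · have hsmall : ∀ᶠ y : ℝ in 𝓝[>] 0, y < Real.exp (-1) :=
        mem_nhdsWithin_of_mem_nhds (gt_mem_nhds (Real.exp_pos _))
      filter_upwards [hsmall, self_mem_nhdsWithin] with y hy1 hy
      have hy0 : (0 : ℝ) < y := hy
      have hL : 1 ≤ Real.log (1 / y) := by
        rw [one_div, Real.log_inv]
        have := Real.log_lt_log hy0 hy1
        rw [Real.log_exp] at this
        linarith
      set L := Real.log (1 / y) with hLdef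
      refine (ae_restrict_mem measurableSet_Ioi).mono fun v hv => ?_
      have hv0 : (0 : ℝ) < v := hv
      have hbpos : 0 < 2 * Real.pi * y := by positivity
      rcases lt_or_ge (v / (2 * Real.pi * y)) 1 with hlt | hge
      · rw [se_zero c α hlt]
        simp only [zero_mul, mul_zero, norm_zero]
        positivity
      · rw [norm_mul, norm_mul, norm_div, Complex.norm_real, Complex.norm_real,
          Real.norm_of_nonneg hbpos.le, Real.norm_of_nonneg (by linarith : (0 : ℝ) ≤ L)]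
        have e1 := hb _ hge
        have e2 := norm_w θ hv0
        have e3 : Real.log (v / (2 * Real.pi * y)) ≤ v + L := by
          have h2pi : 0 ≤ Real.log (2 * Real.pi) :=
            Real.log_nonneg (by nlinarith [Real.pi_gt_three])
          have h4 : Real.log (v / (2 * Real.pi * y)) = Real.log v - Real.log (2 * Real.pi) + L := by
            rw [Real.log_div hv0.ne' hbpos.ne', Real.log_mul (by positivity) hy0.ne', hLdef, one_div,
              Real.log_inv]
            ring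
          have h5 := Real.log_le_sub_one_of_pos hv0
          linarith
        have e4 : 1 + Real.log (v / (2 * Real.pi * y)) ≤ (2 + v) * L := by nlinarith
        calc 2 * Real.pi * y / L * (‖se c α (v / (2 * Real.pi * y))‖ * ‖w θ v‖)
            ≤ 2 * Real.pi * y / L * ((C * (v / (2 * Real.pi * y)) * ((2 + v) * L)) *
              ((|θ| / v + 1) * Real.exp (-v))) := by
              refine mul_le_mul_of_nonneg_left ?_ (by positivity)
              refine mul_le_mul (e1.trans ?_) e2 (norm_nonneg _) (by positivity)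
              exact mul_le_mul_of_nonneg_left e4 (by positivity)
          _ = C * ((2 + v) * (|θ| + v) * Real.exp (-v)) := by
              field_simp
    · refine Integrable.const_mul ?_ _
      have g1 := Real.GammaIntegral_convergent (show (0 : ℝ) < 1 by norm_num)
      have g2 := Real.GammaIntegral_convergent (show (0 : ℝ) < 2 by norm_num)
      have g3 := Real.GammaIntegral_convergent (show (0 : ℝ) < 3 by norm_num)
      have g := ((g1.const_mul (2 * |θ|)).add (g2.const_mul (2 + |θ|))).add g3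
      refine IntegrableOn.congr_fun g ?_ measurableSet_Ioi
      intro v hv
      have hv0 : (0 : ℝ) < v := hv
      simp only [Pi.add_apply]
      rw [show (1 : ℝ) - 1 = 0 by norm_num, show (2 : ℝ) - 1 = 1 by norm_num,
        show (3 : ℝ) - 1 = 2 by norm_num, Real.rpow_zero, Real.rpow_one, Real.rpow_two]
      ring
    · refine (ae_restrict_mem measurableSet_Ioi).mono fun v hv => ?_
      have hv0 : (0 : ℝ) < v := hv
      have hL : Tendsto (fun y : ℝ => Real.log (1 / y)) (𝓝[>] 0) atTop := by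
        have : Tendsto (fun y : ℝ => 1 / y) (𝓝[>] 0) atTop := by
          simpa using tendsto_inv_nhdsGT_zero (𝕜 := ℝ)
        exact Real.tendsto_log_atTop.comp this
      have hx : Tendsto (fun y : ℝ => v / (2 * Real.pi * y)) (𝓝[>] 0) atTop := by
        have h1 : Tendsto (fun y : ℝ => (v / (2 * Real.pi)) * y⁻¹) (𝓝[>] 0) atTop :=
          (tendsto_inv_nhdsGT_zero (𝕜 := ℝ)).const_mul_atTop (by positivity)
        refine h1.congr fun y => ?_
        rw [← div_eq_mul_inv, div_div]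
      have h1 := h.comp hx
      have h2 : Tendsto (fun y : ℝ => Real.log (v / (2 * Real.pi * y)) / Real.log (1 / y))
          (𝓝[>] 0) (𝓝 1) := by
        have h3 : Tendsto (fun y : ℝ => (Real.log v - Real.log (2 * Real.pi)) / Real.log (1 / y) + 1)
            (𝓝[>] 0) (𝓝 (0 + 1)) := (hL.const_div_atTop _).add_const 1
        rw [zero_add] at h3
        refine h3.congr' ?_
        filter_upwards [self_mem_nhdsWithin, hL.eventually_gt_atTop 0] with y hy hLy
        have hy0 : (0 : ℝ) < y := hy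
        have h4 : Real.log (v / (2 * Real.pi * y)) =
            Real.log v - Real.log (2 * Real.pi) + Real.log (1 / y) := by
          rw [Real.log_div hv0.ne' (by positivity), Real.log_mul (by positivity) hy0.ne', one_div,
            Real.log_inv]
          ring
        rw [h4, add_div, div_self hLy.ne']
      have h5 : Tendsto (fun y : ℝ => ((v * (Real.log (v / (2 * Real.pi * y)) /
          Real.log (1 / y)) : ℝ) : ℂ)) (𝓝[>] 0) (𝓝 ((v * 1 : ℝ) : ℂ)) :=
        (Complex.continuous_ofReal.tendsto _).comp (h2.const_mul v)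
      have h6 := (h1.mul h5).mul_const (w θ v)
      rw [mul_one, mul_assoc] at h6
      refine h6.congr' ?_
      filter_upwards [self_mem_nhdsWithin, hL.eventually_gt_atTop 0,
        hx.eventually_gt_atTop 1] with y hy hLy hxy
      have hy0 : (0 : ℝ) < y := hy
      have hlx : Real.log (v / (2 * Real.pi * y)) ≠ 0 := (Real.log_pos hxy).ne'
      have hlx' : ((Real.log (v / (2 * Real.pi * y)) : ℝ) : ℂ) ≠ 0 := by exact_mod_cast hlx
      have hLy' : ((Real.log (1 / y) : ℝ) : ℂ) ≠ 0 := by exact_mod_cast hLy.ne'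
      have hy' : (y : ℂ) ≠ 0 := by exact_mod_cast hy0.ne'
      have hv' : (v : ℂ) ≠ 0 := by exact_mod_cast hv0.ne'
      have hpi : (Real.pi : ℂ) ≠ 0 := by exact_mod_cast Real.pi_ne_zero
      simp only [Function.comp_apply]
      push_cast at hlx' hLy' ⊢
      field_simp
  rw [integral_const_mul, hlim.2, mul_comm ρ] at hgoal
  refine hgoal.congr' ?_
  filter_upwards [self_mem_nhdsWithin] with y hy
  have hy0 : (0 : ℝ) < y := hy
  rw [integral_const_mul, lam_eq c α θ C hC hb hy0]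
  have hb0 : ((2 * Real.pi * y : ℝ) : ℂ) ≠ 0 := by
    have : (0 : ℝ) < 2 * Real.pi * y := by positivity
    exact_mod_cast this.ne'
  have e2 : ((2 * Real.pi * y : ℝ) : ℂ) ^ (1 - (θ : ℂ) * I) *
      ((2 * Real.pi * y : ℝ) : ℂ) ^ ((θ : ℂ) * I) = ((2 * Real.pi * y : ℝ) : ℂ) := by
    rw [← cpow_add _ _ hb0, sub_add_cancel, cpow_one]
  rw [← mul_assoc, div_mul_eq_mul_div, div_mul_eq_mul_div, e2, div_mul_eq_mul_div]

end Pool.Agent.SelTwo
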