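import Pool.Agent.SelTwo.Targets

/-!
# RAT: polynomial bound for the quotient of gamma factors (MP_995735_nt)
-/

namespace Pool.Agent.SelTwo

open Complex Filter Topology MeasureTheory

noncomputable section

theorem vl_re (σ t : ℝ) : (vl σ t).re = σ := by simp [vl]

theorem vl_im (σ t : ℝ) : (vl σ t).im = t := by simp [vl]

/-- one factor of `gP` on the line of real part `3/2` -/
def ratf (l : ℝ) (m : ℂ) (τ : ℝ) : ℂ :=
  Gamma ((l : ℂ) * vl (3 / 2) τ + (starRingEnd ℂ) m) *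
    (Gamma ((l : ℂ) * (1 - vl (3 / 2) τ) + m))⁻¹

theorem ratf_cont (l : ℝ) (m : ℂ) (hl : 0 < l) (hm : 0 ≤ m.re) : Continuous (ratf l m) := by
  unfold ratf
  apply Continuous.mul
  · rw [continuous_iff_continuousAt]
    intro τ
    have h : DifferentiableAt ℂ Gamma ((l : ℂ) * vl (3 / 2) τ + (starRingEnd ℂ) m) := by
      apply Complex.differentiableAt_Gamma
      intro n h
      have h2 := congrArg Complex.re h
      simp [vl_re, vl_im] at h2
      have : (0 : ℝ) ≤ n := Nat.cast_nonneg n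
      nlinarith
    have hc : ContinuousAt (fun τ : ℝ => (l : ℂ) * vl (3 / 2) τ + (starRingEnd ℂ) m) τ := by
      unfold vl
      fun_prop
    exact ContinuousAt.comp (f := fun τ : ℝ => (l : ℂ) * vl (3 / 2) τ + (starRingEnd ℂ) m)
      h.continuousAt hc
  · have h : Continuous (fun s : ℂ => (Gamma s)⁻¹) :=
      Complex.differentiable_one_div_Gamma.continuous
    exact h.comp (by unfold vl; fun_prop)

theorem ratf_neg (l : ℝ) (m : ℂ) (τ : ℝ) :
    ratf l m (-τ) = (starRingEnd ℂ) (ratf l ((starRingEnd ℂ) m) τ) := by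
  unfold ratf
  rw [map_mul, map_inv₀, ← Complex.Gamma_conj, ← Complex.Gamma_conj]
  have h1 : (starRingEnd ℂ) ((l : ℂ) * vl (3 / 2) τ + (starRingEnd ℂ) ((starRingEnd ℂ) m)) =
      (l : ℂ) * vl (3 / 2) (-τ) + (starRingEnd ℂ) m := by
    apply Complex.ext <;> simp [vl_re, vl_im]
  have h2 : (starRingEnd ℂ) ((l : ℂ) * (1 - vl (3 / 2) τ) + (starRingEnd ℂ) m) =
      (l : ℂ) * (1 - vl (3 / 2) (-τ)) + m := by
    apply Complex.ext <;> simp [vl_re, vl_im]
  rw [h1, h2]

theorem ratf_large (h : T_G1) (l : ℝ) (m : ℂ) (hl : 0 < l) :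
    ∃ C T : ℝ, 0 ≤ C ∧ 1 ≤ T ∧ ∀ t : ℝ, T ≤ t → ‖ratf l m t‖ ≤ C * t ^ (2 * l) := by
  obtain ⟨C1, T1, hT1, h1⟩ := h l (3 / 2) ((starRingEnd ℂ) m) hl
  obtain ⟨C2, T2, hT2, h2⟩ := h l (-1 / 2) ((starRingEnd ℂ) m) hl
  refine ⟨Real.exp (2 * l * Real.log l + |C1| + |C2|), max T1 T2, (Real.exp_pos _).le,
    le_max_of_le_left hT1, ?_⟩
  intro t ht
  have ht1 : 1 ≤ t := le_trans hT1 (le_trans (le_max_left _ _) ht)
  have ht0 : 0 < t := by linarith
  obtain ⟨e1, he1, hg1⟩ := h1 t (le_trans (le_max_left _ _) ht)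
  obtain ⟨e2, he2, hg2⟩ := h2 t (le_trans (le_max_right _ _) ht)
  have hc : (starRingEnd ℂ) ((l : ℂ) * (1 - vl (3 / 2) t) + m) =
      (l : ℂ) * vl (-1 / 2) t + (starRingEnd ℂ) m := by
    apply Complex.ext <;> simp [vl_re, vl_im]
    left
    norm_num
  have hn2 : ‖Gamma ((l : ℂ) * (1 - vl (3 / 2) t) + m)‖ =
      ‖Gamma ((l : ℂ) * vl (-1 / 2) t + (starRingEnd ℂ) m)‖ := by
    rw [← hc, Complex.Gamma_conj, Complex.norm_conj]
  have hb : ∀ (e : ℂ) (C : ℝ), ‖e‖ ≤ C / t → |e.re| ≤ |C| := by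
    intro e C he
    have hC : C / t ≤ |C| := by
      rw [div_le_iff₀ ht0]
      have := le_abs_self C
      have h0 := abs_nonneg C
      nlinarith
    exact (Complex.abs_re_le_norm e).trans (he.trans hC)
  have hb1 := hb e1 C1 he1
  have hb2 := hb e2 C2 he2
  unfold ratf
  rw [norm_mul, norm_inv, hn2, hg1, hg2, Complex.norm_exp, Complex.norm_exp, ← Real.exp_neg,
    ← Real.exp_add, Real.rpow_def_of_pos ht0, ← Real.exp_add]
  apply Real.exp_le_exp.mpr
  simp only [Complex.add_re, Complex.sub_re, Complex.mul_re, Complex.add_im, Complex.sub_im,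
    Complex.mul_im, Complex.ofReal_re, Complex.ofReal_im, Complex.I_re, Complex.I_im,
    Complex.conj_re, Complex.conj_im, vl_re, vl_im]
  have := abs_le.mp hb1
  have := abs_le.mp hb2
  norm_num
  nlinarith

theorem ratf_bound (h : T_G1) (l : ℝ) (m : ℂ) (hl : 0 < l) (hm : 0 ≤ m.re) :
    ∃ C : ℝ, 0 ≤ C ∧ ∀ τ : ℝ, ‖ratf l m τ‖ ≤ C * (1 + |τ|) ^ (2 * l) := by
  obtain ⟨C1, T1, hC1, hT1, h1⟩ := ratf_large h l m hl
  obtain ⟨C2, T2, hC2, hT2, h2⟩ := ratf_large h l ((starRingEnd ℂ) m) hl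
  have hK : IsCompact (Set.Icc (-(max T1 T2)) (max T1 T2)) := isCompact_Icc
  obtain ⟨M, hM⟩ := hK.exists_bound_of_continuousOn (f := ratf l m)
    (ratf_cont l m hl hm).continuousOn
  refine ⟨C1 + C2 + |M|, by positivity, ?_⟩
  intro τ
  have h1τ : 1 ≤ 1 + |τ| := by linarith [abs_nonneg τ]
  have hp : 1 ≤ (1 + |τ|) ^ (2 * l) := Real.one_le_rpow h1τ (by positivity)
  have hM0 := abs_nonneg M
  have hmono : ∀ t : ℝ, 0 ≤ t → t ≤ 1 + |τ| → t ^ (2 * l) ≤ (1 + |τ|) ^ (2 * l) :=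
    fun t ht0 ht => Real.rpow_le_rpow ht0 ht (by positivity)
  by_cases hc1 : max T1 T2 ≤ τ
  · have hb := h1 τ (le_trans (le_max_left _ _) hc1)
    have hτ : 0 ≤ τ := by
      have := le_trans (le_max_left T1 T2) hc1
      linarith
    have hm' := hmono τ hτ (by linarith [le_abs_self τ])
    nlinarith [mul_le_mul_of_nonneg_left hm' hC1]
  · by_cases hc2 : τ ≤ -(max T1 T2)
    · have hb := h2 (-τ) (by
        have := le_max_right T1 T2
        linarith)
      have he : ratf l m τ = (starRingEnd ℂ) (ratf l ((starRingEnd ℂ) m) (-τ)) := by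
        have := ratf_neg l m (-τ)
        rwa [neg_neg] at this
      rw [he, Complex.norm_conj]
      have hτ : 0 ≤ -τ := by
        have := le_max_left T1 T2
        linarith
      have hm' := hmono (-τ) hτ (by linarith [neg_abs_le τ])
      nlinarith [mul_le_mul_of_nonneg_left hm' hC2]
    · push Not at hc1 hc2
      have hb := hM τ ⟨hc2.le, hc1.le⟩
      have := le_abs_self M
      nlinarith

theorem p_RAT (h : T_G1) : T_RAT := by
  intro k l m hl hm hs
  have hfac : ∀ τ : ℝ, gP k l m (vl (3 / 2) τ) = ∏ j, ratf (l j) (m j) τ := fun τ => rfl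
  constructor
  · simp only [hfac]
    exact continuous_finsetProd _ fun j _ => ratf_cont (l j) (m j) (hl j) (hm j)
  · choose C hC0 hC using fun j => ratf_bound h (l j) (m j) (hl j) (hm j)
    refine ⟨∏ j, C j, ?_⟩
    intro τ
    rw [hfac, norm_prod]
    have hpos : 0 < 1 + |τ| := by linarith [abs_nonneg τ]
    calc ∏ j, ‖ratf (l j) (m j) τ‖ ≤ ∏ j, (C j * (1 + |τ|) ^ (2 * l j)) :=
          Finset.prod_le_prod (fun j _ => norm_nonneg _) (fun j _ => hC j τ)
      _ = (∏ j, C j) * (1 + |τ|) ^ 2 := by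
          rw [Finset.prod_mul_distrib, ← Real.rpow_sum_of_pos hpos, ← Finset.mul_sum, hs]
          norm_num

end

end Pool.Agent.SelTwo
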