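import Pool.Agent.SelTwo.Targets

/-!
# Exponential sums of `a = g * d` (target `T_SA`)
-/

namespace Pool.Agent.SelTwo

open Complex Filter Topology MeasureTheory
open Pool.Agent.SelPole

noncomputable section

namespace SAaux

theorem sum_pairs (F : ℕ → ℕ → ℂ) (N : ℕ) :
    ∑ n ∈ Finset.Ioc 0 N, ∑ p ∈ n.divisorsAntidiagonal, F p.1 p.2 =
      ∑ m ∈ Finset.Ioc 0 N, ∑ k ∈ Finset.Ioc 0 (N / m), F m k := by
  have h1 : ∑ n ∈ Finset.Ioc 0 N, ∑ p ∈ n.divisorsAntidiagonal, F p.1 p.2 =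
      ∑ x ∈ (Finset.Ioc 0 N ×ˢ Finset.Ioc 0 N).filter (fun x => x.1 * x.2 ≤ N), F x.1 x.2 := by
    trans ∑ n ∈ Finset.Ioc 0 N,
      ∑ x ∈ (Finset.Ioc 0 N ×ˢ Finset.Ioc 0 N).filter (fun x => x.1 * x.2 = n), F x.1 x.2
    · refine Finset.sum_congr rfl fun n hn ↦ ?_
      simp only [Finset.mem_Ioc] at hn
      rw [Nat.divisorsAntidiagonal_eq_prod_filter_of_le hn.1.ne' hn.2]
    · simp_rw [Finset.sum_filter]
      rw [Finset.sum_comm]
      exact Finset.sum_congr rfl fun _ _ ↦ (by simp_all)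
  rw [h1, Finset.sum_filter, Finset.sum_product]
  refine Finset.sum_congr rfl fun n hn ↦ ?_
  rw [← Finset.sum_filter]
  refine Finset.sum_congr ?_ fun _ _ => rfl
  ext k
  simp only [Finset.mem_filter, Finset.mem_Ioc] at hn ⊢
  constructor
  · rintro ⟨⟨h1, h2⟩, h3⟩
    refine ⟨h1, (Nat.le_div_iff_mul_le hn.1).2 ?_⟩
    rw [mul_comm]; exact h3
  · rintro ⟨h1, h2⟩
    have h3 := (Nat.le_div_iff_mul_le hn.1).1 h2
    refine ⟨⟨h1, h2.trans (Nat.div_le_self _ _)⟩, ?_⟩
    rw [mul_comm]; exact h3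

theorem se_conv (g a : ℕ → ℂ)
    (h : ∀ n : ℕ, 1 ≤ n → a n = ∑ p ∈ n.divisorsAntidiagonal, g p.1 * dd p.2) (α x : ℝ) :
    se a α x = ∑ m ∈ Finset.Ioc 0 ⌊x⌋₊, g m * se dd (m * α) (x / m) := by
  have h1 : se a α x = ∑ n ∈ Finset.Ioc 0 ⌊x⌋₊, ∑ p ∈ n.divisorsAntidiagonal,
      g p.1 * (dd p.2 * exp (2 * Real.pi * I * ((p.2 : ℂ) * ((p.1 * α : ℝ) : ℂ)))) := by
    unfold se
    refine Finset.sum_congr rfl fun n hn => ?_
    rw [h n (Finset.mem_Ioc.1 hn).1, Finset.sum_mul]
    refine Finset.sum_congr rfl fun p hp => ?_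
    have h2 : (n : ℂ) = (p.1 : ℂ) * p.2 := by
      rw [← (Nat.mem_divisorsAntidiagonal.1 hp).1]; push_cast; rfl
    rw [h2, mul_assoc]
    congr 3
    push_cast
    ring
  rw [h1, sum_pairs (fun m k => g m * (dd k * exp (2 * Real.pi * I * ((k : ℂ) * ((m * α : ℝ) : ℂ)))))]
  refine Finset.sum_congr rfl fun m _ => ?_
  rw [← Finset.mul_sum]
  unfold se
  rw [Nat.floor_div_natCast]

/-- the limit of the exponential sums of the divisor function -/
def Ld (β : ℝ) : ℂ := open Classical in if h : ∃ r : ℚ, (r : ℝ) = β then 1 / (h.choose.den : ℂ) else 0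

theorem Ld_rat (r : ℚ) : Ld (r : ℝ) = 1 / (r.den : ℂ) := by
  have h : ∃ r' : ℚ, (r' : ℝ) = (r : ℝ) := ⟨r, rfl⟩
  have h2 : h.choose = r := by exact_mod_cast h.choose_spec
  simp only [Ld, dif_pos h, h2]

theorem Ld_irr {α : ℝ} (h : Irrational α) : Ld α = 0 := by
  have h' : ¬ ∃ r : ℚ, (r : ℝ) = α := fun ⟨r, hr⟩ => h ⟨r, hr⟩
  simp only [Ld, dif_neg h']

theorem tendsto_Ld (h2 : T_SD2) (h3 : T_SD3) (β : ℝ) :
    Tendsto (fun x : ℝ => se dd β x / ((x * Real.log x : ℝ) : ℂ)) atTop (𝓝 (Ld β)) := by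
  by_cases h : ∃ r : ℚ, (r : ℝ) = β
  · obtain ⟨r, rfl⟩ := h
    rw [Ld_rat]; exact h2 r
  · have h' : Irrational β := fun ⟨r, hr⟩ => h ⟨r, hr⟩
    rw [Ld_irr h']; exact h3 β h'

/-- the ratio of the weights -/
theorem tendsto_ratio (m : ℕ) (hm : 1 ≤ m) :
    Tendsto (fun x : ℝ => (x / m * Real.log (x / m)) / (x * Real.log x)) atTop (𝓝 (1 / (m : ℝ))) := by
  have hm0 : (0 : ℝ) < m := by exact_mod_cast hm
  have h1 : Tendsto (fun x : ℝ => 1 / (m : ℝ) * (1 - Real.log m / Real.log x)) atTop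
      (𝓝 (1 / (m : ℝ) * (1 - 0))) := by
    refine Tendsto.const_mul _ (Tendsto.const_sub _ ?_)
    exact Real.tendsto_log_atTop.const_div_atTop _
  rw [sub_zero, mul_one] at h1
  refine h1.congr' ?_
  filter_upwards [eventually_gt_atTop 1] with x hx
  have hx0 : 0 < x := by linarith
  have hl : 0 < Real.log x := Real.log_pos hx
  rw [Real.log_div hx0.ne' hm0.ne']
  field_simp

theorem term_tendsto (h2 : T_SD2) (h3 : T_SD3) (g : ℕ → ℂ) (α : ℝ) (m : ℕ) (hm : 1 ≤ m) :
    Tendsto (fun x : ℝ => g m * se dd (m * α) (x / m) / ((x * Real.log x : ℝ) : ℂ)) atTop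
      (𝓝 (g m / m * Ld (m * α))) := by
  have hm0 : (0 : ℝ) < m := by exact_mod_cast hm
  have hx : Tendsto (fun x : ℝ => x / m) atTop atTop := tendsto_id.atTop_div_const hm0
  have e1 := (tendsto_Ld h2 h3 (m * α)).comp hx
  have e2 := (Complex.continuous_ofReal.tendsto _).comp (tendsto_ratio m hm)
  have e3 := (e1.mul e2).const_mul (g m)
  have e4 : g m * (Ld (m * α) * ((1 / (m : ℝ) : ℝ) : ℂ)) = g m / m * Ld (m * α) := by
    push_cast; ring
  rw [e4] at e3
  refine e3.congr' ?_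
  filter_upwards [eventually_gt_atTop (m : ℝ), eventually_gt_atTop 1] with x hx1 hx2
  simp only [Function.comp]
  have hz : x / m * Real.log (x / m) ≠ 0 := by
    have h1 : 1 < x / m := by rwa [lt_div_iff₀ hm0, one_mul]
    exact (mul_pos (by linarith) (Real.log_pos h1)).ne'
  have hz' : ((x / m * Real.log (x / m) : ℝ) : ℂ) ≠ 0 := by exact_mod_cast hz
  rw [Complex.ofReal_div]
  rw [mul_div_assoc]
  congr 1
  rw [div_mul_div_comm, mul_comm (se dd _ _), mul_div_mul_left _ _ hz']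

theorem den_mul (r : ℚ) (m : ℕ) :
    (1 : ℂ) / (((m : ℚ) * r).den : ℂ) = (Nat.gcd m r.den : ℂ) / (r.den : ℂ) := by
  have h1 : ((m : ℚ) * r).den * Nat.gcd m r.den = r.den := by
    have h := Rat.mul_den (m : ℚ) r
    rw [h]
    simp only [Rat.den_natCast, one_mul, Rat.num_natCast]
    have h2 : Nat.gcd ((m : ℤ) * r.num).natAbs r.den = Nat.gcd m r.den := by
      rw [Int.natAbs_mul, Int.natAbs_natCast]
      exact Nat.Coprime.gcd_mul_right_cancel m r.reduced
    rw [h2]
    exact Nat.div_mul_cancel (Nat.gcd_dvd_right _ _)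
  have h2 : (((m : ℚ) * r).den : ℂ) ≠ 0 := by exact_mod_cast ((m : ℚ) * r).den_nz
  have h3 : (r.den : ℂ) ≠ 0 := by exact_mod_cast r.den_nz
  rw [div_eq_div_iff h2 h3, one_mul]
  rw [mul_comm]
  exact_mod_cast h1.symm

end SAaux

open SAaux in
theorem p_SA (h1 : T_SD1) (h2 : T_SD2) (h3 : T_SD3) : T_SA := by
  intro g a hg ha α
  obtain ⟨C, hC⟩ := h1
  -- the limit
  have hlim : ∑' m : ℕ, g m / m * Ld (m * α) = RR g α := by
    by_cases h : ∃ r : ℚ, (r : ℝ) = α
    · obtain ⟨r, rfl⟩ := h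
      rw [RR_rat, RQ, ← tsum_mul_left]
      refine tsum_congr fun m => ?_
      rcases Nat.eq_zero_or_pos m with rfl | hm
      · simp
      · have e : ((m : ℝ) * (r : ℝ)) = (((m : ℚ) * r : ℚ) : ℝ) := by push_cast; rfl
        rw [e, Ld_rat, den_mul r m]
        ring
    · have h' : Irrational α := fun ⟨r, hr⟩ => h ⟨r, hr⟩
      rw [RR_irr g h']
      have : ∀ m : ℕ, g m / m * Ld (m * α) = 0 := by
        intro m
        rcases Nat.eq_zero_or_pos m with rfl | hm
        · simp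
        · rw [Ld_irr ((irrational_natCast_mul_iff).2 ⟨hm.ne', h'⟩), mul_zero]
      simp [this]
  rw [← hlim]
  -- dominated convergence
  have key : Tendsto (fun x : ℝ => ∑' m : ℕ, if m ∈ Finset.Ioc 0 ⌊x⌋₊ then
      g m * se dd (m * α) (x / m) / ((x * Real.log x : ℝ) : ℂ) else 0) atTop
      (𝓝 (∑' m : ℕ, g m / m * Ld (m * α))) := by
    refine tendsto_tsum_of_dominated_convergence (bound := fun m => |C| * 2 * (‖g m‖ / m))
      (hg.mul_left _) ?_ ?_
    · intro m
      rcases Nat.eq_zero_or_pos m with rfl | hm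
      · simp
      · refine (term_tendsto h2 h3 g α m hm).congr' ?_
        filter_upwards [eventually_ge_atTop (m : ℝ)] with x hx
        rw [if_pos]
        exact Finset.mem_Ioc.2 ⟨hm, Nat.le_floor hx⟩
    · filter_upwards [eventually_ge_atTop (Real.exp 1)] with x hx m
      have hx0 : 0 < x := lt_of_lt_of_le (Real.exp_pos _) hx
      have hl : 1 ≤ Real.log x := by
        rw [← Real.log_exp 1]; exact Real.log_le_log (Real.exp_pos _) hx
      split_ifs with hm
      · rw [Finset.mem_Ioc] at hm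
        have hm0 : (0 : ℝ) < m := by exact_mod_cast hm.1
        have hmx : (m : ℝ) ≤ x := (Nat.le_floor_iff hx0.le).1 hm.2
        have hz : 1 ≤ x / m := by rwa [one_le_div hm0]
        have hb := hC (m * α) (x / m) hz
        have hlz : Real.log (x / m) ≤ Real.log x := by
          refine Real.log_le_log (by positivity) ?_
          exact div_le_self hx0.le (by exact_mod_cast hm.1)
        have hlz0 : 0 ≤ Real.log (x / m) := Real.log_nonneg hz
        have hb' : ‖se dd (m * α) (x / m)‖ ≤ |C| * (x / m) * (2 * Real.log x) := by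
          refine hb.trans ?_
          have h5 : C * (x / m) ≤ |C| * (x / m) := by
            exact mul_le_mul_of_nonneg_right (le_abs_self C) (by positivity)
          calc C * (x / m) * (1 + Real.log (x / m)) ≤ |C| * (x / m) * (1 + Real.log (x / m)) :=
                mul_le_mul_of_nonneg_right h5 (by linarith)
            _ ≤ |C| * (x / m) * (2 * Real.log x) :=
                mul_le_mul_of_nonneg_left (by linarith) (by positivity)
        have hn : ‖((x * Real.log x : ℝ) : ℂ)‖ = x * Real.log x := by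
          rw [Complex.norm_real, Real.norm_of_nonneg (by positivity)]
        rw [norm_div, norm_mul, hn, div_le_iff₀ (by positivity)]
        calc ‖g m‖ * ‖se dd (m * α) (x / m)‖ ≤ ‖g m‖ * (|C| * (x / m) * (2 * Real.log x)) :=
              mul_le_mul_of_nonneg_left hb' (norm_nonneg _)
          _ = |C| * 2 * (‖g m‖ / m) * (x * Real.log x) := by ring
      · rw [norm_zero]; positivity
  refine key.congr' ?_
  filter_upwards with x
  rw [se_conv g a ha α x, Finset.sum_div, tsum_eq_sum (s := Finset.Ioc 0 ⌊x⌋₊)]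
  · refine Finset.sum_congr rfl fun m hm => ?_
    rw [if_pos hm]
  · intro m hm
    rw [if_neg hm]

end

end Pool.Agent.SelTwo
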