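import Pool.Agent.SelTwo.Targets

/-!
# Exponential sums with the divisor function: trivial bound and rational points

For MP_995735_nt (project SelTwo): targets SD1, SD2.
-/

namespace Pool.Agent.SelTwo

open Complex Filter Topology MeasureTheory
open Pool.Agent.SelPole

/-- summing over divisors: `∑_{n ≤ N} d(n) f(n) = ∑_{u ≤ N} ∑_{v ≤ N/u} f(uv)` -/
theorem sum_dd_mul (N : ℕ) (f : ℕ → ℂ) :
    ∑ n ∈ Finset.Ioc 0 N, dd n * f n =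
      ∑ u ∈ Finset.Ioc 0 N, ∑ v ∈ Finset.Ioc 0 (N / u), f (u * v) := by
  have h1 : ∀ n ∈ Finset.Ioc 0 N, dd n * f n =
      ∑ u ∈ Finset.Ioc 0 N, (if u ∣ n then f n else 0) := by
    intro n hn
    rw [Finset.mem_Ioc] at hn
    rw [← Finset.sum_filter, Finset.sum_const, nsmul_eq_mul, dd]
    congr 3
    ext u
    simp only [Nat.mem_divisors, Finset.mem_filter, Finset.mem_Ioc]
    constructor
    · rintro ⟨h, h'⟩
      exact ⟨⟨Nat.pos_of_dvd_of_pos h hn.1, (Nat.le_of_dvd hn.1 h).trans hn.2⟩, h⟩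
    · rintro ⟨_, h⟩
      exact ⟨h, by omega⟩
  rw [Finset.sum_congr rfl h1, Finset.sum_comm]
  refine Finset.sum_congr rfl fun u hu => ?_
  rw [Finset.mem_Ioc] at hu
  rw [← Finset.sum_filter]
  symm
  refine Finset.sum_bij (fun v _ => u * v) ?_ ?_ ?_ ?_
  · intro v hv
    rw [Finset.mem_Ioc] at hv
    rw [Finset.mem_filter, Finset.mem_Ioc]
    refine ⟨⟨Nat.mul_pos hu.1 hv.1, ?_⟩, dvd_mul_right u v⟩
    calc u * v ≤ u * (N / u) := Nat.mul_le_mul_left u hv.2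
      _ ≤ N := Nat.mul_div_le N u
  · intro v _ v' _ h
    exact Nat.eq_of_mul_eq_mul_left hu.1 h
  · intro n hn
    rw [Finset.mem_filter, Finset.mem_Ioc] at hn
    obtain ⟨⟨h0, hN⟩, v, rfl⟩ := hn
    refine ⟨v, ?_, rfl⟩
    rw [Finset.mem_Ioc]
    refine ⟨?_, ?_⟩
    · rcases Nat.eq_zero_or_pos v with h' | h'
      · subst h'; simp at h0
      · exact h'
    · rw [Nat.le_div_iff_mul_le hu.1, mul_comm]
      exact hN
  · intro v _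
    rfl

/-- the sum as a double sum -/
theorem se_dd (α x : ℝ) : se dd α x =
    ∑ u ∈ Finset.Ioc 0 ⌊x⌋₊, ∑ v ∈ Finset.Ioc 0 (⌊x⌋₊ / u),
      (exp (2 * Real.pi * I * ((u : ℂ) * α))) ^ v := by
  rw [se, sum_dd_mul ⌊x⌋₊ (fun n => exp (2 * Real.pi * I * ((n : ℂ) * α)))]
  refine Finset.sum_congr rfl fun u _ => Finset.sum_congr rfl fun v _ => ?_
  rw [← Complex.exp_nat_mul]
  congr 1
  push_cast
  ring

theorem norm_e (α : ℝ) (u : ℕ) : ‖exp (2 * Real.pi * I * ((u : ℂ) * α))‖ = 1 := by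
  rw [show (2 * Real.pi * I * ((u : ℂ) * α) : ℂ) = ((2 * Real.pi * (u * α) : ℝ) : ℂ) * I by
    push_cast; ring]
  exact Complex.norm_exp_ofReal_mul_I _

theorem inner_le (α : ℝ) (u M : ℕ) :
    ‖∑ v ∈ Finset.Ioc 0 M, (exp (2 * Real.pi * I * ((u : ℂ) * α))) ^ v‖ ≤ M := by
  calc ‖∑ v ∈ Finset.Ioc 0 M, (exp (2 * Real.pi * I * ((u : ℂ) * α))) ^ v‖
      ≤ ∑ v ∈ Finset.Ioc 0 M, ‖(exp (2 * Real.pi * I * ((u : ℂ) * α))) ^ v‖ := norm_sum_le _ _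
    _ = ∑ v ∈ Finset.Ioc 0 M, (1 : ℝ) := by
        refine Finset.sum_congr rfl fun v _ => ?_
        rw [norm_pow, norm_e, one_pow]
    _ = M := by simp

/-- geometric sums are bounded -/
theorem inner_le' (z : ℂ) (hz : ‖z‖ = 1) (hz1 : z ≠ 1) (M : ℕ) :
    ‖∑ v ∈ Finset.Ioc 0 M, z ^ v‖ ≤ 2 / ‖1 - z‖ := by
  have h0 : 0 < ‖1 - z‖ := norm_pos_iff.mpr (sub_ne_zero.mpr (Ne.symm hz1))
  have h1 : Finset.Ioc 0 M = Finset.Ico 1 (M + 1) := by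
    ext v
    simp only [Finset.mem_Ioc, Finset.mem_Ico]
    omega
  rw [h1, geom_sum_Ico' hz1 (by omega), norm_div]
  refine div_le_div_of_nonneg_right ?_ h0.le
  calc ‖z ^ 1 - z ^ (M + 1)‖ ≤ ‖z ^ 1‖ + ‖z ^ (M + 1)‖ := norm_sub_le _ _
    _ = 2 := by rw [norm_pow, norm_pow, hz]; norm_num

theorem sum_inv_le (x : ℝ) (hx : 1 ≤ x) :
    ∑ u ∈ Finset.Ioc 0 ⌊x⌋₊, ((u : ℝ))⁻¹ ≤ 1 + Real.log x := by
  have h := harmonic_floor_le_one_add_log x hx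
  rw [harmonic_eq_sum_Icc] at h
  push_cast at h
  have h1 : Finset.Ioc 0 ⌊x⌋₊ = Finset.Icc 1 ⌊x⌋₊ := by
    ext v
    simp only [Finset.mem_Ioc, Finset.mem_Icc]
    omega
  rw [h1]
  exact h

theorem sum_inv_ge (x : ℝ) (hx : 0 ≤ x) :
    Real.log x ≤ ∑ u ∈ Finset.Ioc 0 ⌊x⌋₊, ((u : ℝ))⁻¹ := by
  have h := log_le_harmonic_floor x hx
  rw [harmonic_eq_sum_Icc] at h
  push_cast at h
  have h1 : Finset.Ioc 0 ⌊x⌋₊ = Finset.Icc 1 ⌊x⌋₊ := by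
    ext v
    simp only [Finset.mem_Ioc, Finset.mem_Icc]
    omega
  rw [h1]
  exact h

theorem p_SD1 : T_SD1 := by
  refine ⟨1, fun α x hx => ?_⟩
  have hx0 : 0 ≤ x := by linarith
  rw [se_dd]
  calc ‖∑ u ∈ Finset.Ioc 0 ⌊x⌋₊, ∑ v ∈ Finset.Ioc 0 (⌊x⌋₊ / u),
        (exp (2 * Real.pi * I * ((u : ℂ) * α))) ^ v‖
      ≤ ∑ u ∈ Finset.Ioc 0 ⌊x⌋₊, ‖∑ v ∈ Finset.Ioc 0 (⌊x⌋₊ / u),
        (exp (2 * Real.pi * I * ((u : ℂ) * α))) ^ v‖ := norm_sum_le _ _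
    _ ≤ ∑ u ∈ Finset.Ioc 0 ⌊x⌋₊, x * ((u : ℝ))⁻¹ := by
        refine Finset.sum_le_sum fun u hu => ?_
        refine (inner_le α u _).trans ?_
        refine (Nat.cast_div_le).trans ?_
        rw [div_eq_mul_inv]
        exact mul_le_mul_of_nonneg_right (Nat.floor_le hx0) (by positivity)
    _ = x * ∑ u ∈ Finset.Ioc 0 ⌊x⌋₊, ((u : ℝ))⁻¹ := by rw [Finset.mul_sum]
    _ ≤ x * (1 + Real.log x) := mul_le_mul_of_nonneg_left (sum_inv_le x hx) hx0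
    _ = 1 * x * (1 + Real.log x) := by ring

/-- at a rational point the value depends on `d ∣ u` -/
theorem e_eq_one (r : ℚ) (u : ℕ) :
    exp (2 * Real.pi * I * ((u : ℂ) * ((r : ℝ) : ℂ))) = 1 ↔ r.den ∣ u := by
  rw [Complex.exp_eq_one_iff]
  have hd : ((r.den : ℕ) : ℂ) ≠ 0 := by exact_mod_cast r.den_nz
  have hr : (((r : ℝ)) : ℂ) = (r.num : ℂ) / (r.den : ℂ) := by
    rw [Complex.ofReal_ratCast]
    exact_mod_cast (Rat.cast_def (K := ℂ) r)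
  have hpi : (2 * Real.pi * I : ℂ) ≠ 0 := by
    simp [Real.pi_ne_zero, Complex.I_ne_zero]
  constructor
  · rintro ⟨n, hn⟩
    rw [mul_comm (n : ℂ)] at hn
    have h := mul_left_cancel₀ hpi hn
    rw [hr, mul_div_assoc', div_eq_iff hd] at h
    have h2 : (u : ℤ) * r.num = n * r.den := by exact_mod_cast h
    have h3 : (r.den : ℤ) ∣ (u : ℤ) * r.num := ⟨n, by rw [h2]; ring⟩
    have h4 : IsCoprime (r.den : ℤ) r.num := by
      have := r.reduced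
      rw [Int.isCoprime_iff_gcd_eq_one, Int.gcd_comm]
      simpa [Int.gcd, Nat.Coprime] using this
    exact Int.natCast_dvd_natCast.mp (h4.dvd_of_dvd_mul_right h3)
  · rintro ⟨k, rfl⟩
    refine ⟨k * r.num, ?_⟩
    rw [hr]
    push_cast
    field_simp

/-- the value depends on `u mod d` only -/
theorem e_mod (r : ℚ) (u : ℕ) :
    exp (2 * Real.pi * I * ((u : ℂ) * ((r : ℝ) : ℂ))) =
      exp (2 * Real.pi * I * (((u % r.den : ℕ) : ℂ) * ((r : ℝ) : ℂ))) := by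
  have h := (e_eq_one r (r.den * (u / r.den))).mpr (dvd_mul_right _ _)
  have h2 : (u : ℂ) = ((u % r.den : ℕ) : ℂ) + ((r.den * (u / r.den) : ℕ) : ℂ) := by
    exact_mod_cast (Nat.mod_add_div u r.den).symm
  rw [h2, add_mul, mul_add, Complex.exp_add, h, mul_one]

/-- bound for the inner sums with `d ∤ u` -/
theorem inner_bound (r : ℚ) : ∃ C : ℝ, 0 ≤ C ∧ ∀ u M : ℕ, ¬ r.den ∣ u →
    ‖∑ v ∈ Finset.Ioc 0 M, (exp (2 * Real.pi * I * ((u : ℂ) * ((r : ℝ) : ℂ)))) ^ v‖ ≤ C := by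
  refine ⟨∑ j ∈ Finset.range r.den,
    2 / ‖1 - exp (2 * Real.pi * I * ((j : ℂ) * ((r : ℝ) : ℂ)))‖,
    Finset.sum_nonneg fun j _ => by positivity, fun u M hu => ?_⟩
  have h1 : exp (2 * Real.pi * I * ((u : ℂ) * ((r : ℝ) : ℂ))) ≠ 1 :=
    fun h => hu ((e_eq_one r u).mp h)
  refine (inner_le' _ (norm_e _ _) h1 M).trans ?_
  rw [e_mod r u]
  exact Finset.single_le_sum
    (f := fun j : ℕ => 2 / ‖1 - exp (2 * Real.pi * I * ((j : ℂ) * ((r : ℝ) : ℂ)))‖)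
    (fun j _ => by positivity) (Finset.mem_range.mpr (Nat.mod_lt u r.den_pos))

/-- the main term -/
theorem main_term (d : ℕ) (hd : 0 < d) (x : ℝ) (hx : (d : ℝ) ≤ x) :
    |(∑ u ∈ Finset.Ioc 0 ⌊x⌋₊, (if d ∣ u then ((⌊x⌋₊ / u : ℕ) : ℝ) else 0)) -
      x * Real.log x / d| ≤ (2 + Real.log d) * x := by
  have hd1 : (1 : ℝ) ≤ d := by exact_mod_cast hd
  have hd0 : (0 : ℝ) < d := by linarith
  have hx0 : 0 ≤ x := by linarith
  have hx1 : 1 ≤ x := by linarith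
  have hxd : 1 ≤ x / d := by rwa [le_div_iff₀ hd0, one_mul]
  have hfl : ⌊x⌋₊ / d = ⌊x / d⌋₊ := by
    rw [Nat.floor_div_natCast]
  have e1 : (∑ u ∈ Finset.Ioc 0 ⌊x⌋₊, (if d ∣ u then ((⌊x⌋₊ / u : ℕ) : ℝ) else 0)) =
      ∑ k ∈ Finset.Ioc 0 ⌊x / d⌋₊, ((⌊x⌋₊ / (d * k) : ℕ) : ℝ) := by
    rw [← Finset.sum_filter]
    symm
    refine Finset.sum_bij (fun v _ => d * v) ?_ ?_ ?_ ?_
    · intro v hv
      rw [Finset.mem_Ioc, ← hfl] at hv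
      rw [Finset.mem_filter, Finset.mem_Ioc]
      refine ⟨⟨Nat.mul_pos hd hv.1, ?_⟩, dvd_mul_right d v⟩
      calc d * v ≤ d * (⌊x⌋₊ / d) := Nat.mul_le_mul_left d hv.2
        _ ≤ ⌊x⌋₊ := Nat.mul_div_le _ d
    · intro v _ v' _ h
      exact Nat.eq_of_mul_eq_mul_left hd h
    · intro n hn
      rw [Finset.mem_filter, Finset.mem_Ioc] at hn
      obtain ⟨⟨h0, hN⟩, v, rfl⟩ := hn
      refine ⟨v, ?_, rfl⟩
      rw [Finset.mem_Ioc, ← hfl]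
      refine ⟨?_, ?_⟩
      · rcases Nat.eq_zero_or_pos v with h' | h'
        · subst h'; simp at h0
        · exact h'
      · rw [Nat.le_div_iff_mul_le hd, mul_comm]
        exact hN
    · intro v _
      rfl
  have e2 : ∀ k ∈ Finset.Ioc 0 ⌊x / d⌋₊,
      |((⌊x⌋₊ / (d * k) : ℕ) : ℝ) - x / d * (k : ℝ)⁻¹| ≤ 1 := by
    intro k hk
    rw [Finset.mem_Ioc] at hk
    have hk0 : (0 : ℝ) < k := by exact_mod_cast hk.1
    have h1 : ⌊x⌋₊ / (d * k) = ⌊x / ((d * k : ℕ) : ℝ)⌋₊ := by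
      rw [Nat.floor_div_natCast]
    have h2 : x / ((d * k : ℕ) : ℝ) = x / d * (k : ℝ)⁻¹ := by
      push_cast
      field_simp
    have h3 : 0 ≤ x / d * (k : ℝ)⁻¹ := by positivity
    rw [h1, h2, abs_le]
    constructor
    · have := Nat.lt_floor_add_one (x / d * (k : ℝ)⁻¹)
      linarith
    · have := Nat.floor_le h3
      linarith
  have e3 : |(∑ k ∈ Finset.Ioc 0 ⌊x / d⌋₊, ((⌊x⌋₊ / (d * k) : ℕ) : ℝ)) -
      x / d * ∑ k ∈ Finset.Ioc 0 ⌊x / d⌋₊, (k : ℝ)⁻¹| ≤ x := by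
    rw [Finset.mul_sum, ← Finset.sum_sub_distrib]
    calc |∑ k ∈ Finset.Ioc 0 ⌊x / d⌋₊, (((⌊x⌋₊ / (d * k) : ℕ) : ℝ) - x / d * (k : ℝ)⁻¹)|
        ≤ ∑ k ∈ Finset.Ioc 0 ⌊x / d⌋₊, |((⌊x⌋₊ / (d * k) : ℕ) : ℝ) - x / d * (k : ℝ)⁻¹| :=
          Finset.abs_sum_le_sum_abs _ _
      _ ≤ ∑ k ∈ Finset.Ioc 0 ⌊x / d⌋₊, (1 : ℝ) := Finset.sum_le_sum e2
      _ = (⌊x / d⌋₊ : ℝ) := by simp
      _ ≤ x / d := Nat.floor_le (by linarith)
      _ ≤ x := div_le_self hx0 hd1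
  have e4 : |(∑ k ∈ Finset.Ioc 0 ⌊x / d⌋₊, (k : ℝ)⁻¹) - Real.log x| ≤ 1 + Real.log d := by
    have h1 := sum_inv_le (x / d) hxd
    have h2 := sum_inv_ge (x / d) (by linarith)
    rw [Real.log_div (by linarith) hd0.ne'] at h1 h2
    have h3 : 0 ≤ Real.log d := Real.log_nonneg hd1
    rw [abs_le]
    constructor <;> linarith
  rw [e1]
  have e5 : |x / d * (∑ k ∈ Finset.Ioc 0 ⌊x / d⌋₊, (k : ℝ)⁻¹) - x * Real.log x / d| ≤
      (1 + Real.log d) * x := by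
    rw [show x / d * (∑ k ∈ Finset.Ioc 0 ⌊x / d⌋₊, (k : ℝ)⁻¹) - x * Real.log x / d =
      x / d * ((∑ k ∈ Finset.Ioc 0 ⌊x / d⌋₊, (k : ℝ)⁻¹) - Real.log x) by ring, abs_mul,
      abs_of_nonneg (by positivity : 0 ≤ x / d), mul_comm]
    refine mul_le_mul e4 (div_le_self hx0 hd1) (by positivity) ?_
    have h3 : 0 ≤ Real.log d := Real.log_nonneg hd1
    linarith
  have e6 := abs_sub_le (∑ k ∈ Finset.Ioc 0 ⌊x / d⌋₊, ((⌊x⌋₊ / (d * k) : ℕ) : ℝ))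
    (x / d * ∑ k ∈ Finset.Ioc 0 ⌊x / d⌋₊, (k : ℝ)⁻¹) (x * Real.log x / d)
  linarith

theorem p_SD2 : T_SD2 := by
  intro r
  obtain ⟨C, hC0, hC⟩ := inner_bound r
  have hd1 : (1 : ℝ) ≤ r.den := by exact_mod_cast r.den_pos
  have hlogd : 0 ≤ Real.log r.den := Real.log_nonneg hd1
  -- the quantitative estimate
  have key : ∀ x : ℝ, (r.den : ℝ) ≤ x →
      ‖se dd (r : ℝ) x - ((x * Real.log x / r.den : ℝ) : ℂ)‖ ≤ (C + (2 + Real.log r.den)) * x := by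
    intro x hx
    have hx0 : 0 ≤ x := by linarith
    have e0 : ∀ u ∈ Finset.Ioc 0 ⌊x⌋₊,
        ‖(∑ v ∈ Finset.Ioc 0 (⌊x⌋₊ / u), (exp (2 * Real.pi * I * ((u : ℂ) * ((r : ℝ) : ℂ)))) ^ v) -
          (((if r.den ∣ u then ((⌊x⌋₊ / u : ℕ) : ℝ) else 0) : ℝ) : ℂ)‖ ≤ C := by
      intro u _
      by_cases hu : r.den ∣ u
      · rw [(e_eq_one r u).mpr hu, if_pos hu]
        simp [hC0]
      · rw [if_neg hu]
        simpa using hC u _ hu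
    have e1 : ‖se dd (r : ℝ) x -
        ((∑ u ∈ Finset.Ioc 0 ⌊x⌋₊, (if r.den ∣ u then ((⌊x⌋₊ / u : ℕ) : ℝ) else 0) : ℝ) : ℂ)‖ ≤
        C * x := by
      rw [se_dd, Complex.ofReal_sum, ← Finset.sum_sub_distrib]
      refine (norm_sum_le _ _).trans ?_
      refine (Finset.sum_le_sum e0).trans ?_
      rw [Finset.sum_const, Nat.card_Ioc, nsmul_eq_mul, Nat.sub_zero, mul_comm]
      exact mul_le_mul_of_nonneg_left (Nat.floor_le hx0) hC0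
    have e2 := main_term r.den r.den_pos x hx
    have e3 : ‖((∑ u ∈ Finset.Ioc 0 ⌊x⌋₊,
        (if r.den ∣ u then ((⌊x⌋₊ / u : ℕ) : ℝ) else 0) : ℝ) : ℂ) -
        ((x * Real.log x / r.den : ℝ) : ℂ)‖ ≤ (2 + Real.log r.den) * x := by
      rw [← Complex.ofReal_sub, Complex.norm_real]
      exact e2
    have e4 := norm_sub_le_norm_sub_add_norm_sub (se dd (r : ℝ) x)
      ((∑ u ∈ Finset.Ioc 0 ⌊x⌋₊, (if r.den ∣ u then ((⌊x⌋₊ / u : ℕ) : ℝ) else 0) : ℝ) : ℂ)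
      ((x * Real.log x / r.den : ℝ) : ℂ)
    linarith
  rw [tendsto_iff_norm_sub_tendsto_zero]
  have hlim : Tendsto (fun x : ℝ => (C + (2 + Real.log r.den)) / Real.log x) atTop (𝓝 0) :=
    Tendsto.div_atTop tendsto_const_nhds Real.tendsto_log_atTop
  refine squeeze_zero' (Eventually.of_forall fun x => norm_nonneg _) ?_ hlim
  filter_upwards [eventually_ge_atTop (r.den : ℝ), eventually_gt_atTop 1] with x hx hx1
  have hx0 : 0 < x := by linarith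
  have hl : 0 < Real.log x := Real.log_pos hx1
  have hxl : ((x * Real.log x : ℝ) : ℂ) ≠ 0 := by
    exact_mod_cast (mul_pos hx0 hl).ne'
  have hdc : (r.den : ℂ) ≠ 0 := by exact_mod_cast r.den_nz
  have e1 : se dd (r : ℝ) x / ((x * Real.log x : ℝ) : ℂ) - 1 / (r.den : ℂ) =
      (se dd (r : ℝ) x - ((x * Real.log x / r.den : ℝ) : ℂ)) / ((x * Real.log x : ℝ) : ℂ) := by
    rw [sub_div]
    congr 1
    rw [eq_div_iff hxl]
    push_cast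
    field_simp
  rw [e1, norm_div, Complex.norm_real, Real.norm_of_nonneg (mul_pos hx0 hl).le,
    div_le_div_iff₀ (mul_pos hx0 hl) hl]
  have h2 := mul_le_mul_of_nonneg_right (key x hx) hl.le
  calc ‖se dd (r : ℝ) x - ((x * Real.log x / r.den : ℝ) : ℂ)‖ * Real.log x
      ≤ (C + (2 + Real.log r.den)) * x * Real.log x := h2
    _ = (C + (2 + Real.log r.den)) * (x * Real.log x) := by ring

end Pool.Agent.SelTwo
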