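import Pool.Agent.SelTwo.Targets

/-!
# SD3: the divisor function twisted by an irrational additive character
-/

namespace Pool.Agent.SelTwo

open Complex Filter Topology MeasureTheory

noncomputable section

namespace SD3

/-- The double sum over the lattice points under the hyperbola. -/
lemma hyperbola (z : ℂ) (N : ℕ) :
    ∑ n ∈ Finset.Ioc 0 N, dd n * z ^ n =
      ∑ u ∈ Finset.Ioc 0 N, ∑ v ∈ Finset.Ioc 0 (N / u), z ^ (u * v) := by
  have h1 : ∑ n ∈ Finset.Ioc 0 N, dd n * z ^ n =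
      ∑ n ∈ Finset.Ioc 0 N, ∑ p ∈ (Finset.Ioc 0 N ×ˢ Finset.Ioc 0 N).filter
        (fun p => p.1 * p.2 = n), z ^ (p.1 * p.2) := by
    refine Finset.sum_congr rfl fun n hn => ?_
    have hn' := Finset.mem_Ioc.1 hn
    rw [← Nat.divisorsAntidiagonal_eq_prod_filter_of_le hn'.1.ne' hn'.2]
    have h2 : ∑ p ∈ n.divisorsAntidiagonal, z ^ (p.1 * p.2) =
        ∑ _p ∈ n.divisorsAntidiagonal, z ^ n := by
      refine Finset.sum_congr rfl fun p hp => ?_
      rw [(Nat.mem_divisorsAntidiagonal.1 hp).1]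
    rw [h2, Finset.sum_const, dd, nsmul_eq_mul]
    congr 2
    rw [← Nat.map_div_right_divisors, Finset.card_map]
  rw [h1]
  simp_rw [Finset.sum_filter]
  rw [Finset.sum_comm, Finset.sum_product]
  refine Finset.sum_congr rfl fun u hu => ?_
  have hu' := Finset.mem_Ioc.1 hu
  have h3 : ∀ v ∈ Finset.Ioc 0 N, (∑ n ∈ Finset.Ioc 0 N,
      if u * v = n then z ^ (u * v) else 0) = if v ≤ N / u then z ^ (u * v) else 0 := by
    intro v hv
    have hv' := Finset.mem_Ioc.1 hv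
    rw [Finset.sum_ite_eq]
    have h4 : u * v ∈ Finset.Ioc 0 N ↔ v ≤ N / u := by
      rw [Finset.mem_Ioc, Nat.le_div_iff_mul_le hu'.1, mul_comm v u]
      constructor
      · exact fun h => h.2
      · exact fun h => ⟨Nat.mul_pos hu'.1 hv'.1, h⟩
    simp only [h4]
  rw [Finset.sum_congr rfl h3, ← Finset.sum_filter]
  refine Finset.sum_congr ?_ fun _ _ => rfl
  ext v
  simp only [Finset.mem_filter, Finset.mem_Ioc]
  constructor
  · exact fun h => ⟨h.1.1, h.2⟩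
  · exact fun h => ⟨⟨h.1, h.2.trans (Nat.div_le_self _ _)⟩, h.2⟩

lemma inner_trivial (w : ℂ) (hw : ‖w‖ = 1) (M : ℕ) :
    ‖∑ v ∈ Finset.Ioc 0 M, w ^ v‖ ≤ M := by
  refine (norm_sum_le _ _).trans ?_
  simp [norm_pow, hw]

lemma inner_geom (w : ℂ) (hw : ‖w‖ = 1) (M : ℕ) (δ : ℝ) (hδ : 0 < δ) (h : δ ≤ ‖1 - w‖) :
    ‖∑ v ∈ Finset.Ioc 0 M, w ^ v‖ ≤ 2 / δ := by
  have h1 : (1 - w) * ∑ v ∈ Finset.Ioc 0 M, w ^ v = w - w ^ (M + 1) := by
    induction M with
    | zero => simp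
    | succ M ih =>
      rw [← Finset.insert_Ioc_right_eq_Ioc_add_one (Nat.zero_le M), Finset.sum_insert (by simp),
        mul_add, ih]
      ring
  have h2 : ‖w - w ^ (M + 1)‖ ≤ 2 := by
    refine (norm_sub_le _ _).trans ?_
    rw [norm_pow, hw]
    norm_num
  rw [le_div_iff₀ hδ]
  calc ‖∑ v ∈ Finset.Ioc 0 M, w ^ v‖ * δ ≤ ‖∑ v ∈ Finset.Ioc 0 M, w ^ v‖ * ‖1 - w‖ :=
        mul_le_mul_of_nonneg_left h (norm_nonneg _)
    _ = ‖w - w ^ (M + 1)‖ := by rw [← h1, norm_mul, mul_comm]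
    _ ≤ 2 := h2

lemma harmonic_bound (N : ℕ) (x : ℝ) (hx : 1 ≤ x) (hN : (N : ℝ) ≤ x) :
    ∑ k ∈ Finset.Ioc 0 N, (1 : ℝ) / k ≤ 1 + Real.log x := by
  rcases Nat.eq_zero_or_pos N with rfl | hpos
  · simp
    have := Real.log_nonneg hx
    linarith
  · have h1 : ∑ k ∈ Finset.Ioc 0 N, (1 : ℝ) / k = (harmonic N : ℝ) := by
      rw [harmonic_eq_sum_Icc]
      push_cast
      refine Finset.sum_congr ?_ fun k _ => by rw [one_div]
      ext k
      simp only [Finset.mem_Ioc, Finset.mem_Icc]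
      omega
    rw [h1]
    have h2 : (harmonic N : ℝ) ≤ 1 + Real.log N := harmonic_le_one_add_log N
    have h3 : Real.log N ≤ Real.log x := Real.log_le_log (by exact_mod_cast hpos) hN
    linarith

/-- The contribution of a well separated set. -/
lemma sum_sep (U : Finset ℕ) (N H : ℕ) (hH : 1 ≤ H) (hU : U ⊆ Finset.Ioc 0 N)
    (h1 : ∀ u ∈ U, H ≤ u) (h2 : ∀ u ∈ U, ∀ u' ∈ U, u < u' → H ≤ u' - u) :
    ∑ u ∈ U, (1 : ℝ) / u ≤ 1 / H * ∑ k ∈ Finset.Ioc 0 N, (1 : ℝ) / k := by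
  have hinj : Set.InjOn (fun u => u / H) (U : Set ℕ) := by
    intro u hu u' hu' h
    by_contra hne
    rcases lt_or_gt_of_ne hne with hlt | hlt
    · have := h2 u hu u' hu' hlt
      have h3 : u + H ≤ u' := by omega
      have h4 : (u + H) / H ≤ u' / H := Nat.div_le_div_right h3
      rw [Nat.add_div_right _ (by omega)] at h4
      simp only at h
      omega
    · have := h2 u' hu' u hu hlt
      have h3 : u' + H ≤ u := by omega
      have h4 : (u' + H) / H ≤ u / H := Nat.div_le_div_right h3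
      rw [Nat.add_div_right _ (by omega)] at h4
      simp only at h
      omega
  have hHr : (0 : ℝ) < H := by exact_mod_cast hH
  have h3 : ∀ u ∈ U, (1 : ℝ) / u ≤ 1 / H * (1 / ((u / H : ℕ) : ℝ)) := by
    intro u hu
    have hq : 1 ≤ u / H := (Nat.one_le_div_iff (by omega)).2 (h1 u hu)
    have hq' : (0 : ℝ) < ((u / H : ℕ) : ℝ) := by exact_mod_cast hq
    have h5 : (H : ℝ) * ((u / H : ℕ) : ℝ) ≤ u := by exact_mod_cast Nat.mul_div_le u H
    rw [one_div_mul_one_div]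
    exact one_div_le_one_div_of_le (by positivity) h5
  calc ∑ u ∈ U, (1 : ℝ) / u ≤ ∑ u ∈ U, 1 / H * (1 / ((u / H : ℕ) : ℝ)) := Finset.sum_le_sum h3
    _ = 1 / H * ∑ u ∈ U, 1 / ((u / H : ℕ) : ℝ) := by rw [Finset.mul_sum]
    _ = 1 / H * ∑ k ∈ U.image (fun u => u / H), (1 : ℝ) / k := by
        rw [Finset.sum_image hinj]
    _ ≤ 1 / H * ∑ k ∈ Finset.Ioc 0 N, (1 : ℝ) / k := by
        refine mul_le_mul_of_nonneg_left ?_ (by positivity)
        refine Finset.sum_le_sum_of_subset_of_nonneg ?_ fun k _ _ => by positivity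
        intro k hk
        obtain ⟨u, hu, rfl⟩ := Finset.mem_image.1 hk
        have h4 := Finset.mem_Ioc.1 (hU hu)
        have hq : 1 ≤ u / H := (Nat.one_le_div_iff (by omega)).2 (h1 u hu)
        exact Finset.mem_Ioc.2 ⟨hq, (Nat.div_le_self _ _).trans h4.2⟩

/-- The bound for a fixed separation `H`. -/
lemma bound (α : ℝ) (hα : Irrational α) (H : ℕ) (hH : 1 ≤ H) : ∃ δ : ℝ, 0 < δ ∧
    ∀ x : ℝ, 1 ≤ x → ‖se dd α x‖ ≤ x * (1 / H * (1 + Real.log x)) + 2 / δ * x := by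
  set z : ℂ := exp (2 * Real.pi * I * α) with hz
  have hz1 : ‖z‖ = 1 := by
    rw [hz, show (2 * Real.pi * I * α : ℂ) = ((2 * Real.pi * α : ℝ) : ℂ) * I by push_cast; ring]
    exact norm_exp_ofReal_mul_I _
  have hzn : ∀ n : ℕ, exp (2 * Real.pi * I * ((n : ℂ) * α)) = z ^ n := by
    intro n
    rw [hz, ← exp_nat_mul]
    congr 1
    ring
  have hne : ∀ h : ℕ, 1 ≤ h → 0 < ‖1 - z ^ h‖ := by
    intro h hh
    rw [norm_pos_iff, sub_ne_zero, ← hzn h]
    intro heq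
    obtain ⟨m, hm⟩ := exp_eq_one_iff.1 heq.symm
    have h1 : ((h : ℝ) * α : ℂ) = m := by
      have h2 : (2 * Real.pi * I : ℂ) ≠ 0 := two_pi_I_ne_zero
      apply mul_left_cancel₀ h2
      push_cast
      rw [hm]
      ring
    have h3 : (h : ℝ) * α = m := by exact_mod_cast h1
    have hh' : (h : ℝ) ≠ 0 := by
      have : h ≠ 0 := by omega
      exact_mod_cast this
    have h4 : α = ((m / h : ℚ) : ℝ) := by
      push_cast
      field_simp
      linarith
    exact hα ⟨_, h4.symm⟩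
  obtain ⟨δ, hδ, hδH⟩ : ∃ δ : ℝ, 0 < δ ∧ ∀ h ∈ Finset.Icc 1 H, 2 * δ < ‖1 - z ^ h‖ := by
    have hnon : (Finset.Icc 1 H).Nonempty := ⟨1, Finset.mem_Icc.2 ⟨le_rfl, hH⟩⟩
    obtain ⟨h0, hh0, hmin⟩ := Finset.exists_min_image (Finset.Icc 1 H) (fun h => ‖1 - z ^ h‖) hnon
    have hp := hne h0 (Finset.mem_Icc.1 hh0).1
    refine ⟨‖1 - z ^ h0‖ / 4, by positivity, fun h hh => ?_⟩
    have := hmin h hh
    linarith
  refine ⟨δ, hδ, fun x hx => ?_⟩
  set N := ⌊x⌋₊ with hN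
  have hNx : (N : ℝ) ≤ x := Nat.floor_le (by linarith)
  have hse : se dd α x = ∑ u ∈ Finset.Ioc 0 N, ∑ v ∈ Finset.Ioc 0 (N / u), z ^ (u * v) := by
    rw [← hyperbola]
    unfold se
    exact Finset.sum_congr rfl fun n _ => by rw [hzn n]
  have hpow : ∀ u : ℕ, ‖z ^ u‖ = 1 := fun u => by rw [norm_pow, hz1, one_pow]
  set U : Finset ℕ := (Finset.Ioc 0 N).filter (fun u => ‖1 - z ^ u‖ < δ) with hU
  have hUs : U ⊆ Finset.Ioc 0 N := Finset.filter_subset _ _
  have hsep1 : ∀ u ∈ U, H ≤ u := by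
    intro u hu
    obtain ⟨hu1, hu2⟩ := Finset.mem_filter.1 hu
    by_contra hlt
    push Not at hlt
    have := hδH u (Finset.mem_Icc.2 ⟨(Finset.mem_Ioc.1 hu1).1, hlt.le⟩)
    linarith
  have hsep2 : ∀ u ∈ U, ∀ u' ∈ U, u < u' → H ≤ u' - u := by
    intro u hu u' hu' hlt
    obtain ⟨_, hu2⟩ := Finset.mem_filter.1 hu
    obtain ⟨_, hu2'⟩ := Finset.mem_filter.1 hu'
    by_contra hlt2
    push Not at hlt2
    have h1 := hδH (u' - u) (Finset.mem_Icc.2 ⟨by omega, hlt2.le⟩)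
    have h2 : ‖1 - z ^ (u' - u)‖ ≤ ‖1 - z ^ u'‖ + ‖1 - z ^ u‖ := by
      have h3 : z ^ u * (1 - z ^ (u' - u)) = (1 - z ^ u') - (1 - z ^ u) := by
        have h4 : z ^ u' = z ^ u * z ^ (u' - u) := by
          rw [← pow_add]
          congr 1
          omega
        rw [h4]
        ring
      have h5 : ‖z ^ u * (1 - z ^ (u' - u))‖ = ‖1 - z ^ (u' - u)‖ := by
        rw [norm_mul, hpow, one_mul]
      rw [← h5, h3]
      exact norm_sub_le _ _
    linarith
  have hinner : ∀ u ∈ Finset.Ioc 0 N, ‖∑ v ∈ Finset.Ioc 0 (N / u), z ^ (u * v)‖ ≤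
      (if u ∈ U then x * (1 / (u : ℝ)) else 0) + 2 / δ := by
    intro u hu
    have hu0 := (Finset.mem_Ioc.1 hu).1
    have hu0' : (0 : ℝ) < u := by exact_mod_cast hu0
    have hrw : ∑ v ∈ Finset.Ioc 0 (N / u), z ^ (u * v) =
        ∑ v ∈ Finset.Ioc 0 (N / u), (z ^ u) ^ v :=
      Finset.sum_congr rfl fun v _ => by rw [pow_mul]
    rw [hrw]
    have hpos : 0 < 2 / δ := by positivity
    by_cases hmem : u ∈ U
    · rw [if_pos hmem]
      have h1 := inner_trivial (z ^ u) (hpow u) (N / u)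
      have h2 : ((N / u : ℕ) : ℝ) ≤ x * (1 / (u : ℝ)) := by
        rw [mul_one_div]
        exact (Nat.cast_div_le).trans (div_le_div_of_nonneg_right hNx hu0'.le)
      linarith
    · rw [if_neg hmem, zero_add]
      refine inner_geom (z ^ u) (hpow u) (N / u) δ hδ ?_
      by_contra hlt
      push Not at hlt
      exact hmem (Finset.mem_filter.2 ⟨hu, hlt⟩)
  rw [hse]
  calc ‖∑ u ∈ Finset.Ioc 0 N, ∑ v ∈ Finset.Ioc 0 (N / u), z ^ (u * v)‖
      ≤ ∑ u ∈ Finset.Ioc 0 N, ‖∑ v ∈ Finset.Ioc 0 (N / u), z ^ (u * v)‖ := norm_sum_le _ _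
    _ ≤ ∑ u ∈ Finset.Ioc 0 N, ((if u ∈ U then x * (1 / (u : ℝ)) else 0) + 2 / δ) :=
        Finset.sum_le_sum hinner
    _ = x * ∑ u ∈ U, 1 / (u : ℝ) + N * (2 / δ) := by
        rw [Finset.sum_add_distrib, ← Finset.sum_filter, Finset.filter_mem_eq_inter,
          Finset.inter_eq_right.2 hUs, ← Finset.mul_sum]
        simp
    _ ≤ x * (1 / H * (1 + Real.log x)) + 2 / δ * x := by
        have hpos : 0 < 2 / δ := by positivity
        have h1 := sum_sep U N H hH hUs hsep1 hsep2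
        have h2 := harmonic_bound N x hx hNx
        have h3 : ∑ u ∈ U, 1 / (u : ℝ) ≤ 1 / H * (1 + Real.log x) :=
          h1.trans (mul_le_mul_of_nonneg_left h2 (by positivity))
        have h4 : x * ∑ u ∈ U, 1 / (u : ℝ) ≤ x * (1 / H * (1 + Real.log x)) :=
          mul_le_mul_of_nonneg_left h3 (by linarith)
        have h5 : (N : ℝ) * (2 / δ) ≤ 2 / δ * x := by
          rw [mul_comm]
          exact mul_le_mul_of_nonneg_left hNx hpos.le
        linarith

end SD3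

open SD3

theorem p_SD3 : T_SD3 := by
  intro α hα
  rw [Metric.tendsto_nhds]
  intro ε hε
  obtain ⟨H, hH⟩ := exists_nat_gt (4 / ε)
  have hH0 : (0 : ℝ) < H := lt_trans (by positivity) hH
  have hH1 : 1 ≤ H := by
    have : 0 < H := by exact_mod_cast hH0
    omega
  obtain ⟨δ, hδ, hb⟩ := bound α hα H hH1
  have hlog : ∀ᶠ x : ℝ in atTop, max 1 (8 / (δ * ε)) < Real.log x :=
    Real.tendsto_log_atTop.eventually_gt_atTop _
  filter_upwards [hlog, eventually_ge_atTop (1 : ℝ)] with x hx hx1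
  have hl1 : 1 < Real.log x := (le_max_left _ _).trans_lt hx
  have hl2 : 8 / (δ * ε) < Real.log x := (le_max_right _ _).trans_lt hx
  have hx0 : 0 < x := by linarith
  have hxl : 0 < x * Real.log x := by positivity
  rw [dist_zero_right, norm_div, Complex.norm_real, Real.norm_of_nonneg hxl.le,
    div_lt_iff₀ hxl]
  refine (hb x hx1).trans_lt ?_
  have h1 : 1 / (H : ℝ) < ε / 4 := by
    rw [div_lt_iff₀ hH0]
    rw [div_lt_iff₀ hε] at hH
    linarith
  have h2 : 2 / δ < ε / 4 * Real.log x := by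
    rw [div_lt_iff₀ hδ]
    rw [div_lt_iff₀ (by positivity)] at hl2
    nlinarith
  have h3 : 1 / (H : ℝ) * (1 + Real.log x) ≤ ε / 4 * (2 * Real.log x) := by
    refine mul_le_mul h1.le (by linarith) (by linarith) (by positivity)
  have h4 : 1 / (H : ℝ) * (1 + Real.log x) + 2 / δ < ε * Real.log x := by
    have : 0 < ε * Real.log x := by positivity
    nlinarith
  calc x * (1 / (H : ℝ) * (1 + Real.log x)) + 2 / δ * x =
      x * (1 / (H : ℝ) * (1 + Real.log x) + 2 / δ) := by ring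
    _ < x * (ε * Real.log x) := mul_lt_mul_of_pos_left h4 hx0
    _ = ε * (x * Real.log x) := by ring

end

end Pool.Agent.SelTwo
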