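import Pool.Agent.SelTwo.Targets

/-! Job SHIFT: contour shift with bounded difference. -/

set_option autoImplicit false

namespace Pool.Agent.SelTwo

open Complex Filter Topology MeasureTheory

namespace SHIFT_

/-- the half strip estimate -/
theorem half (f : ℂ → ℂ) (B M : ℝ)
    (hd : ∀ s : ℂ, -1 / 2 ≤ s.re → s.re ≤ 3 / 2 → 1 ≤ s.im → DifferentiableAt ℂ f s)
    (hb : ∀ s : ℂ, -1 / 2 ≤ s.re → s.re ≤ 3 / 2 → 1 ≤ s.im → ‖f s‖ ≤ B * (1 + s.im) ^ (-2 : ℝ))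
    (h1 : ∀ x : ℝ, -1 / 2 ≤ x → x ≤ 3 / 2 → ‖f (vl x 1)‖ ≤ M)
    (hi1 : IntegrableOn (fun t : ℝ => f (vl (3 / 2) t)) (Set.Ioi 1))
    (hi2 : IntegrableOn (fun t : ℝ => f (vl (-1 / 2) t)) (Set.Ioi 1)) :
    ‖(∫ t in Set.Ioi (1 : ℝ), f (vl (3 / 2) t)) - ∫ t in Set.Ioi (1 : ℝ), f (vl (-1 / 2) t)‖ ≤
      2 * M := by
  have hlim : Tendsto (fun T : ℝ => ‖(∫ t in (1 : ℝ)..T, f (vl (3 / 2) t)) -
      ∫ t in (1 : ℝ)..T, f (vl (-1 / 2) t)‖) atTop
      (𝓝 ‖(∫ t in Set.Ioi (1 : ℝ), f (vl (3 / 2) t)) -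
        ∫ t in Set.Ioi (1 : ℝ), f (vl (-1 / 2) t)‖) :=
    ((intervalIntegral_tendsto_integral_Ioi 1 hi1 tendsto_id).sub
      (intervalIntegral_tendsto_integral_Ioi 1 hi2 tendsto_id)).norm
  have hlim2 : Tendsto (fun T : ℝ => 2 * M + 2 * (B * (1 + T) ^ (-2 : ℝ))) atTop
      (𝓝 (2 * M + 2 * (B * 0))) := by
    refine tendsto_const_nhds.add ((Tendsto.const_mul B ?_).const_mul 2)
    exact (tendsto_rpow_neg_atTop (by norm_num : (0 : ℝ) < 2)).comp
      (tendsto_atTop_add_const_left _ _ tendsto_id)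
  have hle := le_of_tendsto_of_tendsto hlim hlim2 (by
    filter_upwards [eventually_ge_atTop (1 : ℝ)] with T hT
    have hrect := Complex.integral_boundary_rect_eq_zero_of_differentiableOn f (vl (-1 / 2) 1)
      (vl (3 / 2) T) (by
        intro s hs
        have hs' := hs
        rw [Complex.mem_reProdIm] at hs'
        have e1 : (vl (-1 / 2) 1).re = -1 / 2 := by simp [vl]
        have e2 : (vl (3 / 2) T).re = 3 / 2 := by simp [vl]
        have e3 : (vl (-1 / 2) 1).im = 1 := by simp [vl]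
        have e4 : (vl (3 / 2) T).im = T := by simp [vl]
        rw [e1, e2, e3, e4, Set.uIcc_of_le (by norm_num), Set.uIcc_of_le hT] at hs'
        exact (hd s hs'.1.1 hs'.1.2 hs'.2.1).differentiableWithinAt)
    have e1 : (vl (-1 / 2) 1).re = -1 / 2 := by simp [vl]
    have e2 : (vl (3 / 2) T).re = 3 / 2 := by simp [vl]
    have e3 : (vl (-1 / 2) 1).im = 1 := by simp [vl]
    have e4 : (vl (3 / 2) T).im = T := by simp [vl]
    rw [e1, e2, e3, e4] at hrect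
    have c1 : (∫ x : ℝ in (-1 / 2 : ℝ)..(3 / 2), f (x + (1 : ℝ) * I)) =
        ∫ x : ℝ in (-1 / 2 : ℝ)..(3 / 2), f (vl x 1) := rfl
    have c2 : (∫ x : ℝ in (-1 / 2 : ℝ)..(3 / 2), f (x + (T : ℝ) * I)) =
        ∫ x : ℝ in (-1 / 2 : ℝ)..(3 / 2), f (vl x T) := rfl
    have c3 : (∫ y : ℝ in (1 : ℝ)..T, f (((3 / 2 : ℝ) : ℂ) + y * I)) =
        ∫ y : ℝ in (1 : ℝ)..T, f (vl (3 / 2) y) := rfl
    have c4 : (∫ y : ℝ in (1 : ℝ)..T, f (((-1 / 2 : ℝ) : ℂ) + y * I)) =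
        ∫ y : ℝ in (1 : ℝ)..T, f (vl (-1 / 2) y) := rfl
    rw [c1, c2, c3, c4] at hrect
    have hdiff : I • ((∫ y : ℝ in (1 : ℝ)..T, f (vl (3 / 2) y)) -
        ∫ y : ℝ in (1 : ℝ)..T, f (vl (-1 / 2) y)) =
        (∫ x : ℝ in (-1 / 2 : ℝ)..(3 / 2), f (vl x T)) -
          ∫ x : ℝ in (-1 / 2 : ℝ)..(3 / 2), f (vl x 1) := by
      simp only [smul_eq_mul] at hrect ⊢
      linear_combination hrect
    have hnorm : ‖(∫ y : ℝ in (1 : ℝ)..T, f (vl (3 / 2) y)) -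
        ∫ y : ℝ in (1 : ℝ)..T, f (vl (-1 / 2) y)‖ =
        ‖(∫ x : ℝ in (-1 / 2 : ℝ)..(3 / 2), f (vl x T)) -
          ∫ x : ℝ in (-1 / 2 : ℝ)..(3 / 2), f (vl x 1)‖ := by
      rw [← hdiff, norm_smul, Complex.norm_I, one_mul]
    rw [hnorm]
    have b1 : ‖∫ x : ℝ in (-1 / 2 : ℝ)..(3 / 2), f (vl x T)‖ ≤
        (B * (1 + T) ^ (-2 : ℝ)) * |3 / 2 - (-1 / 2 : ℝ)| := by
      refine intervalIntegral.norm_integral_le_of_norm_le_const fun x hx => ?_
      rw [Set.uIoc_of_le (by norm_num)] at hx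
      have := hb (vl x T) (by simp [vl]; linarith [hx.1]) (by simp [vl]; linarith [hx.2])
        (by simp [vl]; linarith)
      have e : (vl x T).im = T := by simp [vl]
      rwa [e] at this
    have b2 : ‖∫ x : ℝ in (-1 / 2 : ℝ)..(3 / 2), f (vl x 1)‖ ≤ M * |3 / 2 - (-1 / 2 : ℝ)| := by
      refine intervalIntegral.norm_integral_le_of_norm_le_const fun x hx => ?_
      rw [Set.uIoc_of_le (by norm_num)] at hx
      exact h1 x hx.1.le hx.2
    have e : |3 / 2 - (-1 / 2 : ℝ)| = 2 := by norm_num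
    rw [e] at b1 b2
    refine (norm_sub_le _ _).trans ?_
    linarith)
  linarith

theorem split (h : ℝ → ℂ) (hi : Integrable h) :
    ∫ t, h t = (∫ t in Set.Iic (-1 : ℝ), h t) + (∫ t in (-1 : ℝ)..1, h t) +
      ∫ t in Set.Ioi (1 : ℝ), h t := by
  rw [← intervalIntegral.integral_Iic_add_Ioi (b := 1) hi.integrableOn hi.integrableOn,
    ← intervalIntegral.integral_Iic_sub_Iic (a := -1) (b := 1) hi.integrableOn hi.integrableOn]
  ring

/-- bound for the power -/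
theorem norm_X {X : ℂ} {K : ℝ} (hX : X ≠ 0) (hK : 1 ≤ K) (h1 : 1 / K ≤ ‖X‖) (h2 : ‖X‖ ≤ K)
    {s : ℂ} (h3 : -1 / 2 ≤ s.re) (h4 : s.re ≤ 3 / 2) :
    ‖X ^ (-s)‖ ≤ K ^ (3 / 2 : ℝ) * Real.exp (|arg X| * |s.im|) := by
  have hXp : 0 < ‖X‖ := norm_pos_iff.2 hX
  rw [Complex.norm_cpow_of_ne_zero hX, Complex.neg_re, Complex.neg_im, div_eq_mul_inv,
    ← Real.exp_neg]
  have hp : ‖X‖ ^ (-s.re) ≤ K ^ (3 / 2 : ℝ) := by
    rcases le_total 0 s.re with h | h
    · calc ‖X‖ ^ (-s.re) ≤ (1 / K) ^ (-s.re) :=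
            Real.rpow_le_rpow_of_nonpos (by positivity) h1 (by linarith)
        _ = K ^ s.re := by
            rw [one_div, Real.inv_rpow (by positivity), Real.rpow_neg (by positivity), inv_inv]
        _ ≤ K ^ (3 / 2 : ℝ) := Real.rpow_le_rpow_of_exponent_le hK h4
    · calc ‖X‖ ^ (-s.re) ≤ K ^ (-s.re) := Real.rpow_le_rpow hXp.le h2 (by linarith)
        _ ≤ K ^ (3 / 2 : ℝ) := Real.rpow_le_rpow_of_exponent_le hK (by linarith)
  refine mul_le_mul hp ?_ (Real.exp_pos _).le (by positivity)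
  apply Real.exp_le_exp.2
  have : -(arg X * -s.im) = arg X * s.im := by ring
  rw [this, ← abs_mul]
  exact le_abs_self _

/-- bound for the Gamma function -/
theorem norm_G (h : T_GAM) {G : ℝ} (hG : ∀ σ ∈ Set.Icc (1 / 2 : ℝ) (5 / 2), Real.Gamma σ ≤ G)
    {φ : ℝ} (hφ : 0 ≤ φ) (hφ2 : φ < Real.pi / 2) {s : ℂ} (h3 : -1 / 2 ≤ s.re)
    (h4 : s.re ≤ 3 / 2) (h5 : 1 ≤ |s.im|) :
    ‖Gamma s‖ ≤ G * Real.cos φ ^ (-(5 / 2) : ℝ) * Real.exp (-φ * |s.im|) := by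
  have hs0 : s ≠ 0 := by
    rintro rfl
    simp at h5
    linarith
  have hs1 : 1 ≤ ‖s‖ := h5.trans (Complex.abs_im_le_norm s)
  have e : s + 1 = vl (s.re + 1) s.im := by
    apply Complex.ext <;> simp [vl]
  have hg := h (s.re + 1) φ s.im (by linarith) hφ hφ2
  rw [← e, Complex.Gamma_add_one s hs0, norm_mul] at hg
  have h6 : ‖Gamma s‖ ≤ ‖s‖ * ‖Gamma s‖ := le_mul_of_one_le_left (norm_nonneg _) hs1
  refine h6.trans (hg.trans ?_)
  have hc : 0 < Real.cos φ := Real.cos_pos_of_mem_Ioo ⟨by linarith [Real.pi_pos], hφ2⟩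
  have h7 : Real.cos φ ^ (-(s.re + 1)) ≤ Real.cos φ ^ (-(5 / 2) : ℝ) :=
    Real.rpow_le_rpow_of_exponent_ge hc (Real.cos_le_one _) (by linarith)
  have h8 : Real.Gamma (s.re + 1) ≤ G := hG _ ⟨by linarith, by linarith⟩
  have h9 : 0 ≤ Real.Gamma (s.re + 1) := (Real.Gamma_pos_of_pos (by linarith)).le
  have h10 : 0 ≤ G := h9.trans h8
  refine mul_le_mul_of_nonneg_right ?_ (Real.exp_pos _).le
  exact mul_le_mul h8 h7 (by positivity) h10

/-- polynomial times exponential -/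
theorem poly_exp {ε x : ℝ} (hε : 0 < ε) (hx : 0 ≤ x) :
    (1 + x) ^ 4 * Real.exp (-ε * x) ≤
      (Nat.factorial 6 * Real.exp ε / ε ^ 6) * (1 + x) ^ (-2 : ℝ) := by
  have h1 := Real.pow_div_factorial_le_exp (x := ε * (1 + x)) (by positivity) 6
  have hx1 : 0 < 1 + x := by linarith
  have h2 : (1 + x) ^ (-2 : ℝ) = ((1 + x) ^ 2)⁻¹ := by
    rw [Real.rpow_neg hx1.le, ← Real.rpow_natCast]
    norm_num
  rw [h2, ← div_eq_mul_inv, le_div_iff₀ (by positivity)]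
  have h3 : (1 + x) ^ 4 * Real.exp (-ε * x) * (1 + x) ^ 2 =
      (1 + x) ^ 6 * Real.exp (-ε * x) := by ring
  rw [h3]
  have hf : (0 : ℝ) < (Nat.factorial 6 : ℝ) := by positivity
  rw [div_le_iff₀ hf, mul_pow] at h1
  have h4 : (1 + x) ^ 6 ≤ Real.exp (ε * (1 + x)) * (Nat.factorial 6 : ℝ) / ε ^ 6 := by
    rw [le_div_iff₀ (by positivity)]
    linarith
  calc (1 + x) ^ 6 * Real.exp (-ε * x) ≤
      Real.exp (ε * (1 + x)) * (Nat.factorial 6 : ℝ) / ε ^ 6 * Real.exp (-ε * x) :=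
        mul_le_mul_of_nonneg_right h4 (Real.exp_pos _).le
    _ = (Nat.factorial 6 * (Real.exp (ε * (1 + x)) * Real.exp (-ε * x))) / ε ^ 6 := by ring
    _ = Nat.factorial 6 * Real.exp ε / ε ^ 6 := by
      rw [← Real.exp_add]
      congr 3
      ring

theorem cont_vl (σ : ℝ) : Continuous (fun t : ℝ => vl σ t) := by
  unfold vl
  fun_prop

/-- a bound on the two lines gives integrability -/
theorem integ {g : ℝ → ℂ} (hc : Continuous g) {B : ℝ}
    (hb : ∀ t : ℝ, 1 ≤ |t| → ‖g t‖ ≤ B * (1 + |t|) ^ (-2 : ℝ)) : Integrable g := by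
  obtain ⟨D, hD⟩ := isCompact_Icc.exists_bound_of_continuousOn
    (hc.continuousOn (s := Set.Icc (-1 : ℝ) 1))
  have hint : Integrable (fun t : ℝ => (max B (D * 4)) * (1 + ‖t‖) ^ (-2 : ℝ)) :=
    (integrable_one_add_norm (by simp)).const_mul _
  refine hint.mono' hc.aestronglyMeasurable (Eventually.of_forall fun t => ?_)
  rw [Real.norm_eq_abs]
  rcases le_or_gt 1 |t| with ht | ht
  · refine (hb t ht).trans ?_
    exact mul_le_mul_of_nonneg_right (le_max_left _ _) (by positivity)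
  · have h1 := hD t (by rw [Set.mem_Icc]; exact abs_le.1 ht.le)
    have hD0 : 0 ≤ D := (norm_nonneg _).trans h1
    have h2 : (4 : ℝ)⁻¹ ≤ (1 + |t|) ^ (-2 : ℝ) := by
      have h3 : (4 : ℝ)⁻¹ = (2 : ℝ) ^ (-2 : ℝ) := by
        rw [Real.rpow_neg (by norm_num)]
        norm_num
      rw [h3]
      exact Real.rpow_le_rpow_of_nonpos (by positivity) (by linarith) (by norm_num)
    calc ‖g t‖ ≤ D := h1
      _ = D * 4 * 4⁻¹ := by ring
      _ ≤ (max B (D * 4)) * (1 + |t|) ^ (-2 : ℝ) :=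
        mul_le_mul (le_max_right _ _) h2 (by norm_num)
          ((by positivity : (0 : ℝ) ≤ D * 4).trans (le_max_right _ _))

end SHIFT_

open SHIFT_ in
theorem p_SHIFT (h : T_GAM) : T_SHIFT := by
  intro F hF hpoly K hK
  obtain ⟨C₀, hC₀⟩ := hpoly
  have hC₀0 : 0 ≤ C₀ := by
    have := hC₀ (vl 0 1) (by norm_num [vl]) (by norm_num [vl]) (by norm_num [vl])
    have h2 := (norm_nonneg _).trans this
    by_contra hn
    push Not at hn
    have h3 : 0 < (1 + |(vl 0 1).im|) ^ 4 := by positivity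
    nlinarith
  have hK0 : 0 < K := by linarith
  -- bound of Gamma on `[1/2, 5/2]`
  obtain ⟨G, hG⟩ : ∃ G : ℝ, ∀ σ ∈ Set.Icc (1 / 2 : ℝ) (5 / 2), Real.Gamma σ ≤ G := by
    have hc : ContinuousOn Real.Gamma (Set.Icc (1 / 2 : ℝ) (5 / 2)) := by
      intro σ hσ
      refine (Real.differentiableAt_Gamma fun m => ?_).continuousAt.continuousWithinAt
      have : (0 : ℝ) ≤ m := Nat.cast_nonneg m
      linarith [hσ.1]
    obtain ⟨G, hG⟩ := isCompact_Icc.exists_bound_of_continuousOn hc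
    exact ⟨G, fun σ hσ => (le_abs_self _).trans (hG σ hσ)⟩
  have hG0 : 0 ≤ G := (Real.Gamma_pos_of_pos (by norm_num : (0 : ℝ) < 1)).le.trans
    (hG 1 ⟨by norm_num, by norm_num⟩)
  -- differentiability
  have hGd : ∀ s : ℂ, -1 / 2 ≤ s.re → s.im ≠ 0 → DifferentiableAt ℂ Gamma s := by
    intro s _ hs
    refine Complex.differentiableAt_Gamma s fun m hm => hs ?_
    rw [hm]; simp
  have hGl : ∀ σ : ℝ, (σ = 3 / 2 ∨ σ = -1 / 2) → ∀ t : ℝ, DifferentiableAt ℂ Gamma (vl σ t) := by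
    intro σ hσ t
    refine Complex.differentiableAt_Gamma _ fun m hm => ?_
    have h1 := congrArg Complex.re hm
    simp [vl] at h1
    rcases hσ with rfl | rfl
    · have : (0 : ℝ) ≤ m := Nat.cast_nonneg m
      linarith
    · have h2 : (m : ℝ) * 2 = 1 := by linarith
      have h3 : m * 2 = 1 := by exact_mod_cast h2
      omega
  have hFl : ∀ σ : ℝ, (σ = 3 / 2 ∨ σ = -1 / 2) → ∀ t : ℝ, DifferentiableAt ℂ F (vl σ t) := by
    intro σ hσ t
    refine hF _ fun hm => ?_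
    have h1 := congrArg Complex.re hm
    simp [vl] at h1
    rcases hσ with rfl | rfl <;> norm_num at h1
  -- middle bounds
  have hmid : ∀ σ : ℝ, (σ = 3 / 2 ∨ σ = -1 / 2) → ∃ D : ℝ, ∀ t ∈ Set.Icc (-1 : ℝ) 1,
      ‖Gamma (vl σ t) * F (vl σ t)‖ ≤ D := by
    intro σ hσ
    refine isCompact_Icc.exists_bound_of_continuousOn ?_
    intro t _
    have h1 : ContinuousAt (fun t : ℝ => Gamma (vl σ t)) t :=
      ContinuousAt.comp (g := Gamma) (hGl σ hσ t).continuousAt (cont_vl σ).continuousAt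
    have h2 : ContinuousAt (fun t : ℝ => F (vl σ t)) t :=
      ContinuousAt.comp (g := F) (hFl σ hσ t).continuousAt (cont_vl σ).continuousAt
    exact (h1.mul h2).continuousWithinAt
  obtain ⟨D1, hD1⟩ := hmid (3 / 2) (Or.inl rfl)
  obtain ⟨D2, hD2⟩ := hmid (-1 / 2) (Or.inr rfl)
  set KX : ℝ := K ^ (3 / 2 : ℝ) * Real.exp (Real.pi / 2) with hKX
  have hKX0 : 0 ≤ KX := by positivity
  set M : ℝ := G * KX * (C₀ * 16) with hM
  refine ⟨2 * M + 2 * M + 2 * (D1 * KX) + 2 * (D2 * KX), ?_⟩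
  intro X hX hX1 hX2
  have hX0 : X ≠ 0 := by rintro rfl; simp at hX
  have harg : |arg X| < Real.pi / 2 := Complex.abs_arg_lt_pi_div_two_iff.2 (Or.inl hX)
  set f : ℂ → ℂ := fun s => Gamma s * X ^ (-s) * F s with hf
  -- the angle
  obtain ⟨φ, hφ1, hφ2⟩ := exists_between harg
  have hφ0 : 0 ≤ φ := (abs_nonneg _).trans hφ1.le
  have hε : 0 < φ - |arg X| := by linarith
  set ε : ℝ := φ - |arg X| with hεdef
  have hcos : 0 < Real.cos φ := Real.cos_pos_of_mem_Ioo ⟨by linarith [Real.pi_pos], hφ2⟩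
  set B : ℝ := G * Real.cos φ ^ (-(5 / 2) : ℝ) * K ^ (3 / 2 : ℝ) * C₀ *
    (Nat.factorial 6 * Real.exp ε / ε ^ 6) with hBdef
  have hB0 : 0 ≤ B := by positivity
  have hbound : ∀ s : ℂ, -1 / 2 ≤ s.re → s.re ≤ 3 / 2 → 1 ≤ |s.im| →
      ‖f s‖ ≤ B * (1 + |s.im|) ^ (-2 : ℝ) := by
    intro s h3 h4 h5
    have g1 := norm_G h hG hφ0 hφ2 h3 h4 h5
    have g2 := norm_X hX0 hK hX1 hX2 h3 h4
    have g3 := hC₀ s h3 h4 h5
    have g4 := poly_exp hε (abs_nonneg s.im)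
    calc ‖f s‖ = ‖Gamma s‖ * ‖X ^ (-s)‖ * ‖F s‖ := by
          simp only [hf]; rw [norm_mul, norm_mul]
      _ ≤ (G * Real.cos φ ^ (-(5 / 2) : ℝ) * Real.exp (-φ * |s.im|)) *
          (K ^ (3 / 2 : ℝ) * Real.exp (|arg X| * |s.im|)) * (C₀ * (1 + |s.im|) ^ 4) := by
          refine mul_le_mul (mul_le_mul g1 g2 (norm_nonneg _) (by positivity)) g3
            (norm_nonneg _) (by positivity)
      _ = (G * Real.cos φ ^ (-(5 / 2) : ℝ) * K ^ (3 / 2 : ℝ) * C₀) *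
          ((1 + |s.im|) ^ 4 * (Real.exp (-φ * |s.im|) * Real.exp (|arg X| * |s.im|))) := by ring
      _ = (G * Real.cos φ ^ (-(5 / 2) : ℝ) * K ^ (3 / 2 : ℝ) * C₀) *
          ((1 + |s.im|) ^ 4 * Real.exp (-ε * |s.im|)) := by
          rw [← Real.exp_add]
          congr 3
          rw [hεdef]; ring
      _ ≤ (G * Real.cos φ ^ (-(5 / 2) : ℝ) * K ^ (3 / 2 : ℝ) * C₀) *
          ((Nat.factorial 6 * Real.exp ε / ε ^ 6) * (1 + |s.im|) ^ (-2 : ℝ)) :=
          mul_le_mul_of_nonneg_left g4 (by positivity)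
      _ = B * (1 + |s.im|) ^ (-2 : ℝ) := by rw [hBdef]; ring
  have hfd : ∀ s : ℂ, -1 / 2 ≤ s.re → 1 ≤ |s.im| → DifferentiableAt ℂ f s := by
    intro s h3 h5
    have him : s.im ≠ 0 := by
      intro h0
      rw [h0, abs_zero] at h5
      linarith
    have hs1 : s ≠ 1 := by
      rintro rfl
      simp at him
    have hp : DifferentiableAt ℂ (fun s : ℂ => X ^ (-s)) s := by
      have : DifferentiableAt ℂ (fun s : ℂ => -s) s := differentiableAt_id.neg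
      exact this.const_cpow (Or.inl hX0)
    exact ((hGd s h3 him).mul hp).mul (hF s hs1)
  have hcont : ∀ σ : ℝ, (σ = 3 / 2 ∨ σ = -1 / 2) → Continuous (fun t : ℝ => f (vl σ t)) := by
    intro σ hσ
    refine continuous_iff_continuousAt.2 fun t => ?_
    have hp : DifferentiableAt ℂ (fun s : ℂ => X ^ (-s)) (vl σ t) := by
      have : DifferentiableAt ℂ (fun s : ℂ => -s) (vl σ t) := differentiableAt_id.neg
      exact this.const_cpow (Or.inl hX0)
    have hfa : DifferentiableAt ℂ f (vl σ t) := ((hGl σ hσ t).mul hp).mul (hFl σ hσ t)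
    exact ContinuousAt.comp (g := f) hfa.continuousAt (cont_vl σ).continuousAt
  have hre : ∀ σ t : ℝ, (vl σ t).re = σ := fun σ t => by simp [vl]
  have him : ∀ σ t : ℝ, (vl σ t).im = t := fun σ t => by simp [vl]
  have hint : ∀ σ : ℝ, (σ = 3 / 2 ∨ σ = -1 / 2) → Integrable (fun t : ℝ => f (vl σ t)) := by
    intro σ hσ
    refine integ (hcont σ hσ) (B := B) fun t ht => ?_
    have := hbound (vl σ t) (by rw [hre]; rcases hσ with rfl | rfl <;> norm_num)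
      (by rw [hre]; rcases hσ with rfl | rfl <;> norm_num) (by rw [him]; exact ht)
    rwa [him] at this
  have hi1 := hint (3 / 2) (Or.inl rfl)
  have hi2 := hint (-1 / 2) (Or.inr rfl)
  refine ⟨hi1, hi2, ?_⟩
  change ‖(∫ t : ℝ, f (vl (3 / 2) t)) - ∫ t : ℝ, f (vl (-1 / 2) t)‖ ≤ _
  -- bound at height one
  have hheight : ∀ s : ℂ, -1 / 2 ≤ s.re → s.re ≤ 3 / 2 → |s.im| = 1 → ‖f s‖ ≤ M := by
    intro s h3 h4 h5
    have g1 := norm_G h hG le_rfl (by positivity) h3 h4 h5.ge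
    have g2 := norm_X hX0 hK hX1 hX2 h3 h4
    have g3 := hC₀ s h3 h4 h5.ge
    rw [Real.cos_zero, Real.one_rpow, mul_one, neg_zero, zero_mul, Real.exp_zero, mul_one] at g1
    rw [h5, mul_one] at g2
    rw [h5] at g3
    have g4 : Real.exp |arg X| ≤ Real.exp (Real.pi / 2) := Real.exp_le_exp.2 harg.le
    have g5 : ‖X ^ (-s)‖ ≤ KX := g2.trans (mul_le_mul_of_nonneg_left g4 (by positivity))
    have g6 : ‖F s‖ ≤ C₀ * 16 := g3.trans (by norm_num)
    calc ‖f s‖ = ‖Gamma s‖ * ‖X ^ (-s)‖ * ‖F s‖ := by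
          simp only [hf]; rw [norm_mul, norm_mul]
      _ ≤ G * KX * (C₀ * 16) :=
        mul_le_mul (mul_le_mul g1 g5 (norm_nonneg _) hG0) g6 (norm_nonneg _) (by positivity)
  -- upper half
  have hup := half f B M (fun s h3 h4 h5 => hfd s h3 (h5.trans (le_abs_self _)))
    (fun s h3 h4 h5 => by
      have := hbound s h3 h4 (h5.trans (le_abs_self _))
      rwa [abs_of_nonneg (by linarith : 0 ≤ s.im)] at this)
    (fun x h3 h4 => hheight _ (by rw [hre]; exact h3) (by rw [hre]; exact h4)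
      (by rw [him]; norm_num)) hi1.integrableOn hi2.integrableOn
  -- lower half
  have hv1 : ∀ t : ℝ, 1 - vl (3 / 2) t = vl (-1 / 2) (-t) := by
    intro t
    apply Complex.ext <;> simp [vl]
    norm_num
  have hv2 : ∀ t : ℝ, 1 - vl (-1 / 2) t = vl (3 / 2) (-t) := by
    intro t
    apply Complex.ext <;> simp [vl]
    norm_num
  have hdown := half (fun s => f (1 - s)) B M
    (fun s h3 h4 h5 => by
      have h6 : DifferentiableAt ℂ f (1 - s) := hfd (1 - s) (by simp; linarith)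
        (by simp; exact h5.trans (le_abs_self _))
      exact h6.comp s (by fun_prop))
    (fun s h3 h4 h5 => by
      have := hbound (1 - s) (by simp; linarith) (by simp; linarith)
        (by simp; exact h5.trans (le_abs_self _))
      have e : |(1 - s).im| = s.im := by
        simp only [Complex.sub_im, Complex.one_im, zero_sub, abs_neg]
        exact abs_of_nonneg (by linarith)
      rwa [e] at this)
    (fun x h3 h4 => hheight _ (by simp [vl]; linarith) (by simp [vl]; linarith)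
      (by simp [vl]))
    (by
      have : (fun t : ℝ => f (1 - vl (3 / 2) t)) = fun t : ℝ => f (vl (-1 / 2) (-t)) := by
        funext t; rw [hv1]
      change IntegrableOn (fun t : ℝ => f (1 - vl (3 / 2) t)) _
      rw [this]
      exact (hi2.comp_neg).integrableOn)
    (by
      have : (fun t : ℝ => f (1 - vl (-1 / 2) t)) = fun t : ℝ => f (vl (3 / 2) (-t)) := by
        funext t; rw [hv2]
      change IntegrableOn (fun t : ℝ => f (1 - vl (-1 / 2) t)) _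
      rw [this]
      exact (hi1.comp_neg).integrableOn)
  have ed1 : (∫ t in Set.Ioi (1 : ℝ), f (1 - vl (3 / 2) t)) =
      ∫ t in Set.Iic (-1 : ℝ), f (vl (-1 / 2) t) := by
    have := integral_comp_neg_Ioi 1 (fun t : ℝ => f (vl (-1 / 2) t))
    rw [← this]
    refine setIntegral_congr_fun measurableSet_Ioi fun t _ => ?_
    simp only [hv1]
  have ed2 : (∫ t in Set.Ioi (1 : ℝ), f (1 - vl (-1 / 2) t)) =
      ∫ t in Set.Iic (-1 : ℝ), f (vl (3 / 2) t) := by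
    have := integral_comp_neg_Ioi 1 (fun t : ℝ => f (vl (3 / 2) t))
    rw [← this]
    refine setIntegral_congr_fun measurableSet_Ioi fun t _ => ?_
    simp only [hv2]
  rw [ed1, ed2, norm_sub_rev] at hdown
  -- middle
  have hmidb : ∀ σ : ℝ, (σ = 3 / 2 ∨ σ = -1 / 2) → ∀ D : ℝ,
      (∀ t ∈ Set.Icc (-1 : ℝ) 1, ‖Gamma (vl σ t) * F (vl σ t)‖ ≤ D) →
      ‖∫ t in (-1 : ℝ)..1, f (vl σ t)‖ ≤ 2 * (D * KX) := by
    intro σ hσ D hD
    have h1 : ‖∫ t in (-1 : ℝ)..1, f (vl σ t)‖ ≤ (D * KX) * |1 - (-1 : ℝ)| := by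
      refine intervalIntegral.norm_integral_le_of_norm_le_const fun t ht => ?_
      rw [Set.uIoc_of_le (by norm_num)] at ht
      have g1 := hD t ⟨ht.1.le, ht.2⟩
      have g2 := norm_X hX0 hK hX1 hX2 (s := vl σ t)
        (by rw [hre]; rcases hσ with rfl | rfl <;> norm_num)
        (by rw [hre]; rcases hσ with rfl | rfl <;> norm_num)
      rw [him] at g2
      have g3 : |arg X| * |t| ≤ Real.pi / 2 := by
        have : |t| ≤ 1 := abs_le.2 ⟨ht.1.le, ht.2⟩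
        calc |arg X| * |t| ≤ |arg X| * 1 := mul_le_mul_of_nonneg_left this (abs_nonneg _)
          _ ≤ Real.pi / 2 := by linarith
      have g4 : ‖X ^ (-vl σ t)‖ ≤ KX := g2.trans
        (mul_le_mul_of_nonneg_left (Real.exp_le_exp.2 g3) (by positivity))
      calc ‖f (vl σ t)‖ = ‖Gamma (vl σ t) * F (vl σ t)‖ * ‖X ^ (-vl σ t)‖ := by
            simp only [hf]; rw [norm_mul, norm_mul, norm_mul]; ring
        _ ≤ D * KX := mul_le_mul g1 g4 (norm_nonneg _) ((norm_nonneg _).trans g1)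
    have e : |1 - (-1 : ℝ)| = 2 := by norm_num
    rw [e] at h1
    linarith
  have m1 := hmidb (3 / 2) (Or.inl rfl) D1 hD1
  have m2 := hmidb (-1 / 2) (Or.inr rfl) D2 hD2
  rw [split _ hi1, split _ hi2]
  have e : ((∫ t in Set.Iic (-1 : ℝ), f (vl (3 / 2) t)) + (∫ t in (-1 : ℝ)..1, f (vl (3 / 2) t)) +
      ∫ t in Set.Ioi (1 : ℝ), f (vl (3 / 2) t)) -
      ((∫ t in Set.Iic (-1 : ℝ), f (vl (-1 / 2) t)) + (∫ t in (-1 : ℝ)..1, f (vl (-1 / 2) t)) +
      ∫ t in Set.Ioi (1 : ℝ), f (vl (-1 / 2) t)) =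
      ((∫ t in Set.Iic (-1 : ℝ), f (vl (3 / 2) t)) - ∫ t in Set.Iic (-1 : ℝ), f (vl (-1 / 2) t)) +
      ((∫ t in Set.Ioi (1 : ℝ), f (vl (3 / 2) t)) - ∫ t in Set.Ioi (1 : ℝ), f (vl (-1 / 2) t)) +
      (∫ t in (-1 : ℝ)..1, f (vl (3 / 2) t)) - ∫ t in (-1 : ℝ)..1, f (vl (-1 / 2) t) := by ring
  rw [e]
  refine (norm_sub_le _ _).trans ?_
  have s1 := norm_add_le
    (((∫ t in Set.Iic (-1 : ℝ), f (vl (3 / 2) t)) - ∫ t in Set.Iic (-1 : ℝ), f (vl (-1 / 2) t)) +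
      ((∫ t in Set.Ioi (1 : ℝ), f (vl (3 / 2) t)) - ∫ t in Set.Ioi (1 : ℝ), f (vl (-1 / 2) t)))
    (∫ t in (-1 : ℝ)..1, f (vl (3 / 2) t))
  have s2 := norm_add_le
    ((∫ t in Set.Iic (-1 : ℝ), f (vl (3 / 2) t)) - ∫ t in Set.Iic (-1 : ℝ), f (vl (-1 / 2) t))
    ((∫ t in Set.Ioi (1 : ℝ), f (vl (3 / 2) t)) - ∫ t in Set.Ioi (1 : ℝ), f (vl (-1 / 2) t))
  linarith

end Pool.Agent.SelTwo
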