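import Pool.Agent.SelTwo.Targets

/-!
# STEP: the arithmetic step
-/

namespace Pool.Agent.SelTwo

open Complex Filter Topology MeasureTheory

noncomputable section

namespace Step

theorem gcd_pow_diff {p k : ℕ} (hp : p.Prime) (hk : 1 ≤ k) (m : ℕ) :
    ((Nat.gcd m (p ^ k) : ℕ) : ℂ) - ((Nat.gcd m (p ^ (k - 1)) : ℕ) : ℂ) =
      if p ^ k ∣ m then (p : ℂ) ^ k - (p : ℂ) ^ (k - 1) else 0 := by
  split_ifs with h
  · have h1 : Nat.gcd m (p ^ k) = p ^ k := Nat.gcd_eq_right h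
    have h2 : Nat.gcd m (p ^ (k - 1)) = p ^ (k - 1) :=
      Nat.gcd_eq_right (dvd_trans (pow_dvd_pow p (Nat.sub_le k 1)) h)
    rw [h1, h2]
    push_cast
    rfl
  · have h3 : Nat.gcd m (p ^ k) = Nat.gcd m (p ^ (k - 1)) := by
      apply Nat.dvd_antisymm
      · obtain ⟨j, hj, hje⟩ := (Nat.dvd_prime_pow hp).1 (Nat.gcd_dvd_right m (p ^ k))
        have hjk : j ≠ k := by
          rintro rfl
          exact h (hje ▸ Nat.gcd_dvd_left m (p ^ j))
        apply Nat.dvd_gcd (Nat.gcd_dvd_left _ _)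
        rw [hje]
        exact pow_dvd_pow p (by omega)
      · exact Nat.gcd_dvd_gcd_of_dvd_right m (pow_dvd_pow p (Nat.sub_le k 1))
    rw [h3, sub_self]

theorem summable_gcd {g : ℕ → ℂ} (hs : Summable (fun n : ℕ => ‖g n‖ / n)) {N : ℕ} (hN : 0 < N) :
    Summable (fun m : ℕ => g m * (Nat.gcd m N : ℂ) / m) := by
  apply Summable.of_norm_bounded (g := fun m : ℕ => (N : ℝ) * (‖g m‖ / m)) (hs.mul_left _)
  intro m
  rw [norm_div, norm_mul, Complex.norm_natCast, Complex.norm_natCast]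
  have h1 : ((Nat.gcd m N : ℕ) : ℝ) ≤ N := by
    exact_mod_cast Nat.gcd_le_right m hN
  calc ‖g m‖ * (Nat.gcd m N : ℝ) / m ≤ ‖g m‖ * N / m := by
        gcongr
    _ = (N : ℝ) * (‖g m‖ / m) := by ring

end Step

theorem p_STEP : T_STEP := by
  intro g q B hq hs hne hrel
  -- the point `α = 1`
  have h1 := hrel 1 one_pos
  have hR1 : RR g 1 = ∑' m : ℕ, g m / m := by
    have := RR_rat g 1
    rw [Rat.cast_one] at this
    rw [this, RQ]
    simp
  have hne2 : RR (cj g) (-1 / (q * 1)) ≠ 0 := by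
    intro h0
    rw [h0, mul_zero, hR1] at h1
    exact hne h1
  have hrat : ¬ Irrational (-1 / (q * 1)) := fun h => hne2 (RR_irr _ h)
  obtain ⟨r, hr⟩ : ∃ r : ℚ, (r : ℝ) = -1 / (q * 1) := by
    by_contra hcon
    exact hrat (fun ⟨r, hr⟩ => hcon ⟨r, hr⟩)
  have hr' : (r : ℝ) = -1 / q := by rw [hr, mul_one]
  refine ⟨r.den, r.den_pos, ?_⟩
  -- the relation at `1 / N`
  have key : ∀ N : ℕ, 0 < N → Nat.Coprime N r.den →
      ∑' m : ℕ, g m * (Nat.gcd m N : ℂ) / m =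
        B * (1 / (r.den : ℂ) * ∑' m : ℕ, cj g m * (Nat.gcd m r.den : ℂ) / m) := by
    intro N hN hcop
    have hN' : (N : ℝ) ≠ 0 := by exact_mod_cast hN.ne'
    have hNC : (N : ℂ) ≠ 0 := by exact_mod_cast hN.ne'
    have h2 := hrel (1 / (N : ℝ)) (by positivity)
    have e1 : (1 / (N : ℝ)) = (((N : ℚ)⁻¹ : ℚ) : ℝ) := by push_cast; rw [one_div]
    have e2 : -1 / (q * (1 / (N : ℝ))) = (((N : ℚ) * r : ℚ) : ℝ) := by
      push_cast
      rw [hr']
      field_simp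
    have d1 : ((N : ℚ)⁻¹).den = N := by
      rw [Rat.inv_natCast_den, if_neg hN.ne']
    have d2 : ((N : ℚ) * r).den = r.den := by
      have hc : Nat.Coprime ((N : ℤ) * r.num).natAbs r.den := by
        rw [Int.natAbs_mul, Int.natAbs_natCast]
        exact Nat.Coprime.mul_left hcop r.reduced
      rw [Rat.mul_den, Rat.den_natCast, Rat.num_natCast, one_mul, Nat.Coprime.gcd_eq_one hc,
        Nat.div_one]
    rw [e2, RR_rat, RQ, d2] at h2
    have h3 : RR g (1 / (N : ℝ)) = 1 / (N : ℂ) * ∑' m : ℕ, g m * (Nat.gcd m N : ℂ) / m := by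
      rw [e1, RR_rat, RQ, d1]
    rw [h3] at h2
    push_cast at h2
    have h4 : (1 / (N : ℂ)) * ∑' m : ℕ, g m * (Nat.gcd m N : ℂ) / m = (1 / (N : ℂ)) *
        (B * (1 / (r.den : ℂ) * ∑' m : ℕ, cj g m * (Nat.gcd m r.den : ℂ) / m)) := by
      rw [h2]; ring
    exact mul_left_cancel₀ (one_div_ne_zero hNC) h4
  intro p hp hpq k hk
  have hcop : ∀ j : ℕ, Nat.Coprime (p ^ j) r.den := fun j =>
    Nat.Coprime.pow_left j ((Nat.Prime.coprime_iff_not_dvd hp).2 hpq)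
  have hpos : ∀ j : ℕ, 0 < p ^ j := fun j => pow_pos hp.pos j
  have hE := (key (p ^ k) (hpos k) (hcop k)).trans (key (p ^ (k - 1)) (hpos _) (hcop _)).symm
  have hsub := (Step.summable_gcd hs (hpos k)).tsum_sub (Step.summable_gcd hs (hpos (k - 1)))
  rw [hE, sub_self] at hsub
  have hc : ((p : ℂ) ^ k - (p : ℂ) ^ (k - 1)) ≠ 0 := by
    rw [sub_ne_zero]
    intro h
    have h5 : p ^ k = p ^ (k - 1) := by exact_mod_cast h
    have := Nat.pow_right_injective hp.two_le h5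
    omega
  have hfin : ((p : ℂ) ^ k - (p : ℂ) ^ (k - 1)) *
      ∑' m : ℕ, (if p ^ k ∣ m then g m / m else 0) = 0 := by
    rw [← tsum_mul_left]
    refine Eq.trans (tsum_congr fun m => ?_) hsub
    have h6 := Step.gcd_pow_diff hp hk m
    rw [← sub_div, ← mul_sub, h6]
    split_ifs
    · ring
    · simp
  exact (mul_eq_zero.1 hfin).resolve_left hc

end

end Pool.Agent.SelTwo
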