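import Pool.Agent.SelTwo.Targets

/-!
# ZB: `ζ(s)^2 = exp(∑ b2(n) n^(-s))`
-/

namespace Pool.Agent.SelTwo

open Complex Filter Topology LSeries

theorem ZB_bound (n : ℕ) : 0 ≤ ArithmeticFunction.vonMangoldt n / Real.log n ∧
    ArithmeticFunction.vonMangoldt n / Real.log n ≤ 1 := by
  have h1 : 0 ≤ ArithmeticFunction.vonMangoldt n := ArithmeticFunction.vonMangoldt_nonneg
  have h2 : 0 ≤ Real.log n := Real.log_natCast_nonneg n
  exact ⟨div_nonneg h1 h2, div_le_one_of_le₀ ArithmeticFunction.vonMangoldt_le_log h2⟩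

theorem ZB_b2 (n : ℕ) : b2 n = (2 : ℂ) * ((ArithmeticFunction.vonMangoldt n : ℂ) / (Real.log n : ℂ)) := by
  simp only [b2]
  push_cast
  ring

theorem p_ZB : T_ZB := by
  refine ⟨?_, ?_, ?_, ?_⟩
  · intro n hn
    rw [ZB_b2, ArithmeticFunction.vonMangoldt_eq_zero_iff.2 hn]
    simp
  · intro n
    have h := ZB_bound n
    rw [ZB_b2, ← Complex.ofReal_div, norm_mul, Complex.norm_real, Real.norm_of_nonneg h.1]
    have h3 : ‖(2 : ℂ)‖ = 2 := by simp
    rw [h3]; linarith [h.2]
  · intro p k hp hk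
    have hlog : Real.log p ≠ 0 := (Real.log_pos (by exact_mod_cast hp.one_lt)).ne'
    have hk0 : (k : ℂ) ≠ 0 := by exact_mod_cast (by omega : k ≠ 0)
    rw [ZB_b2, ArithmeticFunction.vonMangoldt_apply_pow (by omega),
      ArithmeticFunction.vonMangoldt_apply_prime hp]
    have e1 : Real.log ((p ^ k : ℕ) : ℝ) = k * Real.log p := by
      rw [Nat.cast_pow, Real.log_pow]
    rw [e1, Complex.ofReal_mul]
    have hl : (Real.log p : ℂ) ≠ 0 := Complex.ofReal_ne_zero.2 hlog
    rw [Complex.ofReal_natCast]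
    field_simp
  · intro s hs
    have hfun : b2 = (2 : ℂ) • fun n : ℕ => (ArithmeticFunction.vonMangoldt n : ℂ) / (Real.log n : ℂ) := by
      funext n
      rw [ZB_b2, Pi.smul_apply, smul_eq_mul]
    constructor
    · refine LSeriesSummable_of_bounded_of_one_lt_re (m := 2) (fun n _ => ?_) hs
      have h := ZB_bound n
      rw [ZB_b2, ← Complex.ofReal_div, norm_mul, Complex.norm_real, Real.norm_of_nonneg h.1]
      have h3 : ‖(2 : ℂ)‖ = 2 := by simp
      rw [h3]; linarith [h.2]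
    · rw [hfun, LSeries_smul, ← riemannZeta_eq_exp_LSeries hs, ← Complex.exp_nat_mul]
      congr 1

end Pool.Agent.SelTwo
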