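import Pool.Agent.SelTwo.AP
import Pool.Agent.SelTwo.DIV
import Pool.Agent.SelTwo.ERR
import Pool.Agent.SelTwo.EXPD
import Pool.Agent.SelTwo.FACT
import Pool.Agent.SelTwo.FE
import Pool.Agent.SelTwo.FIN
import Pool.Agent.SelTwo.G1
import Pool.Agent.SelTwo.GAM
import Pool.Agent.SelTwo.INV
import Pool.Agent.SelTwo.KER
import Pool.Agent.SelTwo.LAM
import Pool.Agent.SelTwo.LAN2
import Pool.Agent.SelTwo.LIM
import Pool.Agent.SelTwo.MAIN
import Pool.Agent.SelTwo.MELX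
import Pool.Agent.SelTwo.NEAR
import Pool.Agent.SelTwo.PHASE
import Pool.Agent.SelTwo.PL
import Pool.Agent.SelTwo.PS
import Pool.Agent.SelTwo.RAT
import Pool.Agent.SelTwo.SA
import Pool.Agent.SelTwo.SD12
import Pool.Agent.SelTwo.SD3
import Pool.Agent.SelTwo.SHIFT
import Pool.Agent.SelTwo.STEP
import Pool.Agent.SelTwo.STIR
import Pool.Agent.SelTwo.ZB

/-! Functions of degree 2 in the Selberg class with a double pole. -/

namespace Pool.Agent.SelTwo

open Complex Filter Topology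
open Pool.Agent.SelPole

theorem t_core : T_CORE := by
  have hG1 := p_G1 p_STIR
  have hGAM := p_GAM p_MELX
  exact p_CORE (p_REL (p_LAM (p_INV p_MELX hGAM)) (p_RAT hG1) (p_KER hG1) p_FE p_PL
    (p_SHIFT hGAM) p_ERR) (p_SA p_SD1 p_SD2 p_SD3) (p_LIM p_PS p_NEAR) p_EXPD (p_FACT p_EXPD)
    p_STEP p_ZB (p_PHASE hG1) p_FIN p_DIV

/-- A pole of order exactly two. -/
theorem tendsto_of_order {F : ℂ → ℂ}
    (h : meromorphicOrderAt F 1 = ((-2 : ℤ) : WithTop ℤ)) :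
    ∃ c : ℂ, c ≠ 0 ∧ Tendsto (fun s => (s - 1) ^ 2 * F s) (𝓝[≠] 1) (𝓝 c) := by
  have hm : MeromorphicAt F 1 := by
    by_contra hcon
    rw [meromorphicOrderAt_of_not_meromorphicAt hcon] at h
    exact absurd h (by decide)
  obtain ⟨g, hg, hg0, hev⟩ := (meromorphicOrderAt_eq_int_iff hm).1 h
  refine ⟨g 1, hg0, ?_⟩
  have h1 : Tendsto g (𝓝[≠] 1) (𝓝 (g 1)) := hg.continuousAt.tendsto.mono_left nhdsWithin_le_nhds
  refine h1.congr' ?_
  filter_upwards [hev, self_mem_nhdsWithin] with z hz hz1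
  have hz1' : z - 1 ≠ 0 := sub_ne_zero.2 hz1
  rw [hz, smul_eq_mul]
  field_simp

theorem degree_two {F : ℂ → ℂ} {a b : ℕ → ℂ} (hF : IsSelberg F a b) (hdeg : DegreeTwo F)
    (hpole : meromorphicOrderAt F 1 = ((-2 : ℤ) : WithTop ℤ)) (ha : OneSided a) :
    ∀ s : ℂ, s ≠ 1 → F s = riemannZeta s ^ 2 :=
  t_core F a b hF hdeg (tendsto_of_order hpole)
    (p_LAN2 p_ZB (p_AP p_EXPD) F a b hF (tendsto_of_order hpole) ha)

end Pool.Agent.SelTwo
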