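import Pool.Agent.SelTwo.FINAL

/-! Instances of the hypothesis `OneSided`. -/

namespace Pool.Agent.SelTwo

open Complex Filter Topology
open Pool.Agent.SelPole

/-- `|a(p)| ≤ 2` outside a thin set -/
theorem oneSided_of_norm_le {a : ℕ → ℂ} {E : Set ℕ} (hE : Thin E)
    (h : ∀ p : ℕ, p.Prime → p ∉ E → ‖a p‖ ≤ 2) : OneSided a := by
  refine ⟨E, 1, hE, Or.inl rfl, fun p hp hpE => ?_, fun ε hε => ⟨4, fun p hp hpE => ?_⟩⟩
  · have h1 := (abs_le.1 (abs_re_le_norm (a p))).2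
    have h2 := h p hp hpE
    push_cast
    linarith
  · have h1 := (abs_le.1 (abs_re_le_norm (a p))).2
    have h2 := h p hp hpE
    have h3 : ‖a p - 2‖ ^ 2 = ‖a p‖ ^ 2 - 4 * (a p).re + 4 := by
      rw [← Complex.normSq_eq_norm_sq, ← Complex.normSq_eq_norm_sq, Complex.normSq_apply,
        Complex.normSq_apply]
      simp only [sub_re, sub_im, Complex.re_ofNat, Complex.im_ofNat]
      ring
    have h4 : ‖a p‖ ^ 2 ≤ 4 := by nlinarith [norm_nonneg (a p)]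
    have h5 : (1 : ℝ) ≤ (p : ℝ) ^ ε := Real.one_le_rpow (by exact_mod_cast hp.one_lt.le) hε.le
    have h6 : 0 ≤ 2 - (a p).re := by linarith
    have h7 : ‖a p - 2‖ ^ 2 ≤ 4 * (2 - (a p).re) := by rw [h3]; linarith
    push_cast
    calc ‖a p - 2‖ ^ 2 ≤ 4 * (2 - (a p).re) := h7
      _ ≤ 4 * (p : ℝ) ^ ε * (1 * (2 - (a p).re)) := by nlinarith

/-- `2 - a(p)` in a sector `|Im z| ≤ K κ Re z`, `κ = 1` or `κ = -1`, outside a thin set; for
instance `a(p)` real and always `≤ 2`, or always `≥ 2` -/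
theorem oneSided_of_sector {a : ℕ → ℂ} {E : Set ℕ} (hE : Thin E)
    (ha : ∀ ε : ℝ, 0 < ε → ∃ C : ℝ, ∀ n : ℕ, 1 ≤ n → ‖a n‖ ≤ C * (n : ℝ) ^ ε)
    {κ : ℤ} (hκ : κ = 1 ∨ κ = -1) {K : ℝ}
    (h : ∀ p : ℕ, p.Prime → p ∉ E → 0 ≤ κ * (2 - (a p).re) ∧
      |(a p).im| ≤ K * (κ * (2 - (a p).re))) : OneSided a := by
  refine ⟨E, κ, hE, hκ, fun p hp hpE => (h p hp hpE).1, fun ε hε => ?_⟩
  obtain ⟨C, hC⟩ := ha ε hε
  refine ⟨(|C| + 2) * (1 + |K|), fun p hp hpE => ?_⟩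
  obtain ⟨h0, h1⟩ := h p hp hpE
  have hκ1 : |(κ : ℝ)| = 1 := by rcases hκ with h | h <;> rw [h] <;> norm_num
  have h5 : (1 : ℝ) ≤ (p : ℝ) ^ ε := Real.one_le_rpow (by exact_mod_cast hp.one_lt.le) hε.le
  have h2 : ‖a p - 2‖ ≤ (|C| + 2) * (p : ℝ) ^ ε := by
    have h3 := hC p hp.one_lt.le
    have h4 : ‖a p - 2‖ ≤ ‖a p‖ + 2 := by
      have := norm_sub_le (a p) 2
      simpa using this
    have h6 : C * (p : ℝ) ^ ε ≤ |C| * (p : ℝ) ^ ε :=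
      mul_le_mul_of_nonneg_right (le_abs_self _) (by positivity)
    nlinarith
  have h3 : ‖a p - 2‖ ≤ (1 + |K|) * (κ * (2 - (a p).re)) := by
    have h4 := Complex.norm_le_abs_re_add_abs_im (a p - 2)
    simp only [sub_re, sub_im, Complex.re_ofNat, Complex.im_ofNat, sub_zero] at h4
    have h6 : |(a p).re - 2| = κ * (2 - (a p).re) := by
      rw [← abs_of_nonneg h0, abs_mul, hκ1, one_mul, abs_sub_comm]
    have h7 : K * (κ * (2 - (a p).re)) ≤ |K| * (κ * (2 - (a p).re)) :=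
      mul_le_mul_of_nonneg_right (le_abs_self _) h0
    rw [h6] at h4
    linarith
  calc ‖a p - 2‖ ^ 2 = ‖a p - 2‖ * ‖a p - 2‖ := sq _
    _ ≤ ((|C| + 2) * (p : ℝ) ^ ε) * ((1 + |K|) * (κ * (2 - (a p).re))) :=
        mul_le_mul h2 h3 (norm_nonneg _) (by positivity)
    _ = _ := by ring

end Pool.Agent.SelTwo
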