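import Pool.Agent.SelTwo.Targets

/-!
# MELX: the Mellin transform of `exp (-X t)` for complex `X`
-/

namespace Pool.Agent.SelTwo

open Complex Filter Topology MeasureTheory

theorem melx_norm (s X : ℂ) {t : ℝ} (ht : 0 < t) :
    ‖(t : ℂ) ^ (s - 1) * exp (-(X * t))‖ = t ^ (s.re - 1) * Real.exp (-(X.re * t)) := by
  rw [norm_mul, norm_cpow_eq_rpow_re_of_pos ht, Complex.norm_exp]
  simp

theorem melx_int_real (a r : ℝ) (ha : 0 < a) (hr : 0 < r) :
    IntegrableOn (fun t : ℝ => t ^ (a - 1) * Real.exp (-(r * t))) (Set.Ioi 0) := by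
  have h := integrableOn_rpow_mul_exp_neg_mul_rpow (p := 1) (s := a - 1) (b := r)
    (by linarith) (by norm_num) hr
  refine h.congr_fun ?_ measurableSet_Ioi
  intro t _
  simp

theorem melx_contOn (s X : ℂ) :
    ContinuousOn (fun t : ℝ => (t : ℂ) ^ (s - 1) * exp (-(X * t))) (Set.Ioi 0) := by
  intro t ht
  have ht' : (0 : ℝ) < t := ht
  refine ContinuousAt.continuousWithinAt ?_
  refine ContinuousAt.mul ?_ (by fun_prop)
  exact continuousAt_ofReal_cpow_const t (s - 1) (Or.inr ht'.ne')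

theorem melx_aesm (s X : ℂ) :
    AEStronglyMeasurable (fun t : ℝ => (t : ℂ) ^ (s - 1) * exp (-(X * t)))
      (volume.restrict (Set.Ioi 0)) :=
  (melx_contOn s X).aestronglyMeasurable measurableSet_Ioi

theorem melx_int (s X : ℂ) (hs : 0 < s.re) (hX : 0 < X.re) :
    IntegrableOn (fun t : ℝ => (t : ℂ) ^ (s - 1) * exp (-(X * t))) (Set.Ioi 0) := by
  refine Integrable.mono' (melx_int_real s.re X.re hs hX) (melx_aesm s X) ?_
  refine (ae_restrict_mem measurableSet_Ioi).mono fun t ht => ?_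
  rw [melx_norm s X ht]

theorem melx_deriv (s X₀ : ℂ) (hs : 0 < s.re) (hX : 0 < X₀.re) :
    DifferentiableAt ℂ
      (fun X : ℂ => ∫ t in Set.Ioi (0 : ℝ), (t : ℂ) ^ (s - 1) * exp (-(X * t))) X₀ := by
  have hpos : 0 < X₀.re / 2 := by linarith
  have key := hasDerivAt_integral_of_dominated_loc_of_deriv_le
    (μ := volume.restrict (Set.Ioi (0 : ℝ)))
    (F := fun (X : ℂ) (t : ℝ) => (t : ℂ) ^ (s - 1) * exp (-(X * t)))
    (F' := fun (X : ℂ) (t : ℝ) => (t : ℂ) ^ (s - 1) * (exp (-(X * t)) * (-(t : ℂ))))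
    (x₀ := X₀) (s := Metric.ball X₀ (X₀.re / 2))
    (bound := fun t : ℝ => t ^ ((s.re + 1) - 1) * Real.exp (-(X₀.re / 2 * t)))
    (Metric.ball_mem_nhds X₀ hpos)
    (Eventually.of_forall fun X => melx_aesm s X)
    (melx_int s X₀ hs hX) ?_ ?_ (melx_int_real (s.re + 1) (X₀.re / 2) (by linarith) hpos) ?_
  · exact key.2.differentiableAt
  · have h := (melx_aesm s X₀).mul
      (f := fun t : ℝ => (t : ℂ) ^ (s - 1) * exp (-(X₀ * t))) (g := fun t : ℝ => -(t : ℂ))
      (Continuous.aestronglyMeasurable (by fun_prop))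
    refine h.congr (Eventually.of_forall fun t => ?_)
    simp only [Pi.mul_apply]
    ring
  · refine (ae_restrict_mem measurableSet_Ioi).mono fun t ht X hXb => ?_
    have ht' : (0 : ℝ) < t := ht
    have hre : X₀.re / 2 ≤ X.re := by
      have h1 : |(X - X₀).re| ≤ ‖X - X₀‖ := abs_re_le_norm _
      have h2 : ‖X - X₀‖ < X₀.re / 2 := by
        rw [← dist_eq_norm]; exact Metric.mem_ball.1 hXb
      rw [sub_re] at h1
      have h3 := (abs_le.1 h1).1
      linarith
    rw [← mul_assoc, norm_mul, melx_norm s X ht', norm_neg, Complex.norm_real, Real.norm_eq_abs,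
      abs_of_pos ht']
    have e1 : t ^ ((s.re + 1) - 1) = t ^ (s.re - 1) * t := by
      rw [← Real.rpow_add_one ht'.ne']
      ring_nf
    rw [e1]
    have e2 : Real.exp (-(X.re * t)) ≤ Real.exp (-(X₀.re / 2 * t)) :=
      Real.exp_le_exp.2 (by nlinarith)
    have e3 : 0 ≤ t ^ (s.re - 1) := Real.rpow_nonneg ht'.le _
    calc t ^ (s.re - 1) * Real.exp (-(X.re * t)) * t
        = t ^ (s.re - 1) * t * Real.exp (-(X.re * t)) := by ring
      _ ≤ t ^ (s.re - 1) * t * Real.exp (-(X₀.re / 2 * t)) :=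
        mul_le_mul_of_nonneg_left e2 (mul_nonneg e3 ht'.le)
  · refine Eventually.of_forall fun t X _ => ?_
    have h0 : HasDerivAt (fun X : ℂ => X * (-(t : ℂ))) (1 * (-(t : ℂ))) X :=
      (hasDerivAt_id X).mul_const (-(t : ℂ))
    have h1 : HasDerivAt (fun X : ℂ => -(X * (t : ℂ))) (-(t : ℂ)) X := by
      have e : (fun X : ℂ => -(X * (t : ℂ))) = fun X : ℂ => X * (-(t : ℂ)) := by
        funext Y; ring
      rw [e]
      rw [one_mul] at h0
      exact h0
    exact (h1.cexp).const_mul _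

theorem melx_real (s : ℂ) (hs : 0 < s.re) {r : ℝ} (hr : 0 < r) :
    ∫ t in Set.Ioi (0 : ℝ), (t : ℂ) ^ (s - 1) * exp (-((r : ℂ) * t)) =
      (r : ℂ) ^ (-s) * Gamma s := by
  rw [integral_cpow_mul_exp_neg_mul_Ioi hs hr, one_div, inv_cpow, cpow_neg]
  rw [arg_ofReal_of_nonneg hr.le]
  exact Real.pi_pos.ne

theorem p_MELX : T_MELX := by
  intro s X hs hX
  refine ⟨melx_int s X hs hX, ?_⟩
  have hU : IsOpen {X : ℂ | 0 < X.re} := isOpen_lt continuous_const continuous_re
  have hf : AnalyticOnNhd ℂ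
      (fun X : ℂ => ∫ t in Set.Ioi (0 : ℝ), (t : ℂ) ^ (s - 1) * exp (-(X * t)))
      {X : ℂ | 0 < X.re} :=
    DifferentiableOn.analyticOnNhd
      (fun Y hY => (melx_deriv s Y hs hY).differentiableWithinAt) hU
  have hg : AnalyticOnNhd ℂ (fun X : ℂ => X ^ (-s) * Gamma s) {X : ℂ | 0 < X.re} := by
    refine DifferentiableOn.analyticOnNhd (fun Y hY => ?_) hU
    refine DifferentiableAt.differentiableWithinAt ?_
    refine DifferentiableAt.mul_const ?_ _
    exact differentiableAt_id.cpow (differentiableAt_const _) (Or.inl hY)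
  have hpc : IsPreconnected {X : ℂ | 0 < X.re} :=
    (convex_halfSpace_re_gt 0).isPreconnected
  have hfreq : ∃ᶠ z in 𝓝[≠] (1 : ℂ),
      (fun X : ℂ => ∫ t in Set.Ioi (0 : ℝ), (t : ℂ) ^ (s - 1) * exp (-(X * t))) z =
        (fun X : ℂ => X ^ (-s) * Gamma s) z := by
    have ht : Tendsto (fun x : ℝ => (x : ℂ)) (𝓝[≠] (1 : ℝ)) (𝓝[≠] (1 : ℂ)) := by
      refine tendsto_nhdsWithin_iff.2 ⟨?_, ?_⟩
      · have h := (continuous_ofReal.tendsto (1 : ℝ)).mono_left
          (nhdsWithin_le_nhds (s := {(1 : ℝ)}ᶜ))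
        simpa using h
      · filter_upwards [self_mem_nhdsWithin] with x hx
        intro h
        apply hx
        have h' : (x : ℂ) = 1 := h
        have h'' : x = 1 := by exact_mod_cast h'
        exact h''
    refine ht.frequently (Eventually.frequently ?_)
    have h1 : ∀ᶠ x in 𝓝[≠] (1 : ℝ), 0 < x :=
      nhdsWithin_le_nhds (lt_mem_nhds (by norm_num))
    filter_upwards [h1] with x hx
    exact melx_real s hs hx
  have h1U : (1 : ℂ) ∈ {X : ℂ | 0 < X.re} := by simp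
  exact hf.eqOn_of_preconnected_of_frequently_eq hg hpc h1U hfreq hX

end Pool.Agent.SelTwo
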